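import Mathlib
set_option autoImplicit false

/-! The abstract strand calculus: crossings `σ i`, cups `c i`, caps `k i` acting on a partial
order. The standard elements absorb every crossing. -/

namespace H665R2.LV

structure Calc {X : Type*} [PartialOrder X] (σ c k : ℕ → X → X) : Prop where
  ms : ∀ i, Monotone (σ i)
  mc : ∀ i, Monotone (c i)
  mk' : ∀ i, Monotone (k i)
  far : ∀ i j x, i + 2 ≤ j → σ i (σ j x) = σ j (σ i x)
  sc : ∀ j x, σ (j + 2) (c 0 x) = c 0 (σ j x)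
  ks : ∀ j x, k 0 (σ (j + 2) x) = σ j (k 0 x)
  r1 : ∀ x, σ 0 (c 0 x) = c 0 x
  r2 : ∀ i x, σ i (σ i x) = σ i x
  r3 : ∀ i x, σ i (σ (i + 1) (σ i x)) = σ (i + 1) (σ i (σ (i + 1) x))
  s1 : ∀ x, σ 1 (c 0 x) = σ 0 (c 1 x)
  s1' : ∀ x, σ 2 (c 1 x) = σ 1 (c 2 x)
  s2 : ∀ i x, k i (σ (i + 1) x) = k (i + 1) (σ i x)
  z : ∀ x, k 1 (c 0 x) = x
  cc : ∀ x, c 0 (c 0 x) = c 2 (c 0 x)
  loop : ∀ x, k 0 (c 0 x) ≤ x
  e : ∀ i x, c i (k i x) ≤ σ i x

/-- crossings `1, ..., n` applied one after the other -/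
def arow {X : Type*} (σ : ℕ → X → X) : ℕ → X → X
  | 0, x => x
  | n + 1, x => σ (n + 1) (arow σ n x)

/-- the standard elements -/
def aTheta {X : Type*} (σ c : ℕ → X → X) (x0 : X) : ℕ → X
  | 0 => x0
  | n + 1 => arow σ n (c 0 (aTheta σ c x0 n))

def arow2 {X : Type*} (σ : ℕ → X → X) : ℕ → X → X
  | 0, x => x
  | n + 1, x => σ (n + 3) (arow2 σ n x)

def arow0 {X : Type*} (σ : ℕ → X → X) : ℕ → X → X
  | 0, x => x
  | n + 1, x => σ n (arow0 σ n x)

def aQ {X : Type*} (σ : ℕ → X → X) : ℕ → X → X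
  | 0, x => σ 1 x
  | n + 1, x => σ (n + 2) (σ (n + 3) (aQ σ n x))

namespace Calc

variable {X : Type*} [PartialOrder X] {σ c k : ℕ → X → X} (H : Calc σ c k)
include H

theorem row_far (n i : ℕ) (h : n + 2 ≤ i) (x : X) : σ i (arow σ n x) = arow σ n (σ i x) := by
  induction n with
  | zero => rfl
  | succ n ih =>
    change σ i (σ (n + 1) (arow σ n x)) = σ (n + 1) (arow σ n (σ i x))
    rw [← H.far (n + 1) i _ (by omega), ih (by omega)]

theorem row_shift (n i : ℕ) (h1 : 1 ≤ i) (h2 : i + 1 ≤ n) (x : X) :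
    σ i (arow σ n x) = arow σ n (σ (i + 1) x) := by
  induction n with
  | zero => omega
  | succ n ih =>
    rcases Nat.lt_or_ge (i + 1) (n + 1) with h | h
    · change σ i (σ (n + 1) (arow σ n x)) = σ (n + 1) (arow σ n (σ (i + 1) x))
      rw [H.far i (n + 1) _ (by omega), ih (by omega)]
    · obtain ⟨m, rfl⟩ : ∃ m, n = m + 1 := ⟨n - 1, by omega⟩
      have hi : i = m + 1 := by omega
      subst hi
      change σ (m + 1) (σ (m + 1 + 1) (σ (m + 1) (arow σ m x))) =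
        σ (m + 1 + 1) (σ (m + 1) (arow σ m (σ (m + 1 + 1) x)))
      rw [H.r3, H.row_far m (m + 1 + 1) (by omega)]

theorem row_zero (n : ℕ) (x : X) :
    σ 0 (arow σ (n + 1) (c 0 x)) = arow σ (n + 1) (c 0 x) := by
  induction n with
  | zero =>
    change σ 0 (σ 1 (c 0 x)) = σ 1 (c 0 x)
    rw [H.s1, H.r2]
  | succ n ih =>
    change σ 0 (σ (n + 2) (arow σ (n + 1) (c 0 x))) = σ (n + 2) (arow σ (n + 1) (c 0 x))
    rw [H.far 0 (n + 2) _ (by omega), ih]

theorem c_row (n : ℕ) (x : X) : c 0 (arow σ n x) = arow2 σ n (c 0 x) := by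
  induction n with
  | zero => rfl
  | succ n ih =>
    change c 0 (σ (n + 1) (arow σ n x)) = σ (n + 3) (arow2 σ n (c 0 x))
    rw [← ih, ← H.sc (n + 1)]

theorem row_row2 (n : ℕ) (x : X) : arow σ (n + 1) (arow2 σ n x) = aQ σ n x := by
  induction n with
  | zero => rfl
  | succ n ih =>
    change σ (n + 2) (arow σ (n + 1) (σ (n + 3) (arow2 σ n x))) =
      σ (n + 2) (σ (n + 3) (aQ σ n x))
    rw [← H.row_far (n + 1) (n + 3) (by omega), ih]

theorem Q_abs (n : ℕ) (x : X) : σ (n + 2) (aQ σ n (c 0 (c 0 x))) = aQ σ n (c 0 (c 0 x)) := by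
  induction n with
  | zero =>
    change σ 2 (σ 1 (c 0 (c 0 x))) = σ 1 (c 0 (c 0 x))
    rw [H.cc, ← H.s1', H.r2]
  | succ n ih =>
    change σ (n + 3) (σ (n + 2) (σ (n + 3) (aQ σ n (c 0 (c 0 x))))) =
      σ (n + 2) (σ (n + 3) (aQ σ n (c 0 (c 0 x))))
    rw [← H.r3 (n + 2), ih]

theorem absorb (x0 : X) (n : ℕ) : ∀ i, i + 2 ≤ 2 * n →
    σ i (aTheta σ c x0 n) = aTheta σ c x0 n := by
  induction n with
  | zero => intro i h; omega
  | succ n ih =>
    intro i h
    change σ i (arow σ n (c 0 (aTheta σ c x0 n))) = arow σ n (c 0 (aTheta σ c x0 n))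
    rcases Nat.eq_zero_or_pos n with h0 | h0
    · subst h0
      have : i = 0 := by omega
      subst this
      exact H.r1 _
    obtain ⟨m, rfl⟩ : ∃ m, n = m + 1 := ⟨n - 1, by omega⟩
    rcases Nat.lt_or_ge i 1 with h1 | h1
    · have : i = 0 := by omega
      subst this
      exact H.row_zero m _
    rcases Nat.lt_or_ge i (m + 1) with h2 | h2
    · rw [H.row_shift (m + 1) i h1 (by omega)]
      have h3 := H.sc (i - 1) (aTheta σ c x0 (m + 1))
      rw [show i - 1 + 2 = i + 1 by omega] at h3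
      rw [h3, ih (i - 1) (by omega)]
    rcases Nat.lt_or_ge i (m + 2) with h3 | h3
    · have : i = m + 1 := by omega
      subst this
      change σ (m + 1) (σ (m + 1) (arow σ m _)) = σ (m + 1) (arow σ m _)
      rw [H.r2]
    rcases Nat.lt_or_ge i (m + 3) with h4 | h4
    · have : i = m + 2 := by omega
      subst this
      change σ (m + 2) (arow σ (m + 1) (c 0 (arow σ m (c 0 (aTheta σ c x0 m))))) =
        arow σ (m + 1) (c 0 (arow σ m (c 0 (aTheta σ c x0 m))))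
      rw [H.c_row, H.row_row2, H.Q_abs]
    · rw [H.row_far (m + 1) i (by omega)]
      have h5 := H.sc (i - 2) (aTheta σ c x0 (m + 1))
      rw [show i - 2 + 2 = i by omega] at h5
      rw [h5, ih (i - 2) (by omega)]

theorem k_row (n : ℕ) (x : X) : k 0 (arow σ (n + 1) x) = arow0 σ n (k 0 (σ 1 x)) := by
  induction n with
  | zero => rfl
  | succ n ih =>
    change k 0 (σ (n + 2) (arow σ (n + 1) x)) = σ n (arow0 σ n (k 0 (σ 1 x)))
    rw [H.ks n, ih]

theorem k_zero (x0 : X) (n : ℕ) : k 0 (aTheta σ c x0 (n + 2)) = aTheta σ c x0 (n + 1) := by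
  change k 0 (arow σ (n + 1) (c 0 (aTheta σ c x0 (n + 1)))) = _
  have h0 : k 0 (σ 1 (c 0 (aTheta σ c x0 (n + 1)))) = aTheta σ c x0 (n + 1) := by
    rw [H.s2 0, H.r1]
    exact H.z _
  rw [H.k_row, h0]
  have : ∀ m, m ≤ n → arow0 σ m (aTheta σ c x0 (n + 1)) = aTheta σ c x0 (n + 1) := by
    intro m
    induction m with
    | zero => intro _; rfl
    | succ m ih =>
      intro hm
      change σ m (arow0 σ m _) = _
      rw [ih (by omega), H.absorb x0 (n + 1) m (by omega)]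
  exact this n le_rfl

theorem k_all (x0 : X) (n i : ℕ) (h : i + 2 ≤ 2 * n) :
    k i (aTheta σ c x0 n) = k 0 (aTheta σ c x0 n) := by
  induction i with
  | zero => rfl
  | succ i ih =>
    rw [← ih (by omega)]
    have h1 := H.s2 i (aTheta σ c x0 n)
    rw [H.absorb x0 n (i + 1) h, H.absorb x0 n i (by omega)] at h1
    exact h1.symm

/-- caps -/
theorem cap_le (x0 : X) (n i : ℕ) (h : i ≤ 2 * n) :
    k i (aTheta σ c x0 (n + 1)) ≤ aTheta σ c x0 n := by
  rw [H.k_all x0 (n + 1) i (by omega)]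
  rcases Nat.eq_zero_or_pos n with h0 | h0
  · subst h0
    exact H.loop _
  · obtain ⟨m, rfl⟩ : ∃ m, n = m + 1 := ⟨n - 1, by omega⟩
    rw [H.k_zero]

/-- cups -/
theorem cup_le (x0 : X) (n i : ℕ) (h : i ≤ 2 * n) :
    c i (aTheta σ c x0 n) ≤ aTheta σ c x0 (n + 1) := by
  rcases Nat.eq_zero_or_pos n with h0 | h0
  · subst h0
    have : i = 0 := by omega
    subst this
    exact le_rfl
  · obtain ⟨m, rfl⟩ : ∃ m, n = m + 1 := ⟨n - 1, by omega⟩
    have h1 : k i (aTheta σ c x0 (m + 2)) = aTheta σ c x0 (m + 1) := by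
      rw [H.k_all x0 (m + 2) i (by omega), H.k_zero]
    have h2 := H.e i (aTheta σ c x0 (m + 2))
    rw [h1, H.absorb x0 (m + 2) i (by omega)] at h2
    exact h2

end Calc

end H665R2.LV
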