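import Mathlib
set_option autoImplicit false

/-! Binary matroids represented by functionals on a subspace `W` of a finite dimensional
`ZMod 2`-space `U`, their Delta-Y reducibility, the state sum `F`. -/

namespace H665R2.LV

open Polynomial

abbrev K := ZMod 2

variable {U : Type} [AddCommGroup U] [Module (ZMod 2) U]

/-- a functional vanishes on the subspace `W` -/
def Van (W : Submodule (ZMod 2) U) (a : Module.Dual (ZMod 2) U) : Prop := ∀ x ∈ W, a x = 0

open Classical in
/-- deletion-contraction state sum -/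
noncomputable def F : Submodule (ZMod 2) U → List (Module.Dual (ZMod 2) U) → ℤ[X]
  | W, [] => X ^ Module.finrank (ZMod 2) W
  | W, a :: l => F W l + (if Van W a then X * F W l else F (W ⊓ LinearMap.ker a) l)

/-- the bilinear form of a list of functionals -/
def B (l : List (Module.Dual (ZMod 2) U)) (x y : U) : ZMod 2 := (l.map (fun a => a x * a y)).sum

/-- the radical of the form on `W` -/
def rad (W : Submodule (ZMod 2) U) (l : List (Module.Dual (ZMod 2) U)) : Submodule (ZMod 2) U where
  carrier := {x | x ∈ W ∧ ∀ y ∈ W, B l x y = 0}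
  add_mem' := by
    rintro x x' ⟨hx, h⟩ ⟨hx', h'⟩
    refine ⟨W.add_mem hx hx', fun y hy => ?_⟩
    have : B l (x + x') y = B l x y + B l x' y := by
      unfold B
      rw [← List.sum_map_add]
      congr 1
      apply List.map_congr_left
      intro a _
      simp [add_mul]
    rw [this, h y hy, h' y hy, add_zero]
  zero_mem' := ⟨W.zero_mem, fun y _ => by simp [B]⟩
  smul_mem' := by
    rintro c x ⟨hx, h⟩
    refine ⟨W.smul_mem c hx, fun y hy => ?_⟩
    have : B l (c • x) y = c * B l x y := by
      unfold B
      rw [← List.sum_map_mul_left]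
      congr 1
      apply List.map_congr_left
      intro a _
      simp [mul_assoc]
    rw [this, h y hy, mul_zero]

/-- dimension of the radical: bicycle dimension plus the dimension of the common kernel -/
noncomputable def kap (W : Submodule (ZMod 2) U) (l : List (Module.Dual (ZMod 2) U)) : ℕ :=
  Module.finrank (ZMod 2) (rad W l)

/-- the ideal `(2, X)` -/
noncomputable def I : Ideal ℤ[X] := Ideal.span {C 2, X}

/-- the good property -/
def P (W : Submodule (ZMod 2) U) (l : List (Module.Dual (ZMod 2) U)) : Prop := F W l ∈ I ^ kap W l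

/-- `e` is a private vertex: it lies in `W` and is killed by every functional of `l` -/
def Priv (W : Submodule (ZMod 2) U) (l : List (Module.Dual (ZMod 2) U))
    (t : Module.Dual (ZMod 2) U) : Prop :=
  ∃ e ∈ W, t e = 1 ∧ ∀ f ∈ l, f e = 0

/-- Delta-Y reducible binary matroids. -/
inductive DY : Submodule (ZMod 2) U → List (Module.Dual (ZMod 2) U) → Prop
  | nil (W : Submodule (ZMod 2) U) : DY W []
  | perm {W : Submodule (ZMod 2) U} {l l' : List (Module.Dual (ZMod 2) U)} (h : l.Perm l') :
      DY W l → DY W l'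
  | iso {W W' : Submodule (ZMod 2) U} {l l' : List (Module.Dual (ZMod 2) U)}
      (φ : W ≃ₗ[ZMod 2] W')
      (h : List.Forall₂ (fun f g => ∀ x : W, f x = g (φ x)) l l') :
      DY W l → DY W' l'
  | loop {W : Submodule (ZMod 2) U} {l : List (Module.Dual (ZMod 2) U)}
      {a : Module.Dual (ZMod 2) U} (h : Van W a) : DY W l → DY W (a :: l)
  | par {W : Submodule (ZMod 2) U} {l : List (Module.Dual (ZMod 2) U)}
      {a : Module.Dual (ZMod 2) U} : DY W (a :: l) → DY W (a :: a :: l)
  | free {W : Submodule (ZMod 2) U} {l : List (Module.Dual (ZMod 2) U)}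
      {t : Module.Dual (ZMod 2) U} (h : Priv W l t) :
      DY (W ⊓ LinearMap.ker t) l → DY W l
  | coloop {W : Submodule (ZMod 2) U} {l : List (Module.Dual (ZMod 2) U)}
      {t : Module.Dual (ZMod 2) U} (h : Priv W l t) :
      DY (W ⊓ LinearMap.ker t) l → DY W (t :: l)
  | series {W : Submodule (ZMod 2) U} {l : List (Module.Dual (ZMod 2) U)}
      {t a : Module.Dual (ZMod 2) U} (h : Priv W (a :: l) t) :
      DY (W ⊓ LinearMap.ker t) (a :: l) → DY W (t :: (t + a) :: l)
  | toY {W : Submodule (ZMod 2) U} {l : List (Module.Dual (ZMod 2) U)}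
      {t a b : Module.Dual (ZMod 2) U} (h : Priv W (a :: b :: l) t) :
      DY (W ⊓ LinearMap.ker t) (a :: b :: (a + b) :: l) →
      DY W (t :: (t + a) :: (t + a + b) :: l)
  | toDelta {W : Submodule (ZMod 2) U} {l : List (Module.Dual (ZMod 2) U)}
      {t a b : Module.Dual (ZMod 2) U} (h : Priv W (a :: b :: l) t) :
      DY W (t :: (t + a) :: (t + a + b) :: l) →
      DY (W ⊓ LinearMap.ker t) (a :: b :: (a + b) :: l)

/-- common zeros in `W` of the functionals of `C` -/
def Wc (W : Submodule (ZMod 2) U) (C : List (Module.Dual (ZMod 2) U)) : Submodule (ZMod 2) U where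
  carrier := {x | x ∈ W ∧ ∀ f ∈ C, f x = 0}
  add_mem' := by
    rintro x y ⟨hx, h⟩ ⟨hy, h'⟩
    exact ⟨W.add_mem hx hy, fun f hf => by rw [map_add, h f hf, h' f hf, add_zero]⟩
  zero_mem' := ⟨W.zero_mem, fun f _ => map_zero f⟩
  smul_mem' := by
    rintro c x ⟨hx, h⟩
    exact ⟨W.smul_mem c hx, fun f hf => by rw [map_smul, h f hf, smul_zero]⟩

/-- all minors are Delta-Y reducible: contract the list `C`, keep the list `R`, delete `D` -/
def Her (W : Submodule (ZMod 2) U) (l : List (Module.Dual (ZMod 2) U)) : Prop :=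
  ∀ C R D : List (Module.Dual (ZMod 2) U), l.Perm (C ++ R ++ D) → DY (Wc W C) R

end H665R2.LV
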