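import Pool.Agent.H665R2.LV.Defs
set_option autoImplicit false

/-! E1: the powers of the ideal `(2, X)`. -/

namespace H665R2.LV

open Polynomial

/-- E1: coefficients of elements of `(2,X)^n` -/
theorem mem_I_pow_iff (n : ℕ) (p : ℤ[X]) :
    p ∈ I ^ n ↔ ∀ j, (2 : ℤ) ^ (n - j) ∣ p.coeff j := by
  constructor
  · induction n generalizing p with
    | zero =>
      intro _ j
      simp
    | succ n ih =>
      intro hp
      rw [pow_succ'] at hp
      refine Submodule.mul_induction_on hp ?_ ?_
      · intro r hr s hs j
        obtain ⟨a, b, hab⟩ := Ideal.mem_span_pair.1 hr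
        have h1 := ih (a * s) (Ideal.mul_mem_left _ _ hs)
        have h2 := ih (b * s) (Ideal.mul_mem_left _ _ hs)
        have e : r * s = C 2 * (a * s) + X * (b * s) := by
          rw [← hab]
          ring
        rw [e, coeff_add, coeff_C_mul]
        refine dvd_add ?_ ?_
        · have h3 : (2 : ℤ) ^ (n + 1 - j) ∣ 2 * 2 ^ (n - j) := by
            rw [← pow_succ']
            exact pow_dvd_pow _ (by omega)
          exact h3.trans (mul_dvd_mul_left _ (h1 j))
        · cases j with
          | zero => simp
          | succ j =>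
            rw [coeff_X_mul, Nat.add_sub_add_right]
            exact h2 j
      · intro x y hx hy j
        rw [coeff_add]
        exact dvd_add (hx j) (hy j)
  · intro h
    rw [p.as_sum_range_C_mul_X_pow]
    refine Ideal.sum_mem _ fun j _ => ?_
    obtain ⟨c, hc⟩ := h j
    have h2 : (C 2 : ℤ[X]) ∈ I := Ideal.subset_span (by simp)
    have hX : (X : ℤ[X]) ∈ I := Ideal.subset_span (by simp)
    have e : C (p.coeff j) * X ^ j = C c * ((C 2) ^ (n - j) * X ^ j) := by
      rw [hc, C_mul, C_pow]
      ring
    rw [e]
    refine Ideal.mul_mem_left _ _ ?_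
    have h3 : (C 2 : ℤ[X]) ^ (n - j) * X ^ j ∈ I ^ (n - j) * I ^ j :=
      Ideal.mul_mem_mul (Ideal.pow_mem_pow h2 _) (Ideal.pow_mem_pow hX _)
    rw [← pow_add] at h3
    exact Ideal.pow_le_pow_right (by omega) h3

end H665R2.LV
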