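import Pool.Agent.H665R2.LV.Defs
set_option autoImplicit false

namespace H665R2.LV

open Polynomial Module

variable {U : Type} [AddCommGroup U] [Module (ZMod 2) U]



theorem E2_finrank_ker [FiniteDimensional (ZMod 2) U] (W : Submodule (ZMod 2) U) (a : Module.Dual (ZMod 2) U) :
    finrank (ZMod 2) (LinearMap.range (a.domRestrict W)) +
      finrank (ZMod 2) ↥(W ⊓ LinearMap.ker a) = finrank (ZMod 2) W := by
  have h1 := LinearMap.finrank_range_add_finrank_ker (a.domRestrict W)
  have h2 : LinearMap.ker (a.domRestrict W) = (W ⊓ LinearMap.ker a).comap W.subtype := by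
    ext x
    simp [LinearMap.mem_ker]
  have h3 : finrank (ZMod 2) ↥((W ⊓ LinearMap.ker a).comap W.subtype) =
      finrank (ZMod 2) ↥(W ⊓ LinearMap.ker a) :=
    LinearEquiv.finrank_eq (Submodule.comapSubtypeEquivOfLe inf_le_left)
  rw [h2, h3] at h1
  exact h1

theorem E2_le [FiniteDimensional (ZMod 2) U] (W : Submodule (ZMod 2) U) (a : Module.Dual (ZMod 2) U) :
    finrank (ZMod 2) W ≤ finrank (ZMod 2) ↥(W ⊓ LinearMap.ker a) + 1 := by
  have h := E2_finrank_ker W a
  have h1 : finrank (ZMod 2) (LinearMap.range (a.domRestrict W)) ≤ 1 := by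
    have := Submodule.finrank_le (LinearMap.range (a.domRestrict W))
    simpa using this
  omega

theorem E2_eq [FiniteDimensional (ZMod 2) U] (W : Submodule (ZMod 2) U) (a : Module.Dual (ZMod 2) U)
    (ha : ¬ Van W a) :
    finrank (ZMod 2) W = finrank (ZMod 2) ↥(W ⊓ LinearMap.ker a) + 1 := by
  have h := E2_finrank_ker W a
  have h0 : a.domRestrict W ≠ 0 := by
    intro h0
    apply ha
    intro x hx
    have := LinearMap.congr_fun h0 ⟨x, hx⟩
    simpa using this
  have h1 : LinearMap.range (a.domRestrict W) = ⊤ :=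
    LinearMap.range_eq_top.2 (LinearMap.surjective h0)
  rw [h1, finrank_top, finrank_self] at h
  omega

theorem E2_mem {ι : Type} (W : Submodule (ZMod 2) U) (v : ι → Module.Dual (ZMod 2) U) (A : Finset ι) (x : U) :
    x ∈ Wc W (A.toList.map v) ↔ x ∈ W ∧ ∀ i ∈ A, v i x = 0 := by
  change (x ∈ W ∧ ∀ f ∈ A.toList.map v, f x = 0) ↔ _
  simp

theorem E2_nil (W : Submodule (ZMod 2) U) : Wc W [] = W := by
  ext x
  change (x ∈ W ∧ ∀ f ∈ ([] : List (Module.Dual (ZMod 2) U)), f x = 0) ↔ _
  simp

theorem E2_cons (W : Submodule (ZMod 2) U) (a : Module.Dual (ZMod 2) U) (C : List (Module.Dual (ZMod 2) U)) :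
    Wc W (a :: C) = Wc (W ⊓ LinearMap.ker a) C := by
  ext x
  change (x ∈ W ∧ ∀ f ∈ a :: C, f x = 0) ↔ (x ∈ W ⊓ LinearMap.ker a ∧ ∀ f ∈ C, f x = 0)
  simp [LinearMap.mem_ker, and_assoc]

theorem E2_len [FiniteDimensional (ZMod 2) U] (C : List (Module.Dual (ZMod 2) U)) : ∀ (W : Submodule (ZMod 2) U),
    finrank (ZMod 2) W ≤ finrank (ZMod 2) (Wc W C) + C.length := by
  induction C with
  | nil => intro W; rw [E2_nil]; simp
  | cons a C ih =>
    intro W
    have h1 := ih (W ⊓ LinearMap.ker a)
    have h2 := E2_le W a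
    rw [E2_cons, List.length_cons]
    omega

theorem E2_card [FiniteDimensional (ZMod 2) U] {ι : Type} (W : Submodule (ZMod 2) U)
    (v : ι → Module.Dual (ZMod 2) U) (A : Finset ι) :
    finrank (ZMod 2) W ≤ finrank (ZMod 2) (Wc W (A.toList.map v)) + A.card := by
  have := E2_len (A.toList.map v) W
  simpa using this

theorem E2_aux [FiniteDimensional (ZMod 2) U] {ι : Type} [DecidableEq ι] (v : ι → Module.Dual (ZMod 2) U)
    (L : List ι) : ∀ (W : Submodule (ZMod 2) U), L.Nodup →
    F W (L.map v) = ∑ A ∈ L.toFinset.powerset,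
      (X : ℤ[X]) ^ (2 * finrank (ZMod 2) (Wc W (A.toList.map v)) + A.card -
        finrank (ZMod 2) W) := by
  induction L with
  | nil =>
    intro W _
    have h0 : Wc W ((∅ : Finset ι).toList.map v) = W := by
      ext x
      rw [E2_mem]
      simp
    simp only [List.map_nil, List.toFinset_nil, Finset.powerset_empty, Finset.sum_singleton,
      Finset.card_empty]
    rw [F, h0]
    congr 1
    omega
  | cons i L ih =>
    intro W hL
    rw [List.nodup_cons] at hL
    have hi : i ∉ L.toFinset := by simpa using hL.1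
    rw [List.toFinset_cons, Finset.sum_powerset_insert hi, List.map_cons, F, ← ih W hL.2]
    congr 1
    split_ifs with hv
    · rw [ih W hL.2, Finset.mul_sum]
      apply Finset.sum_congr rfl
      intro A hA
      rw [Finset.mem_powerset] at hA
      have hiA : i ∉ A := fun h => hi (hA h)
      have h1 : Wc W ((insert i A).toList.map v) = Wc W (A.toList.map v) := by
        ext x
        rw [E2_mem, E2_mem]
        simp only [Finset.forall_mem_insert]
        constructor
        · rintro ⟨h1, -, h2⟩
          exact ⟨h1, h2⟩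
        · rintro ⟨h1, h2⟩
          exact ⟨h1, hv x h1, h2⟩
      have h2 := E2_card W v A
      rw [h1, Finset.card_insert_of_notMem hiA, ← pow_succ']
      congr 1
      omega
    · rw [ih (W ⊓ LinearMap.ker (v i)) hL.2]
      apply Finset.sum_congr rfl
      intro A hA
      rw [Finset.mem_powerset] at hA
      have hiA : i ∉ A := fun h => hi (hA h)
      have h1 : Wc W ((insert i A).toList.map v) =
          Wc (W ⊓ LinearMap.ker (v i)) (A.toList.map v) := by
        ext x
        rw [E2_mem, E2_mem]
        simp only [Finset.forall_mem_insert, Submodule.mem_inf, LinearMap.mem_ker, and_assoc]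
      have h2 := E2_card (W ⊓ LinearMap.ker (v i)) v A
      have h3 := E2_eq W (v i) hv
      rw [h1, Finset.card_insert_of_notMem hiA]
      congr 1
      omega

/-- E2: `F` as a sum over subsets -/
theorem F_eq_sum [FiniteDimensional (ZMod 2) U] (W : Submodule (ZMod 2) U) (m : ℕ)
    (v : Fin m → Module.Dual (ZMod 2) U) :
    F W (List.ofFn v) = ∑ A : Finset (Fin m),
      (X : ℤ[X]) ^ (2 * finrank (ZMod 2) (Wc W (A.toList.map v)) + A.card -
        finrank (ZMod 2) W) := by
  have h := E2_aux v (List.finRange m) W (List.nodup_finRange m)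
  rw [List.toFinset_finRange, Finset.powerset_univ] at h
  rw [← h, List.ofFn_eq_map]

end H665R2.LV
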