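import Pool.Agent.H665R2.LV.Defs
set_option autoImplicit false

namespace H665R2.LV

open Polynomial Module

variable {U : Type} [AddCommGroup U] [Module (ZMod 2) U]

/-- rank of a set of elements of the matroid of the functionals `v j` on `W` -/
noncomputable def rk (W : Submodule (ZMod 2) U) {m : ℕ} (v : Fin m → Module.Dual (ZMod 2) U)
    (A : Finset (Fin m)) : ℕ :=
  finrank (ZMod 2) (Submodule.span (ZMod 2) ((fun j => (v j).domRestrict W) '' (A : Set (Fin m))))

/-- the space spanned by the rows of the representing matrix (cut space) -/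
def cutSp (W : Submodule (ZMod 2) U) {m : ℕ} (v : Fin m → Module.Dual (ZMod 2) U) :
    Submodule (ZMod 2) (Fin m → ZMod 2) :=
  Submodule.map (LinearMap.pi v) W

/-- bicycle space: cut space intersected with its orthogonal complement (the cycle space) -/
def bic (W : Submodule (ZMod 2) U) {m : ℕ} (v : Fin m → Module.Dual (ZMod 2) U) :
    Submodule (ZMod 2) (Fin m → ZMod 2) :=
  cutSp W v ⊓ (cutSp W v).orthogonalBilin (Matrix.toBilin' (1 : Matrix (Fin m) (Fin m) (ZMod 2)))

/-- the diagonal Tutte polynomial `T(M; x, x)` -/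
noncomputable def T (W : Submodule (ZMod 2) U) {m : ℕ} (v : Fin m → Module.Dual (ZMod 2) U) :
    ℤ[X] :=
  ∑ A : Finset (Fin m), (X - 1 : ℤ[X]) ^ (rk W v Finset.univ - rk W v A) *
    (X - 1 : ℤ[X]) ^ (A.card - rk W v A)

theorem E3_mem_Wc (W : Submodule (ZMod 2) U) {m : ℕ}
    (v : Fin m → Module.Dual (ZMod 2) U) (A : Finset (Fin m)) (x : U) :
    x ∈ Wc W (A.toList.map v) ↔ x ∈ W ∧ ∀ j ∈ A, v j x = 0 := by
  show (x ∈ W ∧ ∀ f ∈ A.toList.map v, f x = 0) ↔ _
  simp

/-- rank versus common zeros -/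
theorem rk_eq [FiniteDimensional (ZMod 2) U] (W : Submodule (ZMod 2) U) {m : ℕ}
    (v : Fin m → Module.Dual (ZMod 2) U) (A : Finset (Fin m)) :
    finrank (ZMod 2) (Wc W (A.toList.map v)) + rk W v A = finrank (ZMod 2) W := by
  unfold rk
  set Φ : Submodule (ZMod 2) (Module.Dual (ZMod 2) W) :=
    Submodule.span (ZMod 2) ((fun j => (v j).domRestrict W) '' (A : Set (Fin m))) with hΦ
  have h1 : finrank (ZMod 2) Φ + finrank (ZMod 2) Φ.dualCoannihilator = finrank (ZMod 2) W :=
    Subspace.finrank_add_finrank_dualCoannihilator_eq Φ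
  have h2 : finrank (ZMod 2) (Wc W (A.toList.map v)) = finrank (ZMod 2) Φ.dualCoannihilator := by
    rw [← Submodule.finrank_map_subtype_eq W Φ.dualCoannihilator]
    have : Wc W (A.toList.map v) = Submodule.map W.subtype Φ.dualCoannihilator := by
      ext x
      rw [E3_mem_Wc]
      constructor
      · rintro ⟨hx, h⟩
        refine ⟨⟨x, hx⟩, ?_, rfl⟩
        rw [SetLike.mem_coe, Submodule.mem_dualCoannihilator]
        intro φ hφ
        have : Φ ≤ LinearMap.ker (Module.Dual.eval (ZMod 2) W ⟨x, hx⟩) := by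
          rw [hΦ, Submodule.span_le]
          rintro _ ⟨j, hj, rfl⟩
          rw [SetLike.mem_coe, LinearMap.mem_ker, Module.Dual.eval_apply]
          exact h j hj
        exact this hφ
      · rintro ⟨⟨y, hy⟩, h, rfl⟩
        refine ⟨hy, fun j hj => ?_⟩
        rw [SetLike.mem_coe, Submodule.mem_dualCoannihilator] at h
        exact h _ (Submodule.subset_span ⟨j, hj, rfl⟩)
    rw [this]
  rw [h2, ← h1, add_comm]

theorem E3_mem_rad (W : Submodule (ZMod 2) U) {m : ℕ}
    (v : Fin m → Module.Dual (ZMod 2) U) (x : U) :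
    x ∈ rad W (List.ofFn v) ↔ x ∈ W ∧ LinearMap.pi v x ∈ bic W v := by
  have hB : ∀ y : U, B (List.ofFn v) x y = ∑ j, v j y * v j x := by
    intro y
    unfold B
    rw [List.map_ofFn, List.sum_ofFn]
    exact Finset.sum_congr rfl (fun j _ => mul_comm _ _)
  constructor
  · rintro ⟨hx, h⟩
    refine ⟨hx, ⟨x, hx, rfl⟩, ?_⟩
    rw [SetLike.mem_coe, Submodule.mem_orthogonalBilin_iff]
    rintro _ ⟨y, hy, rfl⟩
    rw [Matrix.toBilin'_apply', Matrix.one_mulVec]
    have := h y hy
    rw [hB] at this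
    exact this
  · rintro ⟨hx, h⟩
    refine ⟨hx, fun y hy => ?_⟩
    have h2 := h.2
    rw [SetLike.mem_coe, Submodule.mem_orthogonalBilin_iff] at h2
    have h3 := h2 _ (show LinearMap.pi v y ∈ cutSp W v from ⟨y, hy, rfl⟩)
    rw [Matrix.toBilin'_apply', Matrix.one_mulVec] at h3
    rw [hB]
    exact h3

/-- radical versus bicycle space -/
theorem kap_eq [FiniteDimensional (ZMod 2) U] (W : Submodule (ZMod 2) U) {m : ℕ}
    (v : Fin m → Module.Dual (ZMod 2) U) :
    kap W (List.ofFn v) + rk W v Finset.univ = finrank (ZMod 2) W + finrank (ZMod 2) (bic W v) := by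
  have h1 := rk_eq W v Finset.univ
  set f := (LinearMap.pi v).domRestrict (rad W (List.ofFn v)) with hf
  have h2 := LinearMap.finrank_range_add_finrank_ker f
  have h3 : LinearMap.range f = bic W v := by
    ext b
    constructor
    · rintro ⟨⟨x, hx⟩, rfl⟩
      exact ((E3_mem_rad W v x).1 hx).2
    · intro hb
      obtain ⟨x, hx, rfl⟩ := hb.1
      exact ⟨⟨x, (E3_mem_rad W v x).2 ⟨hx, hb⟩⟩, rfl⟩
  have h4 : finrank (ZMod 2) (LinearMap.ker f)
      = finrank (ZMod 2) (Wc W ((Finset.univ : Finset (Fin m)).toList.map v)) := by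
    rw [← Submodule.finrank_map_subtype_eq (rad W (List.ofFn v)) (LinearMap.ker f)]
    have : Submodule.map (rad W (List.ofFn v)).subtype (LinearMap.ker f)
        = Wc W ((Finset.univ : Finset (Fin m)).toList.map v) := by
      ext x
      rw [E3_mem_Wc]
      constructor
      · rintro ⟨⟨y, hy⟩, h, rfl⟩
        refine ⟨((E3_mem_rad W v y).1 hy).1, fun j _ => ?_⟩
        rw [SetLike.mem_coe, LinearMap.mem_ker] at h
        exact congrFun h j
      · rintro ⟨hx, h⟩
        have h0 : LinearMap.pi v x = 0 := by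
          ext j
          exact h j (Finset.mem_univ j)
        refine ⟨⟨x, (E3_mem_rad W v x).2 ⟨hx, ?_⟩⟩, ?_, rfl⟩
        · rw [h0]; exact (bic W v).zero_mem
        · rw [SetLike.mem_coe, LinearMap.mem_ker]
          exact h0
    rw [this]
  rw [h3, h4] at h2
  unfold kap
  omega

theorem E3_comp (Q : ℤ[X]) (k : ℕ) :
    derivative^[k] (Q.comp (X - 1)) = (derivative^[k] Q).comp (X - 1) := by
  induction k generalizing Q with
  | zero => rfl
  | succ k ih =>
    rw [Function.iterate_succ_apply, Function.iterate_succ_apply, derivative_comp]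
    have : derivative (X - 1 : ℤ[X]) = 1 := by simp
    rw [this, one_mul, ih]

/-- the polynomial part: from coefficients to derivatives -/
theorem deriv_dvd (d k : ℕ) (Q : ℤ[X]) (h : ∀ j, (2 : ℤ) ^ (d - j) ∣ Q.coeff j) :
    (2 : ℤ) ^ (d - k) ∣ ((derivative^[k] (Q.comp (X - 1))).eval (-1)) := by
  rw [E3_comp, eval_comp]
  have e : (X - 1 : ℤ[X]).eval (-1) = 2 * (-1) := by
    simp
  rw [e, eval_eq_sum_range]
  apply Finset.dvd_sum
  intro j _
  rw [coeff_iterate_derivative, mul_pow, nsmul_eq_mul]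
  have h1 : (2 : ℤ) ^ (d - k) ∣ 2 ^ (d - (j + k)) * 2 ^ j := by
    rw [← pow_add]
    exact pow_dvd_pow _ (by omega)
  refine h1.trans ?_
  have h2 : (2 : ℤ) ^ (d - (j + k)) * 2 ^ j ∣ Q.coeff (j + k) * 2 ^ j :=
    mul_dvd_mul_right (h (j + k)) _
  refine h2.trans ⟨((j + k).descFactorial k : ℤ) * (-1) ^ j, by ring⟩

end H665R2.LV
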