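import Pool.Agent.H665R2.LV.Main3
import Pool.Agent.H665R2.LV.E1
import Pool.Agent.H665R2.LV.E2
import Pool.Agent.H665R2.LV.E3
set_option autoImplicit false

namespace H665R2.LV

open Polynomial Module

variable {U : Type} [AddCommGroup U] [Module (ZMod 2) U]

/-- the state sum is the shifted diagonal Tutte polynomial times a power of `X` -/
theorem F_eq_T [FiniteDimensional (ZMod 2) U] (W : Submodule (ZMod 2) U) {m : ℕ}
    (v : Fin m → Dual (ZMod 2) U) :
    F W (List.ofFn v) = X ^ (finrank (ZMod 2) W - rk W v Finset.univ) *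
      (T W v).comp (X + 1) := by
  rw [F_eq_sum, T]
  have hc : ∀ A : Finset (Fin m), ((X - 1 : ℤ[X]) ^ (rk W v Finset.univ - rk W v A) *
      (X - 1 : ℤ[X]) ^ (A.card - rk W v A)).comp (X + 1) =
      X ^ (rk W v Finset.univ - rk W v A + (A.card - rk W v A)) := by
    intro A
    rw [← pow_add, pow_comp]
    congr 1
    simp
  have hs : (∑ A : Finset (Fin m), (X - 1 : ℤ[X]) ^ (rk W v Finset.univ - rk W v A) *
      (X - 1 : ℤ[X]) ^ (A.card - rk W v A)).comp (X + 1) =
      ∑ A : Finset (Fin m), (X : ℤ[X]) ^ (rk W v Finset.univ - rk W v A +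
        (A.card - rk W v A)) := by
    rw [Polynomial.sum_comp]
    exact Finset.sum_congr rfl fun A _ => hc A
  rw [hs, Finset.mul_sum]
  refine Finset.sum_congr rfl fun A _ => ?_
  rw [← pow_add]
  congr 1
  have h1 := rk_eq W v A
  have h2 := rk_eq W v Finset.univ
  have h3 : rk W v A ≤ rk W v Finset.univ := by
    unfold rk
    apply Submodule.finrank_mono
    apply Submodule.span_mono
    apply Set.image_mono
    simp
  have h4 : rk W v A ≤ A.card := by
    classical
    unfold rk
    have := finrank_span_finset_le_card (R := ZMod 2)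
      (A.image (fun j => (v j).domRestrict W))
    rw [Finset.coe_image] at this
    exact this.trans Finset.card_image_le
  omega

theorem main_all [FiniteDimensional (ZMod 2) U] (W : Submodule (ZMod 2) U) {m : ℕ}
    (v : Fin m → Dual (ZMod 2) U) (h : DY W (List.ofFn v)) :
    (∀ j, (2 : ℤ) ^ (finrank (ZMod 2) (bic W v) - j) ∣ ((T W v).comp (X + 1)).coeff j) ∧
    (∀ k, (2 : ℤ) ^ (finrank (ZMod 2) (bic W v) - k) ∣
      (derivative^[k] (T W v)).eval (-1)) := by
  have h1 := h.good
  rw [mem_I_pow_iff, F_eq_T] at h1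
  have h2 := kap_eq W v
  have h3 : rk W v Finset.univ ≤ finrank (ZMod 2) W := by
    have := rk_eq W v Finset.univ
    omega
  have h4 : ∀ j, (2 : ℤ) ^ (finrank (ZMod 2) (bic W v) - j) ∣
      ((T W v).comp (X + 1)).coeff j := by
    intro j
    have h5 := h1 (j + (finrank (ZMod 2) W - rk W v Finset.univ))
    rw [coeff_X_pow_mul] at h5
    have h6 : kap W (List.ofFn v) - (j + (finrank (ZMod 2) W - rk W v Finset.univ)) =
        finrank (ZMod 2) (bic W v) - j := by omega
    rwa [h6] at h5
  refine ⟨h4, fun k => ?_⟩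
  have h7 := deriv_dvd (finrank (ZMod 2) (bic W v)) k ((T W v).comp (X + 1)) h4
  have h8 : ((T W v).comp (X + 1)).comp (X - 1) = T W v := by
    rw [comp_assoc]
    simp
  rwa [h8] at h7

end H665R2.LV
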