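import Pool.Agent.H665R2.LV.Planar
set_option autoImplicit false

/-! Final definitions and statements for graphs. -/

namespace H665R2.LV

open Module Polynomial

/-- orthogonal complement for the standard dot product -/
def dotPerp {m : ℕ} (C : Submodule (ZMod 2) (Fin m → ZMod 2)) :
    Submodule (ZMod 2) (Fin m → ZMod 2) where
  carrier := {z | ∀ w ∈ C, ∑ j, w j * z j = 0}
  add_mem' := by
    intro x y hx hy w hw
    have : ∑ j, w j * (x + y) j = ∑ j, w j * x j + ∑ j, w j * y j := by
      rw [← Finset.sum_add_distrib]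
      exact Finset.sum_congr rfl fun j _ => by rw [Pi.add_apply, mul_add]
    rw [this, hx w hw, hy w hw, add_zero]
  zero_mem' := by
    intro w _
    simp
  smul_mem' := by
    intro c x hx w hw
    have : ∑ j, w j * (c • x) j = c * ∑ j, w j * x j := by
      rw [Finset.mul_sum]
      exact Finset.sum_congr rfl fun j _ => by
        rw [Pi.smul_apply, smul_eq_mul]
        ring
    rw [this, hx w hw, mul_zero]

theorem dotPerp_eq {m : ℕ} (C : Submodule (ZMod 2) (Fin m → ZMod 2)) :
    dotPerp C = C.orthogonalBilin (Matrix.toBilin' (1 : Matrix (Fin m) (Fin m) (ZMod 2))) := by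
  ext z
  rw [Submodule.mem_orthogonalBilin_iff]
  refine forall₂_congr fun w _ => ?_
  change _ = 0 ↔ (Matrix.toBilin' (1 : Matrix (Fin m) (Fin m) (ZMod 2))) w z = 0
  rw [Matrix.toBilin'_apply']
  simp [dotProduct]

/-- bicycle space of a graph: the cycle space meets its orthogonal complement (the cut space) -/
noncomputable def bicycles {V : Type} {m : ℕ} (s t : Fin m → V) : Submodule (ZMod 2) (Fin m → ZMod 2) :=
  cycSp s t ⊓ dotPerp (cycSp s t)

/-- bicycle dimension of a graph -/
noncomputable def bicDim {V : Type} {m : ℕ} (s t : Fin m → V) : ℕ :=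
  finrank (ZMod 2) (bicycles s t)

/-- bicycle dimension of the binary matroid of the functionals `v j` on `W` -/
noncomputable def matDim {U : Type} [AddCommGroup U] [Module (ZMod 2) U]
    (W : Submodule (ZMod 2) U) {m : ℕ} (v : Fin m → Module.Dual (ZMod 2) U) : ℕ :=
  finrank (ZMod 2) (bic W v)

/-- the divisibilities: the coefficient of `(x - 1) ^ j` in `T` is divisible by `2 ^ (d - j)`
for all `j`, and the `k`-th derivative of `T` at `-1` is divisible by `2 ^ (d - k)` for all
`k` -/
def Div (d : ℕ) (T : ℤ[X]) : Prop :=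
  (∀ j, (2 : ℤ) ^ (d - j) ∣ (T.comp (X + 1)).coeff j) ∧
  (∀ k, (2 : ℤ) ^ (d - k) ∣ (derivative^[k] T).eval (-1))

theorem final_planar {V : Type} [Fintype V] {m : ℕ} (p : V → ℝ × ℝ) (s t : Fin m → V)
    (h : PlaneDrawing p s t) : Div (bicDim s t) (tutteDiag s t) := by
  have h1 := planar_main p s t h
  unfold bdim at h1
  rw [← dotPerp_eq] at h1
  exact h1

theorem final_matroid {U : Type} [AddCommGroup U] [Module (ZMod 2) U]
    [FiniteDimensional (ZMod 2) U] (W : Submodule (ZMod 2) U) {m : ℕ}
    (v : Fin m → Module.Dual (ZMod 2) U) (h : SDY W (List.ofFn v)) :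
    Div (matDim W v) (T W v) := main_sdy W v h

end H665R2.LV
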