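import Pool.Agent.H665R2.LV.Defs
set_option autoImplicit false

namespace H665R2.LV

open Polynomial Module

variable {U : Type} [AddCommGroup U] [Module (ZMod 2) U]

/-! ## list lemmas -/

theorem perm_split {α : Type*} {a : α} {l C R D : List α} (h : (a :: l).Perm (C ++ R ++ D)) :
    (∃ C', C.Perm (a :: C') ∧ l.Perm (C' ++ R ++ D)) ∨
    (∃ R', R.Perm (a :: R') ∧ l.Perm (C ++ R' ++ D)) ∨
    (∃ D', D.Perm (a :: D') ∧ l.Perm (C ++ R ++ D')) := by
  have ha : a ∈ C ++ R ++ D := h.subset (List.mem_cons_self)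
  rw [List.mem_append, List.mem_append] at ha
  rcases ha with (ha | ha) | ha
  · left
    obtain ⟨s, u, rfl⟩ := List.append_of_mem ha
    refine ⟨s ++ u, List.perm_middle, ?_⟩
    have h2 : (a :: l).Perm (a :: ((s ++ u) ++ R ++ D)) := h.trans (by
      rw [← Multiset.coe_eq_coe]
      simp only [← Multiset.coe_add, ← Multiset.cons_coe, ← Multiset.singleton_add]
      abel)
    exact (List.perm_cons a).1 h2
  · right; left
    obtain ⟨s, u, rfl⟩ := List.append_of_mem ha
    refine ⟨s ++ u, List.perm_middle, ?_⟩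
    have h2 : (a :: l).Perm (a :: (C ++ (s ++ u) ++ D)) := h.trans (by
      rw [← Multiset.coe_eq_coe]
      simp only [← Multiset.coe_add, ← Multiset.cons_coe, ← Multiset.singleton_add]
      abel)
    exact (List.perm_cons a).1 h2
  · right; right
    obtain ⟨s, u, rfl⟩ := List.append_of_mem ha
    refine ⟨s ++ u, List.perm_middle, ?_⟩
    have h2 : (a :: l).Perm (a :: (C ++ R ++ (s ++ u))) := h.trans (by
      rw [← Multiset.coe_eq_coe]
      simp only [← Multiset.coe_add, ← Multiset.cons_coe, ← Multiset.singleton_add]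
      abel)
    exact (List.perm_cons a).1 h2

/-- selection of the elements of `x,y,z` with status `s` -/
def sel {α : Type*} (s i j k : Fin 3) (x y z : α) : List α :=
  (if i = s then [x] else []) ++ (if j = s then [y] else []) ++ (if k = s then [z] else [])

def sel1 {α : Type*} (s i : Fin 3) (x : α) : List α := if i = s then [x] else []

theorem split1 {α : Type*} {x : α} {l C R D : List α} (h : (x :: l).Perm (C ++ R ++ D)) :
    ∃ (i : Fin 3) (C0 R0 D0 : List α), C.Perm (sel1 0 i x ++ C0) ∧ R.Perm (sel1 1 i x ++ R0) ∧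
      D.Perm (sel1 2 i x ++ D0) ∧ l.Perm (C0 ++ R0 ++ D0) := by
  rcases perm_split h with ⟨C', h1, h2⟩ | ⟨R', h1, h2⟩ | ⟨D', h1, h2⟩
  · exact ⟨0, C', R, D, by simpa [sel1] using h1, by simp [sel1], by simp [sel1], h2⟩
  · exact ⟨1, C, R', D, by simp [sel1], by simpa [sel1] using h1, by simp [sel1], h2⟩
  · exact ⟨2, C, R, D', by simp [sel1], by simp [sel1], by simpa [sel1] using h1, h2⟩

theorem split3 {α : Type*} {x y z : α} {l C R D : List α}
    (h : (x :: y :: z :: l).Perm (C ++ R ++ D)) :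
    ∃ (i j k : Fin 3) (C0 R0 D0 : List α), C.Perm (sel 0 i j k x y z ++ C0) ∧
      R.Perm (sel 1 i j k x y z ++ R0) ∧
      D.Perm (sel 2 i j k x y z ++ D0) ∧ l.Perm (C0 ++ R0 ++ D0) := by
  obtain ⟨i, C1, R1, D1, c1, r1, d1, h1⟩ := split1 h
  obtain ⟨j, C2, R2, D2, c2, r2, d2, h2⟩ := split1 h1
  obtain ⟨k, C3, R3, D3, c3, r3, d3, h3⟩ := split1 h2
  refine ⟨i, j, k, C3, R3, D3, ?_, ?_, ?_, h3⟩
  · refine c1.trans ?_
    unfold sel sel1
    rw [List.append_assoc, List.append_assoc]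
    exact List.Perm.append_left _ (c2.trans (List.Perm.append_left _ c3))
  · refine r1.trans ?_
    unfold sel sel1
    rw [List.append_assoc, List.append_assoc]
    exact List.Perm.append_left _ (r2.trans (List.Perm.append_left _ r3))
  · refine d1.trans ?_
    unfold sel sel1
    rw [List.append_assoc, List.append_assoc]
    exact List.Perm.append_left _ (d2.trans (List.Perm.append_left _ d3))

theorem join1 {α : Type*} {x : α} {l C0 R0 D0 : List α} (h : l.Perm (C0 ++ R0 ++ D0))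
    (i : Fin 3) :
    (x :: l).Perm ((sel1 0 i x ++ C0) ++ (sel1 1 i x ++ R0) ++ (sel1 2 i x ++ D0)) := by
  have h' : (l : Multiset α) = ↑C0 + ↑R0 + ↑D0 := by
    rw [Multiset.coe_add, Multiset.coe_add, Multiset.coe_eq_coe]; exact h
  rw [← Multiset.coe_eq_coe]
  simp only [← Multiset.coe_add, ← Multiset.cons_coe, ← Multiset.singleton_add, h']
  fin_cases i <;>
  · simp only [sel1, Fin.isValue, Fin.zero_eta, Fin.mk_one, Fin.reduceFinMk, Fin.reduceEq,
      if_true, if_false, Multiset.coe_singleton, Multiset.coe_nil, one_ne_zero, zero_ne_one]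
    abel

theorem join3 {α : Type*} {x y z : α} {l C0 R0 D0 : List α} (h : l.Perm (C0 ++ R0 ++ D0))
    (i j k : Fin 3) :
    (x :: y :: z :: l).Perm ((sel 0 i j k x y z ++ C0) ++ (sel 1 i j k x y z ++ R0) ++
      (sel 2 i j k x y z ++ D0)) := by
  have h1 := join1 (x := x) (join1 (x := y) (join1 (x := z) h k) j) i
  simpa [sel, sel1, List.append_assoc] using h1

/-! ## Wc lemmas -/

theorem Wc_perm {W : Submodule (ZMod 2) U} {C C' : List (Dual (ZMod 2) U)} (h : C.Perm C') :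
    Wc W C = Wc W C' := by
  ext x
  constructor
  · rintro ⟨hx, h'⟩; exact ⟨hx, fun f hf => h' f (h.mem_iff.2 hf)⟩
  · rintro ⟨hx, h'⟩; exact ⟨hx, fun f hf => h' f (h.mem_iff.1 hf)⟩

theorem mem_Wc {W : Submodule (ZMod 2) U} {C : List (Dual (ZMod 2) U)} {x : U} :
    x ∈ Wc W C ↔ x ∈ W ∧ ∀ f ∈ C, f x = 0 := Iff.rfl

theorem Wc_nil {W : Submodule (ZMod 2) U} : Wc W [] = W := by
  ext x; simp [mem_Wc]

theorem Wc_cons {W : Submodule (ZMod 2) U} {C : List (Dual (ZMod 2) U)} {a : Dual (ZMod 2) U} :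
    Wc W (a :: C) = Wc (W ⊓ LinearMap.ker a) C := by
  ext x; simp [mem_Wc, and_assoc]

theorem Wc_inf {W : Submodule (ZMod 2) U} {C : List (Dual (ZMod 2) U)} {a : Dual (ZMod 2) U} :
    Wc (W ⊓ LinearMap.ker a) C = Wc W C ⊓ LinearMap.ker a := by
  ext x; simp [mem_Wc]; tauto

theorem Priv.mono {W : Submodule (ZMod 2) U} {l l' : List (Dual (ZMod 2) U)}
    {t : Dual (ZMod 2) U} (h : Priv W l t) (C : List (Dual (ZMod 2) U))
    (hC : ∀ f ∈ C, f ∈ l) (hl : ∀ f ∈ l', f ∈ l) : Priv (Wc W C) l' t := by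
  obtain ⟨e, he, te, fe⟩ := h
  exact ⟨e, ⟨he, fun f hf => fe f (hC f hf)⟩, te, fun f hf => fe f (hl f hf)⟩

/-! ## transport -/

theorem forall₂_mem_right {α β : Type*} {r : α → β → Prop} {l : List α} {l' : List β}
    (h : List.Forall₂ r l l') : ∀ g ∈ l', ∃ f ∈ l, r f g := by
  induction h with
  | nil => intro g hg; simp at hg
  | cons hr _ ih =>
    intro g hg
    rcases List.mem_cons.1 hg with rfl | hg
    · exact ⟨_, List.mem_cons_self, hr⟩
    · obtain ⟨f, hf, h'⟩ := ih g hg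
      exact ⟨f, List.mem_cons_of_mem _ hf, h'⟩

theorem forall₂_mem_left {α β : Type*} {r : α → β → Prop} {l : List α} {l' : List β}
    (h : List.Forall₂ r l l') : ∀ f ∈ l, ∃ g ∈ l', r f g := by
  induction h with
  | nil => intro g hg; simp at hg
  | cons hr _ ih =>
    intro g hg
    rcases List.mem_cons.1 hg with rfl | hg
    · exact ⟨_, List.mem_cons_self, hr⟩
    · obtain ⟨f, hf, h'⟩ := ih g hg
      exact ⟨f, List.mem_cons_of_mem _ hf, h'⟩

theorem congrDY {W : Submodule (ZMod 2) U} {l l' : List (Dual (ZMod 2) U)}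
    (h : List.Forall₂ (fun f g => ∀ x ∈ W, f x = g x) l l') (hl : DY W l) : DY W l' :=
  DY.iso (LinearEquiv.refl _ W) (h.imp (fun _ _ h' (x : W) => h' (x : U) x.2)) hl

theorem Wc_mem {W : Submodule (ZMod 2) U} {C : List (Dual (ZMod 2) U)} {x : U}
    (h : x ∈ Wc W C) : x ∈ W := h.1

/-- minors of isomorphic configurations are isomorphic -/
noncomputable def minorEquiv {W W' : Submodule (ZMod 2) U} {C C' : List (Dual (ZMod 2) U)}
    (φ : W ≃ₗ[ZMod 2] W')
    (h : List.Forall₂ (fun f g => ∀ x : W, f x = g (φ x)) C C') :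
    Wc W C ≃ₗ[ZMod 2] Wc W' C' where
  toFun x := ⟨(φ ⟨x.1, Wc_mem x.2⟩ : U), (φ ⟨x.1, Wc_mem x.2⟩).2, fun g hg => by
    obtain ⟨f, hf, h'⟩ := forall₂_mem_right h g hg
    rw [← h' ⟨x.1, Wc_mem x.2⟩]
    exact x.2.2 f hf⟩
  invFun y := ⟨(φ.symm ⟨y.1, Wc_mem y.2⟩ : U), (φ.symm ⟨y.1, Wc_mem y.2⟩).2, fun f hf => by
    obtain ⟨g, hg, h'⟩ := forall₂_mem_left h f hf
    rw [h' (φ.symm ⟨y.1, Wc_mem y.2⟩), LinearEquiv.apply_symm_apply]
    exact y.2.2 g hg⟩
  map_add' x y := by
    apply Subtype.ext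
    have h1 := congrArg Subtype.val (map_add φ ⟨x.1, Wc_mem x.2⟩ ⟨y.1, Wc_mem y.2⟩)
    exact h1
  map_smul' c x := by
    apply Subtype.ext
    have h1 := congrArg Subtype.val (map_smul φ c ⟨x.1, Wc_mem x.2⟩)
    exact h1
  left_inv x := by
    apply Subtype.ext
    simp
  right_inv y := by
    apply Subtype.ext
    simp

theorem her_iso {W W' : Submodule (ZMod 2) U} {l l' : List (Dual (ZMod 2) U)}
    (φ : W ≃ₗ[ZMod 2] W')
    (h : List.Forall₂ (fun f g => ∀ x : W, f x = g (φ x)) l l') (hl : Her W l) : Her W' l' := by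
  intro C' R' D' hp
  have h1 : Relation.Comp (List.Forall₂ (fun (f g : Dual (ZMod 2) U) => ∀ x : W, f x = g (φ x)))
      List.Perm l (C' ++ R' ++ D') := ⟨l', h, hp⟩
  rw [List.forall₂_comp_perm_eq_perm_comp_forall₂] at h1
  obtain ⟨m, hm, hf⟩ := h1
  have hf1 := List.forall₂_take_append _ _ _ hf
  have hf2 := List.forall₂_drop_append _ _ _ hf
  have hf3 := List.forall₂_take_append _ _ _ hf1
  have hf4 := List.forall₂_drop_append _ _ _ hf1
  set m1 := List.take (C' ++ R').length m with hm1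
  set m2 := List.drop (C' ++ R').length m with hm2
  have e1 : m = List.take C'.length m1 ++ List.drop C'.length m1 ++ m2 := by
    rw [List.take_append_drop, hm1, hm2, List.take_append_drop]
  have h2 := hl _ _ _ (hm.trans (by rw [← e1]))
  refine DY.iso (minorEquiv φ hf3) ?_ h2
  refine hf4.imp ?_
  intro f g hfg x
  have h3 := hfg ⟨x.1, Wc_mem x.2⟩
  simpa [minorEquiv] using h3

end H665R2.LV
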