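import Pool.Agent.H665R2.LV.Her1
set_option autoImplicit false

namespace H665R2.LV

open Polynomial Module

variable {U : Type} [AddCommGroup U] [Module (ZMod 2) U]

theorem z2_add_self (p : ZMod 2) : p + p = 0 := by revert p; decide

theorem add_self_U (x : U) : x + x = 0 := by
  have h : (1 + 1 : ZMod 2) • x = 0 := by
    rw [show (1 + 1 : ZMod 2) = 0 by decide, zero_smul]
  rwa [add_smul, one_smul] at h

/-- the relation of a slide along `e` -/
def SR (W : Submodule (ZMod 2) U) (t c : Dual (ZMod 2) U) (e : U)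
    (f g : Dual (ZMod 2) U) : Prop := ∀ x ∈ W, t x = 0 → g (x + c x • e) = f x

/-- the slide isomorphism -/
noncomputable def slideEquiv {W : Submodule (ZMod 2) U} {t c : Dual (ZMod 2) U} {e : U}
    (he : e ∈ W) (te : t e = 1) (ce : c e = 0) {C1 C2 : List (Dual (ZMod 2) U)}
    (hC : List.Forall₂ (SR W t c e) C1 C2) :
    Wc (W ⊓ LinearMap.ker t) C1 ≃ₗ[ZMod 2] Wc (W ⊓ LinearMap.ker (t + c)) C2 where
  toFun x := ⟨x.1 + c x.1 • e, by
    obtain ⟨⟨hx, htx⟩, hfx⟩ := x.2
    have htx' : t x.1 = 0 := htx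
    refine ⟨⟨W.add_mem hx (W.smul_mem _ he), ?_⟩, ?_⟩
    · show (t + c) (x.1 + c x.1 • e) = 0
      simp only [LinearMap.add_apply, map_add, map_smul, smul_eq_mul, te, ce, htx', mul_one,
        mul_zero, add_zero, zero_add]
      exact z2_add_self _
    · intro g hg
      obtain ⟨f, hf, h'⟩ := forall₂_mem_right hC g hg
      rw [h' x.1 hx htx']
      exact hfx f hf⟩
  invFun y := ⟨y.1 + c y.1 • e, by
    obtain ⟨⟨hy, hty⟩, hgy⟩ := y.2
    have hty' : t y.1 + c y.1 = 0 := hty
    have h1 : y.1 + c y.1 • e ∈ W := W.add_mem hy (W.smul_mem _ he)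
    have h2 : t (y.1 + c y.1 • e) = 0 := by
      simp only [map_add, map_smul, smul_eq_mul, te, mul_one]
      exact hty'
    refine ⟨⟨h1, h2⟩, ?_⟩
    intro f hf
    obtain ⟨g, hg, h'⟩ := forall₂_mem_left hC f hf
    have h3 := h' _ h1 h2
    have h4 : (y.1 + c y.1 • e) + c (y.1 + c y.1 • e) • e = y.1 := by
      rw [map_add, map_smul, ce, smul_zero, add_zero, add_assoc, add_self_U, add_zero]
    rw [h4] at h3
    rw [← h3]
    exact hgy g hg⟩
  map_add' x y := by
    apply Subtype.ext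
    show (x.1 + y.1) + c (x.1 + y.1) • e = (x.1 + c x.1 • e) + (y.1 + c y.1 • e)
    rw [map_add, add_smul]; abel
  map_smul' r x := by
    apply Subtype.ext
    show (r • x.1) + c (r • x.1) • e = r • (x.1 + c x.1 • e)
    rw [map_smul, smul_add, smul_smul, smul_eq_mul]
  left_inv x := by
    apply Subtype.ext
    show (x.1 + c x.1 • e) + c (x.1 + c x.1 • e) • e = x.1
    rw [map_add, map_smul, ce, smul_zero, add_zero, add_assoc, add_self_U, add_zero]
  right_inv x := by
    apply Subtype.ext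
    show (x.1 + c x.1 • e) + c (x.1 + c x.1 • e) • e = x.1
    rw [map_add, map_smul, ce, smul_zero, add_zero, add_assoc, add_self_U, add_zero]

theorem slideDY {W : Submodule (ZMod 2) U} {t c : Dual (ZMod 2) U} {e : U}
    (he : e ∈ W) (te : t e = 1) (ce : c e = 0) {C1 C2 R1 R2 : List (Dual (ZMod 2) U)}
    (hC : List.Forall₂ (SR W t c e) C1 C2) (hR : List.Forall₂ (SR W t c e) R1 R2)
    (h : DY (Wc (W ⊓ LinearMap.ker t) C1) R1) : DY (Wc (W ⊓ LinearMap.ker (t + c)) C2) R2 := by
  refine DY.iso (slideEquiv he te ce hC) (hR.imp ?_) h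
  intro f g hfg x
  exact (hfg x.1 x.2.1.1 x.2.1.2).symm

theorem SR_tail {W : Submodule (ZMod 2) U} {t c : Dual (ZMod 2) U} {e : U}
    {l : List (Dual (ZMod 2) U)} (h : ∀ f ∈ l, f e = 0) : List.Forall₂ (SR W t c e) l l := by
  induction l with
  | nil => exact List.Forall₂.nil
  | cons f l ih =>
    refine List.Forall₂.cons ?_ (ih (fun g hg => h g (List.mem_cons_of_mem _ hg)))
    intro x _ _
    rw [map_add, map_smul, h f List.mem_cons_self, smul_zero, add_zero]

theorem refl_tail {W : Submodule (ZMod 2) U} (l : List (Dual (ZMod 2) U)) :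
    List.Forall₂ (fun (f g : Dual (ZMod 2) U) => ∀ x ∈ W, f x = g x) l l := by
  induction l with
  | nil => exact List.Forall₂.nil
  | cons f l ih => exact List.Forall₂.cons (fun x _ => rfl) ih

end H665R2.LV
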