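import Pool.Agent.H665R2.LV.Her2
set_option autoImplicit false

namespace H665R2.LV

open Polynomial Module

variable {U : Type} [AddCommGroup U] [Module (ZMod 2) U]

theorem her_nil (W : Submodule (ZMod 2) U) : Her W [] := by
  intro C R D h
  have h1 : C ++ R ++ D = [] := h.symm.eq_nil
  rw [List.append_eq_nil_iff, List.append_eq_nil_iff] at h1
  obtain ⟨⟨rfl, rfl⟩, rfl⟩ := h1
  rw [Wc_nil]
  exact DY.nil W

theorem her_perm {W : Submodule (ZMod 2) U} {l l' : List (Dual (ZMod 2) U)} (h : l.Perm l')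
    (hl : Her W l) : Her W l' := fun C R D hp => hl C R D (h.trans hp)

theorem her_loop {W : Submodule (ZMod 2) U} {l : List (Dual (ZMod 2) U)}
    {a : Dual (ZMod 2) U} (h : Van W a) (hl : Her W l) : Her W (a :: l) := by
  intro C R D hp
  rcases perm_split hp with ⟨C', h1, h2⟩ | ⟨R', h1, h2⟩ | ⟨D', h1, h2⟩
  · rw [Wc_perm h1, Wc_cons]
    have e : W ⊓ LinearMap.ker a = W := by
      apply le_antisymm inf_le_left
      intro x hx; exact ⟨hx, h x hx⟩
    rw [e]
    exact hl _ _ _ h2
  · exact DY.perm h1.symm (DY.loop (fun x hx => h x (Wc_mem hx)) (hl _ _ _ h2))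
  · exact hl _ _ _ h2

theorem her_par {W : Submodule (ZMod 2) U} {l : List (Dual (ZMod 2) U)}
    {a : Dual (ZMod 2) U} (hl : Her W (a :: l)) : Her W (a :: a :: l) := by
  intro C R D hp
  obtain ⟨i, C1, R1, D1, c1, r1, d1, h1⟩ := split1 hp
  obtain ⟨j, C0, R0, D0, c2, r2, d2, h2⟩ := split1 h1
  have H : ∀ i : Fin 3, DY (Wc W (sel1 0 i a ++ C0)) (sel1 1 i a ++ R0) :=
    fun i => hl _ _ _ (join1 h2 i)
  have c3 := c1.trans (List.Perm.append_left (sel1 0 i a) c2)
  have r3 := r1.trans (List.Perm.append_left (sel1 1 i a) r2)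
  refine DY.perm r3.symm ?_
  rw [Wc_perm c3]
  have key : ∀ (S : List (Dual (ZMod 2) U)), DY (Wc W (a :: S)) R0 →
      DY (Wc W (a :: S)) (a :: R0) := fun S hS =>
    DY.loop (fun x hx => hx.2 a List.mem_cons_self) hS
  fin_cases i <;> fin_cases j
  · have := H 0
    simp [sel1] at this ⊢
    have e : Wc W (a :: a :: C0) = Wc W (a :: C0) := by
      ext x; simp [mem_Wc]
    rw [e]; exact this
  · have := H 0
    simp [sel1] at this ⊢
    exact key _ this
  · have := H 0
    simp [sel1] at this ⊢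
    exact this
  · have := H 0
    simp [sel1] at this ⊢
    exact key _ this
  · have := H 1
    simp [sel1] at this ⊢
    exact DY.par this
  · have := H 1
    simp [sel1] at this ⊢
    exact this
  · have := H 0
    simp [sel1] at this ⊢
    exact this
  · have := H 1
    simp [sel1] at this ⊢
    exact this
  · have := H 2
    simp [sel1] at this ⊢
    exact this

theorem her_free {W : Submodule (ZMod 2) U} {l : List (Dual (ZMod 2) U)}
    {t : Dual (ZMod 2) U} (h : Priv W l t) (hl : Her (W ⊓ LinearMap.ker t) l) : Her W l := by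
  intro C R D hp
  have hC : ∀ f ∈ C, f ∈ l := fun f hf => hp.symm.subset (by simp [hf])
  have hR : ∀ f ∈ R, f ∈ l := fun f hf => hp.symm.subset (by simp [hf])
  refine DY.free (t := t) (h.mono C hC hR) ?_
  rw [← Wc_inf]
  exact hl _ _ _ hp

theorem her_coloop {W : Submodule (ZMod 2) U} {l : List (Dual (ZMod 2) U)}
    {t : Dual (ZMod 2) U} (h : Priv W l t) (hl : Her (W ⊓ LinearMap.ker t) l) :
    Her W (t :: l) := by
  intro C R D hp
  rcases perm_split hp with ⟨C', h1, h2⟩ | ⟨R', h1, h2⟩ | ⟨D', h1, h2⟩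
  · rw [Wc_perm h1, Wc_cons]
    exact hl _ _ _ h2
  · have hC : ∀ f ∈ C, f ∈ l := fun f hf => h2.symm.subset (by simp [hf])
    have hR : ∀ f ∈ R', f ∈ l := fun f hf => h2.symm.subset (by simp [hf])
    refine DY.perm h1.symm (DY.coloop (h.mono C hC hR) ?_)
    rw [← Wc_inf]
    exact hl _ _ _ h2
  · exact her_free h hl _ _ _ h2

end H665R2.LV
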