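import Pool.Agent.H665R2.LV.Her3
set_option autoImplicit false
set_option linter.unusedSimpArgs false
set_option linter.unusedVariables false

namespace H665R2.LV

open Polynomial Module

variable {U : Type} [AddCommGroup U] [Module (ZMod 2) U]

theorem z2 (p : ZMod 2) : p = 0 ∨ p = 1 := by revert p; decide

theorem slide0 {W : Submodule (ZMod 2) U} {t : Dual (ZMod 2) U} {e : U}
    (he : e ∈ W) (te : t e = 1) {C1 C2 R1 R2 : List (Dual (ZMod 2) U)}
    (hC : List.Forall₂ (SR W t 0 e) C1 C2) (hR : List.Forall₂ (SR W t 0 e) R1 R2)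
    (h : DY (Wc (W ⊓ LinearMap.ker t) C1) R1) : DY (Wc (W ⊓ LinearMap.ker t) C2) R2 := by
  have := slideDY he te (c := 0) rfl hC hR h
  rwa [add_zero] at this

theorem her_series {W : Submodule (ZMod 2) U} {l : List (Dual (ZMod 2) U)}
    {t a : Dual (ZMod 2) U} (h : Priv W (a :: l) t) (hl : Her (W ⊓ LinearMap.ker t) (a :: l)) :
    Her W (t :: (t + a) :: l) := by
  intro C R D hp
  obtain ⟨i, C1, R1, D1, c1, r1, d1, h1⟩ := split1 hp
  obtain ⟨j, C0, R0, D0, c2, r2, d2, h2⟩ := split1 h1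
  have H : ∀ i : Fin 3, DY (Wc (W ⊓ LinearMap.ker t) (sel1 0 i a ++ C0)) (sel1 1 i a ++ R0) :=
    fun i => hl _ _ _ (join1 h2 i)
  have c3 := c1.trans (List.Perm.append_left (sel1 0 i t) c2)
  have r3 := r1.trans (List.Perm.append_left (sel1 1 i t) r2)
  refine DY.perm r3.symm ?_
  rw [Wc_perm c3]
  have hC : ∀ f ∈ C0, f ∈ l := fun f hf => h2.symm.subset (by simp [hf])
  have hR : ∀ f ∈ R0, f ∈ l := fun f hf => h2.symm.subset (by simp [hf])
  have hP : Priv (Wc W C0) (a :: R0) t := h.mono C0 (fun f hf => List.mem_cons_of_mem _ (hC f hf))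
    (by
      intro f hf
      rcases List.mem_cons.1 hf with rfl | hf
      · exact List.mem_cons_self
      · exact List.mem_cons_of_mem _ (hR f hf))
  obtain ⟨e, he, te, hfe⟩ := h
  have ae : a e = 0 := hfe a List.mem_cons_self
  obtain ⟨b, be⟩ : ∃ b : Dual (ZMod 2) U, b e = 0 := ⟨0, rfl⟩
  have Ce : ∀ f ∈ C0, f e = 0 := fun f hf => hfe f (List.mem_cons_of_mem _ (hC f hf))
  have Re : ∀ f ∈ R0, f e = 0 := fun f hf => hfe f (List.mem_cons_of_mem _ (hR f hf))
  have TC : ∀ c : Dual (ZMod 2) U, List.Forall₂ (SR W t c e) C0 C0 := fun c => SR_tail Ce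
  have TR : ∀ c : Dual (ZMod 2) U, List.Forall₂ (SR W t c e) R0 R0 := fun c => SR_tail Re
  have H0 : DY (Wc (W ⊓ LinearMap.ker t) (a :: C0)) R0 := H 0
  have H1 : DY (Wc (W ⊓ LinearMap.ker t) C0) (a :: R0) := H 1
  have H2 : DY (Wc (W ⊓ LinearMap.ker t) C0) R0 := H 2
  fin_cases i <;> fin_cases j
  · show DY (Wc W (t :: (t + a) :: C0)) R0
    rw [Wc_cons]
    exact slide0 he te (.cons (by intro x hx htx; have hz : (1 : ZMod 2) + 1 = 0 := (by decide); rcases z2 (t x) with h1 | h1 <;> rcases z2 (a x) with h2 | h2 <;> rcases z2 (b x) with h3 | h3 <;> first | (exfalso; revert htx; simp [h1, h2, h3, hz]; done) | (simp [h1, h2, h3, te, ae, be, hz]; done)) (TC 0)) (TR 0) H0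
  · show DY (Wc W (t :: C0)) ((t + a) :: R0)
    rw [Wc_cons]
    exact slide0 he te (TC 0) (.cons (by intro x hx htx; have hz : (1 : ZMod 2) + 1 = 0 := (by decide); rcases z2 (t x) with h1 | h1 <;> rcases z2 (a x) with h2 | h2 <;> rcases z2 (b x) with h3 | h3 <;> first | (exfalso; revert htx; simp [h1, h2, h3, hz]; done) | (simp [h1, h2, h3, te, ae, be, hz]; done)) (TR 0)) H1
  · show DY (Wc W (t :: C0)) R0
    rw [Wc_cons]
    exact H2
  · show DY (Wc W ((t + a) :: C0)) (t :: R0)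
    rw [Wc_cons]
    exact slideDY he te ae (TC a) (.cons (by intro x hx htx; have hz : (1 : ZMod 2) + 1 = 0 := (by decide); rcases z2 (t x) with h1 | h1 <;> rcases z2 (a x) with h2 | h2 <;> rcases z2 (b x) with h3 | h3 <;> first | (exfalso; revert htx; simp [h1, h2, h3, hz]; done) | (simp [h1, h2, h3, te, ae, be, hz]; done)) (TR a)) H1
  · show DY (Wc W C0) (t :: (t + a) :: R0)
    refine DY.series hP ?_
    rw [← Wc_inf]; exact H1
  · show DY (Wc W C0) (t :: R0)
    refine DY.coloop ?_ ?_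
    · exact ⟨e, ⟨he, Ce⟩, te, Re⟩
    · rw [← Wc_inf]; exact H2
  · show DY (Wc W ((t + a) :: C0)) R0
    rw [Wc_cons]
    exact slideDY he te ae (TC a) (TR a) H2
  · show DY (Wc W C0) ((t + a) :: R0)
    refine DY.coloop ?_ ?_
    · exact ⟨e, ⟨he, Ce⟩, by simp [te, ae], Re⟩
    · rw [← Wc_inf]
      exact slideDY he te ae (TC a) (TR a) H2
  · show DY (Wc W C0) R0
    refine DY.free (t := t) ?_ ?_
    · exact ⟨e, ⟨he, Ce⟩, te, Re⟩
    · rw [← Wc_inf]; exact H2

end H665R2.LV
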