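import Pool.Agent.H665R2.LV.Her4
set_option autoImplicit false
set_option linter.unusedSimpArgs false
set_option linter.unusedVariables false
set_option linter.unusedSimpArgs false

namespace H665R2.LV

open Polynomial Module

variable {U : Type} [AddCommGroup U] [Module (ZMod 2) U]

theorem eq_of_add_z2 {p q : ZMod 2} (h : p + q = 0) : p = q := by revert p q; decide

theorem her_toY {W : Submodule (ZMod 2) U} {l : List (Dual (ZMod 2) U)}
    {t a b : Dual (ZMod 2) U} (h : Priv W (a :: b :: l) t)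
    (hl : Her (W ⊓ LinearMap.ker t) (a :: b :: (a + b) :: l)) :
    Her W (t :: (t + a) :: (t + a + b) :: l) := by
  intro C R D hp
  obtain ⟨i, j, k, C0, R0, D0, c3, r3, d3, h2⟩ := split3 hp
  have H : ∀ i j k : Fin 3, DY (Wc (W ⊓ LinearMap.ker t) (sel 0 i j k a b (a + b) ++ C0))
      (sel 1 i j k a b (a + b) ++ R0) := fun i j k => hl _ _ _ (join3 h2 i j k)
  refine DY.perm r3.symm ?_
  rw [Wc_perm c3]
  have hC : ∀ f ∈ C0, f ∈ l := fun f hf => h2.symm.subset (by simp [hf])
  have hR : ∀ f ∈ R0, f ∈ l := fun f hf => h2.symm.subset (by simp [hf])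
  obtain ⟨e, he, te, hfe⟩ := h
  have ae : a e = 0 := hfe a (by simp)
  have be : b e = 0 := hfe b (by simp)
  have abe : (a + b) e = 0 := by simp [ae, be]
  have Ce : ∀ f ∈ C0, f e = 0 := fun f hf => hfe f (by simp [hC f hf])
  have Re : ∀ f ∈ R0, f e = 0 := fun f hf => hfe f (by simp [hR f hf])
  have TC : ∀ c : Dual (ZMod 2) U, List.Forall₂ (SR W t c e) C0 C0 := fun c => SR_tail Ce
  have TR : ∀ c : Dual (ZMod 2) U, List.Forall₂ (SR W t c e) R0 R0 := fun c => SR_tail Re
  fin_cases i <;> fin_cases j <;> fin_cases k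
  · show DY (Wc W (t :: (t + a) :: (t + a + b) :: C0)) R0
    have hx : DY (Wc (W ⊓ LinearMap.ker t) (a :: (a + b) :: C0)) R0 := H 0 2 0
    rw [Wc_cons]
    exact slide0 he te (.cons (by intro x hx htx; have hz : (1 : ZMod 2) + 1 = 0 := (by decide); rcases z2 (t x) with h1 | h1 <;> rcases z2 (a x) with h2 | h2 <;> rcases z2 (b x) with h3 | h3 <;> first | (exfalso; revert htx; simp [h1, h2, h3, hz]; done) | (simp [h1, h2, h3, te, ae, be, hz]; done)) (.cons (by intro x hx htx; have hz : (1 : ZMod 2) + 1 = 0 := (by decide); rcases z2 (t x) with h1 | h1 <;> rcases z2 (a x) with h2 | h2 <;> rcases z2 (b x) with h3 | h3 <;> first | (exfalso; revert htx; simp [h1, h2, h3, hz]; done) | (simp [h1, h2, h3, te, ae, be, hz]; done)) (TC 0))) (TR 0) hx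
  · show DY (Wc W (t :: (t + a) :: C0)) ((t + a + b) :: R0)
    have hx : DY (Wc (W ⊓ LinearMap.ker t) (a :: C0)) ((a + b) :: R0) := H 0 2 1
    rw [Wc_cons]
    exact slide0 he te (.cons (by intro x hx htx; have hz : (1 : ZMod 2) + 1 = 0 := (by decide); rcases z2 (t x) with h1 | h1 <;> rcases z2 (a x) with h2 | h2 <;> rcases z2 (b x) with h3 | h3 <;> first | (exfalso; revert htx; simp [h1, h2, h3, hz]; done) | (simp [h1, h2, h3, te, ae, be, hz]; done)) (TC 0)) (.cons (by intro x hx htx; have hz : (1 : ZMod 2) + 1 = 0 := (by decide); rcases z2 (t x) with h1 | h1 <;> rcases z2 (a x) with h2 | h2 <;> rcases z2 (b x) with h3 | h3 <;> first | (exfalso; revert htx; simp [h1, h2, h3, hz]; done) | (simp [h1, h2, h3, te, ae, be, hz]; done)) (TR 0)) hx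
  · show DY (Wc W (t :: (t + a) :: C0)) R0
    have hx : DY (Wc (W ⊓ LinearMap.ker t) (a :: C0)) R0 := H 0 2 2
    rw [Wc_cons]
    exact slide0 he te (.cons (by intro x hx htx; have hz : (1 : ZMod 2) + 1 = 0 := (by decide); rcases z2 (t x) with h1 | h1 <;> rcases z2 (a x) with h2 | h2 <;> rcases z2 (b x) with h3 | h3 <;> first | (exfalso; revert htx; simp [h1, h2, h3, hz]; done) | (simp [h1, h2, h3, te, ae, be, hz]; done)) (TC 0)) (TR 0) hx
  · show DY (Wc W (t :: (t + a + b) :: C0)) ((t + a) :: R0)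
    have hx : DY (Wc (W ⊓ LinearMap.ker t) ((a + b) :: C0)) (a :: R0) := H 1 2 0
    rw [Wc_cons]
    exact slide0 he te (.cons (by intro x hx htx; have hz : (1 : ZMod 2) + 1 = 0 := (by decide); rcases z2 (t x) with h1 | h1 <;> rcases z2 (a x) with h2 | h2 <;> rcases z2 (b x) with h3 | h3 <;> first | (exfalso; revert htx; simp [h1, h2, h3, hz]; done) | (simp [h1, h2, h3, te, ae, be, hz]; done)) (TC 0)) (.cons (by intro x hx htx; have hz : (1 : ZMod 2) + 1 = 0 := (by decide); rcases z2 (t x) with h1 | h1 <;> rcases z2 (a x) with h2 | h2 <;> rcases z2 (b x) with h3 | h3 <;> first | (exfalso; revert htx; simp [h1, h2, h3, hz]; done) | (simp [h1, h2, h3, te, ae, be, hz]; done)) (TR 0)) hx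
  · show DY (Wc W (t :: C0)) ((t + a) :: (t + a + b) :: R0)
    have hx : DY (Wc (W ⊓ LinearMap.ker t) C0) (a :: (a + b) :: R0) := H 1 2 1
    rw [Wc_cons]
    exact slide0 he te (TC 0) (.cons (by intro x hx htx; have hz : (1 : ZMod 2) + 1 = 0 := (by decide); rcases z2 (t x) with h1 | h1 <;> rcases z2 (a x) with h2 | h2 <;> rcases z2 (b x) with h3 | h3 <;> first | (exfalso; revert htx; simp [h1, h2, h3, hz]; done) | (simp [h1, h2, h3, te, ae, be, hz]; done)) (.cons (by intro x hx htx; have hz : (1 : ZMod 2) + 1 = 0 := (by decide); rcases z2 (t x) with h1 | h1 <;> rcases z2 (a x) with h2 | h2 <;> rcases z2 (b x) with h3 | h3 <;> first | (exfalso; revert htx; simp [h1, h2, h3, hz]; done) | (simp [h1, h2, h3, te, ae, be, hz]; done)) (TR 0))) hx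
  · show DY (Wc W (t :: C0)) ((t + a) :: R0)
    have hx : DY (Wc (W ⊓ LinearMap.ker t) C0) (a :: R0) := H 1 2 2
    rw [Wc_cons]
    exact slide0 he te (TC 0) (.cons (by intro x hx htx; have hz : (1 : ZMod 2) + 1 = 0 := (by decide); rcases z2 (t x) with h1 | h1 <;> rcases z2 (a x) with h2 | h2 <;> rcases z2 (b x) with h3 | h3 <;> first | (exfalso; revert htx; simp [h1, h2, h3, hz]; done) | (simp [h1, h2, h3, te, ae, be, hz]; done)) (TR 0)) hx
  · show DY (Wc W (t :: (t + a + b) :: C0)) R0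
    have hx : DY (Wc (W ⊓ LinearMap.ker t) ((a + b) :: C0)) R0 := H 2 2 0
    rw [Wc_cons]
    exact slide0 he te (.cons (by intro x hx htx; have hz : (1 : ZMod 2) + 1 = 0 := (by decide); rcases z2 (t x) with h1 | h1 <;> rcases z2 (a x) with h2 | h2 <;> rcases z2 (b x) with h3 | h3 <;> first | (exfalso; revert htx; simp [h1, h2, h3, hz]; done) | (simp [h1, h2, h3, te, ae, be, hz]; done)) (TC 0)) (TR 0) hx
  · show DY (Wc W (t :: C0)) ((t + a + b) :: R0)
    have hx : DY (Wc (W ⊓ LinearMap.ker t) C0) ((a + b) :: R0) := H 2 2 1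
    rw [Wc_cons]
    exact slide0 he te (TC 0) (.cons (by intro x hx htx; have hz : (1 : ZMod 2) + 1 = 0 := (by decide); rcases z2 (t x) with h1 | h1 <;> rcases z2 (a x) with h2 | h2 <;> rcases z2 (b x) with h3 | h3 <;> first | (exfalso; revert htx; simp [h1, h2, h3, hz]; done) | (simp [h1, h2, h3, te, ae, be, hz]; done)) (TR 0)) hx
  · show DY (Wc W (t :: C0)) R0
    have hx : DY (Wc (W ⊓ LinearMap.ker t) C0) R0 := H 2 2 2
    rw [Wc_cons]
    exact slide0 he te (TC 0) (TR 0) hx
  · show DY (Wc W ((t + a) :: (t + a + b) :: C0)) (t :: R0)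
    have hx : DY (Wc (W ⊓ LinearMap.ker t) (b :: C0)) (a :: R0) := H 1 0 2
    rw [Wc_cons]
    exact slideDY he te ae (.cons (by intro x hx htx; have hz : (1 : ZMod 2) + 1 = 0 := (by decide); rcases z2 (t x) with h1 | h1 <;> rcases z2 (a x) with h2 | h2 <;> rcases z2 (b x) with h3 | h3 <;> first | (exfalso; revert htx; simp [h1, h2, h3, hz]; done) | (simp [h1, h2, h3, te, ae, be, hz]; done)) (TC a)) (.cons (by intro x hx htx; have hz : (1 : ZMod 2) + 1 = 0 := (by decide); rcases z2 (t x) with h1 | h1 <;> rcases z2 (a x) with h2 | h2 <;> rcases z2 (b x) with h3 | h3 <;> first | (exfalso; revert htx; simp [h1, h2, h3, hz]; done) | (simp [h1, h2, h3, te, ae, be, hz]; done)) (TR a)) hx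
  · show DY (Wc W ((t + a) :: C0)) (t :: (t + a + b) :: R0)
    have hx : DY (Wc (W ⊓ LinearMap.ker t) C0) (a :: b :: R0) := H 1 1 2
    rw [Wc_cons]
    exact slideDY he te ae (TC a) (.cons (by intro x hx htx; have hz : (1 : ZMod 2) + 1 = 0 := (by decide); rcases z2 (t x) with h1 | h1 <;> rcases z2 (a x) with h2 | h2 <;> rcases z2 (b x) with h3 | h3 <;> first | (exfalso; revert htx; simp [h1, h2, h3, hz]; done) | (simp [h1, h2, h3, te, ae, be, hz]; done)) (.cons (by intro x hx htx; have hz : (1 : ZMod 2) + 1 = 0 := (by decide); rcases z2 (t x) with h1 | h1 <;> rcases z2 (a x) with h2 | h2 <;> rcases z2 (b x) with h3 | h3 <;> first | (exfalso; revert htx; simp [h1, h2, h3, hz]; done) | (simp [h1, h2, h3, te, ae, be, hz]; done)) (TR a))) hx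
  · show DY (Wc W ((t + a) :: C0)) (t :: R0)
    have hx : DY (Wc (W ⊓ LinearMap.ker t) C0) (a :: R0) := H 1 2 2
    rw [Wc_cons]
    exact slideDY he te ae (TC a) (.cons (by intro x hx htx; have hz : (1 : ZMod 2) + 1 = 0 := (by decide); rcases z2 (t x) with h1 | h1 <;> rcases z2 (a x) with h2 | h2 <;> rcases z2 (b x) with h3 | h3 <;> first | (exfalso; revert htx; simp [h1, h2, h3, hz]; done) | (simp [h1, h2, h3, te, ae, be, hz]; done)) (TR a)) hx
  · show DY (Wc W ((t + a + b) :: C0)) (t :: (t + a) :: R0)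
    have hx : DY (Wc (W ⊓ LinearMap.ker t) C0) (b :: (a + b) :: R0) := H 2 1 1
    replace hx := DY.perm (List.Perm.swap _ _ _) hx
    rw [Wc_cons, add_assoc t a b]
    exact slideDY he te abe (TC (a + b)) (.cons (by intro x hx htx; have hz : (1 : ZMod 2) + 1 = 0 := (by decide); rcases z2 (t x) with h1 | h1 <;> rcases z2 (a x) with h2 | h2 <;> rcases z2 (b x) with h3 | h3 <;> first | (exfalso; revert htx; simp [h1, h2, h3, hz]; done) | (simp [h1, h2, h3, te, ae, be, hz]; done)) (.cons (by intro x hx htx; have hz : (1 : ZMod 2) + 1 = 0 := (by decide); rcases z2 (t x) with h1 | h1 <;> rcases z2 (a x) with h2 | h2 <;> rcases z2 (b x) with h3 | h3 <;> first | (exfalso; revert htx; simp [h1, h2, h3, hz]; done) | (simp [h1, h2, h3, te, ae, be, hz]; done)) (TR (a + b)))) hx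
  · show DY (Wc W C0) (t :: (t + a) :: (t + a + b) :: R0)
    have hx : DY (Wc (W ⊓ LinearMap.ker t) C0) (a :: b :: (a + b) :: R0) := H 1 1 1
    refine DY.toY ⟨e, ⟨he, Ce⟩, te, ?_⟩ ?_
    · intro f hf
      simp only [List.mem_cons] at hf
      rcases hf with rfl | rfl | hf
      · exact ae
      · exact be
      · exact Re f hf
    · rw [← Wc_inf]; exact hx
  · show DY (Wc W C0) (t :: (t + a) :: R0)
    have hx : DY (Wc (W ⊓ LinearMap.ker t) C0) (a :: R0) := H 1 2 2
    refine DY.series ⟨e, ⟨he, Ce⟩, te, ?_⟩ ?_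
    · intro f hf
      simp only [List.mem_cons] at hf
      rcases hf with rfl | hf
      · exact ae
      · exact Re f hf
    · rw [← Wc_inf]; exact hx
  · show DY (Wc W ((t + a + b) :: C0)) (t :: R0)
    have hx : DY (Wc (W ⊓ LinearMap.ker t) C0) ((a + b) :: R0) := H 2 2 1
    rw [Wc_cons, add_assoc t a b]
    exact slideDY he te abe (TC (a + b)) (.cons (by intro x hx htx; have hz : (1 : ZMod 2) + 1 = 0 := (by decide); rcases z2 (t x) with h1 | h1 <;> rcases z2 (a x) with h2 | h2 <;> rcases z2 (b x) with h3 | h3 <;> first | (exfalso; revert htx; simp [h1, h2, h3, hz]; done) | (simp [h1, h2, h3, te, ae, be, hz]; done)) (TR (a + b))) hx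
  · show DY (Wc W C0) (t :: (t + a + b) :: R0)
    have hx : DY (Wc (W ⊓ LinearMap.ker t) C0) ((a + b) :: R0) := H 2 2 1
    rw [add_assoc t a b]
    refine DY.series ⟨e, ⟨he, Ce⟩, te, ?_⟩ ?_
    · intro f hf
      simp only [List.mem_cons] at hf
      rcases hf with rfl | hf
      · exact abe
      · exact Re f hf
    · rw [← Wc_inf]; exact hx
  · show DY (Wc W C0) (t :: R0)
    have hx : DY (Wc (W ⊓ LinearMap.ker t) C0) R0 := H 2 2 2
    refine DY.coloop ⟨e, ⟨he, Ce⟩, te, Re⟩ ?_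
    rw [← Wc_inf]; exact hx
  · show DY (Wc W ((t + a) :: (t + a + b) :: C0)) R0
    have hx : DY (Wc (W ⊓ LinearMap.ker t) (b :: C0)) R0 := H 2 0 2
    rw [Wc_cons]
    exact slideDY he te ae (.cons (by intro x hx htx; have hz : (1 : ZMod 2) + 1 = 0 := (by decide); rcases z2 (t x) with h1 | h1 <;> rcases z2 (a x) with h2 | h2 <;> rcases z2 (b x) with h3 | h3 <;> first | (exfalso; revert htx; simp [h1, h2, h3, hz]; done) | (simp [h1, h2, h3, te, ae, be, hz]; done)) (TC a)) (TR a) hx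
  · show DY (Wc W ((t + a) :: C0)) ((t + a + b) :: R0)
    have hx : DY (Wc (W ⊓ LinearMap.ker t) C0) (b :: R0) := H 2 1 2
    rw [Wc_cons]
    exact slideDY he te ae (TC a) (.cons (by intro x hx htx; have hz : (1 : ZMod 2) + 1 = 0 := (by decide); rcases z2 (t x) with h1 | h1 <;> rcases z2 (a x) with h2 | h2 <;> rcases z2 (b x) with h3 | h3 <;> first | (exfalso; revert htx; simp [h1, h2, h3, hz]; done) | (simp [h1, h2, h3, te, ae, be, hz]; done)) (TR a)) hx
  · show DY (Wc W ((t + a) :: C0)) R0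
    have hx : DY (Wc (W ⊓ LinearMap.ker t) C0) R0 := H 2 2 2
    rw [Wc_cons]
    exact slideDY he te ae (TC a) (TR a) hx
  · show DY (Wc W ((t + a + b) :: C0)) ((t + a) :: R0)
    have hx : DY (Wc (W ⊓ LinearMap.ker t) C0) (b :: R0) := H 2 1 2
    rw [Wc_cons, add_assoc t a b]
    exact slideDY he te abe (TC (a + b)) (.cons (by intro x hx htx; have hz : (1 : ZMod 2) + 1 = 0 := (by decide); rcases z2 (t x) with h1 | h1 <;> rcases z2 (a x) with h2 | h2 <;> rcases z2 (b x) with h3 | h3 <;> first | (exfalso; revert htx; simp [h1, h2, h3, hz]; done) | (simp [h1, h2, h3, te, ae, be, hz]; done)) (TR (a + b))) hx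
  · show DY (Wc W C0) ((t + a) :: (t + a + b) :: R0)
    have hx : DY (Wc (W ⊓ LinearMap.ker t) C0) (b :: R0) := H 2 1 2
    refine DY.series ⟨e, ⟨he, Ce⟩, by simp [te, ae], ?_⟩ ?_
    · intro f hf
      simp only [List.mem_cons] at hf
      rcases hf with rfl | hf
      · exact be
      · exact Re f hf
    · rw [← Wc_inf]
      exact slideDY he te ae (TC a) (.cons (by intro x hx htx; have hz : (1 : ZMod 2) + 1 = 0 := (by decide); rcases z2 (t x) with h1 | h1 <;> rcases z2 (a x) with h2 | h2 <;> rcases z2 (b x) with h3 | h3 <;> first | (exfalso; revert htx; simp [h1, h2, h3, hz]; done) | (simp [h1, h2, h3, te, ae, be, hz]; done)) (TR a)) hx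
  · show DY (Wc W C0) ((t + a) :: R0)
    have hx : DY (Wc (W ⊓ LinearMap.ker t) C0) R0 := H 2 2 2
    refine DY.coloop ⟨e, ⟨he, Ce⟩, by simp [te, ae], Re⟩ ?_
    rw [← Wc_inf]
    exact slideDY he te ae (TC a) (TR a) hx
  · show DY (Wc W ((t + a + b) :: C0)) R0
    have hx : DY (Wc (W ⊓ LinearMap.ker t) C0) R0 := H 2 2 2
    rw [Wc_cons, add_assoc t a b]
    exact slideDY he te abe (TC (a + b)) (TR (a + b)) hx
  · show DY (Wc W C0) ((t + a + b) :: R0)
    have hx : DY (Wc (W ⊓ LinearMap.ker t) C0) R0 := H 2 2 2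
    refine DY.coloop ⟨e, ⟨he, Ce⟩, by simp [te, ae, be], Re⟩ ?_
    rw [← Wc_inf, add_assoc t a b]
    exact slideDY he te abe (TC (a + b)) (TR (a + b)) hx
  · show DY (Wc W C0) R0
    have hx : DY (Wc (W ⊓ LinearMap.ker t) C0) R0 := H 2 2 2
    refine DY.free (t := t) ⟨e, ⟨he, Ce⟩, te, Re⟩ ?_
    rw [← Wc_inf]; exact hx

theorem her_toDelta {W : Submodule (ZMod 2) U} {l : List (Dual (ZMod 2) U)}
    {t a b : Dual (ZMod 2) U} (h : Priv W (a :: b :: l) t)
    (hl : Her W (t :: (t + a) :: (t + a + b) :: l)) :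
    Her (W ⊓ LinearMap.ker t) (a :: b :: (a + b) :: l) := by
  intro C R D hp
  obtain ⟨i, j, k, C0, R0, D0, c3, r3, d3, h2⟩ := split3 hp
  have H : ∀ i j k : Fin 3, DY (Wc W (sel 0 i j k t (t + a) (t + a + b) ++ C0))
      (sel 1 i j k t (t + a) (t + a + b) ++ R0) := fun i j k => hl _ _ _ (join3 h2 i j k)
  refine DY.perm r3.symm ?_
  rw [Wc_perm c3]
  have hC : ∀ f ∈ C0, f ∈ l := fun f hf => h2.symm.subset (by simp [hf])
  have hR : ∀ f ∈ R0, f ∈ l := fun f hf => h2.symm.subset (by simp [hf])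
  obtain ⟨e, he, te, hfe⟩ := h
  have ae : a e = 0 := hfe a (by simp)
  have be : b e = 0 := hfe b (by simp)
  have abe : (a + b) e = 0 := by simp [ae, be]
  have tae : (t + a) e = 1 := by simp [te, ae]
  have tabe : (t + a + b) e = 1 := by simp [te, ae, be]
  have Ce : ∀ f ∈ C0, f e = 0 := fun f hf => hfe f (by simp [hC f hf])
  have Re : ∀ f ∈ R0, f e = 0 := fun f hf => hfe f (by simp [hR f hf])
  have ka : LinearMap.ker (t + a + a) = LinearMap.ker t := by
    congr 1; ext x; simp [add_assoc, z2_add_self]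
  have kb : LinearMap.ker (t + a + b + (a + b)) = LinearMap.ker t := by
    congr 1; ext x
    simp only [LinearMap.add_apply]
    generalize t x = p; generalize a x = q; generalize b x = r
    revert p q r; decide
  have f112 : DY (Wc (W ⊓ LinearMap.ker t) C0) (a :: b :: R0) := by
    have hx : DY (Wc W ((t + a) :: C0)) (t :: (t + a + b) :: R0) := H 1 0 1
    rw [Wc_cons] at hx
    have hy := slideDY he tae ae (C2 := C0) (R2 := (a :: b :: R0)) (SR_tail Ce) (.cons (by intro x hx htx; have hz : (1 : ZMod 2) + 1 = 0 := (by decide); rcases z2 (t x) with h1 | h1 <;> rcases z2 (a x) with h2 | h2 <;> rcases z2 (b x) with h3 | h3 <;> first | (exfalso; revert htx; simp [h1, h2, h3, hz]; done) | (simp [h1, h2, h3, te, ae, be, hz]; done)) (.cons (by intro x hx htx; have hz : (1 : ZMod 2) + 1 = 0 := (by decide); rcases z2 (t x) with h1 | h1 <;> rcases z2 (a x) with h2 | h2 <;> rcases z2 (b x) with h3 | h3 <;> first | (exfalso; revert htx; simp [h1, h2, h3, hz]; done) |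 (simp [h1, h2, h3, te, ae, be, hz]; done)) (SR_tail Re))) hx
    rwa [ka] at hy
  have f121 : DY (Wc (W ⊓ LinearMap.ker t) C0) (a :: (a + b) :: R0) := by
    have hx : DY (Wc W (t :: C0)) ((t + a) :: (t + a + b) :: R0) := H 0 1 1
    rw [Wc_cons] at hx
    exact slide0 he te (SR_tail Ce) (.cons (by intro x hx htx; have hz : (1 : ZMod 2) + 1 = 0 := (by decide); rcases z2 (t x) with h1 | h1 <;> rcases z2 (a x) with h2 | h2 <;> rcases z2 (b x) with h3 | h3 <;> first | (exfalso; revert htx; simp [h1, h2, h3, hz]; done) | (simp [h1, h2, h3, te, ae, be, hz]; done)) (.cons (by intro x hx htx; have hz : (1 : ZMod 2) + 1 = 0 := (by decide); rcases z2 (t x) with h1 | h1 <;> rcases z2 (a x) with h2 | h2 <;> rcases z2 (b x) with h3 | h3 <;> first | (exfalso; revert htx; simp [h1, h2, h3, hz]; done) | (simp [h1, h2, h3, te, ae, be, hz]; done)) (SR_tail Re))) hx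
  have f211p : DY (Wc (W ⊓ LinearMap.ker t) C0) ((a + b) :: b :: R0) := by
    have hx : DY (Wc W ((t + a + b) :: C0)) (t :: (t + a) :: R0) := H 1 1 0
    rw [Wc_cons] at hx
    have hy := slideDY he tabe abe (C2 := C0) (R2 := ((a + b) :: b :: R0)) (SR_tail Ce) (.cons (by intro x hx htx; have hz : (1 : ZMod 2) + 1 = 0 := (by decide); rcases z2 (t x) with h1 | h1 <;> rcases z2 (a x) with h2 | h2 <;> rcases z2 (b x) with h3 | h3 <;> first | (exfalso; revert htx; simp [h1, h2, h3, hz]; done) | (simp [h1, h2, h3, te, ae, be, hz]; done)) (.cons (by intro x hx htx; have hz : (1 : ZMod 2) + 1 = 0 := (by decide); rcases z2 (t x) with h1 | h1 <;> rcases z2 (a x) with h2 | h2 <;> rcases z2 (b x) with h3 | h3 <;> first | (exfalso; revert htx; simp [h1, h2, h3, hz]; done) | (simp [h1, h2, h3, te, ae, be, hz]; done)) (SR_tail Re))) hx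
    rwa [kb] at hy
  have f211 := DY.perm (List.Perm.swap _ _ _) f211p
  have f122 : DY (Wc (W ⊓ LinearMap.ker t) C0) (a :: R0) := by
    have hx : DY (Wc W (t :: C0)) ((t + a) :: R0) := H 0 1 2
    rw [Wc_cons] at hx
    exact slide0 he te (SR_tail Ce) (.cons (by intro x hx htx; have hz : (1 : ZMod 2) + 1 = 0 := (by decide); rcases z2 (t x) with h1 | h1 <;> rcases z2 (a x) with h2 | h2 <;> rcases z2 (b x) with h3 | h3 <;> first | (exfalso; revert htx; simp [h1, h2, h3, hz]; done) | (simp [h1, h2, h3, te, ae, be, hz]; done)) (SR_tail Re)) hx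
  have f212 : DY (Wc (W ⊓ LinearMap.ker t) C0) (b :: R0) := by
    have hx : DY (Wc W ((t + a) :: C0)) ((t + a + b) :: R0) := H 2 0 1
    rw [Wc_cons] at hx
    have hy := slideDY he tae ae (C2 := C0) (R2 := (b :: R0)) (SR_tail Ce) (.cons (by intro x hx htx; have hz : (1 : ZMod 2) + 1 = 0 := (by decide); rcases z2 (t x) with h1 | h1 <;> rcases z2 (a x) with h2 | h2 <;> rcases z2 (b x) with h3 | h3 <;> first | (exfalso; revert htx; simp [h1, h2, h3, hz]; done) | (simp [h1, h2, h3, te, ae, be, hz]; done)) (SR_tail Re)) hx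
    rwa [ka] at hy
  have f221 : DY (Wc (W ⊓ LinearMap.ker t) C0) ((a + b) :: R0) := by
    have hx : DY (Wc W (t :: C0)) ((t + a + b) :: R0) := H 0 2 1
    rw [Wc_cons] at hx
    exact slide0 he te (SR_tail Ce) (.cons (by intro x hx htx; have hz : (1 : ZMod 2) + 1 = 0 := (by decide); rcases z2 (t x) with h1 | h1 <;> rcases z2 (a x) with h2 | h2 <;> rcases z2 (b x) with h3 | h3 <;> first | (exfalso; revert htx; simp [h1, h2, h3, hz]; done) | (simp [h1, h2, h3, te, ae, be, hz]; done)) (SR_tail Re)) hx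
  have f222 : DY (Wc (W ⊓ LinearMap.ker t) C0) R0 := by
    have hx : DY (Wc W (t :: C0)) R0 := H 0 2 2
    rw [Wc_cons] at hx
    exact slide0 he te (SR_tail Ce) (SR_tail Re) hx
  have f021 : DY (Wc (W ⊓ LinearMap.ker t) (a :: C0)) ((a + b) :: R0) := by
    have hx : DY (Wc W (t :: (t + a) :: C0)) ((t + a + b) :: R0) := H 0 0 1
    rw [Wc_cons] at hx
    exact slide0 he te (.cons (by intro x hx htx; have hz : (1 : ZMod 2) + 1 = 0 := (by decide); rcases z2 (t x) with h1 | h1 <;> rcases z2 (a x) with h2 | h2 <;> rcases z2 (b x) with h3 | h3 <;> first | (exfalso; revert htx; simp [h1, h2, h3, hz]; done) | (simp [h1, h2, h3, te, ae, be, hz]; done)) (SR_tail Ce)) (.cons (by intro x hx htx; have hz : (1 : ZMod 2) + 1 = 0 := (by decide); rcases z2 (t x) with h1 | h1 <;> rcases z2 (a x) with h2 | h2 <;> rcases z2 (b x) with h3 | h3 <;> first | (exfalso; revert htx; simp [h1, h2, h3, hz]; done) | (simp [h1, h2, h3, te, ae, be, hz]; done)) (SR_tail Re)) hx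
  have f022 : DY (Wc (W ⊓ LinearMap.ker t) (a :: C0)) R0 := by
    have hx : DY (Wc W (t :: (t + a) :: C0)) R0 := H 0 0 2
    rw [Wc_cons] at hx
    exact slide0 he te (.cons (by intro x hx htx; have hz : (1 : ZMod 2) + 1 = 0 := (by decide); rcases z2 (t x) with h1 | h1 <;> rcases z2 (a x) with h2 | h2 <;> rcases z2 (b x) with h3 | h3 <;> first | (exfalso; revert htx; simp [h1, h2, h3, hz]; done) | (simp [h1, h2, h3, te, ae, be, hz]; done)) (SR_tail Ce)) (SR_tail Re) hx
  have f102 : DY (Wc (W ⊓ LinearMap.ker t) (b :: C0)) (a :: R0) := by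
    have hx : DY (Wc W ((t + a) :: (t + a + b) :: C0)) (t :: R0) := H 1 0 0
    rw [Wc_cons] at hx
    have hy := slideDY he tae ae (C2 := (b :: C0)) (R2 := (a :: R0)) (.cons (by intro x hx htx; have hz : (1 : ZMod 2) + 1 = 0 := (by decide); rcases z2 (t x) with h1 | h1 <;> rcases z2 (a x) with h2 | h2 <;> rcases z2 (b x) with h3 | h3 <;> first | (exfalso; revert htx; simp [h1, h2, h3, hz]; done) | (simp [h1, h2, h3, te, ae, be, hz]; done)) (SR_tail Ce)) (.cons (by intro x hx htx; have hz : (1 : ZMod 2) + 1 = 0 := (by decide); rcases z2 (t x) with h1 | h1 <;> rcases z2 (a x) with h2 | h2 <;> rcases z2 (b x) with h3 | h3 <;> first | (exfalso; revert htx; simp [h1, h2, h3, hz]; done) | (simp [h1, h2, h3, te, ae, be, hz]; done)) (SR_tail Re)) hx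
    rwa [ka] at hy
  have f202 : DY (Wc (W ⊓ LinearMap.ker t) (b :: C0)) R0 := by
    have hx : DY (Wc W ((t + a) :: (t + a + b) :: C0)) R0 := H 2 0 0
    rw [Wc_cons] at hx
    have hy := slideDY he tae ae (C2 := (b :: C0)) (R2 := R0) (.cons (by intro x hx htx; have hz : (1 : ZMod 2) + 1 = 0 := (by decide); rcases z2 (t x) with h1 | h1 <;> rcases z2 (a x) with h2 | h2 <;> rcases z2 (b x) with h3 | h3 <;> first | (exfalso; revert htx; simp [h1, h2, h3, hz]; done) | (simp [h1, h2, h3, te, ae, be, hz]; done)) (SR_tail Ce)) (SR_tail Re) hx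
    rwa [ka] at hy
  have f120 : DY (Wc (W ⊓ LinearMap.ker t) ((a + b) :: C0)) (a :: R0) := by
    have hx : DY (Wc W (t :: (t + a + b) :: C0)) ((t + a) :: R0) := H 0 1 0
    rw [Wc_cons] at hx
    exact slide0 he te (.cons (by intro x hx htx; have hz : (1 : ZMod 2) + 1 = 0 := (by decide); rcases z2 (t x) with h1 | h1 <;> rcases z2 (a x) with h2 | h2 <;> rcases z2 (b x) with h3 | h3 <;> first | (exfalso; revert htx; simp [h1, h2, h3, hz]; done) | (simp [h1, h2, h3, te, ae, be, hz]; done)) (SR_tail Ce)) (.cons (by intro x hx htx; have hz : (1 : ZMod 2) + 1 = 0 := (by decide); rcases z2 (t x) with h1 | h1 <;> rcases z2 (a x) with h2 | h2 <;> rcases z2 (b x) with h3 | h3 <;> first | (exfalso; revert htx; simp [h1, h2, h3, hz]; done) | (simp [h1, h2, h3, te, ae, be, hz]; done)) (SR_tail Re)) hx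
  have f220 : DY (Wc (W ⊓ LinearMap.ker t) ((a + b) :: C0)) R0 := by
    have hx : DY (Wc W (t :: (t + a + b) :: C0)) R0 := H 0 2 0
    rw [Wc_cons] at hx
    exact slide0 he te (.cons (by intro x hx htx; have hz : (1 : ZMod 2) + 1 = 0 := (by decide); rcases z2 (t x) with h1 | h1 <;> rcases z2 (a x) with h2 | h2 <;> rcases z2 (b x) with h3 | h3 <;> first | (exfalso; revert htx; simp [h1, h2, h3, hz]; done) | (simp [h1, h2, h3, te, ae, be, hz]; done)) (SR_tail Ce)) (SR_tail Re) hx
  have g000 : DY (Wc (W ⊓ LinearMap.ker t) (a :: (a + b) :: C0)) R0 := by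
    have hx : DY (Wc W (t :: (t + a) :: (t + a + b) :: C0)) R0 := H 0 0 0
    rw [Wc_cons] at hx
    exact slide0 he te (.cons (by intro x hx htx; have hz : (1 : ZMod 2) + 1 = 0 := (by decide); rcases z2 (t x) with h1 | h1 <;> rcases z2 (a x) with h2 | h2 <;> rcases z2 (b x) with h3 | h3 <;> first | (exfalso; revert htx; simp [h1, h2, h3, hz]; done) | (simp [h1, h2, h3, te, ae, be, hz]; done)) (.cons (by intro x hx htx; have hz : (1 : ZMod 2) + 1 = 0 := (by decide); rcases z2 (t x) with h1 | h1 <;> rcases z2 (a x) with h2 | h2 <;> rcases z2 (b x) with h3 | h3 <;> first | (exfalso; revert htx; simp [h1, h2, h3, hz]; done) | (simp [h1, h2, h3, te, ae, be, hz]; done)) (SR_tail Ce))) (SR_tail Re) hx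
  have qa : ∀ x ∈ Wc (W ⊓ LinearMap.ker t) (a :: C0), a x = 0 :=
    fun x hx => hx.2 a List.mem_cons_self
  have qb : ∀ x ∈ Wc (W ⊓ LinearMap.ker t) (b :: C0), b x = 0 :=
    fun x hx => hx.2 b List.mem_cons_self
  have qc : ∀ x ∈ Wc (W ⊓ LinearMap.ker t) ((a + b) :: C0), a x + b x = 0 :=
    fun x hx => hx.2 (a + b) List.mem_cons_self
  have s1 : Wc (W ⊓ LinearMap.ker t) (a :: b :: C0) =
      Wc (W ⊓ LinearMap.ker t) (a :: (a + b) :: C0) := by
    ext x
    simp only [mem_Wc, List.forall_mem_cons, LinearMap.add_apply]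
    constructor
    · rintro ⟨h1, h2, h3, h4⟩; exact ⟨h1, h2, by rw [h2, h3, add_zero], h4⟩
    · rintro ⟨h1, h2, h3, h4⟩; exact ⟨h1, h2, by rwa [h2, zero_add] at h3, h4⟩
  have s2 : Wc (W ⊓ LinearMap.ker t) (b :: (a + b) :: C0) =
      Wc (W ⊓ LinearMap.ker t) (a :: (a + b) :: C0) := by
    ext x
    simp only [mem_Wc, List.forall_mem_cons, LinearMap.add_apply]
    constructor
    · rintro ⟨h1, h2, h3, h4⟩; exact ⟨h1, by rwa [h2, add_zero] at h3, h3, h4⟩
    · rintro ⟨h1, h2, h3, h4⟩; exact ⟨h1, by rwa [h2, zero_add] at h3, h3, h4⟩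
  have s3 : Wc (W ⊓ LinearMap.ker t) (a :: b :: (a + b) :: C0) =
      Wc (W ⊓ LinearMap.ker t) (a :: (a + b) :: C0) := by
    ext x
    simp only [mem_Wc, List.forall_mem_cons, LinearMap.add_apply]
    constructor
    · rintro ⟨h1, h2, h3, h4, h5⟩; exact ⟨h1, h2, h4, h5⟩
    · rintro ⟨h1, h2, h3, h4⟩; exact ⟨h1, h2, by rwa [h2, zero_add] at h3, h3, h4⟩
  have va : ∀ x ∈ Wc (W ⊓ LinearMap.ker t) (a :: (a + b) :: C0), a x = 0 :=
    fun x hx => hx.2 a (by simp)
  have vc : ∀ x ∈ Wc (W ⊓ LinearMap.ker t) (a :: (a + b) :: C0), (a + b) x = 0 :=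
    fun x hx => hx.2 (a + b) (by simp)
  have vb : ∀ x ∈ Wc (W ⊓ LinearMap.ker t) (a :: (a + b) :: C0), b x = 0 :=
    fun x hx => by have := vc x hx; rwa [LinearMap.add_apply, va x hx, zero_add] at this
  fin_cases i <;> fin_cases j <;> fin_cases k
  · show DY (Wc (W ⊓ LinearMap.ker t) (a :: b :: (a + b) :: C0)) R0
    rw [s3]; exact g000
  · show DY (Wc (W ⊓ LinearMap.ker t) (a :: b :: C0)) ((a + b) :: R0)
    rw [s1]; exact DY.loop vc g000
  · show DY (Wc (W ⊓ LinearMap.ker t) (a :: b :: C0)) R0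
    rw [s1]; exact g000
  · show DY (Wc (W ⊓ LinearMap.ker t) (a :: (a + b) :: C0)) (b :: R0)
    exact DY.loop vb g000
  · show DY (Wc (W ⊓ LinearMap.ker t) (a :: C0)) (b :: (a + b) :: R0)
    exact congrDY (.cons (fun x hx => by simp [qa x hx]) (.cons (fun x hx => by simp [qa x hx]) (refl_tail R0))) (DY.par f021)
  · show DY (Wc (W ⊓ LinearMap.ker t) (a :: C0)) (b :: R0)
    exact congrDY (.cons (fun x hx => by simp [qa x hx]) (refl_tail R0)) f021
  · show DY (Wc (W ⊓ LinearMap.ker t) (a :: (a + b) :: C0)) R0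
    exact g000
  · show DY (Wc (W ⊓ LinearMap.ker t) (a :: C0)) ((a + b) :: R0)
    exact f021
  · show DY (Wc (W ⊓ LinearMap.ker t) (a :: C0)) R0
    exact f022
  · show DY (Wc (W ⊓ LinearMap.ker t) (b :: (a + b) :: C0)) (a :: R0)
    rw [s2]; exact DY.loop va g000
  · show DY (Wc (W ⊓ LinearMap.ker t) (b :: C0)) (a :: (a + b) :: R0)
    exact congrDY (.cons (fun x hx => by simp) (.cons (fun x hx => by simp [qb x hx]) (refl_tail R0))) (DY.par f102)
  · show DY (Wc (W ⊓ LinearMap.ker t) (b :: C0)) (a :: R0)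
    exact f102
  · show DY (Wc (W ⊓ LinearMap.ker t) ((a + b) :: C0)) (a :: b :: R0)
    exact congrDY (.cons (fun x hx => by simp) (.cons (fun x hx => eq_of_add_z2 (qc x hx)) (refl_tail R0))) (DY.par f120)
  · show DY (Wc (W ⊓ LinearMap.ker t) C0) (a :: b :: (a + b) :: R0)
    have hx : DY (Wc W C0) (t :: (t + a) :: (t + a + b) :: R0) := H 1 1 1
    rw [Wc_inf]
    refine DY.toDelta ⟨e, ⟨he, Ce⟩, te, ?_⟩ hx
    intro f hf
    simp only [List.mem_cons] at hf
    rcases hf with rfl | rfl | hf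
    · exact ae
    · exact be
    · exact Re f hf
  · show DY (Wc (W ⊓ LinearMap.ker t) C0) (a :: b :: R0)
    exact f112
  · show DY (Wc (W ⊓ LinearMap.ker t) ((a + b) :: C0)) (a :: R0)
    exact f120
  · show DY (Wc (W ⊓ LinearMap.ker t) C0) (a :: (a + b) :: R0)
    exact f121
  · show DY (Wc (W ⊓ LinearMap.ker t) C0) (a :: R0)
    exact f122
  · show DY (Wc (W ⊓ LinearMap.ker t) (b :: (a + b) :: C0)) R0
    rw [s2]; exact g000
  · show DY (Wc (W ⊓ LinearMap.ker t) (b :: C0)) ((a + b) :: R0)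
    exact congrDY (.cons (fun x hx => by simp [qb x hx]) (refl_tail R0)) f102
  · show DY (Wc (W ⊓ LinearMap.ker t) (b :: C0)) R0
    exact f202
  · show DY (Wc (W ⊓ LinearMap.ker t) ((a + b) :: C0)) (b :: R0)
    exact congrDY (.cons (fun x hx => eq_of_add_z2 (qc x hx)) (refl_tail R0)) f120
  · show DY (Wc (W ⊓ LinearMap.ker t) C0) (b :: (a + b) :: R0)
    exact f211
  · show DY (Wc (W ⊓ LinearMap.ker t) C0) (b :: R0)
    exact f212
  · show DY (Wc (W ⊓ LinearMap.ker t) ((a + b) :: C0)) R0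
    exact f220
  · show DY (Wc (W ⊓ LinearMap.ker t) C0) ((a + b) :: R0)
    exact f221
  · show DY (Wc (W ⊓ LinearMap.ker t) C0) R0
    exact f222

/-- every minor of a Delta-Y reducible configuration is Delta-Y reducible (Truemper's lemma) -/
theorem DY.her {W : Submodule (ZMod 2) U} {l : List (Dual (ZMod 2) U)} (h : DY W l) :
    Her W l := by
  induction h with
  | nil W => exact her_nil W
  | perm h _ ih => exact her_perm h ih
  | iso φ h _ ih => exact her_iso φ h ih
  | loop h _ ih => exact her_loop h ih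
  | par _ ih => exact her_par ih
  | free h _ ih => exact her_free h ih
  | coloop h _ ih => exact her_coloop h ih
  | series h _ ih => exact her_series h ih
  | toY h _ ih => exact her_toY h ih
  | toDelta h _ ih => exact her_toDelta h ih

end H665R2.LV
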