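import Pool.Agent.H665R2.LV.SwDefs
set_option autoImplicit false

/-! Task B1 (helper85): two edges with a common abscissa are comparable. -/

namespace H665R2.LV

variable {V : Type}

theorem NB1_cont (p : V → ℝ × ℝ) (e : V × V) : Continuous (hgt p e) := by
  unfold hgt
  fun_prop

theorem NB1_below {p : V → ℝ × ℝ} {E : Finset (V × V)} (D : Drw p E) {e e' : V × V}
    (he : e ∈ E) (he' : e' ∈ E) (hne : e ≠ e') (X0 : ℝ) (h1 : (p e.1).1 < X0)
    (h2 : (p e'.1).1 < X0) (h3 : X0 < (p e.2).1) (h4 : X0 < (p e'.2).1)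
    (hlt : hgt p e X0 < hgt p e' X0) : Below p e e' := by
  intro X a1 a2 a3 a4
  by_contra hge
  rw [not_lt] at hge
  have hc : Continuous fun Y => hgt p e Y - hgt p e' Y := (NB1_cont p e).sub (NB1_cont p e')
  have h0 : (0 : ℝ) ∈ Set.uIcc (hgt p e X0 - hgt p e' X0) (hgt p e X - hgt p e' X) := by
    rw [Set.mem_uIcc]
    left
    constructor <;> linarith
  obtain ⟨X3, hX3, h5⟩ := intermediate_value_uIcc hc.continuousOn h0
  rw [Set.mem_uIcc] at hX3
  have h6 : hgt p e X3 = hgt p e' X3 := sub_eq_zero.1 h5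
  refine D.cross e he e' he' hne X3 ?_ ?_ ?_ ?_ h6
  · rcases hX3 with h | h <;> linarith
  · rcases hX3 with h | h <;> linarith
  · rcases hX3 with h | h <;> linarith
  · rcases hX3 with h | h <;> linarith

/-- task B1 -/
theorem below_total {p : V → ℝ × ℝ} {E : Finset (V × V)} (D : Drw p E) {e e' : V × V}
    (he : e ∈ E) (he' : e' ∈ E) (hne : e ≠ e') (X0 : ℝ) (h1 : (p e.1).1 < X0)
    (h2 : (p e'.1).1 < X0) (h3 : X0 < (p e.2).1) (h4 : X0 < (p e'.2).1) :
    Below p e e' ∨ Below p e' e := by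
  rcases lt_trichotomy (hgt p e X0) (hgt p e' X0) with h | h | h
  · exact Or.inl (NB1_below D he he' hne X0 h1 h2 h3 h4 h)
  · exact absurd h (D.cross e he e' he' hne X0 h1 h2 h3 h4)
  · exact Or.inr (NB1_below D he' he (Ne.symm hne) X0 h2 h1 h4 h3 h)

end H665R2.LV
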