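import Pool.Agent.H665R2.LV.SwDefs
set_option autoImplicit false

namespace H665R2.LV

section geometry

variable {V : Type}

private theorem hgt_cont (p : V → ℝ × ℝ) (e : V × V) : Continuous (hgt p e) := by
  unfold hgt
  fun_prop

theorem below_right {p : V → ℝ × ℝ} {e e' : V × V} (h : Below p e e') (X : ℝ)
    (h1 : (p e.1).1 < X) (h2 : (p e'.1).1 < X) (h3 : X ≤ (p e.2).1) (h4 : X ≤ (p e'.2).1) :
    hgt p e X ≤ hgt p e' X := by
  have t1 := (hgt_cont p e).continuousAt.tendsto.mono_left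
    (nhdsWithin_le_nhds (a := X) (s := Set.Iio X))
  have t2 := (hgt_cont p e').continuousAt.tendsto.mono_left
    (nhdsWithin_le_nhds (a := X) (s := Set.Iio X))
  refine le_of_tendsto_of_tendsto t1 t2 ?_
  filter_upwards [Ioo_mem_nhdsLT h1, Ioo_mem_nhdsLT h2] with Y hY hY'
  exact (h Y hY.1 hY'.1 (hY.2.trans_le h3) (hY.2.trans_le h4)).le

theorem below_left {p : V → ℝ × ℝ} {e e' : V × V} (h : Below p e e') (X : ℝ)
    (h1 : (p e.1).1 ≤ X) (h2 : (p e'.1).1 ≤ X) (h3 : X < (p e.2).1) (h4 : X < (p e'.2).1) :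
    hgt p e X ≤ hgt p e' X := by
  have t1 := (hgt_cont p e).continuousAt.tendsto.mono_left
    (nhdsWithin_le_nhds (a := X) (s := Set.Ioi X))
  have t2 := (hgt_cont p e').continuousAt.tendsto.mono_left
    (nhdsWithin_le_nhds (a := X) (s := Set.Ioi X))
  refine le_of_tendsto_of_tendsto t1 t2 ?_
  filter_upwards [Ioo_mem_nhdsGT h3, Ioo_mem_nhdsGT h4] with Y hY hY'
  exact (h Y (h1.trans_lt hY.1) (h2.trans_lt hY'.1) hY.2 hY'.2).le

theorem hgt_left (p : V → ℝ × ℝ) (e : V × V) : hgt p e (p e.1).1 = (p e.1).2 := by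
  unfold hgt
  rw [sub_self, zero_mul, add_zero]

theorem hgt_right (p : V → ℝ × ℝ) (e : V × V) (h : (p e.1).1 < (p e.2).1) :
    hgt p e (p e.2).1 = (p e.2).2 := by
  unfold hgt
  have h' : (p e.2).1 - (p e.1).1 ≠ 0 := (sub_pos.2 h).ne'
  rw [mul_div_cancel₀ _ h']
  ring

end geometry

end H665R2.LV
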