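import Pool.Agent.H665R2.LV.NDefs
set_option autoImplicit false

/-! Task B3 (helper296): splitting a sorted list at a value of the key. -/

namespace H665R2.LV

/-- task B3 -/
theorem split_key {α : Type} (key : α → ℝ) (c : ℝ) (L : List α)
    (h : L.Pairwise (fun a b => key a ≤ key b)) :
    ∃ P A Q : List α, L = P ++ A ++ Q ∧ (∀ a ∈ P, key a < c) ∧ (∀ a ∈ A, key a = c) ∧
      ∀ a ∈ Q, c < key a := by
  induction L with
  | nil => exact ⟨[], [], [], rfl, by simp, by simp, by simp⟩
  | cons a L ih =>
    rw [List.pairwise_cons] at h
    obtain ⟨h1, h2⟩ := h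
    obtain ⟨P, A, Q, e, hP, hA, hQ⟩ := ih h2
    rcases lt_trichotomy (key a) c with hlt | heq | hgt
    · refine ⟨a :: P, A, Q, by rw [e]; rfl, ?_, hA, hQ⟩
      intro b hb
      rcases List.mem_cons.mp hb with rfl | hb
      · exact hlt
      · exact hP b hb
    · have hPn : P = [] := by
        cases P with
        | nil => rfl
        | cons b P =>
          exfalso
          have h3 := hP b (by simp)
          have h4 := h1 b (by rw [e]; simp)
          linarith
      subst hPn
      refine ⟨[], a :: A, Q, by rw [e]; rfl, by simp, ?_, hQ⟩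
      intro b hb
      rcases List.mem_cons.mp hb with rfl | hb
      · exact heq
      · exact hA b hb
    · refine ⟨[], [], a :: L, rfl, by simp, by simp, ?_⟩
      intro b hb
      rcases List.mem_cons.mp hb with rfl | hb
      · exact hgt
      · exact lt_of_lt_of_le hgt (h1 b hb)

end H665R2.LV
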