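import Pool.Agent.H665R2.LV.SwDefs
set_option autoImplicit false

/-! Task B4: edges leaving a vertex, sorted by slope. -/

namespace H665R2.LV

variable {V : Type}

/-- slope of the line through the ends of `e` -/
noncomputable def b4slope (p : V → ℝ × ℝ) (e : V × V) : ℝ :=
  ((p e.2).2 - (p e.1).2) / ((p e.2).1 - (p e.1).1)

theorem sort_out {p : V → ℝ × ℝ} {E : Finset (V × V)} (D : Drw p E) (v : V) :
    ∃ B : List (V × V), (∀ e, e ∈ B ↔ e ∈ E ∧ e.1 = v) ∧ B.Pairwise (Below p) := by
  classical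
  set S : Finset (V × V) := E.filter (fun e => e.1 = v) with hS
  set r : V × V → V × V → Prop := fun a b => b4slope p a ≤ b4slope p b with hr
  haveI : Std.Total r := ⟨fun a b => le_total _ _⟩
  haveI : IsTrans (V × V) r := ⟨fun a b c h1 h2 => le_trans h1 h2⟩
  set B : List (V × V) := S.toList.insertionSort r with hB
  have hperm : B.Perm S.toList := List.perm_insertionSort r _
  have hmem : ∀ e, e ∈ B ↔ e ∈ E ∧ e.1 = v := by
    intro e
    rw [hperm.mem_iff, Finset.mem_toList, hS, Finset.mem_filter]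
  have hnd : B.Nodup := hperm.nodup_iff.2 (Finset.nodup_toList S)
  have hsort : B.Pairwise r := List.pairwise_insertionSort r _
  refine ⟨B, hmem, ?_⟩
  refine (hsort.and hnd).imp_of_mem ?_
  rintro a b ha hb ⟨hle, hne⟩
  obtain ⟨haE, hav⟩ := (hmem a).1 ha
  obtain ⟨hbE, hbv⟩ := (hmem b).1 hb
  have hla := D.lr a haE
  have hlb := D.lr b hbE
  have hga : ∀ X, hgt p a X = (p v).2 + (X - (p v).1) * b4slope p a := by
    intro X; unfold hgt b4slope; rw [hav]
  have hgb : ∀ X, hgt p b X = (p v).2 + (X - (p v).1) * b4slope p b := by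
    intro X; unfold hgt b4slope; rw [hbv]
  have hlt : b4slope p a < b4slope p b := by
    refine lt_of_le_of_ne hle ?_
    intro h
    obtain ⟨X, h1, h2⟩ : ∃ X, (p v).1 < X ∧ X < min (p a.2).1 (p b.2).1 := by
      apply exists_between
      rw [lt_min_iff]
      rw [hav] at hla
      rw [hbv] at hlb
      exact ⟨hla, hlb⟩
    rw [lt_min_iff] at h2
    apply D.cross a haE b hbE hne X (by rw [hav]; exact h1) (by rw [hbv]; exact h1) h2.1 h2.2
    rw [hga, hgb, h]
  intro X h1 h2 h3 h4
  rw [hga, hgb]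
  rw [hav] at h1
  have : (X - (p v).1) * b4slope p a < (X - (p v).1) * b4slope p b :=
    mul_lt_mul_of_pos_left hlt (by linarith)
  linarith

end H665R2.LV
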