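import Pool.Agent.H665R2.LV.SwDefs
set_option autoImplicit false

/-! Sweeps: the combinatorial step at a vertex (task B5). -/

namespace H665R2.LV

section sweep

variable {V : Type} [DecidableEq V]

namespace B5

theorem edges {T : Finset V} {P Q : List V} {v : V} : ∀ (A : List V) (l : List (V × V)),
    Sweep T (P ++ v :: (A ++ Q)) l →
    ∃ l', Sweep T (P ++ v :: Q) l' ∧ (∀ e ∈ l, e ∈ l') ∧ ∀ a ∈ A, (v, a) ∈ l' := by
  intro A
  induction A with
  | nil =>
    intro l h
    exact ⟨l, h, fun _ he => he, fun _ ha => absurd ha List.not_mem_nil⟩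
  | cons a A ih =>
    intro l h
    have h1 : Sweep T (P ++ v :: a :: (A ++ Q)) ((v, a) :: l) := Sweep.edge h
    have h2 : Sweep T ((P ++ [v]) ++ a :: (A ++ Q)) ((v, a) :: l) := by
      rw [List.append_assoc]
      exact h1
    have h3 : Sweep T ((P ++ [v]) ++ (A ++ Q)) ((v, a) :: l) := Sweep.fgt h2
    rw [List.append_assoc] at h3
    obtain ⟨l', h4, h5, h6⟩ := ih _ h3
    refine ⟨l', h4, fun e he => h5 e (List.mem_cons_of_mem _ he), fun b hb => ?_⟩
    rcases List.mem_cons.1 hb with rfl | hb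
    · exact h5 _ List.mem_cons_self
    · exact h6 b hb

theorem dups {T : Finset V} {P Q : List V} {v : V} {l : List (V × V)}
    (h : Sweep T (P ++ v :: Q) l) (k : ℕ) :
    Sweep T (P ++ v :: (List.replicate k v ++ Q)) l := by
  induction k with
  | zero => exact h
  | succ k ih => exact Sweep.dup ih

end B5

/-- task B5 -/
theorem sweep_step {T : Finset V} {P A Q : List V} {l : List (V × V)} {v : V} (hv : v ∉ T)
    (h : Sweep T (P ++ A ++ Q) l) (k : ℕ) :
    ∃ l', Sweep (insert v T) (P ++ List.replicate k v ++ Q) l' ∧ (∀ e ∈ l, e ∈ l') ∧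
      ∀ a ∈ A, (v, a) ∈ l' := by
  rw [List.append_assoc] at h
  have h1 : Sweep (insert v T) (P ++ v :: (A ++ Q)) l := Sweep.new hv h
  obtain ⟨l', h2, h3, h4⟩ := B5.edges A l h1
  refine ⟨l', ?_, h3, h4⟩
  rw [List.append_assoc]
  exact Sweep.fgt (B5.dups h2 k)

end sweep

end H665R2.LV
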