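import Pool.Agent.H665R2.LV.SwDefs
import Pool.Agent.H665R2.LV.NB1
import Pool.Agent.H665R2.LV.NB2
import Pool.Agent.H665R2.LV.NB3
import Pool.Agent.H665R2.LV.NB4
import Pool.Agent.H665R2.LV.NB5
set_option autoImplicit false

/-! The sweep of a plane drawing. -/

namespace H665R2.LV.MB

open Module

variable {V : Type}

theorem inv_step [DecidableEq V] {p : V → ℝ × ℝ} {E : Finset (V × V)} (D : Drw p E)
    {T : Finset V} (hT : ∀ u ∈ T, ∀ w, w ∉ T → (p u).1 < (p w).1) {v : V} (hv : v ∉ T)
    (hm : ∀ w, w ∉ T → (p v).1 ≤ (p w).1) (h : Inv p E T) : Inv p E (insert v T) := by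
  obtain ⟨L, l, hL, hLp, hS, hin⟩ := h
  -- facts about the edges in `L`
  have f1 : ∀ e ∈ L, e ∈ E := fun e he => ((hL e).1 he).1
  have f2 : ∀ e ∈ L, (p e.1).1 < (p v).1 := fun e he => hT _ ((hL e).1 he).2.1 _ hv
  have f3 : ∀ e ∈ L, (p v).1 ≤ (p e.2).1 := fun e he => hm _ ((hL e).1 he).2.2
  have f4 : ∀ e ∈ L, e.2 ≠ v → (p v).1 < (p e.2).1 := by
    intro e he hne
    exact lt_of_le_of_ne (f3 e he) fun h => hne (D.inj _ _ h).symm
  have k1 : ∀ e ∈ L, e.2 = v → hgt p e (p v).1 = (p v).2 := by
    intro e he h
    have := hgt_right p e (by rw [h]; exact f2 e he)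
    rwa [h] at this
  have k2 : ∀ e ∈ L, e.2 ≠ v → hgt p e (p v).1 ≠ (p v).2 := by
    intro e he h
    exact D.vert e (f1 e he) v (f2 e he) (f4 e he h)
  have hkey : L.Pairwise (fun a b => hgt p a (p v).1 ≤ hgt p b (p v).1) := by
    refine List.Pairwise.imp_of_mem ?_ hLp
    intro a b ha hb hab
    exact below_right hab (p v).1 (f2 a ha) (f2 b hb) (f3 a ha) (f3 b hb)
  obtain ⟨P, A, Q, hdec, hP, hA, hQ⟩ := split_key (fun e => hgt p e (p v).1) (p v).2 L hkey
  obtain ⟨B, hB, hBp⟩ := sort_out D v
  have mP : ∀ e ∈ P, e ∈ L := fun e he => by rw [hdec]; simp [he]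
  have mA : ∀ e ∈ A, e ∈ L := fun e he => by rw [hdec]; simp [he]
  have mQ : ∀ e ∈ Q, e ∈ L := fun e he => by rw [hdec]; simp [he]
  have vP : ∀ e ∈ P, e.2 ≠ v := fun e he h => absurd (k1 e (mP e he) h) (hP e he).ne
  have vQ : ∀ e ∈ Q, e.2 ≠ v := fun e he h => absurd (k1 e (mQ e he) h) (hQ e he).ne'
  have vA : ∀ e ∈ A, e.2 = v := by
    intro e he
    by_contra h
    exact k2 e (mA e he) h (hA e he)
  have hmemL : ∀ e, e ∈ L ↔ e ∈ P ∨ e ∈ A ∨ e ∈ Q := by
    intro e
    rw [hdec]
    simp [or_assoc]
  have bB : ∀ b ∈ B, b ∈ E ∧ b.1 = v := fun b hb => (hB b).1 hb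
  have bl : ∀ b ∈ B, (p v).1 < (p b.2).1 := by
    intro b hb
    have := D.lr b (bB b hb).1
    rwa [(bB b hb).2] at this
  have hpw : (P ++ B ++ Q).Pairwise (Below p) := by
    rw [hdec] at hLp
    have h1 := List.pairwise_append.1 hLp
    have h2 := List.pairwise_append.1 h1.1
    -- an edge spanning the abscissa of `v` and an edge starting at `v`
    have near : ∀ e ∈ L, e.2 ≠ v → ∀ b ∈ B, Below p e b ∨ Below p b e := by
      intro e he hne b hb
      have hX : (p v).1 < min (p e.2).1 (p b.2).1 := lt_min (f4 e he hne) (bl b hb)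
      obtain ⟨X0, hX1, hX2⟩ := exists_between hX
      have hne' : e ≠ b := by
        rintro rfl
        have := f2 e he
        rw [(bB e hb).2] at this
        exact lt_irrefl _ this
      refine below_total D (f1 e he) (bB b hb).1 hne' X0 ((f2 e he).trans hX1) ?_
        (hX2.trans_le (min_le_left _ _)) (hX2.trans_le (min_le_right _ _))
      rw [(bB b hb).2]
      exact hX1
    have hbv : ∀ b ∈ B, hgt p b (p v).1 = (p v).2 := by
      intro b hb
      have := hgt_left p b
      rwa [(bB b hb).2] at this
    refine List.pairwise_append.2 ⟨List.pairwise_append.2 ⟨h2.1, hBp, ?_⟩, h1.2.1, ?_⟩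
    · intro e he b hb
      rcases near e (mP e he) (vP e he) b hb with h | h
      · exact h
      · exfalso
        have h3 := below_left h (p v).1 (by rw [(bB b hb).2]) (f2 e (mP e he)).le
          (bl b hb) (f4 e (mP e he) (vP e he))
        rw [hbv b hb] at h3
        exact absurd (hP e he) (not_lt.2 h3)
    · intro e he q hq
      rcases List.mem_append.1 he with he | he
      · exact h1.2.2 e (List.mem_append_left _ he) q hq
      · rcases near q (mQ q hq) (vQ q hq) e he with h | h
        · exfalso
          have h3 := below_left h (p v).1 (f2 q (mQ q hq)).le (by rw [(bB e he).2])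
            (f4 q (mQ q hq) (vQ q hq)) (bl e he)
          rw [hbv e he] at h3
          exact absurd (hQ q hq) (not_lt.2 h3)
        · exact h
  have hS' : Sweep T (P.map Prod.fst ++ A.map Prod.fst ++ Q.map Prod.fst) l := by
    rw [hdec, List.map_append, List.map_append] at hS
    exact hS
  obtain ⟨l', hS1, hl1, hl2⟩ := sweep_step hv hS' B.length
  have hBm : B.map Prod.fst = List.replicate B.length v := by
    rw [List.eq_replicate_iff]
    refine ⟨by simp, ?_⟩
    intro b hb
    rw [List.mem_map] at hb
    obtain ⟨e, he, rfl⟩ := hb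
    exact (bB e he).2
  refine ⟨P ++ B ++ Q, l', ?_, hpw, ?_, ?_⟩
  · intro e
    rw [List.mem_append, List.mem_append]
    constructor
    · rintro ((he | he) | he)
      · have := (hL e).1 (mP e he)
        refine ⟨this.1, Finset.mem_insert_of_mem this.2.1, ?_⟩
        rw [Finset.mem_insert, not_or]
        exact ⟨vP e he, this.2.2⟩
      · refine ⟨(bB e he).1, ?_, ?_⟩
        · rw [(bB e he).2]
          exact Finset.mem_insert_self _ _
        · rw [Finset.mem_insert, not_or]
          have := bl e he
          refine ⟨fun h => ?_, fun h => ?_⟩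
          · rw [h] at this
            exact lt_irrefl _ this
          · exact lt_asymm this (hT _ h _ hv)
      · have := (hL e).1 (mQ e he)
        refine ⟨this.1, Finset.mem_insert_of_mem this.2.1, ?_⟩
        rw [Finset.mem_insert, not_or]
        exact ⟨vQ e he, this.2.2⟩
    · rintro ⟨he, h1, h2⟩
      rw [Finset.mem_insert, not_or] at h2
      rcases Finset.mem_insert.1 h1 with h1 | h1
      · exact Or.inl (Or.inr ((hB e).2 ⟨he, h1⟩))
      · rcases (hmemL e).1 ((hL e).2 ⟨he, h1, h2.2⟩) with h | h | h
        · exact Or.inl (Or.inl h)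
        · exact absurd (vA e h) h2.1
        · exact Or.inr h
  · rw [List.map_append, List.map_append, hBm]
    exact hS1
  · intro e he h1 h2
    rcases Finset.mem_insert.1 h2 with h2 | h2
    · rcases Finset.mem_insert.1 h1 with h1 | h1
      · have := D.lr e he
        rw [h1, h2] at this
        exact absurd this (lt_irrefl _)
      · right
        have hLe : e ∈ L := (hL e).2 ⟨he, h1, by rw [h2]; exact hv⟩
        have hAe : e ∈ A := by
          rcases (hmemL e).1 hLe with h | h | h
          · exact absurd h2 (vP e h)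
          · exact h
          · exact absurd h2 (vQ e h)
        have := hl2 e.1 (List.mem_map_of_mem hAe)
        have e1 : e.swap = (v, e.1) := Prod.ext h2 rfl
        rw [e1]
        exact this
    · rcases Finset.mem_insert.1 h1 with h1 | h1
      · have := D.lr e he
        rw [h1] at this
        exact absurd this (lt_asymm (hT _ h2 _ hv))
      · rcases hin e he h1 h2 with h | h
        · exact Or.inl (hl1 _ h)
        · exact Or.inr (hl1 _ h)

theorem inv_all [DecidableEq V] [Fintype V] {p : V → ℝ × ℝ} {E : Finset (V × V)} (D : Drw p E) :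
    ∃ l, Sweep (Finset.univ : Finset V) [] l ∧ ∀ e ∈ E, e ∈ l ∨ e.swap ∈ l := by
  have key : ∀ n, n ≤ Fintype.card V → ∃ T : Finset V, T.card = n ∧
      (∀ u ∈ T, ∀ w, w ∉ T → (p u).1 < (p w).1) ∧ Inv p E T := by
    intro n
    induction n with
    | zero =>
      intro _
      refine ⟨∅, rfl, fun u hu => absurd hu (Finset.notMem_empty u), [], [], ?_,
        List.Pairwise.nil, Sweep.nil, ?_⟩
      · intro e
        constructor
        · intro h
          exact absurd h List.not_mem_nil
        · rintro ⟨_, h, _⟩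
          exact absurd h (Finset.notMem_empty _)
      · intro e _ h
        exact absurd h (Finset.notMem_empty _)
    | succ n ih =>
      intro hn
      obtain ⟨T, hc, hT, hI⟩ := ih (by omega)
      have hne : (Finset.univ \ T).Nonempty := by
        rw [← Finset.card_pos, Finset.card_sdiff_of_subset (Finset.subset_univ T),
          Finset.card_univ]
        omega
      obtain ⟨v, hv, hmin⟩ := Finset.exists_min_image (Finset.univ \ T) (fun w => (p w).1) hne
      have hv' : v ∉ T := (Finset.mem_sdiff.1 hv).2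
      have hm : ∀ w, w ∉ T → (p v).1 ≤ (p w).1 := fun w hw =>
        hmin w (Finset.mem_sdiff.2 ⟨Finset.mem_univ w, hw⟩)
      refine ⟨insert v T, by rw [Finset.card_insert_of_notMem hv', hc], ?_,
        inv_step D hT hv' hm hI⟩
      intro u hu w hw
      rw [Finset.mem_insert, not_or] at hw
      rcases Finset.mem_insert.1 hu with rfl | hu
      · exact lt_of_le_of_ne (hm w hw.2) fun h => hw.1 (D.inj _ _ h).symm
      · exact hT u hu w hw.2
  obtain ⟨T, hc, _, L, l, hL, _, hS, hin⟩ := key (Fintype.card V) le_rfl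
  have hT : T = Finset.univ := Finset.eq_univ_of_card T hc
  subst hT
  have hLn : L = [] := by
    rw [List.eq_nil_iff_forall_not_mem]
    intro e he
    exact ((hL e).1 he).2.2 (Finset.mem_univ _)
  subst hLn
  exact ⟨l, hS, fun e he => hin e he (Finset.mem_univ _) (Finset.mem_univ _)⟩

end H665R2.LV.MB
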