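import Pool.Agent.H665R2.LV.Defs
set_option autoImplicit false

/-! Las Vergnas' conjecture (MP_e8163c_co): task TF, the state sum. helper862 -/

namespace H665R2.LV

open Polynomial Module

variable {U : Type} [AddCommGroup U] [Module (ZMod 2) U]



theorem TF_pos {W : Submodule (ZMod 2) U} {a : Module.Dual (ZMod 2) U} (l : List (Module.Dual (ZMod 2) U)) (h : Van W a) :
    F W (a :: l) = F W l + X * F W l := by
  simp only [F, if_pos h]

theorem TF_neg {W : Submodule (ZMod 2) U} {a : Module.Dual (ZMod 2) U} (l : List (Module.Dual (ZMod 2) U)) (h : ¬ Van W a) :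
    F W (a :: l) = F W l + F (W ⊓ LinearMap.ker a) l := by
  simp only [F, if_neg h]

theorem TF_van_mono {W W' : Submodule (ZMod 2) U} {a : Module.Dual (ZMod 2) U} (hW : W' ≤ W) (h : Van W a) :
    Van W' a := fun x hx => h x (hW hx)

theorem TF_z2 (x : ZMod 2) : x = 0 ∨ x = 1 := by
  fin_cases x
  · exact Or.inl rfl
  · exact Or.inr rfl

/-- restriction of an isomorphism to hyperplanes -/
def TF_res {W W' : Submodule (ZMod 2) U} {a a' : Module.Dual (ZMod 2) U} (φ : W ≃ₗ[ZMod 2] W')
    (hd : ∀ x : W, a x = a' (φ x)) :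
    (W ⊓ LinearMap.ker a : Submodule (ZMod 2) U) ≃ₗ[ZMod 2]
      (W' ⊓ LinearMap.ker a' : Submodule (ZMod 2) U) where
  toFun x := ⟨φ ⟨x, x.2.1⟩, (φ ⟨x, x.2.1⟩).2, by
    have h := hd ⟨x, x.2.1⟩
    have h2 : a (x : U) = 0 := x.2.2
    show a' _ = 0
    rw [← h]
    exact h2⟩
  invFun y := ⟨φ.symm ⟨y, y.2.1⟩, (φ.symm ⟨y, y.2.1⟩).2, by
    have h := hd (φ.symm ⟨y, y.2.1⟩)
    rw [LinearEquiv.apply_symm_apply] at h
    have h2 : a' (y : U) = 0 := y.2.2
    show a _ = 0
    rw [h]
    exact h2⟩
  map_add' x y := by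
    apply Subtype.ext
    have h : ((φ (⟨(x : U), x.2.1⟩ + ⟨(y : U), y.2.1⟩) : W') : U) =
        ((φ ⟨(x : U), x.2.1⟩ + φ ⟨(y : U), y.2.1⟩ : W') : U) := by rw [map_add]
    exact h
  map_smul' c x := by
    apply Subtype.ext
    have h : ((φ (c • ⟨(x : U), x.2.1⟩) : W') : U) =
        ((c • φ ⟨(x : U), x.2.1⟩ : W') : U) := by rw [map_smul]
    exact h
  left_inv x := by
    apply Subtype.ext
    show ((φ.symm ⟨(φ ⟨x, _⟩ : W'), _⟩ : W) : U) = x
    rw [Subtype.coe_eta, LinearEquiv.symm_apply_apply]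
  right_inv y := by
    apply Subtype.ext
    show ((φ ⟨(φ.symm ⟨y, _⟩ : W), _⟩ : W') : U) = y
    rw [Subtype.coe_eta, LinearEquiv.apply_symm_apply]

/-- F1: invariance under isomorphism -/
theorem F_iso {W W' : Submodule (ZMod 2) U} {l l' : List (Module.Dual (ZMod 2) U)} (φ : W ≃ₗ[ZMod 2] W')
    (h : List.Forall₂ (fun f g => ∀ x : W, f x = g (φ x)) l l') : F W l = F W' l' := by
  induction l generalizing W W' l' with
  | nil =>
    cases h
    simp only [F]
    rw [φ.finrank_eq]
  | cons a l ih =>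
    cases h with
    | @cons _ a' _ l'' hd tl =>
      by_cases hv : Van W a
      · have hv' : Van W' a' := by
          intro y hy
          have h1 := hd (φ.symm ⟨y, hy⟩)
          rw [LinearEquiv.apply_symm_apply] at h1
          have h2 : a' y = a (φ.symm ⟨y, hy⟩ : W) := h1.symm
          rw [h2]
          exact hv _ (φ.symm ⟨y, hy⟩).2
        rw [TF_pos l hv, TF_pos l'' hv', ih φ tl]
      · have hv' : ¬ Van W' a' := by
          intro h1
          apply hv
          intro x hx
          have h2 := hd ⟨x, hx⟩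
          have h3 : a x = a' (φ ⟨x, hx⟩ : W') := h2
          rw [h3]
          exact h1 _ (φ ⟨x, hx⟩).2
        rw [TF_neg l hv, TF_neg l'' hv', ih φ tl]
        congr 1
        refine ih (TF_res φ hd) ?_
        refine tl.imp fun f g hfg x => ?_
        exact hfg ⟨x, x.2.1⟩

/-- two functionals with nested kernels agree -/
theorem TF_agree {W : Submodule (ZMod 2) U} {a b : Module.Dual (ZMod 2) U} (hb : ¬ Van W b)
    (hab : Van (W ⊓ LinearMap.ker a) b) : ∀ x ∈ W, a x = b x := by
  unfold Van at hb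
  push Not at hb
  obtain ⟨x₀, hx₀, hbx⟩ := hb
  have h1 : b x₀ = 1 := (TF_z2 _).resolve_left hbx
  have h2 : a x₀ = 1 := by
    refine (TF_z2 _).resolve_left fun h => hbx ?_
    exact hab x₀ ⟨hx₀, h⟩
  intro x hx
  rcases TF_z2 (a x) with h | h
  · rw [h, hab x ⟨hx, h⟩]
  · have h3 : b (x - x₀) = 0 := by
      apply hab
      refine ⟨W.sub_mem hx hx₀, ?_⟩
      show a (x - x₀) = 0
      rw [map_sub, h, h2, sub_self]
    rw [map_sub, h1, sub_eq_zero] at h3
    rw [h, h3]

theorem TF_swap (W : Submodule (ZMod 2) U) (l : List (Module.Dual (ZMod 2) U)) (a b : Module.Dual (ZMod 2) U) :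
    F W (a :: b :: l) = F W (b :: a :: l) := by
  by_cases ha : Van W a
  · rw [TF_pos _ ha]
    by_cases hb : Van W b
    · rw [TF_pos _ hb, TF_pos _ hb, TF_pos _ ha]
    · rw [TF_neg _ hb, TF_neg _ hb, TF_pos _ ha, TF_pos _ (TF_van_mono inf_le_left ha)]
      ring
  · rw [TF_neg _ ha]
    by_cases hb : Van W b
    · rw [TF_pos _ hb, TF_pos _ hb, TF_neg _ ha, TF_pos _ (TF_van_mono inf_le_left hb)]
      ring
    · rw [TF_neg _ hb, TF_neg _ hb, TF_neg _ ha]
      by_cases h1 : Van (W ⊓ LinearMap.ker a) b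
      · have h2 := TF_agree hb h1
        have h3 : W ⊓ LinearMap.ker a = W ⊓ LinearMap.ker b := by
          ext x
          simp only [Submodule.mem_inf, LinearMap.mem_ker]
          constructor
          · rintro ⟨hx, hx2⟩
            exact ⟨hx, by rw [← h2 x hx]; exact hx2⟩
          · rintro ⟨hx, hx2⟩
            exact ⟨hx, by rw [h2 x hx]; exact hx2⟩
        have h4 : Van (W ⊓ LinearMap.ker b) a := by
          intro x hx
          rw [h2 x hx.1]
          exact hx.2
        rw [TF_pos _ h1, TF_pos _ h4, h3]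
      · have h4 : ¬ Van (W ⊓ LinearMap.ker b) a := by
          intro h4
          apply h1
          have h5 := TF_agree ha h4
          intro x hx
          rw [h5 x hx.1]
          exact hx.2
        rw [TF_neg _ h1, TF_neg _ h4, inf_right_comm]
        ring

/-- F2: invariance under permutation -/
theorem F_perm [FiniteDimensional (ZMod 2) U] {W : Submodule (ZMod 2) U} {l l' : List (Module.Dual (ZMod 2) U)}
    (h : l.Perm l') : F W l = F W l' := by
  induction h generalizing W with
  | nil => rfl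
  | cons x _ ih =>
    by_cases hx : Van W x
    · rw [TF_pos _ hx, TF_pos _ hx, ih]
    · rw [TF_neg _ hx, TF_neg _ hx, ih, ih]
  | swap x y l => exact TF_swap W l y x
  | trans _ _ ih1 ih2 => exact ih1.trans ih2

theorem TF_finrank [FiniteDimensional (ZMod 2) U] {W : Submodule (ZMod 2) U} {t : Module.Dual (ZMod 2) U} {e : U}
    (he : e ∈ W) (hte : t e = 1) :
    finrank (ZMod 2) W = finrank (ZMod 2) (W ⊓ LinearMap.ker t : Submodule (ZMod 2) U) + 1 := by
  have h1 := LinearMap.finrank_range_add_finrank_ker (t.domRestrict W)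
  have h2 : LinearMap.range (t.domRestrict W) = ⊤ := by
    rw [LinearMap.range_eq_top]
    intro c
    refine ⟨c • ⟨e, he⟩, ?_⟩
    rw [map_smul]
    show c • t e = c
    rw [hte, smul_eq_mul, mul_one]
  have h3 : (LinearMap.ker (t.domRestrict W)).map W.subtype = W ⊓ LinearMap.ker t := by
    ext x
    simp only [Submodule.mem_map, LinearMap.mem_ker, Submodule.mem_inf]
    constructor
    · rintro ⟨y, hy, rfl⟩
      exact ⟨y.2, hy⟩
    · rintro ⟨hx, hx2⟩
      exact ⟨⟨x, hx⟩, hx2, rfl⟩
  rw [← h3, Submodule.finrank_map_subtype_eq, ← h1, h2, finrank_top, finrank_self, add_comm]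

/-- F3: an isolated vertex is a factor `X` -/
theorem F_free [FiniteDimensional (ZMod 2) U] {W : Submodule (ZMod 2) U} {l : List (Module.Dual (ZMod 2) U)}
    {t : Module.Dual (ZMod 2) U} (h : Priv W l t) : F W l = X * F (W ⊓ LinearMap.ker t) l := by
  obtain ⟨e, he, hte, hl⟩ := h
  induction l generalizing W with
  | nil =>
    simp only [F]
    rw [TF_finrank he hte, pow_succ, mul_comm]
  | cons a l ih =>
    have hae : a e = 0 := hl a List.mem_cons_self
    have hl' : ∀ f ∈ l, f e = 0 := fun f hf => hl f (List.mem_cons_of_mem _ hf)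
    by_cases hv : Van W a
    · rw [TF_pos _ hv, TF_pos _ (TF_van_mono inf_le_left hv), ih he hl']
      ring
    · have hv' : ¬ Van (W ⊓ LinearMap.ker t) a := by
        intro h1
        apply hv
        intro x hx
        rcases TF_z2 (t x) with h2 | h2
        · exact h1 x ⟨hx, h2⟩
        · have h3 : a (x - e) = 0 := by
            apply h1
            refine ⟨W.sub_mem hx he, ?_⟩
            show t (x - e) = 0
            rw [map_sub, h2, hte, sub_self]
          rw [map_sub, hae, sub_zero] at h3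
          exact h3
      rw [TF_neg _ hv, TF_neg _ hv', ih he hl',
        ih (Submodule.mem_inf.2 ⟨he, LinearMap.mem_ker.2 hae⟩) hl', inf_right_comm]
      ring

end H665R2.LV
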