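import Pool.Agent.H665R2.LV.Defs
set_option autoImplicit false

/-! Task TH: `kap` changes by at most one. -/

namespace H665R2.LV

open Polynomial Module

variable {U : Type} [AddCommGroup U] [Module (ZMod 2) U]

/-- a hyperplane section loses at most one dimension -/
theorem TH_hyper [FiniteDimensional (ZMod 2) U] (S : Submodule (ZMod 2) U)
    (f : Module.Dual (ZMod 2) U) :
    finrank (ZMod 2) S ≤ finrank (ZMod 2) (S ⊓ LinearMap.ker f : Submodule (ZMod 2) U) + 1 := by
  have h1 := LinearMap.finrank_range_add_finrank_ker (f.comp S.subtype)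
  have h2 : finrank (ZMod 2) (LinearMap.range (f.comp S.subtype)) ≤ 1 := by
    have := Submodule.finrank_le (LinearMap.range (f.comp S.subtype))
    simpa using this
  have h3 : finrank (ZMod 2) (LinearMap.ker (f.comp S.subtype)) =
      finrank (ZMod 2) (S ⊓ LinearMap.ker f : Submodule (ZMod 2) U) := by
    rw [LinearMap.ker_comp, ← Submodule.map_comap_subtype, Submodule.finrank_map_subtype_eq]
  omega

theorem TH_B_cons (l : List (Module.Dual (ZMod 2) U)) (a : Module.Dual (ZMod 2) U) (x y : U) :
    B (a :: l) x y = a x * a y + B l x y := by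
  simp [B]

theorem TH_B_add_right (l : List (Module.Dual (ZMod 2) U)) (x y y' : U) :
    B l x (y + y') = B l x y + B l x y' := by
  induction l with
  | nil => simp [B]
  | cons a l ih =>
    rw [TH_B_cons, TH_B_cons, TH_B_cons, ih, map_add]
    ring

theorem TH_B_smul_right (l : List (Module.Dual (ZMod 2) U)) (c : ZMod 2) (x y : U) :
    B l x (c • y) = c * B l x y := by
  induction l with
  | nil => simp [B]
  | cons a l ih =>
    rw [TH_B_cons, TH_B_cons, ih, map_smul, smul_eq_mul]
    ring

theorem TH_B_symm (l : List (Module.Dual (ZMod 2) U)) (x y : U) : B l x y = B l y x := by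
  simp [B, mul_comm]

/-- the functional `x ↦ B l x w` -/
def TH_Bf (l : List (Module.Dual (ZMod 2) U)) (w : U) : Module.Dual (ZMod 2) U where
  toFun x := B l x w
  map_add' x y := by
    rw [TH_B_symm, TH_B_add_right, TH_B_symm l w x, TH_B_symm l w y]
  map_smul' c x := by
    rw [TH_B_symm, TH_B_smul_right, TH_B_symm l w x]
    rfl

theorem TH_mem_rad {W : Submodule (ZMod 2) U} {l : List (Module.Dual (ZMod 2) U)} {x : U} :
    x ∈ rad W l ↔ x ∈ W ∧ ∀ y ∈ W, B l x y = 0 := Iff.rfl

/-- K3: adding or removing one element changes `kap` by at most one -/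
theorem kap_cons [FiniteDimensional (ZMod 2) U] (W : Submodule (ZMod 2) U)
    (l : List (Module.Dual (ZMod 2) U)) (a : Module.Dual (ZMod 2) U) :
    kap W (a :: l) ≤ kap W l + 1 ∧ kap W l ≤ kap W (a :: l) + 1 := by
  constructor
  · have h1 : rad W (a :: l) ⊓ LinearMap.ker a ≤ rad W l := by
      rintro x ⟨⟨hx, hx'⟩, hax⟩
      have hax' : a x = 0 := hax
      refine ⟨hx, fun y hy => ?_⟩
      have h2 := hx' y hy
      rw [TH_B_cons, hax', zero_mul, zero_add] at h2
      exact h2
    have h3 := TH_hyper (rad W (a :: l)) a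
    have h4 := Submodule.finrank_mono h1
    unfold kap
    omega
  · have h1 : rad W l ⊓ LinearMap.ker a ≤ rad W (a :: l) := by
      rintro x ⟨⟨hx, hx'⟩, hax⟩
      have hax' : a x = 0 := hax
      refine ⟨hx, fun y hy => ?_⟩
      have h2 := hx' y hy
      rw [TH_B_cons, hax', zero_mul, zero_add]
      exact h2
    have h3 := TH_hyper (rad W l) a
    have h4 := Submodule.finrank_mono h1
    unfold kap
    omega

/-- K5: restriction to a hyperplane -/
theorem kap_ker [FiniteDimensional (ZMod 2) U] (W : Submodule (ZMod 2) U)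
    (l : List (Module.Dual (ZMod 2) U)) (a : Module.Dual (ZMod 2) U) :
    kap W l ≤ kap (W ⊓ LinearMap.ker a) l + 1 ∧ kap (W ⊓ LinearMap.ker a) l ≤ kap W l + 1 := by
  constructor
  · have h1 : rad W l ⊓ LinearMap.ker a ≤ rad (W ⊓ LinearMap.ker a) l := by
      rintro x ⟨⟨hx, hx'⟩, hax⟩
      exact ⟨⟨hx, hax⟩, fun y hy => hx' y hy.1⟩
    have h3 := TH_hyper (rad W l) a
    have h4 := Submodule.finrank_mono h1
    unfold kap
    omega
  · by_cases hv : ∀ x ∈ W, a x = 0
    · have : W ⊓ LinearMap.ker a = W := inf_eq_left.2 hv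
      rw [this]
      omega
    · push Not at hv
      obtain ⟨w, hw, haw⟩ := hv
      have haw1 : a w = 1 := by
        have : ∀ z : ZMod 2, z ≠ 0 → z = 1 := by decide
        exact this _ haw
      have h1 : rad (W ⊓ LinearMap.ker a) l ⊓ LinearMap.ker (TH_Bf l w) ≤ rad W l := by
        rintro x ⟨⟨hx, hx'⟩, hBx⟩
        have hBx' : B l x w = 0 := hBx
        refine ⟨hx.1, fun y hy => ?_⟩
        have hy' : y - a y • w ∈ W ⊓ LinearMap.ker a := by
          refine ⟨W.sub_mem hy (W.smul_mem _ hw), ?_⟩
          change a (y - a y • w) = 0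
          rw [map_sub, map_smul, haw1]
          simp
        have h2 := hx' _ hy'
        have e : y = (y - a y • w) + a y • w := by simp
        rw [e, TH_B_add_right, h2, TH_B_smul_right, hBx']
        simp
      have h3 := TH_hyper (rad (W ⊓ LinearMap.ker a) l) (TH_Bf l w)
      have h4 := Submodule.finrank_mono h1
      unfold kap
      omega

end H665R2.LV
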