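import Pool.Agent.H665R2.LV.Defs
set_option autoImplicit false

/-! Task TK of project LV: invariance of `kap`. -/

namespace H665R2.LV

open Polynomial Module

variable {U : Type} [AddCommGroup U] [Module (ZMod 2) U]



theorem TK_B_cons (a : Module.Dual (ZMod 2) U) (l : List (Module.Dual (ZMod 2) U)) (x y : U) : B (a :: l) x y = a x * a y + B l x y := by
  simp [B]

theorem TK_rad_congr {W : Submodule (ZMod 2) U} {l l' : List (Module.Dual (ZMod 2) U)}
    (h : ∀ x ∈ W, ∀ y ∈ W, B l x y = B l' x y) : rad W l = rad W l' := by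
  ext x
  constructor
  · rintro ⟨hx, h1⟩
    exact ⟨hx, fun y hy => by rw [← h x hx y hy]; exact h1 y hy⟩
  · rintro ⟨hx, h1⟩
    exact ⟨hx, fun y hy => by rw [h x hx y hy]; exact h1 y hy⟩

theorem TK_rad_le (W : Submodule (ZMod 2) U) (l : List (Module.Dual (ZMod 2) U)) : rad W l ≤ W := fun _ hx => hx.1

theorem TK_B_iso {W W' : Submodule (ZMod 2) U} {l l' : List (Module.Dual (ZMod 2) U)} (φ : W ≃ₗ[ZMod 2] W')
    (h : List.Forall₂ (fun f g => ∀ x : W, f x = g (φ x)) l l') (x y : W) :
    B l x y = B l' (φ x) (φ y) := by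
  induction h with
  | nil => rfl
  | cons hab _ ih => rw [TK_B_cons, TK_B_cons, hab x, hab y, ih]

/-- K1 -/
theorem kap_iso {W W' : Submodule (ZMod 2) U} {l l' : List (Module.Dual (ZMod 2) U)} (φ : W ≃ₗ[ZMod 2] W')
    (h : List.Forall₂ (fun f g => ∀ x : W, f x = g (φ x)) l l') : kap W l = kap W' l' := by
  unfold kap
  have e1 := Submodule.comapSubtypeEquivOfLe (TK_rad_le W l)
  have e2 := Submodule.comapSubtypeEquivOfLe (TK_rad_le W' l')
  have h3 : ((rad W l).comap W.subtype).map (φ : W →ₗ[ZMod 2] W') =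
      (rad W' l').comap W'.subtype := by
    ext z
    constructor
    · rintro ⟨x, hx, rfl⟩
      refine ⟨(φ x).2, fun y hy => ?_⟩
      have h4 := TK_B_iso φ h x (φ.symm ⟨y, hy⟩)
      rw [LinearEquiv.apply_symm_apply] at h4
      have h5 : B l x (φ.symm ⟨y, hy⟩ : W) = 0 := hx.2 _ (φ.symm ⟨y, hy⟩).2
      rw [h5] at h4
      exact h4.symm
    · intro hz
      refine ⟨φ.symm z, ⟨(φ.symm z).2, fun y hy => ?_⟩, by simp⟩
      have h4 := TK_B_iso φ h (φ.symm z) ⟨y, hy⟩
      rw [LinearEquiv.apply_symm_apply] at h4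
      have h5 : B l' z (φ ⟨y, hy⟩ : W') = 0 := hz.2 _ (φ ⟨y, hy⟩).2
      rw [h5] at h4
      exact h4
  have e3 := φ.submoduleMap ((rad W l).comap W.subtype)
  rw [← e1.finrank_eq, ← e2.finrank_eq, ← h3]
  exact e3.finrank_eq

/-- K2 -/
theorem kap_perm {W : Submodule (ZMod 2) U} {l l' : List (Module.Dual (ZMod 2) U)} (h : l.Perm l') :
    kap W l = kap W l' := by
  unfold kap
  rw [TK_rad_congr (W := W) (l := l) (l' := l') fun x _ y _ => (h.map _).sum_eq]

/-- K4: loops and parallel pairs do not matter -/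
theorem kap_loop (W : Submodule (ZMod 2) U) (l : List (Module.Dual (ZMod 2) U)) (a : Module.Dual (ZMod 2) U) (h : Van W a) :
    kap W (a :: l) = kap W l := by
  unfold kap
  rw [TK_rad_congr (W := W) (l := a :: l) (l' := l) fun x hx y _ => by
    rw [TK_B_cons, h x hx, zero_mul, zero_add]]

theorem kap_par (W : Submodule (ZMod 2) U) (l : List (Module.Dual (ZMod 2) U)) (a : Module.Dual (ZMod 2) U) :
    kap W (a :: a :: l) = kap W l := by
  unfold kap
  rw [TK_rad_congr (W := W) (l := a :: a :: l) (l' := l) fun x _ y _ => by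
    rw [TK_B_cons, TK_B_cons, ← add_assoc, CharTwo.add_self_eq_zero, zero_add]]

/-- K6: coloop -/
theorem kap_coloop {W : Submodule (ZMod 2) U} {l : List (Module.Dual (ZMod 2) U)} {t : Module.Dual (ZMod 2) U} (h : Priv W l t) :
    kap W (t :: l) = kap (W ⊓ LinearMap.ker t) l := by
  obtain ⟨e, heW, hte, hle⟩ := h
  have hB : ∀ x y : U, ∀ c : ZMod 2, B l x (y + c • e) = B l x y := by
    intro x y c
    unfold B
    congr 1
    apply List.map_congr_left
    intro f hf
    rw [map_add, map_smul, hle f hf, smul_zero, add_zero]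
  have hBe : ∀ x : U, B l x e = 0 := by
    intro x
    have h1 := hB x 0 1
    rw [one_smul, zero_add] at h1
    rw [h1]
    simp [B]
  unfold kap
  have hr : rad W (t :: l) = rad (W ⊓ LinearMap.ker t) l := by
    ext x
    constructor
    · rintro ⟨hx, h1⟩
      have htx : t x = 0 := by
        have h2 := h1 e heW
        rw [TK_B_cons, hte, mul_one, hBe, add_zero] at h2
        exact h2
      refine ⟨⟨hx, htx⟩, fun y hy => ?_⟩
      have h2 := h1 y hy.1
      rw [TK_B_cons, htx, zero_mul, zero_add] at h2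
      exact h2
    · rintro ⟨⟨hx, htx⟩, h1⟩
      have htx' : t x = 0 := htx
      refine ⟨hx, fun y hy => ?_⟩
      rw [TK_B_cons, htx', zero_mul, zero_add, ← hB x y (t y)]
      refine h1 _ ⟨W.add_mem hy (W.smul_mem _ heW), ?_⟩
      change t (y + t y • e) = 0
      rw [map_add, map_smul, hte, smul_eq_mul, mul_one]
      exact CharTwo.add_self_eq_zero _
  rw [hr]

end H665R2.LV
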