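import Pool.Agent.H665R2.LV.Defs
set_option autoImplicit false

/-! Task TY: the radical under the Delta-Y exchange. -/

namespace H665R2.LV

open Polynomial Module

variable {U : Type} [AddCommGroup U] [Module (ZMod 2) U]

theorem TY_alg : ∀ t t' a a' b b' : ZMod 2,
    t * t' + ((t + a) * (t' + a') + (t + a + b) * (t' + a' + b')) =
      (t + b) * (t' + b') + (a * a' + (b * b' + (a + b) * (a' + b'))) := by
  decide

theorem TY_B (l : List (Module.Dual (ZMod 2) U)) (t a b : Module.Dual (ZMod 2) U) (x y : U) :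
    B (t :: (t + a) :: (t + a + b) :: l) x y =
      (t x + b x) * (t y + b y) + B (a :: b :: (a + b) :: l) x y := by
  have h := TY_alg (t x) (t y) (a x) (a y) (b x) (b y)
  simp only [B, List.map_cons, List.sum_cons, LinearMap.add_apply]
  linear_combination h

/-- the form kills `e` on the left -/
theorem TY_Bl (l : List (Module.Dual (ZMod 2) U)) (e y : U) (he : ∀ f ∈ l, f e = 0) :
    B l e y = 0 := by
  unfold B
  apply List.sum_eq_zero
  intro c hc
  rw [List.mem_map] at hc
  obtain ⟨f, hf, rfl⟩ := hc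
  rw [he f hf, zero_mul]

theorem TY_add (l : List (Module.Dual (ZMod 2) U)) (x x' y : U) :
    B l (x + x') y = B l x y + B l x' y := by
  unfold B
  rw [← List.sum_map_add]
  congr 1
  apply List.map_congr_left
  intro a _
  simp [add_mul]

theorem TY_smul (l : List (Module.Dual (ZMod 2) U)) (c : ZMod 2) (x y : U) :
    B l (c • x) y = c * B l x y := by
  unfold B
  rw [← List.sum_map_mul_left]
  congr 1
  apply List.map_congr_left
  intro a _
  simp [mul_assoc]

theorem TY_symm (l : List (Module.Dual (ZMod 2) U)) (x y : U) : B l x y = B l y x := by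
  unfold B
  congr 1
  apply List.map_congr_left
  intro a _
  rw [mul_comm]

/-- K8: Delta-Y -/
theorem kap_Y {W : Submodule (ZMod 2) U} {l : List (Module.Dual (ZMod 2) U)}
    {t a b : Module.Dual (ZMod 2) U} (h : Priv W (a :: b :: l) t) :
    kap W (t :: (t + a) :: (t + a + b) :: l) =
      kap (W ⊓ LinearMap.ker t) (a :: b :: (a + b) :: l) := by
  obtain ⟨e, heW, hte, hl⟩ := h
  have hae : a e = 0 := hl a (by simp)
  have hbe : b e = 0 := hl b (by simp)
  have hle : ∀ f ∈ a :: b :: (a + b) :: l, f e = 0 := by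
    intro f hf
    simp only [List.mem_cons] at hf
    rcases hf with rfl | rfl | rfl | hf
    · exact hae
    · exact hbe
    · rw [LinearMap.add_apply, hae, hbe, add_zero]
    · exact hl f (by simp [hf])
  have two : ∀ c : ZMod 2, c + c = 0 := by decide
  have hBe : ∀ y, B (a :: b :: (a + b) :: l) e y = 0 := fun y => TY_Bl _ e y hle
  have hBc : ∀ (x : U) (c : ZMod 2) (y : U), B (a :: b :: (a + b) :: l) (x + c • e) y =
      B (a :: b :: (a + b) :: l) x y := by
    intro x c y
    rw [TY_add, TY_smul, hBe, mul_zero, add_zero]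
  have hBc' : ∀ (x : U) (c : ZMod 2) (y : U), B (a :: b :: (a + b) :: l) x (y + c • e) =
      B (a :: b :: (a + b) :: l) x y := by
    intro x c y
    rw [TY_symm, hBc, TY_symm]
  -- the first radical
  have h1 : ∀ x, x ∈ rad W (t :: (t + a) :: (t + a + b) :: l) ↔
      x ∈ W ∧ t x + b x = 0 ∧ ∀ y ∈ W, B (a :: b :: (a + b) :: l) x y = 0 := by
    intro x
    constructor
    · rintro ⟨hx, hy⟩
      have h2 : t x + b x = 0 := by
        have h3 := hy e heW
        rw [TY_B, TY_symm (a :: b :: (a + b) :: l), hBe, add_zero, hte, hbe, add_zero,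
          mul_one] at h3
        exact h3
      refine ⟨hx, h2, fun y hyW => ?_⟩
      have h3 := hy y hyW
      rw [TY_B, h2, zero_mul, zero_add] at h3
      exact h3
    · rintro ⟨hx, h2, h3⟩
      refine ⟨hx, fun y hyW => ?_⟩
      rw [TY_B, h2, zero_mul, zero_add]
      exact h3 y hyW
  -- the second radical
  have h2 : ∀ x, x ∈ rad (W ⊓ LinearMap.ker t) (a :: b :: (a + b) :: l) ↔
      x ∈ W ∧ t x = 0 ∧ ∀ y ∈ W, B (a :: b :: (a + b) :: l) x y = 0 := by
    intro x
    constructor
    · rintro ⟨hx, hy⟩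
      refine ⟨hx.1, hx.2, fun y hyW => ?_⟩
      rw [← hBc' x (t y) y]
      refine hy _ ⟨W.add_mem hyW (W.smul_mem _ heW), ?_⟩
      show t (y + t y • e) = 0
      rw [map_add, map_smul, hte, smul_eq_mul, mul_one]
      exact two _
    · rintro ⟨hx, h2, h3⟩
      exact ⟨⟨hx, h2⟩, fun y hyW => h3 y hyW.1⟩
  obtain ⟨f, hf⟩ : ∃ f : U →ₗ[ZMod 2] U, ∀ x, f x = x + t x • e :=
    ⟨LinearMap.id + t.smulRight e, fun x => rfl⟩
  obtain ⟨g, hg⟩ : ∃ g : U →ₗ[ZMod 2] U, ∀ x, g x = x + b x • e :=
    ⟨LinearMap.id + b.smulRight e, fun x => rfl⟩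
  have hfm : ∀ x ∈ rad W (t :: (t + a) :: (t + a + b) :: l),
      f x ∈ rad (W ⊓ LinearMap.ker t) (a :: b :: (a + b) :: l) := by
    intro x hx
    rw [h1] at hx
    rw [h2, hf]
    refine ⟨W.add_mem hx.1 (W.smul_mem _ heW), ?_, fun y hy => ?_⟩
    · rw [map_add, map_smul, hte, smul_eq_mul, mul_one]
      exact two _
    · rw [hBc]
      exact hx.2.2 y hy
  have hgm : ∀ x ∈ rad (W ⊓ LinearMap.ker t) (a :: b :: (a + b) :: l),
      g x ∈ rad W (t :: (t + a) :: (t + a + b) :: l) := by
    intro x hx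
    rw [h2] at hx
    rw [h1, hg]
    refine ⟨W.add_mem hx.1 (W.smul_mem _ heW), ?_, fun y hy => ?_⟩
    · rw [map_add, map_smul, map_add, map_smul, hte, hbe, smul_eq_mul, mul_one, smul_zero,
        add_zero, hx.2.1, zero_add]
      exact two _
    · rw [hBc]
      exact hx.2.2 y hy
  have hgf : ∀ x ∈ rad W (t :: (t + a) :: (t + a + b) :: l), g (f x) = x := by
    intro x hx
    rw [h1] at hx
    rw [hg, hf, map_add, map_smul, hbe, smul_zero, add_zero, add_assoc, ← add_smul, hx.2.1,
      zero_smul, add_zero]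
  have hfg : ∀ x ∈ rad (W ⊓ LinearMap.ker t) (a :: b :: (a + b) :: l), f (g x) = x := by
    intro x hx
    rw [h2] at hx
    rw [hf, hg, map_add, map_smul, hte, hx.2.1, zero_add, smul_eq_mul, mul_one, add_assoc,
      ← add_smul, two, zero_smul, add_zero]
  unfold kap
  refine LinearEquiv.finrank_eq (LinearEquiv.ofLinear (f.restrict hfm) (g.restrict hgm) ?_ ?_)
  · refine LinearMap.ext fun x => Subtype.ext ?_
    exact hfg x.1 x.2
  · refine LinearMap.ext fun x => Subtype.ext ?_
    exact hgf x.1 x.2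

end H665R2.LV
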