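import Pool.Agent.H665R2.LV.Her5
import Pool.Agent.H665R2.LV.TF
import Pool.Agent.H665R2.LV.TK
import Pool.Agent.H665R2.LV.TH
import Pool.Agent.H665R2.LV.TY
set_option autoImplicit false
set_option linter.unusedVariables false

namespace H665R2.LV

open Polynomial Module

variable {U : Type} [AddCommGroup U] [Module (ZMod 2) U]

/-! ## minors -/

theorem DY.del {W : Submodule (ZMod 2) U} {l : List (Dual (ZMod 2) U)} {a : Dual (ZMod 2) U}
    (h : DY W (a :: l)) : DY W l := by
  have := h.her [] l [a] (by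
    simpa using (List.perm_append_comm (l₁ := [a]) (l₂ := l)))
  rwa [Wc_nil] at this

theorem DY.con {W : Submodule (ZMod 2) U} {l : List (Dual (ZMod 2) U)} {a : Dual (ZMod 2) U}
    (h : DY W (a :: l)) : DY (W ⊓ LinearMap.ker a) l := by
  have := h.her [a] l [] (by simp)
  rwa [Wc_cons, Wc_nil] at this

/-! ## congruence and slides for F and kap -/

theorem Fcongr {W : Submodule (ZMod 2) U} {l l' : List (Dual (ZMod 2) U)}
    (h : List.Forall₂ (fun f g => ∀ x ∈ W, f x = g x) l l') : F W l = F W l' :=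
  F_iso (LinearEquiv.refl _ W) (h.imp (fun _ _ h' (x : W) => h' (x : U) x.2))

theorem kapcongr {W : Submodule (ZMod 2) U} {l l' : List (Dual (ZMod 2) U)}
    (h : List.Forall₂ (fun f g => ∀ x ∈ W, f x = g x) l l') : kap W l = kap W l' :=
  kap_iso (LinearEquiv.refl _ W) (h.imp (fun _ _ h' (x : W) => h' (x : U) x.2))

theorem Pcongr {W : Submodule (ZMod 2) U} {l l' : List (Dual (ZMod 2) U)}
    (h : List.Forall₂ (fun f g => ∀ x ∈ W, f x = g x) l l') (hp : P W l) : P W l' := by
  unfold P; rw [← Fcongr h, ← kapcongr h]; exact hp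

theorem Fslide {W : Submodule (ZMod 2) U} {t c : Dual (ZMod 2) U} {e : U}
    (he : e ∈ W) (te : t e = 1) (ce : c e = 0) {R1 R2 : List (Dual (ZMod 2) U)}
    (hR : List.Forall₂ (SR W t c e) R1 R2) :
    F (W ⊓ LinearMap.ker t) R1 = F (W ⊓ LinearMap.ker (t + c)) R2 := by
  have h := F_iso (slideEquiv he te ce (C1 := []) (C2 := []) List.Forall₂.nil) (hR.imp (by
    intro f g hfg x
    exact (hfg x.1 x.2.1.1 x.2.1.2).symm))
  rwa [Wc_nil, Wc_nil] at h

theorem Pperm [FiniteDimensional (ZMod 2) U] {W : Submodule (ZMod 2) U}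
    {l l' : List (Dual (ZMod 2) U)} (h : l.Perm l') (hp : P W l) : P W l' := by
  unfold P; rw [← F_perm h, ← kap_perm h]; exact hp

theorem Piso {W W' : Submodule (ZMod 2) U} {l l' : List (Dual (ZMod 2) U)} (φ : W ≃ₗ[ZMod 2] W')
    (h : List.Forall₂ (fun f g => ∀ x : W, f x = g (φ x)) l l') (hp : P W l) : P W' l' := by
  unfold P; rw [← F_iso φ h, ← kap_iso φ h]; exact hp

/-! ## ideal -/

theorem two_mem : (2 : ℤ[X]) ∈ I := Ideal.subset_span (by simp)
theorem X_mem : (X : ℤ[X]) ∈ I := Ideal.subset_span (by simp)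
theorem X2_mem : (X + 2 : ℤ[X]) ∈ I := I.add_mem X_mem two_mem

theorem mulI {f g : ℤ[X]} {n m : ℕ} (hg : g ∈ I) (hf : f ∈ I ^ n) (h : m ≤ n + 1) :
    g * f ∈ I ^ m := by
  refine Ideal.pow_le_pow_right h ?_
  rw [pow_succ']
  exact Ideal.mul_mem_mul hg hf

theorem mulI2 {f : ℤ[X]} {n m : ℕ} (hf : f ∈ I ^ n) (h : m ≤ n + 2) :
    (X + 2) * (2 * f) ∈ I ^ m :=
  mulI X2_mem (mulI two_mem hf le_rfl) h

/-! ## recursion for F -/

theorem F_cons_van {W : Submodule (ZMod 2) U} {l : List (Dual (ZMod 2) U)}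
    {a : Dual (ZMod 2) U} (h : Van W a) : F W (a :: l) = (X + 1) * F W l := by
  rw [F, if_pos h]; ring

theorem F_cons_not {W : Submodule (ZMod 2) U} {l : List (Dual (ZMod 2) U)}
    {a : Dual (ZMod 2) U} (h : ¬ Van W a) :
    F W (a :: l) = F W l + F (W ⊓ LinearMap.ker a) l := by
  rw [F, if_neg h]

theorem van_inf {W : Submodule (ZMod 2) U} {a : Dual (ZMod 2) U} (h : Van W a) :
    W ⊓ LinearMap.ker a = W := by
  apply le_antisymm inf_le_left
  intro x hx; exact ⟨hx, h x hx⟩

theorem van_ker (W : Submodule (ZMod 2) U) (a : Dual (ZMod 2) U) :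
    Van (W ⊓ LinearMap.ker a) a := fun x hx => hx.2

theorem P_nil [FiniteDimensional (ZMod 2) U] (W : Submodule (ZMod 2) U) : P W [] := by
  unfold P
  rw [F]
  have h : kap W [] ≤ finrank (ZMod 2) W := by
    unfold kap
    exact Submodule.finrank_mono (fun x hx => hx.1)
  exact Ideal.pow_le_pow_right h (Ideal.pow_mem_pow X_mem _)

theorem P_loop {W : Submodule (ZMod 2) U} {l : List (Dual (ZMod 2) U)}
    {a : Dual (ZMod 2) U} (h : Van W a) (hp : P W l) : P W (a :: l) := by
  unfold P at *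
  rw [F_cons_van h, kap_loop W l a h]
  exact Ideal.mul_mem_left _ _ hp

theorem P_par [FiniteDimensional (ZMod 2) U] {W : Submodule (ZMod 2) U}
    {l : List (Dual (ZMod 2) U)} {a : Dual (ZMod 2) U} (hp : P W l)
    (hq : P (W ⊓ LinearMap.ker a) l) : P W (a :: a :: l) := by
  by_cases h : Van W a
  · exact P_loop h (P_loop h hp)
  · unfold P at *
    rw [F_cons_not h, F_cons_not h, F_cons_van (van_ker W a), kap_par]
    have e : F W l + F (W ⊓ LinearMap.ker a) l + (X + 1) * F (W ⊓ LinearMap.ker a) l =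
        F W l + (X + 2) * F (W ⊓ LinearMap.ker a) l := by ring
    rw [e]
    exact Ideal.add_mem _ hp (mulI X2_mem hq (kap_ker W l a).1)

theorem P_free [FiniteDimensional (ZMod 2) U] {W : Submodule (ZMod 2) U}
    {l : List (Dual (ZMod 2) U)} {t : Dual (ZMod 2) U} (h : Priv W l t)
    (hp : P (W ⊓ LinearMap.ker t) l) : P W l := by
  unfold P at *
  rw [F_free h]
  exact mulI X_mem hp (kap_ker W l t).1

theorem Priv.not_van {W : Submodule (ZMod 2) U} {l : List (Dual (ZMod 2) U)}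
    {t : Dual (ZMod 2) U} (h : Priv W l t) : ¬ Van W t := by
  obtain ⟨e, he, te, _⟩ := h
  intro h'
  have := h' e he
  rw [te] at this
  exact one_ne_zero this

theorem F_coloop [FiniteDimensional (ZMod 2) U] {W : Submodule (ZMod 2) U}
    {l : List (Dual (ZMod 2) U)} {t : Dual (ZMod 2) U} (h : Priv W l t) :
    F W (t :: l) = (X + 1) * F (W ⊓ LinearMap.ker t) l := by
  rw [F_cons_not h.not_van, F_free h]; ring

theorem P_coloop [FiniteDimensional (ZMod 2) U] {W : Submodule (ZMod 2) U}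
    {l : List (Dual (ZMod 2) U)} {t : Dual (ZMod 2) U} (h : Priv W l t)
    (hp : P (W ⊓ LinearMap.ker t) l) : P W (t :: l) := by
  unfold P at *
  rw [F_coloop h, kap_coloop h]
  exact Ideal.mul_mem_left _ _ hp

theorem F_series [FiniteDimensional (ZMod 2) U] {W : Submodule (ZMod 2) U}
    {l : List (Dual (ZMod 2) U)} {t a : Dual (ZMod 2) U} (h : Priv W (a :: l) t) :
    F W (t :: (t + a) :: l) =
      (X + 1) * F (W ⊓ LinearMap.ker t) l + F (W ⊓ LinearMap.ker t) (a :: l) := by
  rw [F_cons_not h.not_van]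
  obtain ⟨e, he, te, hfe⟩ := h
  have ae : a e = 0 := hfe a List.mem_cons_self
  have le : ∀ f ∈ l, f e = 0 := fun f hf => hfe f (List.mem_cons_of_mem _ hf)
  have h2 : Priv W l (t + a) := ⟨e, he, by simp [te, ae], le⟩
  rw [F_coloop h2, ← Fslide he te ae (SR_tail le)]
  congr 1
  apply Fcongr
  refine .cons ?_ (refl_tail l)
  intro x hx
  have : t x = 0 := hx.2
  simp [this]

end H665R2.LV
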