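import Pool.Agent.H665R2.LV.NDefs
import Pool.Agent.H665R2.LV.Main1
set_option autoImplicit false

/-! Contraction and Y-Delta exchange for stably reducible configurations. -/

namespace H665R2.LV

open Module

section sdyC

variable {U U' : Type} [AddCommGroup U] [Module (ZMod 2) U] [AddCommGroup U'] [Module (ZMod 2) U']

/-- restriction of an isomorphism to the kernels of corresponding functionals -/
def NC_res {W : Submodule (ZMod 2) U} {W' : Submodule (ZMod 2) U'} (φ : W ≃ₗ[ZMod 2] W')
    {a : Dual (ZMod 2) U} {a' : Dual (ZMod 2) U'} (h : ∀ x : W, a x = a' (φ x)) :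
    (W ⊓ LinearMap.ker a : Submodule (ZMod 2) U) ≃ₗ[ZMod 2]
      (W' ⊓ LinearMap.ker a' : Submodule (ZMod 2) U') where
  toFun x := ⟨φ ⟨x, x.2.1⟩, (φ ⟨x, x.2.1⟩).2, by
    have h1 := h ⟨x, x.2.1⟩
    have h2 : a (x : U) = 0 := x.2.2
    show a' _ = 0
    rw [← h1]
    exact h2⟩
  invFun y := ⟨φ.symm ⟨y, y.2.1⟩, (φ.symm ⟨y, y.2.1⟩).2, by
    have h1 := h (φ.symm ⟨y, y.2.1⟩)
    rw [LinearEquiv.apply_symm_apply] at h1
    have h2 : a' (y : U') = 0 := y.2.2
    show a _ = 0
    rw [h1]
    exact h2⟩
  map_add' x y := by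
    apply Subtype.ext
    have h : ((φ (⟨(x : U), x.2.1⟩ + ⟨(y : U), y.2.1⟩) : W') : U') =
        ((φ ⟨(x : U), x.2.1⟩ + φ ⟨(y : U), y.2.1⟩ : W') : U') := by rw [map_add]
    exact h
  map_smul' c x := by
    apply Subtype.ext
    have h : ((φ (c • ⟨(x : U), x.2.1⟩) : W') : U') =
        ((c • φ ⟨(x : U), x.2.1⟩ : W') : U') := by rw [map_smul]
    exact h
  left_inv x := by
    apply Subtype.ext
    show ((φ.symm ⟨(φ ⟨x, _⟩ : W'), _⟩ : W) : U) = x
    rw [Subtype.coe_eta, LinearEquiv.symm_apply_apply]
  right_inv y := by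
    apply Subtype.ext
    show ((φ ⟨(φ.symm ⟨y, _⟩ : W), _⟩ : W') : U') = y
    rw [Subtype.coe_eta, LinearEquiv.apply_symm_apply]

theorem NC_res_coe {W : Submodule (ZMod 2) U} {W' : Submodule (ZMod 2) U'}
    (φ : W ≃ₗ[ZMod 2] W') {a : Dual (ZMod 2) U} {a' : Dual (ZMod 2) U'}
    (h : ∀ x : W, a x = a' (φ x)) (x : (W ⊓ LinearMap.ker a : Submodule (ZMod 2) U)) :
    (NC_res φ h x : U') = (φ ⟨x.1, x.2.1⟩ : U') := rfl

theorem NC_forall₂ {W : Submodule (ZMod 2) U} {W' : Submodule (ZMod 2) U'}
    (φ : W ≃ₗ[ZMod 2] W') {a : Dual (ZMod 2) U} {a' : Dual (ZMod 2) U'}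
    (h : ∀ x : W, a x = a' (φ x)) {l : List (Dual (ZMod 2) U)} {l' : List (Dual (ZMod 2) U')}
    (hl : List.Forall₂ (fun f g => ∀ x : W, f x = g (φ x)) l l') :
    List.Forall₂ (fun f g => ∀ x : (W ⊓ LinearMap.ker a : Submodule (ZMod 2) U),
      f x = g (NC_res φ h x)) l l' := by
  refine hl.imp fun f g hfg x => ?_
  rw [NC_res_coe]
  exact hfg ⟨x.1, x.2.1⟩

/-- task C -/
theorem SDY.con {W : Submodule (ZMod 2) U} {l : List (Dual (ZMod 2) U)} {a : Dual (ZMod 2) U}
    (hs : SDY W (a :: l)) : SDY (W ⊓ LinearMap.ker a) l := by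
  obtain ⟨B, i1, i2, i3, W', l', φ, hl, hD⟩ := hs
  cases hl with
  | cons h hl =>
    exact ⟨B, i1, i2, i3, _, _, NC_res φ h, NC_forall₂ φ h hl, hD.con⟩

theorem NC_add_self (x : ZMod 2) : x + x = 0 := by
  revert x
  decide

/-- task C -/
theorem SDY.toDelta {W : Submodule (ZMod 2) U} {l : List (Dual (ZMod 2) U)}
    {t a b : Dual (ZMod 2) U} (h : Priv W (a :: b :: l) t)
    (hs : SDY W (t :: (t + a) :: (t + a + b) :: l)) :
    SDY (W ⊓ LinearMap.ker t) (a :: b :: (a + b) :: l) := by
  obtain ⟨B, i1, i2, i3, W', l', φ, hl, hD⟩ := hs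
  cases hl with
  | @cons _ t1 _ _ h1 hl =>
    cases hl with
    | @cons _ t2 _ _ h2 hl =>
      cases hl with
      | @cons _ t3 _ l0 h3 hl =>
        have e1 : t1 + (t2 + t1) = t2 := by
          ext x
          simp only [LinearMap.add_apply]
          have := NC_add_self (t1 x)
          linear_combination this
        have e2 : t1 + (t2 + t1) + (t3 + t2) = t3 := by
          rw [e1]
          ext x
          simp only [LinearMap.add_apply]
          have := NC_add_self (t2 x)
          linear_combination this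
        have ha : ∀ x : W, a x = (t2 + t1) (φ x) := by
          intro x
          rw [LinearMap.add_apply, ← h2 x, ← h1 x, LinearMap.add_apply]
          have := NC_add_self (t (x : U))
          linear_combination -this
        have hb : ∀ x : W, b x = (t3 + t2) (φ x) := by
          intro x
          rw [LinearMap.add_apply, ← h3 x, ← h2 x, LinearMap.add_apply, LinearMap.add_apply]
          have h4 := NC_add_self (t (x : U))
          have h5 := NC_add_self (a (x : U))
          linear_combination -h4 - h5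
        have hab : ∀ x : W, (a + b) x = ((t2 + t1) + (t3 + t2)) (φ x) := by
          intro x
          rw [LinearMap.add_apply, LinearMap.add_apply, ha x, hb x]
        have hP : Priv W' ((t2 + t1) :: (t3 + t2) :: l0) t1 := by
          obtain ⟨e, he, hte, hz⟩ := h
          refine ⟨φ ⟨e, he⟩, (φ ⟨e, he⟩).2, ?_, ?_⟩
          · rw [← h1 ⟨e, he⟩]
            exact hte
          · intro f hf
            rcases List.mem_cons.mp hf with rfl | hf
            · rw [← ha ⟨e, he⟩]
              exact hz a (by simp)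
            rcases List.mem_cons.mp hf with rfl | hf
            · rw [← hb ⟨e, he⟩]
              exact hz b (by simp)
            · have key : ∀ (m : List (Dual (ZMod 2) U)) (m' : List (Dual (ZMod 2) B)),
                  List.Forall₂ (fun f g => ∀ x : W, f x = g (φ x)) m m' →
                  (∀ g ∈ m, g e = 0) → ∀ g ∈ m', g (φ ⟨e, he⟩ : B) = 0 := by
                intro m m' hm
                induction hm with
                | nil => intro _ g hg; exact absurd hg (by simp)
                | cons hx _ ih =>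
                  intro hz' g hg
                  rcases List.mem_cons.mp hg with rfl | hg
                  · rw [← hx ⟨e, he⟩]
                    exact hz' _ (by simp)
                  · exact ih (fun g hg => hz' g (List.mem_cons_of_mem _ hg)) g hg
              exact key l l0 hl (fun g hg => hz g (by simp [hg])) f hf
        have hD' : DY W' (t1 :: (t1 + (t2 + t1)) :: (t1 + (t2 + t1) + (t3 + t2)) :: l0) := by
          rw [e2, e1]
          exact hD
        refine ⟨B, i1, i2, i3, _, _, NC_res φ h1, ?_, DY.toDelta hP hD'⟩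
        exact NC_forall₂ φ h1 (List.Forall₂.cons ha (List.Forall₂.cons hb
          (List.Forall₂.cons hab hl)))

end sdyC

end H665R2.LV
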