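import Pool.Agent.H665R2.LV.Defs

namespace H665R2.LV

open Polynomial

variable {U : Type} [AddCommGroup U] [Module (ZMod 2) U]

theorem TS_zmod (c : ZMod 2) : c + c = 0 := by
  revert c; decide

theorem TS_B_cons (f : Module.Dual (ZMod 2) U) (l : List (Module.Dual (ZMod 2) U)) (x y : U) :
    B (f :: l) x y = f x * f y + B l x y := by
  simp [B]

theorem TS_B_add (l : List (Module.Dual (ZMod 2) U)) (x x' y : U) :
    B l (x + x') y = B l x y + B l x' y := by
  induction l with
  | nil => simp [B]
  | cons f l ih => rw [TS_B_cons, TS_B_cons, TS_B_cons, ih, map_add]; ring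

theorem TS_B_smul (l : List (Module.Dual (ZMod 2) U)) (c : ZMod 2) (x y : U) :
    B l (c • x) y = c * B l x y := by
  induction l with
  | nil => simp [B]
  | cons f l ih => rw [TS_B_cons, TS_B_cons, ih, map_smul, smul_eq_mul]; ring

theorem TS_B_zero (l : List (Module.Dual (ZMod 2) U)) (e y : U) (h : ∀ f ∈ l, f e = 0) :
    B l e y = 0 := by
  induction l with
  | nil => simp [B]
  | cons f l ih =>
    rw [TS_B_cons, h f (List.mem_cons_self ..), zero_mul, zero_add]
    exact ih (fun g hg => h g (List.mem_cons_of_mem _ hg))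

theorem TS_B_zero' (l : List (Module.Dual (ZMod 2) U)) (e y : U) (h : ∀ f ∈ l, f e = 0) :
    B l y e = 0 := by
  induction l with
  | nil => simp [B]
  | cons f l ih =>
    rw [TS_B_cons, h f (List.mem_cons_self ..), mul_zero, zero_add]
    exact ih (fun g hg => h g (List.mem_cons_of_mem _ hg))

/-- K7: series pair -/
theorem kap_series [FiniteDimensional (ZMod 2) U] {W : Submodule (ZMod 2) U}
    {l : List (Module.Dual (ZMod 2) U)} {t a : Module.Dual (ZMod 2) U} (h : Priv W (a :: l) t)
    (ha : ¬ Van (W ⊓ LinearMap.ker t) a) :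
    kap W (t :: (t + a) :: l) ≤ kap (W ⊓ LinearMap.ker t ⊓ LinearMap.ker a) l := by
  obtain ⟨e, heW, hte, hel⟩ := h
  have hae : a e = 0 := hel a (List.mem_cons_self ..)
  have hle : ∀ f ∈ l, f e = 0 := fun f hf => hel f (List.mem_cons_of_mem _ hf)
  have hrad : ∀ x ∈ rad W (t :: (t + a) :: l), x ∈ W ∧ a x = 0 ∧ ∀ y ∈ W,
      t x * t y + t x * (t y + a y) + B l x y = 0 := by
    rintro x ⟨hxW, hx⟩
    have h1 : a x = 0 := by
      have h2 := hx e heW
      rw [TS_B_cons, TS_B_cons, TS_B_zero' l e x hle, hte, LinearMap.add_apply,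
        LinearMap.add_apply, hte, hae] at h2
      have h3 := TS_zmod (t x)
      calc a x = (t x + t x) + a x := by rw [h3, zero_add]
        _ = 0 := by rw [← h2]; ring
    refine ⟨hxW, h1, fun y hy => ?_⟩
    have h2 := hx y hy
    rw [TS_B_cons, TS_B_cons, LinearMap.add_apply, LinearMap.add_apply, h1] at h2
    rw [← h2]
    ring
  set φ : U →ₗ[ZMod 2] U := LinearMap.id + LinearMap.smulRight t e with hφ
  have hφa : ∀ x, φ x = x + t x • e := fun x => by simp [hφ]
  have hmem : ∀ x ∈ rad W (t :: (t + a) :: l),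
      φ x ∈ rad (W ⊓ LinearMap.ker t ⊓ LinearMap.ker a) l := by
    intro x hx
    obtain ⟨hxW, hax, hxy⟩ := hrad x hx
    rw [hφa]
    refine ⟨⟨⟨W.add_mem hxW (W.smul_mem _ heW), ?_⟩, ?_⟩, ?_⟩
    · show t (x + t x • e) = 0
      rw [map_add, map_smul, hte, smul_eq_mul, mul_one]
      exact TS_zmod _
    · show a (x + t x • e) = 0
      rw [map_add, map_smul, hae, hax, smul_zero, add_zero]
    · rintro y ⟨⟨hyW, hty⟩, hay⟩
      have hty' : t y = 0 := hty
      have hay' : a y = 0 := hay
      rw [TS_B_add, TS_B_smul, TS_B_zero l e y hle, mul_zero, add_zero]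
      have := hxy y hyW
      rw [hty', hay'] at this
      rw [← this]
      ring
  have hinj : Function.Injective (φ.restrict hmem) := by
    rw [← LinearMap.ker_eq_bot, LinearMap.ker_eq_bot']
    rintro ⟨x, hx⟩ h0
    have h1 : φ x = 0 := congrArg Subtype.val h0
    obtain ⟨hxW, hax, hxy⟩ := hrad x hx
    rw [hφa] at h1
    have ht : t x = 0 ∨ t x = 1 := by
      have : ∀ c : ZMod 2, c = 0 ∨ c = 1 := by decide
      exact this _
    rcases ht with ht | ht
    · rw [ht, zero_smul, add_zero] at h1
      exact Subtype.ext h1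
    · exfalso
      apply ha
      intro y hy
      rw [ht, one_smul] at h1
      have hxe : x = e := by
        have h2 : e + e = 0 := by
          have h3 := TS_zmod 1
          calc e + e = ((1 : ZMod 2) + 1) • e := by rw [add_smul, one_smul]
            _ = 0 := by rw [h3, zero_smul]
        calc x = x + (e + e) := by rw [h2, add_zero]
          _ = (x + e) + e := by abel
          _ = e := by rw [h1, zero_add]
      have h4 := hxy y hy.1
      have h5 : t y = 0 := hy.2
      rw [hxe, hte, TS_B_zero l e y hle, h5] at h4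
      rw [← h4]
      ring
  exact LinearMap.finrank_le_finrank_of_injective hinj

end H665R2.LV
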