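import Pool.Agent.H665R2.LV.Main2
import Pool.Agent.H665R2.LV.TS
set_option autoImplicit false
set_option linter.unusedVariables false

namespace H665R2.LV

open Polynomial Module

variable {U : Type} [AddCommGroup U] [Module (ZMod 2) U]

theorem P_series [FiniteDimensional (ZMod 2) U] {W : Submodule (ZMod 2) U}
    {l : List (Dual (ZMod 2) U)} {t a : Dual (ZMod 2) U} (h : Priv W (a :: l) t)
    (h0 : P (W ⊓ LinearMap.ker t) l) (ha : P (W ⊓ LinearMap.ker t ⊓ LinearMap.ker a) l) :
    P W (t :: (t + a) :: l) := by
  have hP : Priv W l t := by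
    obtain ⟨e, he, te, hfe⟩ := h
    exact ⟨e, he, te, fun f hf => hfe f (List.mem_cons_of_mem _ hf)⟩
  by_cases hv : Van (W ⊓ LinearMap.ker t) a
  · -- then `a` vanishes on `W`
    have hW : Van W a := by
      obtain ⟨e, he, te, hfe⟩ := h
      have ae : a e = 0 := hfe a List.mem_cons_self
      intro x hx
      rcases z2 (t x) with h1 | h1
      · exact hv x ⟨hx, h1⟩
      · have h2 := hv (x + e) ⟨W.add_mem hx he, by
          show t (x + e) = 0
          rw [map_add, h1, te]; decide⟩
        rwa [map_add, ae, add_zero] at h2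
    refine Pcongr (l := t :: t :: l) ?_ (P_par (P_free hP h0) h0)
    refine .cons (fun x _ => rfl) (.cons ?_ (refl_tail l))
    intro x hx
    simp [hW x hx]
  · unfold P at *
    have hk := kap_series h hv
    rw [F_series h, F_cons_not hv]
    have e : (X + 1) * F (W ⊓ LinearMap.ker t) l + (F (W ⊓ LinearMap.ker t) l +
        F (W ⊓ LinearMap.ker t ⊓ LinearMap.ker a) l) =
        (X + 2) * F (W ⊓ LinearMap.ker t) l +
        F (W ⊓ LinearMap.ker t ⊓ LinearMap.ker a) l := by ring
    rw [e]
    have hk2 := (kap_ker (W ⊓ LinearMap.ker t) l a).2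
    exact Ideal.add_mem _ (mulI X2_mem h0 (by omega)) (Ideal.pow_le_pow_right hk ha)

theorem van_lift {W : Submodule (ZMod 2) U} {t a : Dual (ZMod 2) U} {e : U} (he : e ∈ W)
    (te : t e = 1) (ae : a e = 0) (hv : Van (W ⊓ LinearMap.ker t) a) : Van W a := by
  intro x hx
  rcases z2 (t x) with h1 | h1
  · exact hv x ⟨hx, h1⟩
  · have h2 := hv (x + e) ⟨W.add_mem hx he, by
      show t (x + e) = 0
      rw [map_add, h1, te]; decide⟩
    rwa [map_add, ae, add_zero] at h2

/-- all minors with fewer elements are good -/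
def Small (N : ℕ) : Prop := ∀ (U : Type) [AddCommGroup U] [Module (ZMod 2) U]
  [FiniteDimensional (ZMod 2) U] (W : Submodule (ZMod 2) U) (l : List (Dual (ZMod 2) U)),
  DY W l → l.length < N → P W l

theorem P_toY [FiniteDimensional (ZMod 2) U] {N : ℕ} (hN : Small N)
    {W : Submodule (ZMod 2) U}
    {l : List (Dual (ZMod 2) U)} {t a b : Dual (ZMod 2) U} (h : Priv W (a :: b :: l) t)
    (hD : DY (W ⊓ LinearMap.ker t) (a :: b :: (a + b) :: l))
    (hlen : l.length + 3 ≤ N)
    (hp : P (W ⊓ LinearMap.ker t) (a :: b :: (a + b) :: l)) :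
    P W (t :: (t + a) :: (t + a + b) :: l) := by
  have hY := DY.toY h hD
  obtain ⟨e, he, te, hfe⟩ := id h
  have ae : a e = 0 := hfe a (by simp)
  have be : b e = 0 := hfe b (by simp)
  by_cases ha : Van (W ⊓ LinearMap.ker t) a
  · have haW := van_lift he te ae ha
    have hY1 : DY W (t :: t :: (t + b) :: l) := congrDY (.cons (fun x _ => rfl)
      (.cons (fun x hx => by simp [haW x hx]) (.cons (fun x hx => by simp [haW x hx])
        (refl_tail l)))) hY
    have h1 : P W ((t + b) :: l) := hN U _ _ hY1.del.del (by simp; omega)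
    have h2 : P (W ⊓ LinearMap.ker t) ((t + b) :: l) := by
      have h3 : DY (W ⊓ LinearMap.ker t) (t :: (t + b) :: l) := hY1.con
      exact hN U _ _ h3.del (by simp; omega)
    exact Pcongr (.cons (fun x _ => rfl)
      (.cons (fun x hx => by simp [haW x hx]) (.cons (fun x hx => by simp [haW x hx])
        (refl_tail l)))) (P_par h1 h2)
  by_cases hb : Van (W ⊓ LinearMap.ker t) b
  · have hbW := van_lift he te be hb
    have hY1 : DY W ((t + a) :: (t + a) :: t :: l) := by
      have h5 : DY W (t :: (t + a) :: (t + a) :: l) := congrDY (.cons (fun x _ => rfl)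
        (.cons (fun x _ => rfl) (.cons (fun x hx => by simp [hbW x hx])
        (refl_tail l)))) hY
      exact DY.perm ((List.Perm.swap (t + a) t ((t + a) :: l)).trans
        ((List.Perm.swap (t + a) t l).cons (t + a))) h5
    have h1 : P W (t :: l) := hN U _ _ hY1.del.del (by simp; omega)
    have h2 : P (W ⊓ LinearMap.ker (t + a)) (t :: l) := by
      have h3 : DY (W ⊓ LinearMap.ker (t + a)) ((t + a) :: t :: l) := hY1.con
      exact hN U _ _ h3.del (by simp; omega)
    have h4 : P W (t :: (t + a) :: (t + a) :: l) :=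
      Pperm (((List.Perm.swap (t + a) t l).cons (t + a)).symm.trans
        (List.Perm.swap (t + a) t ((t + a) :: l)).symm) (P_par h1 h2)
    exact Pcongr (.cons (fun x _ => rfl)
      (.cons (fun x _ => rfl) (.cons (fun x hx => by simp [hbW x hx])
        (refl_tail l)))) h4
  by_cases hab : Van (W ⊓ LinearMap.ker t) (a + b)
  · have habW : Van W (a + b) := van_lift he te (by simp [ae, be]) hab
    have hY1 : DY W (t :: t :: (t + a) :: l) := by
      have h5 : DY W (t :: (t + a) :: t :: l) := congrDY (.cons (fun x _ => rfl)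
        (.cons (fun x _ => rfl) (.cons (fun x hx => by
          have := habW x hx
          rw [LinearMap.add_apply] at this
          rw [LinearMap.add_apply, LinearMap.add_apply, add_assoc, this, add_zero])
        (refl_tail l)))) hY
      exact DY.perm ((List.Perm.swap t (t + a) l).cons t) h5
    have h1 : P W ((t + a) :: l) := hN U _ _ hY1.del.del (by simp; omega)
    have h2 : P (W ⊓ LinearMap.ker t) ((t + a) :: l) := by
      have h3 : DY (W ⊓ LinearMap.ker t) (t :: (t + a) :: l) := hY1.con
      exact hN U _ _ h3.del (by simp; omega)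
    have h4 : P W (t :: (t + a) :: t :: l) :=
      Pperm ((List.Perm.swap t (t + a) l).cons t).symm (P_par h1 h2)
    exact Pcongr (.cons (fun x _ => rfl)
      (.cons (fun x _ => rfl) (.cons (fun x hx => by
          have := habW x hx
          rw [LinearMap.add_apply] at this
          rw [LinearMap.add_apply, LinearMap.add_apply, add_assoc, this, add_zero])
        (refl_tail l)))) h4
  -- the main case
  have h1 : P (W ⊓ LinearMap.ker t) (a :: b :: l) := by
    have h5 : DY (W ⊓ LinearMap.ker t) ((a + b) :: a :: b :: l) :=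
      DY.perm (((List.Perm.swap (a + b) b l).cons a).trans
        (List.Perm.swap (a + b) a (b :: l))) hD
    exact hN U _ _ h5.del (by simp; omega)
  have h2 : P (W ⊓ LinearMap.ker t ⊓ LinearMap.ker a) l :=
    hN U _ _ hD.con.del.del (by omega)
  have h3 : P (W ⊓ LinearMap.ker t ⊓ LinearMap.ker b) l :=
    hN U _ _ (DY.perm (List.Perm.swap b a _) hD).con.del.del (by omega)
  have h4 : P (W ⊓ LinearMap.ker t) l := hN U _ _ hD.del.del.del (by omega)
  have hd := diff_mem h1 h2 h3 h4
  rw [← F_DY h ha hb hab] at hd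
  unfold P at hp ⊢
  rw [kap_Y h]
  have := Ideal.sub_mem _ hp hd
  simpa using this

theorem P_toDelta [FiniteDimensional (ZMod 2) U] {N : ℕ} (hN : Small N)
    {W : Submodule (ZMod 2) U}
    {l : List (Dual (ZMod 2) U)} {t a b : Dual (ZMod 2) U} (h : Priv W (a :: b :: l) t)
    (hY : DY W (t :: (t + a) :: (t + a + b) :: l))
    (hlen : l.length + 3 ≤ N)
    (hp : P W (t :: (t + a) :: (t + a + b) :: l)) :
    P (W ⊓ LinearMap.ker t) (a :: b :: (a + b) :: l) := by
  have hD := DY.toDelta h hY
  obtain ⟨e, he, te, hfe⟩ := id h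
  have ae : a e = 0 := hfe a (by simp)
  have be : b e = 0 := hfe b (by simp)
  have m2 : P (W ⊓ LinearMap.ker t ⊓ LinearMap.ker a) l :=
    hN U _ _ hD.con.del.del (by omega)
  have m3 : P (W ⊓ LinearMap.ker t ⊓ LinearMap.ker b) l :=
    hN U _ _ (DY.perm (List.Perm.swap b a _) hD).con.del.del (by omega)
  have m4 : P (W ⊓ LinearMap.ker t) l := hN U _ _ hD.del.del.del (by omega)
  by_cases ha : Van (W ⊓ LinearMap.ker t) a
  · refine Pcongr (l := a :: b :: b :: l) ?_ (P_loop ha (P_par m4 m3))
    exact .cons (fun x _ => rfl) (.cons (fun x _ => rfl) (.cons (fun x hx => by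
      simp [ha x hx]) (refl_tail l)))
  by_cases hb : Van (W ⊓ LinearMap.ker t) b
  · have h6 : P (W ⊓ LinearMap.ker t) (b :: a :: a :: l) := P_loop hb (P_par m4 m2)
    refine Pcongr (l := a :: b :: a :: l) ?_ (Pperm (List.Perm.swap a b _) h6)
    exact .cons (fun x _ => rfl) (.cons (fun x _ => rfl) (.cons (fun x hx => by
      simp [hb x hx]) (refl_tail l)))
  by_cases hab : Van (W ⊓ LinearMap.ker t) (a + b)
  · have h6 : P (W ⊓ LinearMap.ker t) ((a + b) :: a :: a :: l) := P_loop hab (P_par m4 m2)
    have h7 : P (W ⊓ LinearMap.ker t) (a :: a :: (a + b) :: l) :=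
      Pperm ((List.Perm.swap a (a + b) (a :: l)).trans
        ((List.Perm.swap a (a + b) l).cons a)) h6
    refine Pcongr (l := a :: a :: (a + b) :: l) ?_ h7
    refine .cons (fun x _ => rfl) (.cons (fun x hx => ?_) (.cons (fun x hx => rfl)
      (refl_tail l)))
    have := hab x hx
    rw [LinearMap.add_apply] at this
    exact eq_of_add_z2 this
  have h1 : P (W ⊓ LinearMap.ker t) (a :: b :: l) := by
    have h5 : DY (W ⊓ LinearMap.ker t) ((a + b) :: a :: b :: l) :=
      DY.perm (((List.Perm.swap (a + b) b l).cons a).trans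
        (List.Perm.swap (a + b) a (b :: l))) hD
    exact hN U _ _ h5.del (by simp; omega)
  have hd := diff_mem h1 m2 m3 m4
  rw [← F_DY h ha hb hab] at hd
  unfold P at hp ⊢
  rw [kap_Y h] at hp
  have := Ideal.add_mem _ hd hp
  simpa using this

theorem P_step {N : ℕ} (hN : Small N) [FiniteDimensional (ZMod 2) U]
    {W : Submodule (ZMod 2) U} {l : List (Dual (ZMod 2) U)} (h : DY W l) :
    l.length ≤ N → P W l := by
  induction h with
  | nil W => exact fun _ => P_nil W
  | perm h _ ih => exact fun hl => Pperm h (ih (by rw [h.length_eq]; exact hl))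
  | iso φ h _ ih => exact fun hl => Piso φ h (ih (by rw [h.length_eq]; exact hl))
  | loop h _ ih => exact fun hl => P_loop h (ih (by simp at hl; omega))
  | par h ih =>
    intro hl
    simp only [List.length_cons] at hl
    exact P_par (hN U _ _ h.del (by omega)) (hN U _ _ h.con (by omega))
  | free h _ ih => exact fun hl => P_free h (ih hl)
  | coloop h _ ih => exact fun hl => P_coloop h (ih (by simp at hl; omega))
  | series h h' ih =>
    intro hl
    simp only [List.length_cons] at hl
    exact P_series h (hN U _ _ h'.del (by omega)) (hN U _ _ h'.con (by omega))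
  | toY h h' ih =>
    intro hl
    simp only [List.length_cons] at hl ih
    exact P_toY hN h h' (by omega) (ih (by omega))
  | toDelta h h' ih =>
    intro hl
    simp only [List.length_cons] at hl ih
    exact P_toDelta hN h h' (by omega) (ih (by omega))

theorem small_all (N : ℕ) : Small N := by
  induction N with
  | zero => intro U _ _ _ W l _ hl; exact absurd hl (Nat.not_lt_zero _)
  | succ N ih =>
    intro U _ _ _ W l h hl
    exact P_step ih h (by omega)

/-- the main theorem: the state sum of a Delta-Y reducible configuration lies in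
`(2, X) ^ kap` -/
theorem DY.good [FiniteDimensional (ZMod 2) U] {W : Submodule (ZMod 2) U}
    {l : List (Dual (ZMod 2) U)} (h : DY W l) : F W l ∈ I ^ kap W l :=
  small_all (l.length + 1) U W l h (Nat.lt_succ_self _)

end H665R2.LV
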