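import Pool.Agent.H665R2.LV.NDefs
import Pool.Agent.H665R2.LV.Main3
set_option autoImplicit false
set_option linter.unusedVariables false

/-! Task D of the planar version: rules with a private vertex for stably Delta-Y reducible
configurations. -/

namespace H665R2.LV

open Module

namespace ND

variable {U U' : Type} [AddCommGroup U] [Module (ZMod 2) U] [AddCommGroup U'] [Module (ZMod 2) U']

theorem map_ker {W : Submodule (ZMod 2) U} (j : U →ₗ[ZMod 2] U') (r : U' →ₗ[ZMod 2] U)
    (hr : ∀ x, r (j x) = x) (t : Dual (ZMod 2) U) :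
    W.map j ⊓ LinearMap.ker (t.comp r) = (W ⊓ LinearMap.ker t).map j := by
  ext x
  constructor
  · rintro ⟨⟨w, hw, rfl⟩, h⟩
    refine ⟨w, ⟨hw, ?_⟩, rfl⟩
    have h2 : t (r (j w)) = 0 := h
    rw [hr] at h2
    exact h2
  · rintro ⟨w, ⟨hw, h⟩, rfl⟩
    refine ⟨⟨w, hw, rfl⟩, ?_⟩
    show t (r (j w)) = 0
    rw [hr]
    exact h

theorem map_priv {W : Submodule (ZMod 2) U} (j : U →ₗ[ZMod 2] U') (r : U' →ₗ[ZMod 2] U)
    (hr : ∀ x, r (j x) = x) {l : List (Dual (ZMod 2) U)} {t : Dual (ZMod 2) U}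
    (h : Priv W l t) : Priv (W.map j) (l.map (fun f => f.comp r)) (t.comp r) := by
  obtain ⟨e, he, te, hf⟩ := h
  refine ⟨j e, ⟨e, he, rfl⟩, ?_, ?_⟩
  · show t (r (j e)) = 1
    rw [hr, te]
  · intro f hf'
    obtain ⟨g, hg, rfl⟩ := List.mem_map.1 hf'
    show g (r (j e)) = 0
    rw [hr]
    exact hf g hg

theorem embed (j : U →ₗ[ZMod 2] U') (r : U' →ₗ[ZMod 2] U) (hr : ∀ x, r (j x) = x)
    {W : Submodule (ZMod 2) U} {l : List (Dual (ZMod 2) U)} (h : DY W l) :
    DY (W.map j) (l.map (fun f => f.comp r)) := by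
  have hj : Function.Injective j := fun x y hxy => by
    rw [← hr x, ← hr y, hxy]
  induction h with
  | nil W => exact DY.nil _
  | perm h _ ih => exact DY.perm (h.map _) ih
  | @iso W W' l l' φ h _ ih =>
    refine DY.iso ((Submodule.equivMapOfInjective j hj W).symm.trans
      (φ.trans (Submodule.equivMapOfInjective j hj W'))) ?_ ih
    rw [List.forall₂_map_left_iff, List.forall₂_map_right_iff]
    refine h.imp ?_
    intro f g hfg x
    obtain ⟨w, rfl⟩ := (Submodule.equivMapOfInjective j hj W).surjective x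
    have e1 : (((Submodule.equivMapOfInjective j hj W) w : W.map j) : U') = j w := rfl
    have e2 : ∀ v : W', (((Submodule.equivMapOfInjective j hj W') v : W'.map j) : U') = j v :=
      fun v => rfl
    show f (r _) = g (r _)
    rw [e1, hr]
    simp only [LinearEquiv.trans_apply, LinearEquiv.symm_apply_apply]
    rw [e2, hr]
    exact hfg w
  | @loop W l a h _ ih =>
    refine DY.loop ?_ ih
    rintro x ⟨w, hw, rfl⟩
    show a (r (j w)) = 0
    rw [hr]
    exact h w hw
  | par _ ih => exact DY.par ih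
  | free h _ ih =>
    refine DY.free (map_priv j r hr h) ?_
    rw [map_ker j r hr]
    exact ih
  | coloop h _ ih =>
    refine DY.coloop (map_priv j r hr h) ?_
    rw [map_ker j r hr]
    exact ih
  | series h _ ih =>
    refine DY.series (map_priv j r hr h) ?_
    rw [map_ker j r hr]
    exact ih
  | toY h _ ih =>
    refine DY.toY (map_priv j r hr h) ?_
    rw [map_ker j r hr]
    exact ih
  | toDelta h _ ih =>
    have := DY.toDelta (map_priv j r hr h) ih
    rw [map_ker j r hr] at this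
    exact this

/-- the projection along the private vertex -/
def pr {W : Submodule (ZMod 2) U} {t : Dual (ZMod 2) U} {e : U}
    (he : e ∈ W) (te : t e = 1) : W →ₗ[ZMod 2] ↥(W ⊓ LinearMap.ker t) where
  toFun x := ⟨x.1 + t x.1 • e, W.add_mem x.2 (W.smul_mem _ he), LinearMap.mem_ker.2 (by
      rw [map_add, map_smul, te, smul_eq_mul, mul_one, z2_add_self])⟩
  map_add' x y := by
    apply Subtype.ext
    show (x.1 + y.1) + t (x.1 + y.1) • e = (x.1 + t x.1 • e) + (y.1 + t y.1 • e)
    rw [map_add, add_smul]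
    abel
  map_smul' c x := by
    apply Subtype.ext
    show (c • x.1) + t (c • x.1) • e = c • (x.1 + t x.1 • e)
    rw [map_smul, smul_add, smul_smul, smul_eq_mul]

theorem pr_val {W : Submodule (ZMod 2) U} {t : Dual (ZMod 2) U} {e : U}
    (he : e ∈ W) (te : t e = 1) (x : W) : ((pr he te x : ↥(W ⊓ LinearMap.ker t)) : U) =
      x.1 + t x.1 • e := rfl

/-- the equivalence used for lifting -/
noncomputable def liftEquiv {B : Type} [AddCommGroup B] [Module (ZMod 2) B]
    {W : Submodule (ZMod 2) U} {W' : Submodule (ZMod 2) B} {t : Dual (ZMod 2) U} {e : U}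
    (he : e ∈ W) (te : t e = 1) (φ : ↥(W ⊓ LinearMap.ker t) ≃ₗ[ZMod 2] W') :
    W ≃ₗ[ZMod 2] ↥(W'.prod (⊤ : Submodule (ZMod 2) (ZMod 2))) where
  toFun x := ⟨((φ (pr he te x) : W').1, t x.1), (φ _).2, trivial⟩
  invFun y := ⟨(φ.symm ⟨y.1.1, y.2.1⟩ : ↥(W ⊓ LinearMap.ker t)).1 + y.1.2 • e,
    W.add_mem (φ.symm ⟨y.1.1, y.2.1⟩).2.1 (W.smul_mem _ he)⟩
  map_add' x y := by
    apply Subtype.ext
    refine Prod.ext ?_ ?_
    · show (φ (pr he te (x + y)) : W').1 = (φ (pr he te x) : W').1 + (φ (pr he te y) : W').1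
      rw [map_add, map_add]
      rfl
    · show t (x.1 + y.1) = t x.1 + t y.1
      rw [map_add]
  map_smul' c x := by
    apply Subtype.ext
    refine Prod.ext ?_ ?_
    · show (φ (pr he te (c • x)) : W').1 = c • (φ (pr he te x) : W').1
      rw [map_smul, map_smul]
      rfl
    · show t (c • x.1) = c • t x.1
      rw [map_smul]
  left_inv x := by
    apply Subtype.ext
    show (φ.symm (φ (pr he te x)) : ↥(W ⊓ LinearMap.ker t)).1 + t x.1 • e = x.1
    rw [LinearEquiv.symm_apply_apply, pr_val, add_assoc, add_self_U, add_zero]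
  right_inv y := by
    have hk : t ((φ.symm ⟨y.1.1, y.2.1⟩ : ↥(W ⊓ LinearMap.ker t)).1) = 0 :=
      (φ.symm ⟨y.1.1, y.2.1⟩).2.2
    have ht : t ((φ.symm ⟨y.1.1, y.2.1⟩ : ↥(W ⊓ LinearMap.ker t)).1 + y.1.2 • e) = y.1.2 := by
      rw [map_add, map_smul, te, hk, zero_add, smul_eq_mul, mul_one]
    apply Subtype.ext
    refine Prod.ext ?_ ?_
    · show (φ (pr he te _) : W').1 = y.1.1
      have : pr he te (⟨(φ.symm ⟨y.1.1, y.2.1⟩ : ↥(W ⊓ LinearMap.ker t)).1 + y.1.2 • e,
          W.add_mem (φ.symm ⟨y.1.1, y.2.1⟩).2.1 (W.smul_mem _ he)⟩ : W) =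
          φ.symm ⟨y.1.1, y.2.1⟩ := by
        apply Subtype.ext
        rw [pr_val]
        show ((φ.symm ⟨y.1.1, y.2.1⟩ : ↥(W ⊓ LinearMap.ker t)).1 + y.1.2 • e) +
          t ((φ.symm ⟨y.1.1, y.2.1⟩ : ↥(W ⊓ LinearMap.ker t)).1 + y.1.2 • e) • e = _
        rw [ht, add_assoc, add_self_U, add_zero]
      rw [this, LinearEquiv.apply_symm_apply]
    · exact ht

/-- realise a configuration with a private vertex in a finite-dimensional ambient space -/
theorem lift {W : Submodule (ZMod 2) U} {l : List (Dual (ZMod 2) U)} {t : Dual (ZMod 2) U}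
    (h : Priv W l t) (hs : SDY (W ⊓ LinearMap.ker t) l) :
    ∃ (B : Type) (_ : AddCommGroup B) (_ : Module (ZMod 2) B) (_ : FiniteDimensional (ZMod 2) B)
      (W2 : Submodule (ZMod 2) B) (l2 : List (Dual (ZMod 2) B)) (t2 : Dual (ZMod 2) B)
      (φ : W ≃ₗ[ZMod 2] W2),
      List.Forall₂ (fun f g => ∀ x : W, f x = g (φ x)) l l2 ∧ (∀ x : W, t x = t2 (φ x)) ∧
      Priv W2 l2 t2 ∧ DY (W2 ⊓ LinearMap.ker t2) l2 := by
  obtain ⟨e, he, te, hf⟩ := h
  obtain ⟨B, iB, mB, fB, W', l', φ, hl, hD⟩ := hs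
  refine ⟨B × ZMod 2, inferInstance, inferInstance, inferInstance,
    W'.prod (⊤ : Submodule (ZMod 2) (ZMod 2)),
    l'.map (fun f => f.comp (LinearMap.fst (ZMod 2) B (ZMod 2))),
    LinearMap.snd (ZMod 2) B (ZMod 2), liftEquiv he te φ, ?_, fun x => rfl, ?_, ?_⟩
  · rw [List.forall₂_map_right_iff]
    have key : ∀ (l : List (Dual (ZMod 2) U)) (l' : List (Dual (ZMod 2) B)),
        (∀ f ∈ l, f e = 0) →
        List.Forall₂ (fun f g => ∀ x : ↥(W ⊓ LinearMap.ker t), f x = g (φ x)) l l' →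
        List.Forall₂ (fun (f : Dual (ZMod 2) U) (g : Dual (ZMod 2) B) => ∀ x : W,
          f x = (g.comp (LinearMap.fst (ZMod 2) B (ZMod 2))) (liftEquiv he te φ x)) l l' := by
      intro l l' hz hh
      induction hh with
      | nil => exact .nil
      | @cons f g l0 l0' hfg _ ih =>
        refine .cons ?_ (ih (fun f' hf' => hz f' (List.mem_cons_of_mem _ hf')))
        intro x
        have fe : f e = 0 := hz f List.mem_cons_self
        have hx : x.1 + t x.1 • e ∈ W ⊓ LinearMap.ker t := by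
          refine ⟨W.add_mem x.2 (W.smul_mem _ he), ?_⟩
          show t (x.1 + t x.1 • e) = 0
          rw [map_add, map_smul, te, smul_eq_mul, mul_one, z2_add_self]
        have h1 := hfg (pr he te x)
        rw [pr_val] at h1
        have h2 : f (x.1 + t x.1 • e) = f x.1 := by
          rw [map_add, map_smul, fe, smul_zero, add_zero]
        rw [← h2]
        exact h1
    exact key l l' hf hl
  · refine ⟨(0, 1), ⟨W'.zero_mem, trivial⟩, rfl, ?_⟩
    intro f hf'
    obtain ⟨g, hg, rfl⟩ := List.mem_map.1 hf'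
    show g 0 = 0
    exact map_zero g
  · have h1 := embed (LinearMap.inl (ZMod 2) B (ZMod 2)) (LinearMap.fst (ZMod 2) B (ZMod 2))
      (fun x => rfl) hD
    have h2 : W'.map (LinearMap.inl (ZMod 2) B (ZMod 2)) =
        W'.prod (⊤ : Submodule (ZMod 2) (ZMod 2)) ⊓
          LinearMap.ker (LinearMap.snd (ZMod 2) B (ZMod 2)) := by
      ext x
      constructor
      · rintro ⟨w, hw, rfl⟩
        exact ⟨⟨hw, trivial⟩, rfl⟩
      · rintro ⟨⟨h1, _⟩, h2⟩
        have h2' : x.2 = 0 := h2
        exact ⟨x.1, h1, Prod.ext rfl h2'.symm⟩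
    rw [h2] at h1
    exact h1

end ND

variable {U : Type} [AddCommGroup U] [Module (ZMod 2) U]

/-- task D -/
theorem SDY.free {W : Submodule (ZMod 2) U} {l : List (Dual (ZMod 2) U)} {t : Dual (ZMod 2) U}
    (h : Priv W l t) (hs : SDY (W ⊓ LinearMap.ker t) l) : SDY W l := by
  obtain ⟨B, i1, i2, i3, W2, l2, t2, φ, hl, ht, hp, hD⟩ := ND.lift h hs
  exact ⟨B, i1, i2, i3, W2, l2, φ, hl, DY.free hp hD⟩

/-- task D -/
theorem SDY.coloop {W : Submodule (ZMod 2) U} {l : List (Dual (ZMod 2) U)} {t : Dual (ZMod 2) U}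
    (h : Priv W l t) (hs : SDY (W ⊓ LinearMap.ker t) l) : SDY W (t :: l) := by
  obtain ⟨B, i1, i2, i3, W2, l2, t2, φ, hl, ht, hp, hD⟩ := ND.lift h hs
  exact ⟨B, i1, i2, i3, W2, t2 :: l2, φ, .cons ht hl, DY.coloop hp hD⟩

/-- task D -/
theorem SDY.series {W : Submodule (ZMod 2) U} {l : List (Dual (ZMod 2) U)}
    {t a : Dual (ZMod 2) U} (h : Priv W (a :: l) t)
    (hs : SDY (W ⊓ LinearMap.ker t) (a :: l)) : SDY W (t :: (t + a) :: l) := by
  obtain ⟨B, i1, i2, i3, W2, l2, t2, φ, hl, ht, hp, hD⟩ := ND.lift h hs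
  cases hl with
  | @cons _ a2 _ l20 ha hl =>
    refine ⟨B, i1, i2, i3, W2, t2 :: (t2 + a2) :: l20, φ, .cons ht (.cons ?_ hl),
      DY.series hp hD⟩
    intro x
    rw [LinearMap.add_apply, LinearMap.add_apply, ht, ha]

/-- task D -/
theorem SDY.toY {W : Submodule (ZMod 2) U} {l : List (Dual (ZMod 2) U)}
    {t a b : Dual (ZMod 2) U} (h : Priv W (a :: b :: l) t)
    (hs : SDY (W ⊓ LinearMap.ker t) (a :: b :: (a + b) :: l)) :
    SDY W (t :: (t + a) :: (t + a + b) :: l) := by
  have h' : Priv W (a :: b :: (a + b) :: l) t := by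
    obtain ⟨e, he, te, hf⟩ := h
    refine ⟨e, he, te, ?_⟩
    intro f hf'
    simp only [List.mem_cons] at hf'
    rcases hf' with rfl | rfl | rfl | hf'
    · exact hf _ (by simp)
    · exact hf _ (by simp)
    · rw [LinearMap.add_apply, hf a (by simp), hf b (by simp), add_zero]
    · exact hf _ (by simp [hf'])
  obtain ⟨B, i1, i2, i3, W2, l2, t2, φ, hl, ht, hp, hD⟩ := ND.lift h' hs
  cases hl with
  | @cons _ a2 _ l20 ha hl =>
    cases hl with
    | @cons _ b2 _ l21 hb hl =>
      cases hl with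
      | @cons _ c2 _ l22 hc hl =>
        refine ⟨B, i1, i2, i3, W2, t2 :: (t2 + a2) :: (t2 + a2 + b2) :: l22, φ,
          .cons ht (.cons ?_ (.cons ?_ hl)), DY.toY ?_ ?_⟩
        · intro x
          rw [LinearMap.add_apply, LinearMap.add_apply, ht, ha]
        · intro x
          rw [LinearMap.add_apply, LinearMap.add_apply, LinearMap.add_apply, LinearMap.add_apply,
            ht, ha, hb]
        · obtain ⟨e, he, te, hf⟩ := hp
          refine ⟨e, he, te, ?_⟩
          intro f hf'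
          simp only [List.mem_cons] at hf'
          rcases hf' with rfl | rfl | hf'
          · exact hf _ (by simp)
          · exact hf _ (by simp)
          · exact hf _ (by simp [hf'])
        · refine congrDY (.cons (fun x _ => rfl) (.cons (fun x _ => rfl) (.cons ?_
            (refl_tail l22)))) hD
          intro x hx
          obtain ⟨w, hw⟩ := φ.surjective ⟨x, hx.1⟩
          have hw' : (φ w : B) = x := congrArg Subtype.val hw
          have h1 := hc w
          rw [LinearMap.add_apply, ha, hb, hw'] at h1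
          rw [LinearMap.add_apply]
          exact h1.symm

end H665R2.LV
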