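import Pool.Agent.H665R2.LV.NB
import Pool.Agent.H665R2.LV.NC
import Pool.Agent.H665R2.LV.ND
set_option autoImplicit false
set_option linter.unusedVariables false

/-! Task R of the planar version: reduction rules for network pieces. -/

namespace H665R2.LV

open Module

namespace NR

variable {U : Type} [AddCommGroup U] [Module (ZMod 2) U]

/-- the glued space of a piece with a constraint -/
theorem gWk (W : Submodule (ZMod 2) U) (y : ℕ → Dual (ZMod 2) U) (l l' : List (Dual (ZMod 2) U))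
    (t : Dual (ZMod 2) U) (c : Net) :
    gW ⟨U, W ⊓ LinearMap.ker t, y, l⟩ c =
      gW ⟨U, W, y, l'⟩ c ⊓ LinearMap.ker (t.comp (LinearMap.fst (ZMod 2) U c.U)) := by
  ext p
  constructor
  · rintro ⟨⟨h1, h2⟩, h3, h4⟩
    exact ⟨⟨h1, h3, h4⟩, h2⟩
  · rintro ⟨⟨h1, h3, h4⟩, h2⟩
    exact ⟨⟨h1, h2⟩, h3, h4⟩

/-- a private vertex of the piece is a private vertex of the glued configuration -/
theorem gpriv {W : Submodule (ZMod 2) U} {y : ℕ → Dual (ZMod 2) U} {t : Dual (ZMod 2) U}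
    {l : List (Dual (ZMod 2) U)} (h : NPriv W y l t) (l' : List (Dual (ZMod 2) U)) (c : Net) :
    Priv (gW ⟨U, W, y, l'⟩ c) (l.map (fun f => f.comp (LinearMap.fst (ZMod 2) U c.U)) ++
      c.l.map (fun f => f.comp (LinearMap.snd (ZMod 2) U c.U)))
      (t.comp (LinearMap.fst (ZMod 2) U c.U)) := by
  obtain ⟨e, he, te, hf, hy⟩ := h
  refine ⟨(e, 0), ⟨he, c.W.zero_mem, fun i => ?_⟩, te, ?_⟩
  · show y i e = c.y i 0
    rw [hy i, map_zero]
  · intro f hf'
    rcases List.mem_append.1 hf' with hf' | hf'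
    · obtain ⟨g, hg, rfl⟩ := List.mem_map.1 hf'
      exact hf g hg
    · obtain ⟨g, hg, rfl⟩ := List.mem_map.1 hf'
      exact map_zero g

theorem sdy_congr {V : Type} [AddCommGroup V] [Module (ZMod 2) V] {W : Submodule (ZMod 2) V}
    {l l' : List (Dual (ZMod 2) V)}
    (h : List.Forall₂ (fun f g => ∀ x ∈ W, f x = g x) l l') (hs : SDY W l) : SDY W l' :=
  SDY.iso (LinearEquiv.refl (ZMod 2) W) (h.imp (fun _ _ h' (x : W) => h' (x : V) x.2)) hs

end NR

variable {U : Type} [AddCommGroup U] [Module (ZMod 2) U]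

/-- task R -/
theorem net_par (W : Submodule (ZMod 2) U) (y : ℕ → Dual (ZMod 2) U) (a : Dual (ZMod 2) U)
    (l : List (Dual (ZMod 2) U)) :
    (⟨U, W, y, a :: a :: l⟩ : Net) ≤ ⟨U, W, y, a :: l⟩ := by
  intro c hc
  exact SDY.par hc

/-- task R -/
theorem net_del (W : Submodule (ZMod 2) U) (y : ℕ → Dual (ZMod 2) U) (a : Dual (ZMod 2) U)
    (l : List (Dual (ZMod 2) U)) :
    (⟨U, W, y, l⟩ : Net) ≤ ⟨U, W, y, a :: l⟩ := by
  intro c hc
  exact SDY.del hc

/-- task R -/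
theorem net_con (W : Submodule (ZMod 2) U) (y : ℕ → Dual (ZMod 2) U) (a : Dual (ZMod 2) U)
    (l : List (Dual (ZMod 2) U)) :
    (⟨U, W ⊓ LinearMap.ker a, y, l⟩ : Net) ≤ ⟨U, W, y, a :: l⟩ := by
  intro c hc
  have h := SDY.con hc
  unfold G
  rw [NR.gWk W y l (a :: l) a c]
  exact h

/-- task R -/
theorem net_free {W : Submodule (ZMod 2) U} {y : ℕ → Dual (ZMod 2) U} {t : Dual (ZMod 2) U}
    {l : List (Dual (ZMod 2) U)} (h : NPriv W y l t) :
    (⟨U, W, y, l⟩ : Net) ≤ ⟨U, W ⊓ LinearMap.ker t, y, l⟩ := by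
  intro c hc
  unfold G at hc
  rw [NR.gWk W y l l t c] at hc
  exact SDY.free (NR.gpriv h l c) hc

/-- task R -/
theorem net_coloop {W : Submodule (ZMod 2) U} {y : ℕ → Dual (ZMod 2) U} {t : Dual (ZMod 2) U}
    {l : List (Dual (ZMod 2) U)} (h : NPriv W y l t) :
    (⟨U, W, y, t :: l⟩ : Net) ≤ ⟨U, W ⊓ LinearMap.ker t, y, l⟩ := by
  intro c hc
  unfold G at hc
  rw [NR.gWk W y l (t :: l) t c] at hc
  exact SDY.coloop (NR.gpriv h (t :: l) c) hc

/-- task R -/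
theorem net_series {W : Submodule (ZMod 2) U} {y : ℕ → Dual (ZMod 2) U} {t a : Dual (ZMod 2) U}
    {l : List (Dual (ZMod 2) U)} (h : NPriv W y (a :: l) t) :
    (⟨U, W, y, t :: (t + a) :: l⟩ : Net) ≤ ⟨U, W ⊓ LinearMap.ker t, y, a :: l⟩ := by
  intro c hc
  unfold G at hc
  rw [NR.gWk W y (a :: l) (t :: (t + a) :: l) t c] at hc
  exact SDY.series (NR.gpriv h (t :: (t + a) :: l) c) hc

/-- task R -/
theorem net_series' (W : Submodule (ZMod 2) U) (y : ℕ → Dual (ZMod 2) U) (t a : Dual (ZMod 2) U)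
    (l : List (Dual (ZMod 2) U)) :
    (⟨U, W ⊓ LinearMap.ker t, y, a :: l⟩ : Net) ≤ ⟨U, W, y, t :: (t + a) :: l⟩ := by
  intro c hc
  have h := SDY.con hc
  unfold G
  rw [NR.gWk W y (a :: l) (t :: (t + a) :: l) t c]
  refine NR.sdy_congr (.cons ?_ (refl_tail _)) h
  intro x hx
  have h2 : t x.1 = 0 := hx.2
  show t x.1 + a x.1 = a x.1
  rw [h2, zero_add]

/-- task R -/
theorem net_toY {W : Submodule (ZMod 2) U} {y : ℕ → Dual (ZMod 2) U} {t a b : Dual (ZMod 2) U}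
    {l : List (Dual (ZMod 2) U)} (h : NPriv W y (a :: b :: l) t) :
    (⟨U, W, y, t :: (t + a) :: (t + a + b) :: l⟩ : Net) ≤
      ⟨U, W ⊓ LinearMap.ker t, y, a :: b :: (a + b) :: l⟩ := by
  intro c hc
  unfold G at hc
  rw [NR.gWk W y (a :: b :: (a + b) :: l) (t :: (t + a) :: (t + a + b) :: l) t c] at hc
  exact SDY.toY (NR.gpriv h (t :: (t + a) :: (t + a + b) :: l) c) hc

/-- task R -/
theorem net_toDelta {W : Submodule (ZMod 2) U} {y : ℕ → Dual (ZMod 2) U}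
    {t a b : Dual (ZMod 2) U} {l : List (Dual (ZMod 2) U)} (h : NPriv W y (a :: b :: l) t) :
    (⟨U, W ⊓ LinearMap.ker t, y, a :: b :: (a + b) :: l⟩ : Net) ≤
      ⟨U, W, y, t :: (t + a) :: (t + a + b) :: l⟩ := by
  intro c hc
  unfold G
  rw [NR.gWk W y (a :: b :: (a + b) :: l) (t :: (t + a) :: (t + a + b) :: l) t c]
  exact SDY.toDelta (NR.gpriv h (t :: (t + a) :: (t + a + b) :: l) c) hc

end H665R2.LV
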