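import Pool.Agent.H665R2.LV.N1F
import Pool.Agent.H665R2.LV.NR
set_option autoImplicit false

/-! Relations of pieces that use the rules (backup versions by helper665). -/

namespace H665R2.LV.MQ

open Module

theorem z2a (a : ZMod 2) : a + a = 0 := by revert a; decide
theorem z2e {a b : ZMod 2} (h : a + b = 0) : a = b := by revert a b; decide
theorem z2c (a b : ZMod 2) : a + b + b = a := by revert a b; decide

theorem all1 {α β γ : Type*} (R : α → β → Prop) (l : List γ) (F : γ → α) (F' : γ → β)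
    (h : ∀ a ∈ l, R (F a) (F' a)) : List.Forall₂ R (l.map F) (l.map F') := by
  induction l with
  | nil => exact .nil
  | cons a l ih =>
    exact .cons (h a List.mem_cons_self) (ih fun b hb => h b (List.mem_cons_of_mem a hb))

theorem all2 {α : Type*} (R : α → α → Prop) (l : List α) (h : ∀ a ∈ l, R a a) :
    List.Forall₂ R l l := by
  have := all1 R l id id h
  simpa using this

theorem yS_eq (a : ℕ) (s : Net) : (opS a s).y a = LinearMap.snd (ZMod 2) s.U (ZMod 2) := by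
  change (if a = a then LinearMap.snd (ZMod 2) s.U (ZMod 2)
      else (s.y a).comp (LinearMap.fst (ZMod 2) s.U (ZMod 2))) = _
  rw [if_pos rfl]

theorem yS_ne (a j : ℕ) (s : Net) (h : j ≠ a) :
    (opS a s).y j = (s.y j).comp (LinearMap.fst (ZMod 2) s.U (ZMod 2)) := by
  change (if j = a then LinearMap.snd (ZMod 2) s.U (ZMod 2)
      else (s.y j).comp (LinearMap.fst (ZMod 2) s.U (ZMod 2))) = _
  rw [if_neg h]

theorem q_NF (a : ℕ) (s : Net) : opN a (opF a s) ≤ opS a s := by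
  have h : opN a (opF a s) = ⟨s.U × ZMod 2, s.W.prod ⊤, (opS a s).y,
      s.l.map (fun f => f.comp (LinearMap.fst (ZMod 2) s.U (ZMod 2)))⟩ := by
    unfold opN opS
    congr 1
    funext j
    change (if j < a then (if j < a then s.y j else s.y (j + 1)).comp
        (LinearMap.fst (ZMod 2) s.U (ZMod 2))
      else if j = a then LinearMap.snd (ZMod 2) s.U (ZMod 2)
      else (if j - 1 < a then s.y (j - 1) else s.y (j - 1 + 1)).comp
        (LinearMap.fst (ZMod 2) s.U (ZMod 2))) =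
      (if j = a then LinearMap.snd (ZMod 2) s.U (ZMod 2)
        else (s.y j).comp (LinearMap.fst (ZMod 2) s.U (ZMod 2)))
    rcases lt_trichotomy j a with h | h | h
    · rw [if_pos h, if_pos h, if_neg (by omega)]
    · subst h
      rw [if_neg (by omega), if_pos rfl, if_pos rfl]
    · rw [if_neg (by omega), if_neg (by omega), if_neg (by omega), if_neg (by omega),
        show j - 1 + 1 = j by omega]
  rw [h]
  exact net_del _ _ _ _

theorem q_DM (a : ℕ) (s : Net) : opD a (opM a s) ≤ opE a s := by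
  refine le_trans ?_ (net_con s.W s.y (s.y a + s.y (a + 1)) s.l)
  refine (NIso.le ?_).1
  refine ⟨LinearMap.id, LinearMap.id, fun x hx => ⟨hx, rfl⟩, fun x hx => ⟨hx, rfl⟩, ?_,
    _, List.Perm.refl _, all2 _ _ fun _ _ _ _ => rfl⟩
  intro j x hx
  have hx' : s.y a x + s.y (a + 1) x = 0 := hx.2
  change (if j ≤ a then (if j ≤ a then s.y j else s.y (j + 1))
    else (if j - 1 ≤ a then s.y (j - 1) else s.y (j - 1 + 1))) x = s.y j x
  rcases Nat.lt_or_ge a j with h | h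
  · rw [if_neg (by omega)]
    rcases Nat.lt_or_ge (a + 1) j with h' | h'
    · rw [if_neg (by omega), show j - 1 + 1 = j by omega]
    · have : j = a + 1 := by omega
      subst this
      rw [if_pos (by omega), show a + 1 - 1 = a by omega]
      exact z2e hx'
  · rw [if_pos h, if_pos h]

theorem q_EE (a : ℕ) (s : Net) : opE a (opE a s) ≤ opE a s ∧ opE a s ≤ opE a (opE a s) :=
  ⟨net_par _ _ _ _, net_del _ _ _ _⟩

theorem q_loop (s : Net) : opF 0 (opN 0 s) ≤ s := by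
  have h1 : NPriv (s.W.prod (⊤ : Submodule (ZMod 2) (ZMod 2))) (opF 0 (opN 0 s)).y
      (s.l.map (fun f => f.comp (LinearMap.fst (ZMod 2) s.U (ZMod 2))))
      (LinearMap.snd (ZMod 2) s.U (ZMod 2)) := by
    refine ⟨(0, 1), ⟨s.W.zero_mem, trivial⟩, rfl, ?_, ?_⟩
    · intro f hf
      rw [List.mem_map] at hf
      obtain ⟨g, _, rfl⟩ := hf
      exact map_zero g
    · intro i
      exact map_zero (s.y i)
  refine le_trans (net_free h1) ?_
  refine (NIso.le ?_).1
  refine ⟨LinearMap.fst (ZMod 2) s.U (ZMod 2), LinearMap.inl (ZMod 2) s.U (ZMod 2), ?_, ?_, ?_,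
    s.l, List.Perm.refl _, ?_⟩
  · intro x hx
    refine ⟨hx.1.1, ?_⟩
    exact Prod.ext rfl (Eq.symm hx.2)
  · intro x hx
    refine ⟨⟨⟨hx, trivial⟩, rfl⟩, rfl⟩
  · intro i x hx
    rfl
  · have := all1 (fun (a : Dual (ZMod 2) (s.U × ZMod 2)) (b : Dual (ZMod 2) s.U) =>
      ∀ x ∈ (s.W.prod (⊤ : Submodule (ZMod 2) (ZMod 2))) ⊓
        LinearMap.ker (LinearMap.snd (ZMod 2) s.U (ZMod 2)),
        a x = b (LinearMap.fst (ZMod 2) s.U (ZMod 2) x)) s.l
      (fun f => f.comp (LinearMap.fst (ZMod 2) s.U (ZMod 2))) id (fun _ _ _ _ => rfl)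
    rw [List.map_id] at this
    exact this

/-- common first step: bring the list into the form needed -/
theorem relist {U : Type} [AddCommGroup U] [Module (ZMod 2) U] {W : Submodule (ZMod 2) U}
    {y : ℕ → Dual (ZMod 2) U} {l l' l1 : List (Dual (ZMod 2) U)} (hp : l1.Perm l')
    (h : List.Forall₂ (fun a b => ∀ x ∈ W, a x = b x) l l1) :
    (⟨U, W, y, l⟩ : Net) ≤ ⟨U, W, y, l'⟩ ∧ (⟨U, W, y, l'⟩ : Net) ≤ ⟨U, W, y, l⟩ :=
  NIso.le ⟨LinearMap.id, LinearMap.id, fun _ hx => ⟨hx, rfl⟩, fun _ hx => ⟨hx, rfl⟩,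
    fun _ _ _ => rfl, l1, hp, h⟩

/-- potentials of two new vertices -/
def WW (s : Net) : Submodule (ZMod 2) ((s.U × ZMod 2) × ZMod 2) := (s.W.prod ⊤).prod ⊤

/-- an edge functional pulled back twice -/
def pb (s : Net) (f : Dual (ZMod 2) s.U) : Dual (ZMod 2) ((s.U × ZMod 2) × ZMod 2) :=
  (f.comp (LinearMap.fst (ZMod 2) s.U (ZMod 2))).comp
    (LinearMap.fst (ZMod 2) (s.U × ZMod 2) (ZMod 2))

/-- first new vertex -/
def c1 (s : Net) : Dual (ZMod 2) ((s.U × ZMod 2) × ZMod 2) :=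
  (LinearMap.snd (ZMod 2) s.U (ZMod 2)).comp (LinearMap.fst (ZMod 2) (s.U × ZMod 2) (ZMod 2))

/-- second new vertex -/
def c2 (s : Net) : Dual (ZMod 2) ((s.U × ZMod 2) × ZMod 2) :=
  LinearMap.snd (ZMod 2) (s.U × ZMod 2) (ZMod 2)

/-- eliminate the first new vertex: `t1 = u x` -/
theorem elim1 (s : Net) (u : Dual (ZMod 2) s.U) (y : ℕ → Dual (ZMod 2) ((s.U × ZMod 2) × ZMod 2))
    (y' : ℕ → Dual (ZMod 2) (s.U × ZMod 2)) (l : List (Dual (ZMod 2) ((s.U × ZMod 2) × ZMod 2)))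
    (l' : List (Dual (ZMod 2) (s.U × ZMod 2)))
    (hy : ∀ i x t, y i ((x, u x), t) = y' i (x, t))
    (hl : List.Forall₂ (fun a b => ∀ x t, a ((x, u x), t) = b (x, t)) l l') :
    NIso (⟨(s.U × ZMod 2) × ZMod 2, WW s ⊓ LinearMap.ker (pb s u + c1 s), y, l⟩ : Net)
      (⟨s.U × ZMod 2, s.W.prod ⊤, y', l'⟩ : Net) := by
  have key : ∀ z ∈ WW s ⊓ LinearMap.ker (pb s u + c1 s), z = ((z.1.1, u z.1.1), z.2) := by
    intro z hz
    have h3 : u z.1.1 + z.1.2 = 0 := hz.2
    exact Prod.ext (Prod.ext rfl (z2e h3).symm) rfl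
  refine ⟨LinearMap.prod ((LinearMap.fst (ZMod 2) s.U (ZMod 2)).comp
      (LinearMap.fst (ZMod 2) (s.U × ZMod 2) (ZMod 2))) (c2 s),
    LinearMap.prod (LinearMap.prod (LinearMap.fst (ZMod 2) s.U (ZMod 2))
      (u.comp (LinearMap.fst (ZMod 2) s.U (ZMod 2)))) (LinearMap.snd (ZMod 2) s.U (ZMod 2)),
      ?_, ?_, ?_, l', List.Perm.refl _, ?_⟩
  · intro z hz
    exact ⟨⟨hz.1.1.1, trivial⟩, (key z hz).symm⟩
  · intro z hz
    exact ⟨⟨⟨⟨hz.1, trivial⟩, trivial⟩, z2a _⟩, rfl⟩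
  · intro i z hz
    change y i z = y' i (z.1.1, z.2)
    rw [← hy i z.1.1 z.2, ← key z hz]
  · refine hl.imp ?_
    intro a b hab z hz
    change a z = b (z.1.1, z.2)
    rw [← hab z.1.1 z.2, ← key z hz]

theorem priv1 (s : Net) (u : Dual (ZMod 2) s.U)
    (y : ℕ → Dual (ZMod 2) ((s.U × ZMod 2) × ZMod 2))
    (l : List (Dual (ZMod 2) ((s.U × ZMod 2) × ZMod 2)))
    (hy : ∀ i, y i ((0, 1), 0) = 0) (hl : ∀ f ∈ l, f ((0, 1), 0) = 0) :
    NPriv (WW s) y l (pb s u + c1 s) := by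
  refine ⟨((0, 1), 0), ⟨⟨s.W.zero_mem, trivial⟩, trivial⟩, ?_, hl, hy⟩
  change u 0 + 1 = 1
  rw [map_zero, zero_add]

theorem mk_l {U : Type} [AddCommGroup U] [Module (ZMod 2) U] {W : Submodule (ZMod 2) U}
    {y : ℕ → Dual (ZMod 2) U} {l l' : List (Dual (ZMod 2) U)} (h : l = l') :
    (⟨U, W, y, l⟩ : Net) = ⟨U, W, y, l'⟩ := by rw [h]

theorem pbl (s : Net) : (s.l.map (fun f => f.comp (LinearMap.fst (ZMod 2) s.U (ZMod 2)))).map
    (fun f => f.comp (LinearMap.fst (ZMod 2) (s.U × ZMod 2) (ZMod 2))) = s.l.map (pb s) := by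
  rw [List.map_map]
  rfl

theorem pb0 (s : Net) (g : Dual (ZMod 2) s.U) : pb s g ((0, 1), 0) = 0 := map_zero g

theorem all0 (s : Net) : ∀ f ∈ s.l.map (pb s), f ((0, 1), 0) = 0 := by
  intro f h
  rw [List.mem_map] at h
  obtain ⟨g, _, rfl⟩ := h
  exact map_zero g

theorem allp (s : Net) (u : Dual (ZMod 2) s.U) :
    List.Forall₂ (fun a b => ∀ x t, a ((x, u x), t) = b (x, t)) (s.l.map (pb s))
      (s.l.map (fun f => f.comp (LinearMap.fst (ZMod 2) s.U (ZMod 2)))) :=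
  all1 _ _ _ _ fun _ _ _ _ => rfl

theorem tt (x y z : ZMod 2) : x + y + (x + z) = y + z := by revert x y z; decide
theorem tt2 (x y z : ZMod 2) : x + y + (z + x) = y + z := by revert x y z; decide

theorem q_SS (a : ℕ) (s : Net) : opS a (opS a s) ≤ opS a s ∧ opS a s ≤ opS a (opS a s) := by
  have hy0 : ∀ i, (opS a (opS a s)).y i ((0, 1), 0) = 0 := by
    intro i
    by_cases hi : i = a
    · subst hi
      rw [yS_eq]
      rfl
    · rw [yS_ne a i _ hi, yS_ne a i _ hi]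
      exact map_zero (s.y i)
  have h1 := priv1 s (s.y a) (opS a (opS a s)).y ((pb s (s.y a) + c2 s) :: s.l.map (pb s)) hy0 (by
    intro f hf
    rcases List.mem_cons.1 hf with h | h
    · subst h
      change s.y a 0 + 0 = 0
      rw [map_zero, add_zero]
    · exact all0 s f h)
  have e : opS a (opS a s) = ⟨(s.U × ZMod 2) × ZMod 2, WW s, (opS a (opS a s)).y,
      (c1 s + c2 s) :: (pb s (s.y a) + c1 s) :: s.l.map (pb s)⟩ := by
    refine mk_l ?_
    rw [yS_eq]
    change _ :: _ :: ((s.l.map (fun f => f.comp (LinearMap.fst (ZMod 2) s.U (ZMod 2)))).map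
      (fun f => f.comp (LinearMap.fst (ZMod 2) (s.U × ZMod 2) (ZMod 2)))) = _
    rw [pbl]
    rfl
  have h2 := relist (W := WW s) (y := (opS a (opS a s)).y)
    (l := (pb s (s.y a) + c1 s) :: (pb s (s.y a) + c1 s + (pb s (s.y a) + c2 s)) ::
        s.l.map (pb s))
    (List.Perm.swap (c1 s + c2 s) (pb s (s.y a) + c1 s) (s.l.map (pb s)))
    (.cons (fun _ _ => rfl) (.cons (fun z _ => tt _ _ _) (all2 _ _ fun _ _ _ _ => rfl)))
  have h3 := elim1 s (s.y a) (opS a (opS a s)).y (opS a s).y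
    ((pb s (s.y a) + c2 s) :: s.l.map (pb s)) (opS a s).l (by
      intro i x t
      by_cases hi : i = a
      · subst hi
        rw [yS_eq, yS_eq]
        rfl
      · rw [yS_ne a i _ hi, yS_ne a i _ hi]
        rfl) (.cons (fun _ _ => rfl) (allp s _))
  constructor
  · rw [e]
    exact le_trans h2.2 (le_trans (net_series h1) h3.le.1)
  · rw [e]
    exact le_trans h3.le.2 (le_trans (net_series' _ _ _ _ _) h2.1)

theorem q_SES (a : ℕ) (s : Net) : opS a (opE a (opS a s)) ≤ opE a (opS a (opE a s)) ∧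
    opE a (opS a (opE a s)) ≤ opS a (opE a (opS a s)) := by
  have hy : ∀ i, (opS a (opE a (opS a s))).y i = (opS a (opS a s)).y i := fun _ => rfl
  have hy0 : ∀ i, (opS a (opE a (opS a s))).y i ((0, 1), 0) = 0 := by
    intro i
    rw [hy]
    by_cases hi : i = a
    · subst hi
      rw [yS_eq]
      rfl
    · rw [yS_ne a i _ hi, yS_ne a i _ hi]
      exact map_zero (s.y i)
  have h1 := priv1 s (s.y a) (opS a (opE a (opS a s))).y
    ((pb s (s.y a) + pb s (s.y (a + 1))) :: (pb s (s.y (a + 1)) + c2 s) :: s.l.map (pb s)) hy0 (by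
    intro f hf
    rcases List.mem_cons.1 hf with h | h
    · subst h
      change s.y a 0 + s.y (a + 1) 0 = 0
      rw [map_zero, map_zero, add_zero]
    rcases List.mem_cons.1 h with h | h
    · subst h
      change s.y (a + 1) 0 + 0 = 0
      rw [map_zero, add_zero]
    · exact all0 s f h)
  have e : opS a (opE a (opS a s)) = ⟨(s.U × ZMod 2) × ZMod 2, WW s,
      (opS a (opE a (opS a s))).y,
      (c1 s + c2 s) :: (c1 s + pb s (s.y (a + 1))) :: (pb s (s.y a) + c1 s) ::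
        s.l.map (pb s)⟩ := by
    refine mk_l ?_
    change (((opS a s).y a).comp (LinearMap.fst (ZMod 2) (s.U × ZMod 2) (ZMod 2)) +
        LinearMap.snd (ZMod 2) (s.U × ZMod 2) (ZMod 2)) ::
      ((opS a s).y a + (opS a s).y (a + 1)).comp
        (LinearMap.fst (ZMod 2) (s.U × ZMod 2) (ZMod 2)) :: _ ::
      ((s.l.map (fun f => f.comp (LinearMap.fst (ZMod 2) s.U (ZMod 2)))).map
      (fun f => f.comp (LinearMap.fst (ZMod 2) (s.U × ZMod 2) (ZMod 2)))) = _
    rw [yS_eq, yS_ne a (a + 1) s (by omega), pbl]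
    rfl
  -- reorder to T, T + A, T + A + B
  have h2 := relist (W := WW s) (y := (opS a (opE a (opS a s))).y)
    (l := (pb s (s.y a) + c1 s) ::
      (pb s (s.y a) + c1 s + (pb s (s.y a) + pb s (s.y (a + 1)))) ::
      (pb s (s.y a) + c1 s + (pb s (s.y a) + pb s (s.y (a + 1))) + (pb s (s.y (a + 1)) + c2 s)) ::
        s.l.map (pb s))
    (l1 := (pb s (s.y a) + c1 s) :: (c1 s + pb s (s.y (a + 1))) :: (c1 s + c2 s) ::
        s.l.map (pb s))
    (l' := (c1 s + c2 s) :: (c1 s + pb s (s.y (a + 1))) :: (pb s (s.y a) + c1 s) ::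
        s.l.map (pb s))
    (((List.Perm.swap _ _ _).trans ((List.Perm.swap _ _ _).cons _)).trans (List.Perm.swap _ _ _))
    (.cons (fun _ _ => rfl) (.cons (fun z _ => tt _ _ _)
      (.cons (fun z _ => by
        have : ∀ p q r t : ZMod 2, p + q + (p + r) + (r + t) = q + t := by decide
        exact this _ _ _ _) (all2 _ _ fun _ _ _ _ => rfl))))
  have h3 := elim1 s (s.y a) (opS a (opE a (opS a s))).y (opE a (opS a (opE a s))).y
    ((pb s (s.y a) + pb s (s.y (a + 1))) :: (pb s (s.y (a + 1)) + c2 s) ::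
      (pb s (s.y a) + pb s (s.y (a + 1)) + (pb s (s.y (a + 1)) + c2 s)) :: s.l.map (pb s))
    ((s.y a + s.y (a + 1)).comp (LinearMap.fst (ZMod 2) s.U (ZMod 2)) ::
      (LinearMap.snd (ZMod 2) s.U (ZMod 2) +
        (s.y (a + 1)).comp (LinearMap.fst (ZMod 2) s.U (ZMod 2))) ::
      ((s.y a).comp (LinearMap.fst (ZMod 2) s.U (ZMod 2)) + LinearMap.snd (ZMod 2) s.U (ZMod 2)) ::
      s.l.map (fun f => f.comp (LinearMap.fst (ZMod 2) s.U (ZMod 2)))) (by
      intro i x t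
      change (opS a (opS a s)).y i ((x, s.y a x), t) = (opS a s).y i (x, t)
      by_cases hi : i = a
      · subst hi
        rw [yS_eq, yS_eq]
        rfl
      · rw [yS_ne a i _ hi, yS_ne a i _ hi]
        rfl)
      (.cons (fun _ _ => rfl) (.cons (fun x t => add_comm _ _)
        (.cons (fun x t => by
          have : ∀ p r t : ZMod 2, p + r + (r + t) = p + t := by decide
          exact this _ _ _) (allp s _))))
  have e2 : opE a (opS a (opE a s)) = ⟨s.U × ZMod 2, s.W.prod ⊤, (opE a (opS a (opE a s))).y,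
      (LinearMap.snd (ZMod 2) s.U (ZMod 2) +
        (s.y (a + 1)).comp (LinearMap.fst (ZMod 2) s.U (ZMod 2))) ::
      ((s.y a).comp (LinearMap.fst (ZMod 2) s.U (ZMod 2)) + LinearMap.snd (ZMod 2) s.U (ZMod 2)) ::
      (s.y a + s.y (a + 1)).comp (LinearMap.fst (ZMod 2) s.U (ZMod 2)) ::
      s.l.map (fun f => f.comp (LinearMap.fst (ZMod 2) s.U (ZMod 2)))⟩ := by
    refine mk_l ?_
    change ((opS a s).y a + (opS a s).y (a + 1)) :: _ = _
    rw [yS_eq, yS_ne a (a + 1) s (by omega)]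
    rfl
  have h4 := relist (W := s.W.prod (⊤ : Submodule (ZMod 2) (ZMod 2)))
    (y := (opE a (opS a (opE a s))).y)
    (((List.Perm.swap _ _ _).trans ((List.Perm.swap _ _ _).cons _) :
      ((s.y a + s.y (a + 1)).comp (LinearMap.fst (ZMod 2) s.U (ZMod 2)) ::
      (LinearMap.snd (ZMod 2) s.U (ZMod 2) +
        (s.y (a + 1)).comp (LinearMap.fst (ZMod 2) s.U (ZMod 2))) ::
      ((s.y a).comp (LinearMap.fst (ZMod 2) s.U (ZMod 2)) + LinearMap.snd (ZMod 2) s.U (ZMod 2)) ::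
      s.l.map (fun f => f.comp (LinearMap.fst (ZMod 2) s.U (ZMod 2)))).Perm
      ((LinearMap.snd (ZMod 2) s.U (ZMod 2) +
        (s.y (a + 1)).comp (LinearMap.fst (ZMod 2) s.U (ZMod 2))) ::
      ((s.y a).comp (LinearMap.fst (ZMod 2) s.U (ZMod 2)) + LinearMap.snd (ZMod 2) s.U (ZMod 2)) ::
      (s.y a + s.y (a + 1)).comp (LinearMap.fst (ZMod 2) s.U (ZMod 2)) ::
      s.l.map (fun f => f.comp (LinearMap.fst (ZMod 2) s.U (ZMod 2))))))
    (all2 _ _ fun _ _ _ _ => rfl)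
  rw [e, e2]
  constructor
  · exact le_trans h2.2 (le_trans (net_toY h1) (le_trans h3.le.1 h4.1))
  · exact le_trans h4.2 (le_trans h3.le.2 (le_trans (net_toDelta h1) h2.1))

theorem q_SN (s : Net) : opS 0 (opN 0 s) ≤ opN 0 s ∧ opN 0 s ≤ opS 0 (opN 0 s) := by
  have hy0 : ∀ i, (opS 0 (opN 0 s)).y i ((0, 1), 0) = 0 := by
    intro i
    rcases Nat.eq_zero_or_pos i with h | h
    · subst h
      rfl
    · rw [yS_ne 0 i _ (by omega)]
      change (if i < 0 then (s.y i).comp (LinearMap.fst (ZMod 2) s.U (ZMod 2))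
        else if i = 0 then LinearMap.snd (ZMod 2) s.U (ZMod 2)
        else (s.y (i - 1)).comp (LinearMap.fst (ZMod 2) s.U (ZMod 2))) ((0 : s.U), (1 : ZMod 2)) = 0
      rw [if_neg (by omega), if_neg (by omega)]
      exact map_zero (s.y (i - 1))
  have h1 : NPriv (WW s) (opS 0 (opN 0 s)).y (s.l.map (pb s)) (c1 s + c2 s) :=
    ⟨((0, 1), 0), ⟨⟨s.W.zero_mem, trivial⟩, trivial⟩, rfl, all0 s, hy0⟩
  have e : opS 0 (opN 0 s) = ⟨(s.U × ZMod 2) × ZMod 2, WW s, (opS 0 (opN 0 s)).y,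
      (c1 s + c2 s) :: s.l.map (pb s)⟩ := by
    refine mk_l ?_
    change _ :: ((s.l.map (fun f => f.comp (LinearMap.fst (ZMod 2) s.U (ZMod 2)))).map
      (fun f => f.comp (LinearMap.fst (ZMod 2) (s.U × ZMod 2) (ZMod 2)))) = _
    rw [pbl]
    rfl
  have h2 : NIso (⟨(s.U × ZMod 2) × ZMod 2, WW s ⊓ LinearMap.ker (c1 s + c2 s),
      (opS 0 (opN 0 s)).y, s.l.map (pb s)⟩ : Net) (opN 0 s) := by
    refine ⟨LinearMap.fst (ZMod 2) (s.U × ZMod 2) (ZMod 2),
      LinearMap.prod LinearMap.id (LinearMap.snd (ZMod 2) s.U (ZMod 2)), ?_, ?_, ?_,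
      (opN 0 s).l, List.Perm.refl _, ?_⟩
    · intro x hx
      refine ⟨hx.1.1, ?_⟩
      have h3 : x.1.2 + x.2 = 0 := hx.2
      exact Prod.ext rfl (z2e h3)
    · intro x hx
      exact ⟨⟨⟨hx, trivial⟩, z2a _⟩, rfl⟩
    · intro i x hx
      have h3 : x.1.2 + x.2 = 0 := hx.2
      rcases Nat.eq_zero_or_pos i with h | h
      · subst h
        exact (z2e h3).symm
      · change (opS 0 (opN 0 s)).y i x = (opN 0 s).y i x.1
        rw [yS_ne 0 i _ (by omega)]
        rfl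
    · exact all1 _ _ _ _ fun _ _ _ _ => rfl
  rw [e]
  exact ⟨le_trans (net_coloop h1) h2.le.1, le_trans h2.le.2 (net_con _ _ _ _)⟩

theorem q_ESE (a : ℕ) (s : Net) : opE a (opS (a + 1) (opE a s)) ≤
      opS (a + 1) (opE a (opS (a + 1) s)) ∧
    opS (a + 1) (opE a (opS (a + 1) s)) ≤ opE a (opS (a + 1) (opE a s)) := by
  have hy : ∀ i, (opS (a + 1) (opE a (opS (a + 1) s))).y i =
      (opS (a + 1) (opS (a + 1) s)).y i := fun _ => rfl
  have hy0 : ∀ i, (opS (a + 1) (opE a (opS (a + 1) s))).y i ((0, 1), 0) = 0 := by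
    intro i
    rw [hy]
    by_cases hi : i = a + 1
    · subst hi
      rw [yS_eq]
      rfl
    · rw [yS_ne (a + 1) i _ hi, yS_ne (a + 1) i _ hi]
      exact map_zero (s.y i)
  have h1 := priv1 s (s.y (a + 1)) (opS (a + 1) (opE a (opS (a + 1) s))).y
    ((pb s (s.y (a + 1)) + pb s (s.y a)) :: (pb s (s.y a) + c2 s) :: s.l.map (pb s)) hy0 (by
    intro f hf
    rcases List.mem_cons.1 hf with h | h
    · subst h
      change s.y (a + 1) 0 + s.y a 0 = 0
      rw [map_zero, map_zero, add_zero]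
    rcases List.mem_cons.1 h with h | h
    · subst h
      change s.y a 0 + 0 = 0
      rw [map_zero, add_zero]
    · exact all0 s f h)
  have e : opS (a + 1) (opE a (opS (a + 1) s)) = ⟨(s.U × ZMod 2) × ZMod 2, WW s,
      (opS (a + 1) (opE a (opS (a + 1) s))).y,
      (c1 s + c2 s) :: (pb s (s.y a) + c1 s) :: (pb s (s.y (a + 1)) + c1 s) ::
        s.l.map (pb s)⟩ := by
    refine mk_l ?_
    change (((opS (a + 1) s).y (a + 1)).comp (LinearMap.fst (ZMod 2) (s.U × ZMod 2) (ZMod 2)) +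
        LinearMap.snd (ZMod 2) (s.U × ZMod 2) (ZMod 2)) ::
      ((opS (a + 1) s).y a + (opS (a + 1) s).y (a + 1)).comp
        (LinearMap.fst (ZMod 2) (s.U × ZMod 2) (ZMod 2)) :: _ ::
      ((s.l.map (fun f => f.comp (LinearMap.fst (ZMod 2) s.U (ZMod 2)))).map
      (fun f => f.comp (LinearMap.fst (ZMod 2) (s.U × ZMod 2) (ZMod 2)))) = _
    rw [yS_eq, yS_ne (a + 1) a s (by omega), pbl]
    rfl
  have h2 := relist (W := WW s) (y := (opS (a + 1) (opE a (opS (a + 1) s))).y)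
    (l := (pb s (s.y (a + 1)) + c1 s) ::
      (pb s (s.y (a + 1)) + c1 s + (pb s (s.y (a + 1)) + pb s (s.y a))) ::
      (pb s (s.y (a + 1)) + c1 s + (pb s (s.y (a + 1)) + pb s (s.y a)) +
        (pb s (s.y a) + c2 s)) :: s.l.map (pb s))
    (l1 := (pb s (s.y (a + 1)) + c1 s) :: (pb s (s.y a) + c1 s) :: (c1 s + c2 s) ::
        s.l.map (pb s))
    (l' := (c1 s + c2 s) :: (pb s (s.y a) + c1 s) :: (pb s (s.y (a + 1)) + c1 s) ::
        s.l.map (pb s))
    (((List.Perm.swap _ _ _).trans ((List.Perm.swap _ _ _).cons _)).trans (List.Perm.swap _ _ _))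
    (.cons (fun _ _ => rfl) (.cons (fun z _ => by
        have : ∀ p q r : ZMod 2, p + q + (p + r) = r + q := by decide
        exact this _ _ _)
      (.cons (fun z _ => by
        have : ∀ p q r t : ZMod 2, p + q + (p + r) + (r + t) = q + t := by decide
        exact this _ _ _ _) (all2 _ _ fun _ _ _ _ => rfl))))
  have h3 := elim1 s (s.y (a + 1)) (opS (a + 1) (opE a (opS (a + 1) s))).y
    (opE a (opS (a + 1) (opE a s))).y
    ((pb s (s.y (a + 1)) + pb s (s.y a)) :: (pb s (s.y a) + c2 s) ::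
      (pb s (s.y (a + 1)) + pb s (s.y a) + (pb s (s.y a) + c2 s)) :: s.l.map (pb s))
    ((s.y a + s.y (a + 1)).comp (LinearMap.fst (ZMod 2) s.U (ZMod 2)) ::
      ((s.y a).comp (LinearMap.fst (ZMod 2) s.U (ZMod 2)) +
        LinearMap.snd (ZMod 2) s.U (ZMod 2)) ::
      ((s.y (a + 1)).comp (LinearMap.fst (ZMod 2) s.U (ZMod 2)) +
        LinearMap.snd (ZMod 2) s.U (ZMod 2)) ::
      s.l.map (fun f => f.comp (LinearMap.fst (ZMod 2) s.U (ZMod 2)))) (by
      intro i x t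
      change (opS (a + 1) (opS (a + 1) s)).y i ((x, s.y (a + 1) x), t) = (opS (a + 1) s).y i (x, t)
      by_cases hi : i = a + 1
      · subst hi
        rw [yS_eq, yS_eq]
        rfl
      · rw [yS_ne (a + 1) i _ hi, yS_ne (a + 1) i _ hi]
        rfl)
      (.cons (fun x t => add_comm _ _) (.cons (fun x t => rfl)
        (.cons (fun x t => by
          have : ∀ p r t : ZMod 2, p + r + (r + t) = p + t := by decide
          exact this _ _ _) (allp s _))))
  have e2 : opE a (opS (a + 1) (opE a s)) = ⟨s.U × ZMod 2, s.W.prod ⊤,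
      (opE a (opS (a + 1) (opE a s))).y,
      ((s.y a).comp (LinearMap.fst (ZMod 2) s.U (ZMod 2)) +
        LinearMap.snd (ZMod 2) s.U (ZMod 2)) ::
      ((s.y (a + 1)).comp (LinearMap.fst (ZMod 2) s.U (ZMod 2)) +
        LinearMap.snd (ZMod 2) s.U (ZMod 2)) ::
      (s.y a + s.y (a + 1)).comp (LinearMap.fst (ZMod 2) s.U (ZMod 2)) ::
      s.l.map (fun f => f.comp (LinearMap.fst (ZMod 2) s.U (ZMod 2)))⟩ := by
    refine mk_l ?_
    change ((opS (a + 1) s).y a + (opS (a + 1) s).y (a + 1)) :: _ = _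
    rw [yS_eq, yS_ne (a + 1) a s (by omega)]
    rfl
  have h4 := relist (W := s.W.prod (⊤ : Submodule (ZMod 2) (ZMod 2)))
    (y := (opE a (opS (a + 1) (opE a s))).y)
    (((List.Perm.swap _ _ _).trans ((List.Perm.swap _ _ _).cons _) :
      ((s.y a + s.y (a + 1)).comp (LinearMap.fst (ZMod 2) s.U (ZMod 2)) ::
      ((s.y a).comp (LinearMap.fst (ZMod 2) s.U (ZMod 2)) +
        LinearMap.snd (ZMod 2) s.U (ZMod 2)) ::
      ((s.y (a + 1)).comp (LinearMap.fst (ZMod 2) s.U (ZMod 2)) +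
        LinearMap.snd (ZMod 2) s.U (ZMod 2)) ::
      s.l.map (fun f => f.comp (LinearMap.fst (ZMod 2) s.U (ZMod 2)))).Perm
      (((s.y a).comp (LinearMap.fst (ZMod 2) s.U (ZMod 2)) +
        LinearMap.snd (ZMod 2) s.U (ZMod 2)) ::
      ((s.y (a + 1)).comp (LinearMap.fst (ZMod 2) s.U (ZMod 2)) +
        LinearMap.snd (ZMod 2) s.U (ZMod 2)) ::
      (s.y a + s.y (a + 1)).comp (LinearMap.fst (ZMod 2) s.U (ZMod 2)) ::
      s.l.map (fun f => f.comp (LinearMap.fst (ZMod 2) s.U (ZMod 2))))))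
    (all2 _ _ fun _ _ _ _ => rfl)
  rw [e, e2]
  constructor
  · exact le_trans h4.2 (le_trans h3.le.2 (le_trans (net_toDelta h1) h2.1))
  · exact le_trans h2.2 (le_trans (net_toY h1) (le_trans h3.le.1 h4.1))

end H665R2.LV.MQ
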