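import Pool.Agent.H665R2.LV.Main1
set_option autoImplicit false
set_option linter.unusedVariables false

namespace H665R2.LV

open Polynomial Module

variable {U : Type} [AddCommGroup U] [Module (ZMod 2) U]

theorem F_Y [FiniteDimensional (ZMod 2) U] {W : Submodule (ZMod 2) U}
    {l : List (Dual (ZMod 2) U)} {t a b : Dual (ZMod 2) U} (h : Priv W (a :: b :: l) t) :
    F W (t :: (t + a) :: (t + a + b) :: l) =
      (X + 1) * F (W ⊓ LinearMap.ker t) l + F (W ⊓ LinearMap.ker t) (b :: l) +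
      F (W ⊓ LinearMap.ker t) (a :: (a + b) :: l) := by
  rw [F_cons_not h.not_van]
  obtain ⟨e, he, te, hfe⟩ := h
  have ae : a e = 0 := hfe a (by simp)
  have be : b e = 0 := hfe b (by simp)
  have le : ∀ f ∈ l, f e = 0 := fun f hf => hfe f (by simp [hf])
  have ble : ∀ f ∈ b :: l, f e = 0 := fun f hf => hfe f (List.mem_cons_of_mem _ hf)
  have h2 : Priv W (b :: l) (t + a) := ⟨e, he, by simp [te, ae], ble⟩
  rw [F_series h2, ← Fslide he te ae (SR_tail le), ← Fslide he te ae (SR_tail ble)]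
  congr 1
  apply Fcongr
  refine .cons ?_ (.cons ?_ (refl_tail l))
  · intro x hx
    have : t x = 0 := hx.2
    simp [this]
  · intro x hx
    have : t x = 0 := hx.2
    simp [this]

theorem F_two [FiniteDimensional (ZMod 2) U] {W : Submodule (ZMod 2) U}
    {l : List (Dual (ZMod 2) U)} {a b : Dual (ZMod 2) U} (ha : ¬ Van W a) (hb : ¬ Van W b)
    (hab : ¬ Van W (a + b)) :
    F W (a :: b :: l) = F W l + F (W ⊓ LinearMap.ker a) l + F (W ⊓ LinearMap.ker b) l +
      F (W ⊓ LinearMap.ker a ⊓ LinearMap.ker b) l := by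
  have hb' : ¬ Van (W ⊓ LinearMap.ker a) b := by
    intro hv
    -- there is `x` with `b x = 1`; then `a x = 1`
    simp only [Van, not_forall] at hb hab ha
    obtain ⟨x, hx, hbx⟩ := hb
    have hax : a x ≠ 0 := fun h0 => hbx (hv x ⟨hx, h0⟩)
    obtain ⟨y, hy, haby⟩ := hab
    have key : ∀ z ∈ W, a z = 0 → b z = 0 := fun z hz h0 => hv z ⟨hz, h0⟩
    rcases z2 (a y) with h0 | h1
    · exact haby (by rw [LinearMap.add_apply, h0, key y hy h0, add_zero])
    · have hax1 : a x = 1 := by
        rcases z2 (a x) with h | h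
        · exact absurd h hax
        · exact h
      have h3 := key (x + y) (W.add_mem hx hy) (by rw [map_add, hax1, h1]; decide)
      rw [map_add] at h3
      have hbx1 : b x = 1 := by
        rcases z2 (b x) with h | h
        · exact absurd h hbx
        · exact h
      rw [hbx1] at h3
      apply haby
      rw [LinearMap.add_apply, h1]
      exact h3
  rw [F_cons_not ha, F_cons_not hb, F_cons_not hb']
  ring

theorem van_ker_of_indep {W : Submodule (ZMod 2) U} {a b : Dual (ZMod 2) U} (hb : ¬ Van W b)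
    (hab : ¬ Van W (a + b)) (ha : ¬ Van W a) : ¬ Van (W ⊓ LinearMap.ker b) a := by
  intro hv
  simp only [Van, not_forall] at hb hab ha
  obtain ⟨x, hx, hax⟩ := ha
  have hbx : b x ≠ 0 := fun h0 => hax (hv x ⟨hx, h0⟩)
  obtain ⟨y, hy, haby⟩ := hab
  have key : ∀ z ∈ W, b z = 0 → a z = 0 := fun z hz h0 => hv z ⟨hz, h0⟩
  rcases z2 (b y) with h0 | h1
  · exact haby (by rw [LinearMap.add_apply, h0, key y hy h0, add_zero])
  · have hbx1 : b x = 1 := by
      rcases z2 (b x) with h | h
      · exact absurd h hbx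
      · exact h
    have h3 := key (x + y) (W.add_mem hx hy) (by rw [map_add, hbx1, h1]; decide)
    rw [map_add] at h3
    have hax1 : a x = 1 := by
      rcases z2 (a x) with h | h
      · exact absurd h hax
      · exact h
    rw [hax1] at h3
    apply haby
    rw [LinearMap.add_apply, h1, add_comm]
    exact h3

theorem F_Delta [FiniteDimensional (ZMod 2) U] {W : Submodule (ZMod 2) U}
    {l : List (Dual (ZMod 2) U)} {a b : Dual (ZMod 2) U} (ha : ¬ Van W a) (hb : ¬ Van W b)
    (hab : ¬ Van W (a + b)) :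
    F W (a :: b :: (a + b) :: l) = F W (a :: (a + b) :: l) + F (W ⊓ LinearMap.ker b) l +
      (X + 2) * F (W ⊓ LinearMap.ker b ⊓ LinearMap.ker a) l := by
  rw [F_perm (List.Perm.swap b a _), F_cons_not hb]
  have h1 : F (W ⊓ LinearMap.ker b) (a :: (a + b) :: l) =
      F (W ⊓ LinearMap.ker b) (a :: a :: l) := by
    apply Fcongr
    refine .cons (fun x _ => rfl) (.cons ?_ (refl_tail l))
    intro x hx
    have : b x = 0 := hx.2
    simp [this]
  rw [h1, F_cons_not (van_ker_of_indep hb hab ha), F_cons_not (van_ker_of_indep hb hab ha),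
    F_cons_van (van_ker _ a)]
  ring

/-- the Delta-Y relation -/
theorem F_DY [FiniteDimensional (ZMod 2) U] {W : Submodule (ZMod 2) U}
    {l : List (Dual (ZMod 2) U)} {t a b : Dual (ZMod 2) U} (h : Priv W (a :: b :: l) t)
    (ha : ¬ Van (W ⊓ LinearMap.ker t) a) (hb : ¬ Van (W ⊓ LinearMap.ker t) b)
    (hab : ¬ Van (W ⊓ LinearMap.ker t) (a + b)) :
    F (W ⊓ LinearMap.ker t) (a :: b :: (a + b) :: l) - F W (t :: (t + a) :: (t + a + b) :: l) =
      (X + 2) * F (W ⊓ LinearMap.ker t) (a :: b :: l)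
      - (X + 2) * F (W ⊓ LinearMap.ker t ⊓ LinearMap.ker a) l
      - (X + 2) * F (W ⊓ LinearMap.ker t ⊓ LinearMap.ker b) l
      - (X + 2) * (2 * F (W ⊓ LinearMap.ker t) l) := by
  rw [F_Y h, F_Delta ha hb hab, F_two ha hb hab, F_cons_not hb,
    inf_right_comm (W ⊓ LinearMap.ker t) (LinearMap.ker b) (LinearMap.ker a)]
  ring

/-- dimensions for the Delta-Y step -/
theorem kap_D_a [FiniteDimensional (ZMod 2) U] (W : Submodule (ZMod 2) U)
    (l : List (Dual (ZMod 2) U)) (a b : Dual (ZMod 2) U) :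
    kap W (a :: b :: (a + b) :: l) ≤ kap (W ⊓ LinearMap.ker a) l + 1 := by
  have h1 := (kap_ker W (a :: b :: (a + b) :: l) a).1
  rw [kap_loop _ _ a (van_ker W a)] at h1
  have h2 : kap (W ⊓ LinearMap.ker a) (b :: (a + b) :: l) =
      kap (W ⊓ LinearMap.ker a) (b :: b :: l) := by
    apply kapcongr
    refine .cons (fun x _ => rfl) (.cons ?_ (refl_tail l))
    intro x hx
    have : a x = 0 := hx.2
    simp [this]
  rw [h2, kap_par] at h1
  exact h1

theorem kap_D_b [FiniteDimensional (ZMod 2) U] (W : Submodule (ZMod 2) U)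
    (l : List (Dual (ZMod 2) U)) (a b : Dual (ZMod 2) U) :
    kap W (a :: b :: (a + b) :: l) ≤ kap (W ⊓ LinearMap.ker b) l + 1 := by
  rw [kap_perm (List.Perm.swap b a _), add_comm a b]
  exact kap_D_a W l b a

theorem kap_D_0 [FiniteDimensional (ZMod 2) U] (W : Submodule (ZMod 2) U)
    (l : List (Dual (ZMod 2) U)) (a b : Dual (ZMod 2) U) :
    kap W (a :: b :: (a + b) :: l) ≤ kap W l + 2 := by
  have h1 := kap_D_a W l a b
  have h2 := (kap_ker W l a).2
  omega

theorem kap_D_ab [FiniteDimensional (ZMod 2) U] (W : Submodule (ZMod 2) U)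
    (l : List (Dual (ZMod 2) U)) (a b : Dual (ZMod 2) U) :
    kap W (a :: b :: (a + b) :: l) ≤ kap W (a :: b :: l) + 1 := by
  have hp : (a :: b :: (a + b) :: l).Perm ((a + b) :: a :: b :: l) := by
    refine ((List.Perm.swap (a + b) b l).cons a).trans ?_
    exact List.Perm.swap (a + b) a (b :: l)
  rw [kap_perm hp]
  exact (kap_cons W (a :: b :: l) (a + b)).1

/-- the difference lies in the right power -/
theorem diff_mem [FiniteDimensional (ZMod 2) U] {W : Submodule (ZMod 2) U}
    {l : List (Dual (ZMod 2) U)} {a b : Dual (ZMod 2) U}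
    (h1 : P W (a :: b :: l)) (h2 : P (W ⊓ LinearMap.ker a) l) (h3 : P (W ⊓ LinearMap.ker b) l)
    (h4 : P W l) :
    (X + 2) * F W (a :: b :: l) - (X + 2) * F (W ⊓ LinearMap.ker a) l
      - (X + 2) * F (W ⊓ LinearMap.ker b) l - (X + 2) * (2 * F W l) ∈
      I ^ kap W (a :: b :: (a + b) :: l) := by
  unfold P at *
  refine Ideal.sub_mem _ (Ideal.sub_mem _ (Ideal.sub_mem _ ?_ ?_) ?_) ?_
  · exact mulI X2_mem h1 (kap_D_ab W l a b)
  · exact mulI X2_mem h2 (kap_D_a W l a b)
  · exact mulI X2_mem h3 (kap_D_b W l a b)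
  · exact mulI2 h4 (kap_D_0 W l a b)

end H665R2.LV
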