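import Pool.Agent.H665R2.LV.NDefs
set_option autoImplicit false

/-! Isomorphic pieces are equivalent (task 1). -/

namespace H665R2.LV

open Module

/-- the statement used -/
def N1.IsoMaps : Prop := ∀ (U U' : Type) [AddCommGroup U] [Module (ZMod 2) U] [AddCommGroup U']
    [Module (ZMod 2) U'] (W : Submodule (ZMod 2) U) (W' : Submodule (ZMod 2) U')
    (l : List (Dual (ZMod 2) U)) (l' l1 : List (Dual (ZMod 2) U')) (f : U →ₗ[ZMod 2] U')
    (g : U' →ₗ[ZMod 2] U), (∀ x ∈ W, f x ∈ W' ∧ g (f x) = x) →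
    (∀ x ∈ W', g x ∈ W ∧ f (g x) = x) →
    List.Perm l1 l' → List.Forall₂ (fun a b => ∀ x ∈ W, a x = b (f x)) l l1 →
    SDY W l → SDY W' l'

theorem N1.forall₂_refl {α : Type} (R : α → α → Prop) (l : List α) (h : ∀ a ∈ l, R a a) :
    List.Forall₂ R l l := by
  induction l with
  | nil => exact List.Forall₂.nil
  | cons a l ih =>
    exact List.Forall₂.cons (h a (List.mem_cons_self)) (ih fun b hb => h b (List.mem_cons_of_mem a hb))

/-- one direction -/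
theorem N1.one (hI : N1.IsoMaps) {s s' : Net} (f : s.U →ₗ[ZMod 2] s'.U) (g : s'.U →ₗ[ZMod 2] s.U)
    (h1 : ∀ x ∈ s.W, f x ∈ s'.W ∧ g (f x) = x) (h2 : ∀ x ∈ s'.W, g x ∈ s.W ∧ f (g x) = x)
    (h3 : ∀ i, ∀ x ∈ s.W, s.y i x = s'.y i (f x)) (l1 : List (Dual (ZMod 2) s'.U))
    (hp : List.Perm l1 s'.l) (h4 : List.Forall₂ (fun a b => ∀ x ∈ s.W, a x = b (f x)) s.l l1)
    (c : Net) (hG : G s c) : G s' c := by
  refine hI (s.U × c.U) (s'.U × c.U) (gW s c) (gW s' c) (gl s c) (gl s' c)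
    (l1.map (fun f => f.comp (LinearMap.fst (ZMod 2) s'.U c.U)) ++
      c.l.map (fun f => f.comp (LinearMap.snd (ZMod 2) s'.U c.U)))
    (f.prodMap LinearMap.id) (g.prodMap LinearMap.id) ?_ ?_ ?_ ?_ hG
  · rintro ⟨x, z⟩ ⟨k1, k2, k3⟩
    have k1' : x ∈ s.W := k1
    refine ⟨⟨(h1 x k1').1, k2, fun i => ?_⟩, ?_⟩
    · show s'.y i (f x) = c.y i z
      rw [← h3 i x k1']
      exact k3 i
    · show (g (f x), z) = (x, z)
      rw [(h1 x k1').2]
  · rintro ⟨x, z⟩ ⟨k1, k2, k3⟩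
    have k1' : x ∈ s'.W := k1
    refine ⟨⟨(h2 x k1').1, k2, fun i => ?_⟩, ?_⟩
    · show s.y i (g x) = c.y i z
      rw [h3 i (g x) (h2 x k1').1, (h2 x k1').2]
      exact k3 i
    · show (f (g x), z) = (x, z)
      rw [(h2 x k1').2]
  · exact (hp.map _).append_right _
  · apply List.rel_append
    · rw [List.forall₂_map_left_iff, List.forall₂_map_right_iff]
      refine h4.imp ?_
      intro a b hab
      rintro ⟨x, z⟩ ⟨k1, k2, k3⟩
      exact hab x k1
    · rw [List.forall₂_map_left_iff, List.forall₂_map_right_iff]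
      apply N1.forall₂_refl
      intro a _
      rintro ⟨x, z⟩ _
      rfl

theorem NIso.le_of (hI : N1.IsoMaps) {s s' : Net} (h : NIso s s') : s ≤ s' ∧ s' ≤ s := by
  obtain ⟨f, g, h1, h2, h3, l1, hp, h4⟩ := h
  refine ⟨fun c hc => ?_, fun c hc => N1.one hI f g h1 h2 h3 l1 hp h4 c hc⟩
  -- the inverse direction
  obtain ⟨l2, hp2, h5⟩ : ∃ l2, List.Perm l2 s.l ∧
      List.Forall₂ (fun a b => ∀ x ∈ s'.W, a x = b (g x)) s'.l l2 := by
    have h6 : List.Forall₂ (fun b a => ∀ x ∈ s'.W, b x = a (g x)) l1 s.l := by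
      refine h4.flip.imp ?_
      intro b a hab x hx
      have hab' : a (g x) = b (f (g x)) := hab (g x) (h2 x hx).1
      rw [hab', (h2 x hx).2]
    obtain ⟨l2, h7, h8⟩ := List.perm_comp_forall₂ hp.symm h6
    exact ⟨l2, h8, h7⟩
  exact N1.one hI g f h2 h1 (fun i x hx => by rw [h3 i (g x) (h2 x hx).1, (h2 x hx).2]) l2 hp2 h5 c hc

end H665R2.LV
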