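import Pool.Agent.H665R2.LV.NDefs
import Pool.Agent.H665R2.LV.Main3
set_option autoImplicit false

/-! Task B of the planar Las Vergnas project (helper88): SDY.iso, iso_maps, perm, nil, loop,
par, del. -/

namespace H665R2.LV

open Module Polynomial

section sdyB

variable {U U' : Type} [AddCommGroup U] [Module (ZMod 2) U] [AddCommGroup U'] [Module (ZMod 2) U']

theorem forall2_join {α β γ : Type*} {R : α → β → Prop} {S : α → γ → Prop} {T : β → γ → Prop}
    (hRST : ∀ a b c, R a b → S a c → T b c) {l : List α} {l1 : List β} {l2 : List γ}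
    (h1 : List.Forall₂ R l l1) (h2 : List.Forall₂ S l l2) : List.Forall₂ T l1 l2 := by
  induction h1 generalizing l2 with
  | nil => cases h2; exact .nil
  | cons h _ ih =>
    cases h2 with
    | cons h' t' => exact .cons (hRST _ _ _ h h') (ih t')

/-- task B -/
theorem SDY.iso {W : Submodule (ZMod 2) U} {W' : Submodule (ZMod 2) U'}
    {l : List (Dual (ZMod 2) U)} {l' : List (Dual (ZMod 2) U')} (φ : W ≃ₗ[ZMod 2] W')
    (h : List.Forall₂ (fun f g => ∀ x : W, f x = g (φ x)) l l') (hs : SDY W l) : SDY W' l' := by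
  obtain ⟨B, i1, i2, i3, W2, l2, ψ, h2, hd⟩ := hs
  refine ⟨B, i1, i2, i3, W2, l2, φ.symm.trans ψ, ?_, hd⟩
  refine forall2_join (fun a b c hab hac x => ?_) h h2
  have e1 := hab (φ.symm x)
  have e2 := hac (φ.symm x)
  rw [LinearEquiv.apply_symm_apply] at e1
  rw [← e1, e2]
  rfl

/-- task B -/
theorem SDY.perm {W : Submodule (ZMod 2) U} {l l' : List (Dual (ZMod 2) U)} (h : l.Perm l')
    (hs : SDY W l) : SDY W l' := by
  obtain ⟨B, i1, i2, i3, W2, l2, ψ, h2, hd⟩ := hs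
  obtain ⟨w, hw1, hw2⟩ := List.perm_comp_forall₂ h.symm h2
  exact ⟨B, i1, i2, i3, W2, w, ψ, hw1, DY.perm hw2.symm hd⟩

/-- task B -/
theorem SDY.iso_maps {W : Submodule (ZMod 2) U} {W' : Submodule (ZMod 2) U'}
    {l : List (Dual (ZMod 2) U)} {l' l1 : List (Dual (ZMod 2) U')} (f : U →ₗ[ZMod 2] U')
    (g : U' →ₗ[ZMod 2] U) (h1 : ∀ x ∈ W, f x ∈ W' ∧ g (f x) = x)
    (h2 : ∀ x ∈ W', g x ∈ W ∧ f (g x) = x)
    (h3 : List.Perm l1 l') (h4 : List.Forall₂ (fun a b => ∀ x ∈ W, a x = b (f x)) l l1)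
    (hs : SDY W l) : SDY W' l' := by
  refine SDY.perm h3 ?_
  have hf : ∀ x ∈ W, f x ∈ W' := fun x hx => (h1 x hx).1
  have hg : ∀ x ∈ W', g x ∈ W := fun x hx => (h2 x hx).1
  refine SDY.iso (LinearEquiv.ofLinearMap (f.restrict hf) (g.restrict hg) ?_ ?_) ?_ hs
  · apply LinearMap.ext
    intro x
    exact Subtype.ext (h2 x x.2).2
  · apply LinearMap.ext
    intro x
    exact Subtype.ext (h1 x x.2).2
  · exact h4.imp (fun a b hab (x : W) => hab x x.2)

/-- task B -/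
theorem SDY.nil [FiniteDimensional (ZMod 2) U] (W : Submodule (ZMod 2) U) : SDY W [] :=
  ⟨U, inferInstance, inferInstance, inferInstance, W, [], LinearEquiv.refl _ W, .nil, DY.nil W⟩

/-- task B -/
theorem SDY.loop {W : Submodule (ZMod 2) U} {l : List (Dual (ZMod 2) U)} {a : Dual (ZMod 2) U}
    (h : Van W a) (hs : SDY W l) : SDY W (a :: l) := by
  obtain ⟨B, i1, i2, i3, W2, l2, ψ, h2, hd⟩ := hs
  refine ⟨B, i1, i2, i3, W2, 0 :: l2, ψ, .cons (fun x => ?_) h2, DY.loop (fun x _ => ?_) hd⟩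
  · rw [h x x.2]; simp
  · simp

/-- task B -/
theorem SDY.par {W : Submodule (ZMod 2) U} {l : List (Dual (ZMod 2) U)} {a : Dual (ZMod 2) U}
    (hs : SDY W (a :: l)) : SDY W (a :: a :: l) := by
  obtain ⟨B, i1, i2, i3, W2, l2, ψ, h2, hd⟩ := hs
  cases h2 with
  | cons h t => exact ⟨B, i1, i2, i3, W2, _, ψ, .cons h (.cons h t), DY.par hd⟩

/-- task B -/
theorem SDY.del {W : Submodule (ZMod 2) U} {l : List (Dual (ZMod 2) U)} {a : Dual (ZMod 2) U}
    (hs : SDY W (a :: l)) : SDY W l := by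
  obtain ⟨B, i1, i2, i3, W2, l2, ψ, h2, hd⟩ := hs
  cases h2 with
  | cons h t => exact ⟨B, i1, i2, i3, W2, _, ψ, t, DY.del hd⟩

end sdyB

end H665R2.LV
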