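import Pool.Agent.H665R2.LV.N1
import Pool.Agent.H665R2.LV.NB
set_option autoImplicit false

namespace H665R2.LV

open Module

theorem NIso.le {s s' : Net} (h : NIso s s') : s ≤ s' ∧ s' ≤ s := by
  refine NIso.le_of ?_ h
  intro U U' _ _ _ _ W W' l l' l1 f g h1 h2 h3 h4 hs
  exact SDY.iso_maps f g h1 h2 h3 h4 hs

end H665R2.LV
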