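import Pool.Agent.H665R2.LV.NDefs
set_option autoImplicit false

/-! Symmetry of gluing (task N2, helper250). -/

namespace H665R2.LV

open Module

private theorem n2_iso_maps {U U' : Type} [AddCommGroup U] [Module (ZMod 2) U] [AddCommGroup U']
    [Module (ZMod 2) U'] {W : Submodule (ZMod 2) U} {W' : Submodule (ZMod 2) U'}
    {l : List (Dual (ZMod 2) U)} {l' l1 : List (Dual (ZMod 2) U')} (f : U →ₗ[ZMod 2] U')
    (g : U' →ₗ[ZMod 2] U) (h1 : ∀ x ∈ W, f x ∈ W' ∧ g (f x) = x)
    (h2 : ∀ x ∈ W', g x ∈ W ∧ f (g x) = x)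
    (h3 : List.Perm l1 l') (h4 : List.Forall₂ (fun a b => ∀ x ∈ W, a x = b (f x)) l l1)
    (hs : SDY W l) : SDY W' l' := by
  obtain ⟨B, iB1, iB2, iB3, V, l2, φ, hφ, hDY⟩ := hs
  let ψ : W ≃ₗ[ZMod 2] W' :=
    { toFun := fun x => ⟨f x, (h1 x x.2).1⟩
      map_add' := fun x y => Subtype.ext (by simp)
      map_smul' := fun c x => Subtype.ext (by simp)
      invFun := fun x => ⟨g x, (h2 x x.2).1⟩
      left_inv := fun x => Subtype.ext (h1 x x.2).2
      right_inv := fun x => Subtype.ext (h2 x x.2).2 }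
  have e1 : List.Forall₂ (fun (b : Dual (ZMod 2) U') (c : Dual (ZMod 2) B) =>
      ∀ x : W', b x = c (φ (ψ.symm x))) l1 l2 := by
    have h4' := h4
    clear h3 hDY
    revert l1 l2
    intro l1
    induction l generalizing l1 with
    | nil =>
      intro h4 l2 hφ _
      cases h4
      cases hφ
      exact List.Forall₂.nil
    | cons a l ih =>
      intro h4 l2 hφ _
      cases h4 with
      | cons ha hl =>
        cases hφ with
        | cons hb hl' =>
          refine List.Forall₂.cons ?_ (ih hl _ hl' hl)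
          intro x
          have k1 := ha (g x) (h2 x x.2).1
          rw [(h2 x x.2).2] at k1
          rw [← k1]
          exact hb (ψ.symm x)
  obtain ⟨l3, h5, h6⟩ := List.perm_comp_forall₂ h3.symm e1
  exact ⟨B, iB1, iB2, iB3, V, l3, ψ.symm.trans φ, h5, DY.perm h6.symm hDY⟩

/-- task N2 -/
theorem G_symm {s c : Net} (h : G s c) : G c s := by
  unfold G at h ⊢
  refine n2_iso_maps (LinearMap.prod (LinearMap.snd (ZMod 2) s.U c.U) (LinearMap.fst (ZMod 2) s.U c.U))
    (LinearMap.prod (LinearMap.snd (ZMod 2) c.U s.U) (LinearMap.fst (ZMod 2) c.U s.U))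
    (l1 := s.l.map (fun f => f.comp (LinearMap.snd (ZMod 2) c.U s.U)) ++
      c.l.map (fun f => f.comp (LinearMap.fst (ZMod 2) c.U s.U))) ?_ ?_ ?_ ?_ h
  · rintro ⟨x, y⟩ ⟨h1, h2, h3⟩
    exact ⟨⟨h2, h1, fun i => (h3 i).symm⟩, rfl⟩
  · rintro ⟨x, y⟩ ⟨h1, h2, h3⟩
    exact ⟨⟨h2, h1, fun i => (h3 i).symm⟩, rfl⟩
  · exact List.perm_append_comm
  · unfold gl
    refine List.rel_append ?_ ?_
    · rw [List.forall₂_map_left_iff, List.forall₂_map_right_iff, List.forall₂_same]
      intro a _ x _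
      rfl
    · rw [List.forall₂_map_left_iff, List.forall₂_map_right_iff, List.forall₂_same]
      intro a _ x _
      rfl

end H665R2.LV
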