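import Pool.Agent.H665R2.LV.NDefs
set_option autoImplicit false

/-! Task 3 of helper665's planar version (by helper747): adjunctions for `opE` and `opD`. -/

namespace H665R2.LV

open Module Polynomial

section sdy

variable {U : Type} [AddCommGroup U] [Module (ZMod 2) U]

/-- change of the list of functionals up to permutation and equality on the subspace -/
theorem sdyid_N3 {W W' : Submodule (ZMod 2) U} {l l' l1 : List (Dual (ZMod 2) U)}
    (hW : W = W') (h3 : List.Perm l1 l') (h4 : List.Forall₂ (fun a b => ∀ x ∈ W, a x = b x) l l1)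
    (hs : SDY W l) : SDY W' l' := by
  subst hW
  obtain ⟨B, i1, i2, i3, W1, m, φ, hm, hDY⟩ := hs
  have h5 : List.Forall₂ (fun f g => ∀ x : W, f x = g (φ x)) l1 m := by
    have h6 : List.Forall₂ (fun f g => ∀ x : W, f x = g (φ x)) l m := hm
    clear hm hDY h3
    induction h4 generalizing m with
    | nil =>
      cases h6
      exact List.Forall₂.nil
    | cons hab _ ih =>
      cases h6 with
      | cons h7 h8 =>
        refine List.Forall₂.cons (fun x => ?_) (ih _ h8)
        rw [← hab x x.2]
        exact h7 x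
  obtain ⟨m', hm', hp⟩ := List.perm_comp_forall₂ h3.symm h5
  exact ⟨B, i1, i2, i3, W1, m', φ, hm', DY.perm hp.symm hDY⟩

end sdy

theorem zmod2_add_N3 {a b : ZMod 2} : a + b = 0 ↔ a = b := by
  revert a b; decide

/-- task N3 -/
theorem adjE (i : ℕ) (s c : Net) : G (opE i s) c ↔ G s (opE i c) := by
  have key : ∀ x ∈ gW s c, (s.y i + s.y (i + 1)) x.1 = (c.y i + c.y (i + 1)) x.2 := by
    rintro x ⟨_, _, hx⟩
    rw [LinearMap.add_apply, LinearMap.add_apply, hx, hx]
  have hl : gl (opE i s) c = ((s.y i + s.y (i + 1)).comp (LinearMap.fst (ZMod 2) s.U c.U)) ::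
      (s.l.map (fun f => f.comp (LinearMap.fst (ZMod 2) s.U c.U)) ++
      c.l.map (fun f => f.comp (LinearMap.snd (ZMod 2) s.U c.U))) := rfl
  have hr : gl s (opE i c) = (s.l.map (fun f => f.comp (LinearMap.fst (ZMod 2) s.U c.U)) ++
      ((c.y i + c.y (i + 1)).comp (LinearMap.snd (ZMod 2) s.U c.U)) ::
      c.l.map (fun f => f.comp (LinearMap.snd (ZMod 2) s.U c.U))) := rfl
  constructor
  · intro h
    have h' : SDY (gW s c) (((s.y i + s.y (i + 1)).comp (LinearMap.fst (ZMod 2) s.U c.U)) ::
      (s.l.map (fun f => f.comp (LinearMap.fst (ZMod 2) s.U c.U)) ++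
      c.l.map (fun f => f.comp (LinearMap.snd (ZMod 2) s.U c.U)))) := h
    have := sdyid_N3 (W := gW s c) (W' := gW s c) (l' := s.l.map (fun f => f.comp
        (LinearMap.fst (ZMod 2) s.U c.U)) ++
      ((c.y i + c.y (i + 1)).comp (LinearMap.snd (ZMod 2) s.U c.U)) ::
      c.l.map (fun f => f.comp (LinearMap.snd (ZMod 2) s.U c.U))) rfl List.perm_middle.symm
      (List.Forall₂.cons (fun x hx => by
        simp only [LinearMap.comp_apply, LinearMap.fst_apply, LinearMap.snd_apply]
        exact key x hx) (List.forall₂_same.2 fun _ _ _ _ => rfl)) h'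
    exact this
  · intro h
    have h' : SDY (gW s c) (s.l.map (fun f => f.comp
        (LinearMap.fst (ZMod 2) s.U c.U)) ++
      ((c.y i + c.y (i + 1)).comp (LinearMap.snd (ZMod 2) s.U c.U)) ::
      c.l.map (fun f => f.comp (LinearMap.snd (ZMod 2) s.U c.U))) := h
    have h1 := sdyid_N3 (W := gW s c) (W' := gW s c) rfl List.perm_middle
      (List.forall₂_same.2 fun _ _ _ _ => rfl) h'
    have := sdyid_N3 (W := gW s c) (W' := gW s c)
      (l' := ((s.y i + s.y (i + 1)).comp (LinearMap.fst (ZMod 2) s.U c.U)) ::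
      (s.l.map (fun f => f.comp (LinearMap.fst (ZMod 2) s.U c.U)) ++
      c.l.map (fun f => f.comp (LinearMap.snd (ZMod 2) s.U c.U)))) rfl (List.Perm.refl _)
      (List.Forall₂.cons (fun x hx => by
        simp only [LinearMap.comp_apply, LinearMap.fst_apply, LinearMap.snd_apply]
        exact (key x hx).symm) (List.forall₂_same.2 fun _ _ _ _ => rfl)) h1
    exact this

theorem gW_DM_N3 (i : ℕ) (s c : Net) (x : s.U × c.U) :
    (x.1 ∈ s.W ∧ x.2 ∈ c.W ∧ ∀ j, (opD i s).y j x.1 = c.y j x.2) ↔
    (x.1 ∈ s.W ∧ (x.2 ∈ c.W ∧ c.y i x.2 + c.y (i + 1) x.2 = 0) ∧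
      ∀ j, s.y j x.1 = (opM i c).y j x.2) := by
  have e1 : ∀ j, (opD i s).y j = if j ≤ i then s.y j else s.y (j - 1) := fun _ => rfl
  have e2 : ∀ j, (opM i c).y j = if j ≤ i then c.y j else c.y (j + 1) := fun _ => rfl
  constructor
  · rintro ⟨h1, h2, h3⟩
    have hi : s.y i x.1 = c.y i x.2 := by
      have := h3 i
      rw [e1, if_pos le_rfl] at this
      exact this
    have hi1 : s.y i x.1 = c.y (i + 1) x.2 := by
      have := h3 (i + 1)
      rw [e1, if_neg (by omega), Nat.add_sub_cancel] at this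
      exact this
    refine ⟨h1, ⟨h2, ?_⟩, fun j => ?_⟩
    · rw [zmod2_add_N3, ← hi, hi1]
    · rw [e2]
      split_ifs with hj
      · have := h3 j
        rw [e1, if_pos hj] at this
        exact this
      · have := h3 (j + 1)
        rw [e1, if_neg (by omega), Nat.add_sub_cancel] at this
        exact this
  · rintro ⟨h1, ⟨h2, h4⟩, h3⟩
    rw [zmod2_add_N3] at h4
    refine ⟨h1, h2, fun j => ?_⟩
    rw [e1]
    split_ifs with hj
    · have := h3 j
      rw [e2, if_pos hj] at this
      exact this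
    · by_cases hj' : j = i + 1
      · subst hj'
        rw [Nat.add_sub_cancel, ← h4]
        have := h3 i
        rw [e2, if_pos le_rfl] at this
        exact this
      · have := h3 (j - 1)
        rw [e2, if_neg (by omega), Nat.sub_add_cancel (by omega)] at this
        exact this

/-- task N6 -/
theorem adjD (i : ℕ) (s c : Net) : G (opD i s) c ↔ G s (opM i c) := by
  have hW : gW (opD i s) c = gW s (opM i c) := by
    ext x
    exact gW_DM_N3 i s c x
  have hl : gl (opD i s) c = gl s (opM i c) := rfl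
  constructor
  · intro h
    exact sdyid_N3 (U := s.U × c.U) hW (List.Perm.refl _)
      (List.forall₂_same.2 fun _ _ _ _ => rfl) h
  · intro h
    exact sdyid_N3 (U := s.U × c.U) hW.symm (List.Perm.refl _)
      (List.forall₂_same.2 fun _ _ _ _ => rfl) h

end H665R2.LV
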