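import Pool.Agent.H665R2.LV.NDefs
import Pool.Agent.H665R2.LV.Main3
set_option autoImplicit false

/-! Adjunction for the pendant edge operation. -/

namespace H665R2.LV

open Module

theorem N4_iso_maps {U U' : Type} [AddCommGroup U] [Module (ZMod 2) U] [AddCommGroup U']
    [Module (ZMod 2) U'] {W : Submodule (ZMod 2) U} {W' : Submodule (ZMod 2) U'}
    {l : List (Dual (ZMod 2) U)} {l' l1 : List (Dual (ZMod 2) U')} (f : U →ₗ[ZMod 2] U')
    (g : U' →ₗ[ZMod 2] U) (h1 : ∀ x ∈ W, f x ∈ W' ∧ g (f x) = x)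
    (h2 : ∀ x ∈ W', g x ∈ W ∧ f (g x) = x)
    (h3 : List.Perm l1 l') (h4 : List.Forall₂ (fun a b => ∀ x ∈ W, a x = b (f x)) l l1)
    (hs : SDY W l) : SDY W' l' := by
  obtain ⟨B, i1, i2, i3, W0, l0, φ, hl, hD⟩ := hs
  let e : W' ≃ₗ[ZMod 2] W := LinearEquiv.ofLinearMap
    (g.restrict (fun x hx => (h2 x hx).1)) (f.restrict (fun x hx => (h1 x hx).1))
    (by
      ext x
      exact (h1 x x.2).2)
    (by
      ext x
      exact (h2 x x.2).2)
  have hcomp : List.Forall₂ (fun (b : Dual (ZMod 2) U') (c : Dual (ZMod 2) B) =>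
      ∀ x : W', b x = c ((e.trans φ) x)) l1 l0 := by
    clear h3 hD
    induction h4 generalizing l0 with
    | nil =>
      cases hl
      exact .nil
    | cons h _ ih =>
      cases hl with
      | cons h' hl' =>
        refine .cons (fun x => ?_) (ih _ hl')
        have e1 := h (g x) (h2 x x.2).1
        rw [(h2 x x.2).2] at e1
        exact e1.symm.trans (h' (e x))
  obtain ⟨w, hw, hp⟩ := List.perm_comp_forall₂ h3.symm hcomp
  exact ⟨B, i1, i2, i3, W0, w, e.trans φ, hw, DY.perm hp.symm hD⟩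

section aux

variable {U V : Type} [AddCommGroup U] [Module (ZMod 2) U] [AddCommGroup V] [Module (ZMod 2) V]

/-- the map from left to right -/
def N4_f (y : Dual (ZMod 2) U) : ((U × ZMod 2) × V) →ₗ[ZMod 2] (U × (V × ZMod 2)) :=
  ((LinearMap.fst (ZMod 2) U (ZMod 2)).comp (LinearMap.fst (ZMod 2) (U × ZMod 2) V)).prod
    ((LinearMap.snd (ZMod 2) (U × ZMod 2) V).prod
      (y.comp ((LinearMap.fst (ZMod 2) U (ZMod 2)).comp
        (LinearMap.fst (ZMod 2) (U × ZMod 2) V))))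

/-- the map from right to left -/
def N4_g (z : Dual (ZMod 2) V) : (U × (V × ZMod 2)) →ₗ[ZMod 2] ((U × ZMod 2) × V) :=
  ((LinearMap.fst (ZMod 2) U (V × ZMod 2)).prod
      (z.comp ((LinearMap.fst (ZMod 2) V (ZMod 2)).comp
        (LinearMap.snd (ZMod 2) U (V × ZMod 2))))).prod
    ((LinearMap.fst (ZMod 2) V (ZMod 2)).comp (LinearMap.snd (ZMod 2) U (V × ZMod 2)))

theorem N4_f_apply (y : Dual (ZMod 2) U) (x : U) (t : ZMod 2) (b : V) :
    N4_f (V := V) y ((x, t), b) = (x, (b, y x)) := rfl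

theorem N4_g_apply (z : Dual (ZMod 2) V) (x : U) (t : ZMod 2) (b : V) :
    N4_g (U := U) z (x, (b, t)) = ((x, z b), b) := rfl

theorem N4_aux (y : Dual (ZMod 2) U) (z : Dual (ZMod 2) V) (l : List (Dual (ZMod 2) U))
    (m : List (Dual (ZMod 2) V)) (Q : U → V → Prop)
    (L : Submodule (ZMod 2) ((U × ZMod 2) × V)) (R : Submodule (ZMod 2) (U × (V × ZMod 2)))
    (hL : ∀ x t b, ((x, t), b) ∈ L ↔ Q x b ∧ t = z b)
    (hR : ∀ x t b, (x, (b, t)) ∈ R ↔ Q x b ∧ t = y x) :
    SDY L (((y.comp (LinearMap.fst (ZMod 2) U (ZMod 2)) + LinearMap.snd (ZMod 2) U (ZMod 2)) ::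
      l.map (fun f => f.comp (LinearMap.fst (ZMod 2) U (ZMod 2)))).map
        (fun f => f.comp (LinearMap.fst (ZMod 2) (U × ZMod 2) V)) ++
      m.map (fun f => f.comp (LinearMap.snd (ZMod 2) (U × ZMod 2) V))) ↔
    SDY R (l.map (fun f => f.comp (LinearMap.fst (ZMod 2) U (V × ZMod 2))) ++
      ((z.comp (LinearMap.fst (ZMod 2) V (ZMod 2)) + LinearMap.snd (ZMod 2) V (ZMod 2)) ::
      m.map (fun f => f.comp (LinearMap.fst (ZMod 2) V (ZMod 2)))).map
        (fun f => f.comp (LinearMap.snd (ZMod 2) U (V × ZMod 2)))) := by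
  have hf : ∀ p ∈ L, N4_f y p ∈ R ∧ N4_g z (N4_f y p) = p := by
    rintro ⟨⟨x, t⟩, b⟩ hp
    obtain ⟨h1, h2⟩ := (hL x t b).1 hp
    refine ⟨?_, ?_⟩
    · rw [N4_f_apply, hR]
      exact ⟨h1, rfl⟩
    · rw [N4_f_apply, N4_g_apply, h2]
  have hg : ∀ p ∈ R, N4_g z p ∈ L ∧ N4_f y (N4_g z p) = p := by
    rintro ⟨x, ⟨b, t⟩⟩ hp
    obtain ⟨h1, h2⟩ := (hR x t b).1 hp
    refine ⟨?_, ?_⟩
    · rw [N4_g_apply, hL]
      exact ⟨h1, rfl⟩
    · rw [N4_g_apply, N4_f_apply, h2]
  constructor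
  · intro h
    refine N4_iso_maps
      (l1 := (z.comp (LinearMap.fst (ZMod 2) V (ZMod 2)) +
          LinearMap.snd (ZMod 2) V (ZMod 2)).comp (LinearMap.snd (ZMod 2) U (V × ZMod 2)) ::
        (l.map (fun f => f.comp (LinearMap.fst (ZMod 2) U (V × ZMod 2))) ++
        (m.map (fun f => f.comp (LinearMap.fst (ZMod 2) V (ZMod 2)))).map
          (fun f => f.comp (LinearMap.snd (ZMod 2) U (V × ZMod 2)))))
      (N4_f y) (N4_g z) hf hg ?_ ?_ h
    · exact List.perm_middle.symm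
    · rw [List.map_cons, List.cons_append]
      refine List.Forall₂.cons ?_ (List.rel_append ?_ ?_)
      · rintro ⟨⟨x, t⟩, b⟩ hp
        obtain ⟨h1, h2⟩ := (hL x t b).1 hp
        rw [N4_f_apply, h2]
        simp [add_comm]
      · rw [List.map_map, List.forall₂_map_left_iff, List.forall₂_map_right_iff,
          List.forall₂_same]
        rintro a - ⟨⟨x, t⟩, b⟩ hp
        rfl
      · rw [List.map_map, List.forall₂_map_left_iff, List.forall₂_map_right_iff,
          List.forall₂_same]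
        rintro a - ⟨⟨x, t⟩, b⟩ hp
        rfl
  · intro h
    refine N4_iso_maps
      (l1 := (l.map (fun f => f.comp (LinearMap.fst (ZMod 2) U (ZMod 2)))).map
          (fun f => f.comp (LinearMap.fst (ZMod 2) (U × ZMod 2) V)) ++
        ((y.comp (LinearMap.fst (ZMod 2) U (ZMod 2)) +
          LinearMap.snd (ZMod 2) U (ZMod 2)).comp (LinearMap.fst (ZMod 2) (U × ZMod 2) V) ::
        m.map (fun f => f.comp (LinearMap.snd (ZMod 2) (U × ZMod 2) V))))
      (N4_g z) (N4_f y) hg hf ?_ ?_ h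
    · exact List.perm_middle
    · rw [List.map_cons]
      refine List.rel_append ?_ (List.Forall₂.cons ?_ ?_)
      · rw [List.map_map, List.forall₂_map_left_iff, List.forall₂_map_right_iff,
          List.forall₂_same]
        rintro a - ⟨x, ⟨b, t⟩⟩ hp
        rfl
      · rintro ⟨x, ⟨b, t⟩⟩ hp
        obtain ⟨h1, h2⟩ := (hR x t b).1 hp
        rw [N4_g_apply, h2]
        simp [add_comm]
      · rw [List.map_map, List.forall₂_map_left_iff, List.forall₂_map_right_iff,
          List.forall₂_same]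
        rintro a - ⟨x, ⟨b, t⟩⟩ hp
        rfl

end aux

theorem N4_y_self (i : ℕ) (s : Net) : (opS i s).y i = LinearMap.snd (ZMod 2) s.U (ZMod 2) :=
  if_pos rfl

theorem N4_y_ne {i j : ℕ} (h : j ≠ i) (s : Net) :
    (opS i s).y j = (s.y j).comp (LinearMap.fst (ZMod 2) s.U (ZMod 2)) :=
  if_neg h

/-- task N4 -/
theorem adjS (i : ℕ) (s c : Net) : G (opS i s) c ↔ G s (opS i c) := by
  refine N4_aux (s.y i) (c.y i) s.l c.l
    (fun x b => x ∈ s.W ∧ b ∈ c.W ∧ ∀ j, j ≠ i → s.y j x = c.y j b)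
    (gW (opS i s) c) (gW s (opS i c)) ?_ ?_
  · intro x t b
    constructor
    · rintro ⟨h1, h2, h3⟩
      refine ⟨⟨h1.1, h2, fun j hj => ?_⟩, ?_⟩
      · have h := h3 j
        rw [N4_y_ne hj] at h
        exact h
      · have h := h3 i
        rw [N4_y_self] at h
        exact h
    · rintro ⟨⟨h1, h2, h4⟩, h3⟩
      refine ⟨⟨h1, trivial⟩, h2, fun j => ?_⟩
      by_cases hj : j = i
      · subst hj
        rw [N4_y_self]
        exact h3
      · rw [N4_y_ne hj]
        exact h4 j hj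
  · intro x t b
    constructor
    · rintro ⟨h1, h2, h3⟩
      refine ⟨⟨h1, h2.1, fun j hj => ?_⟩, ?_⟩
      · have h := h3 j
        rw [N4_y_ne hj] at h
        exact h
      · have h := h3 i
        rw [N4_y_self] at h
        exact h.symm
    · rintro ⟨⟨h1, h2, h4⟩, h3⟩
      refine ⟨h1, ⟨h2, trivial⟩, fun j => ?_⟩
      by_cases hj : j = i
      · subst hj
        rw [N4_y_self]
        exact h3.symm
      · rw [N4_y_ne hj]
        exact h4 j hj

end H665R2.LV
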