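import Pool.Agent.H665R2.LV.NDefs
set_option autoImplicit false

namespace H665R2.LV

open Module

section n5

variable {U U' : Type} [AddCommGroup U] [Module (ZMod 2) U] [AddCommGroup U'] [Module (ZMod 2) U']

private theorem n5_f2 {A B C : Type} {R : A → B → Prop} {S : A → C → Prop} {T : B → C → Prop}
    (h : ∀ a b c, R a b → S a c → T b c) {l : List A} {l' : List B} {l'' : List C}
    (h1 : List.Forall₂ R l l') (h2 : List.Forall₂ S l l'') : List.Forall₂ T l' l'' := by
  induction h1 generalizing l'' with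
  | nil => cases h2; exact List.Forall₂.nil
  | cons hab _ ih =>
    cases h2 with
    | cons hac h3 => exact List.Forall₂.cons (h _ _ _ hab hac) (ih h3)

private theorem n5_m1 {A B C : Type} {R : B → C → Prop} (l : List A) (p : A → B) (q : A → C)
    (h : ∀ a, R (p a) (q a)) : List.Forall₂ R (l.map p) (l.map q) := by
  induction l with
  | nil => exact List.Forall₂.nil
  | cons a l ih => exact List.Forall₂.cons (h a) ih

private theorem n5_m2 {A D B C : Type} {R : B → C → Prop} (l : List A) (p : A → D) (p' : D → B)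
    (q : A → C) (h : ∀ a, R (p' (p a)) (q a)) :
    List.Forall₂ R ((l.map p).map p') (l.map q) := by
  induction l with
  | nil => exact List.Forall₂.nil
  | cons a l ih => exact List.Forall₂.cons (h a) ih

private theorem n5_m3 {A D B C : Type} {R : C → B → Prop} (l : List A) (p : A → D) (p' : D → B)
    (q : A → C) (h : ∀ a, R (q a) (p' (p a))) :
    List.Forall₂ R (l.map q) ((l.map p).map p') := by
  induction l with
  | nil => exact List.Forall₂.nil
  | cons a l ih => exact List.Forall₂.cons (h a) ih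

private theorem n5_iso {W : Submodule (ZMod 2) U} {W' : Submodule (ZMod 2) U'}
    {l : List (Dual (ZMod 2) U)} {l' : List (Dual (ZMod 2) U')} (f : U →ₗ[ZMod 2] U')
    (g : U' →ₗ[ZMod 2] U) (h1 : ∀ x ∈ W, f x ∈ W' ∧ g (f x) = x)
    (h2 : ∀ x ∈ W', g x ∈ W ∧ f (g x) = x)
    (h4 : List.Forall₂ (fun a b => ∀ x ∈ W, a x = b (f x)) l l')
    (hs : SDY W l) : SDY W' l' := by
  obtain ⟨B, _, _, _, W2, l2, φ, hF, hD⟩ := hs
  let e : W' ≃ₗ[ZMod 2] W := LinearEquiv.ofLinearMap
    (g.restrict (fun x hx => (h2 x hx).1)) (f.restrict (fun x hx => (h1 x hx).1))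
    (by
      ext x
      exact (h1 x.1 x.2).2)
    (by
      ext x
      exact (h2 x.1 x.2).2)
  refine ⟨B, inferInstance, inferInstance, inferInstance, W2, l2, e.trans φ, ?_, hD⟩
  refine n5_f2 ?_ h4 hF
  intro a b c hab hac x
  have h5 := hab (g x) (h2 x.1 x.2).1
  rw [(h2 x.1 x.2).2] at h5
  rw [← h5]
  exact hac (e x)

end n5

/-- task N5 -/
theorem adjN (i : ℕ) (s c : Net) : G (opN i s) c ↔ G s (opF i c) := by
  let f : (s.U × ZMod 2) × c.U →ₗ[ZMod 2] s.U × c.U :=
    ((LinearMap.fst (ZMod 2) s.U (ZMod 2)).comp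
      (LinearMap.fst (ZMod 2) (s.U × ZMod 2) c.U)).prod
      (LinearMap.snd (ZMod 2) (s.U × ZMod 2) c.U)
  let g : s.U × c.U →ₗ[ZMod 2] (s.U × ZMod 2) × c.U :=
    ((LinearMap.fst (ZMod 2) s.U c.U).prod
      ((c.y i).comp (LinearMap.snd (ZMod 2) s.U c.U))).prod
      (LinearMap.snd (ZMod 2) s.U c.U)
  have h1 : ∀ p ∈ gW (opN i s) c, f p ∈ gW s (opF i c) ∧ g (f p) = p := by
    rintro ⟨⟨x, t⟩, b⟩ ⟨hx, hb, hy⟩
    have hx' : x ∈ s.W := hx.1
    refine ⟨⟨hx', hb, ?_⟩, ?_⟩
    · intro j
      show s.y j x = (if j < i then c.y j else c.y (j + 1)) b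
      by_cases hj : j < i
      · rw [if_pos hj]
        have := hy j
        simp only [opN, if_pos hj] at this
        exact this
      · rw [if_neg hj]
        have := hy (j + 1)
        have e1 : ¬ (j + 1 < i) := by omega
        have e2 : ¬ (j + 1 = i) := by omega
        simp only [opN, if_neg e1, if_neg e2, Nat.add_sub_cancel] at this
        exact this
    · have := hy i
      simp only [opN, lt_irrefl, if_false, if_true] at this
      have h3 : t = c.y i b := this
      show (((x, c.y i b), b) : (s.U × ZMod 2) × c.U) = ((x, t), b)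
      rw [h3]
  have h2 : ∀ p ∈ gW s (opF i c), g p ∈ gW (opN i s) c ∧ f (g p) = p := by
    rintro ⟨x, b⟩ ⟨hx, hb, hy⟩
    refine ⟨⟨⟨hx, trivial⟩, hb, ?_⟩, rfl⟩
    intro j
    by_cases hj : j < i
    · have := hy j
      simp only [opF, if_pos hj] at this
      simp only [opN, if_pos hj]
      exact this
    · by_cases hj' : j = i
      · subst hj'
        simp only [opN, lt_irrefl, if_false, if_true]
        rfl
      · have := hy (j - 1)
        have e1 : ¬ (j - 1 < i) := by omega
        have e2 : j - 1 + 1 = j := by omega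
        simp only [opF, if_neg e1, e2] at this
        simp only [opN, if_neg hj, if_neg hj']
        exact this
  constructor
  · intro h
    refine n5_iso (W := gW (opN i s) c) (l := gl (opN i s) c) f g h1 h2 ?_ h
    unfold gl
    refine List.rel_append ?_ ?_
    · exact n5_m2 s.l _ _ _ (fun a x _ => rfl)
    · exact n5_m1 c.l _ _ (fun a x _ => rfl)
  · intro h
    refine n5_iso (W := gW s (opF i c)) (l := gl s (opF i c)) g f h2 h1 ?_ h
    unfold gl
    refine List.rel_append ?_ ?_
    · exact n5_m3 s.l _ _ _ (fun a x _ => rfl)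
    · exact n5_m1 c.l _ _ (fun a x _ => rfl)

end H665R2.LV
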