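import Pool.Agent.H665R2.LV.NDefs
set_option autoImplicit false

/-! Task A of helper665's planar version (by helper747): embedding the ambient space. -/

namespace H665R2.LV

open Module Polynomial

section sdy

variable {U U' : Type} [AddCommGroup U] [Module (ZMod 2) U] [AddCommGroup U'] [Module (ZMod 2) U']

theorem embed_inf (j : U →ₗ[ZMod 2] U') (r : U' →ₗ[ZMod 2] U) (hr : ∀ x, r (j x) = x)
    (W : Submodule (ZMod 2) U) (t : Dual (ZMod 2) U) :
    (W ⊓ LinearMap.ker t).map j = W.map j ⊓ LinearMap.ker (t.comp r) := by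
  ext x
  simp only [Submodule.mem_map, Submodule.mem_inf, LinearMap.mem_ker]
  constructor
  · rintro ⟨w, ⟨hw, ht⟩, rfl⟩
    refine ⟨⟨w, hw, rfl⟩, ?_⟩
    rw [LinearMap.comp_apply, hr]
    exact ht
  · rintro ⟨⟨w, hw, rfl⟩, ht⟩
    rw [LinearMap.comp_apply, hr] at ht
    exact ⟨w, ⟨hw, ht⟩, rfl⟩

theorem embed_priv (j : U →ₗ[ZMod 2] U') (r : U' →ₗ[ZMod 2] U) (hr : ∀ x, r (j x) = x)
    {W : Submodule (ZMod 2) U} {l : List (Dual (ZMod 2) U)} {t : Dual (ZMod 2) U}
    (h : Priv W l t) : Priv (W.map j) (l.map (fun f => f.comp r)) (t.comp r) := by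
  obtain ⟨e, he, ht, hl⟩ := h
  refine ⟨j e, Submodule.mem_map_of_mem he, ?_, ?_⟩
  · rw [LinearMap.comp_apply, hr]
    exact ht
  · intro f hf
    rw [List.mem_map] at hf
    obtain ⟨g, hg, rfl⟩ := hf
    rw [LinearMap.comp_apply, hr]
    exact hl g hg

/-- task A -/
theorem DY.embed (j : U →ₗ[ZMod 2] U') (r : U' →ₗ[ZMod 2] U) (hr : ∀ x, r (j x) = x)
    {W : Submodule (ZMod 2) U} {l : List (Dual (ZMod 2) U)} (h : DY W l) :
    DY (W.map j) (l.map (fun f => f.comp r)) := by
  have hinj : Function.Injective j := fun x y hxy => by rw [← hr x, ← hr y, hxy]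
  induction h with
  | nil W => exact DY.nil _
  | perm hp _ ih => exact DY.perm (hp.map _) ih
  | @iso W W' l l' φ hl _ ih =>
    refine DY.iso (((Submodule.equivMapOfInjective j hinj W).symm.trans φ).trans
      (Submodule.equivMapOfInjective j hinj W')) ?_ ih
    rw [List.forall₂_map_left_iff, List.forall₂_map_right_iff]
    refine hl.imp fun f g hfg x => ?_
    obtain ⟨w, rfl⟩ := (Submodule.equivMapOfInjective j hinj W).surjective x
    simp only [LinearEquiv.trans_apply, LinearEquiv.symm_apply_apply,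
      Submodule.coe_equivMapOfInjective_apply, LinearMap.comp_apply, hr]
    exact hfg w
  | @loop W l a ha _ ih =>
    rw [List.map_cons]
    refine DY.loop ?_ ih
    rintro x ⟨w, hw, rfl⟩
    rw [LinearMap.comp_apply, hr]
    exact ha w hw
  | par _ ih =>
    simp only [List.map_cons] at ih ⊢
    exact DY.par ih
  | free hp _ ih =>
    rw [embed_inf j r hr] at ih
    exact DY.free (embed_priv j r hr hp) ih
  | coloop hp _ ih =>
    rw [embed_inf j r hr] at ih
    rw [List.map_cons]
    exact DY.coloop (embed_priv j r hr hp) ih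
  | series hp _ ih =>
    rw [embed_inf j r hr] at ih
    have hp' := embed_priv j r hr hp
    simp only [List.map_cons, LinearMap.add_comp] at ih hp' ⊢
    exact DY.series hp' ih
  | toY hp _ ih =>
    rw [embed_inf j r hr] at ih
    have hp' := embed_priv j r hr hp
    simp only [List.map_cons, LinearMap.add_comp] at ih hp' ⊢
    exact DY.toY hp' ih
  | toDelta hp _ ih =>
    rw [embed_inf j r hr]
    have hp' := embed_priv j r hr hp
    simp only [List.map_cons, LinearMap.add_comp] at ih hp' ⊢
    exact DY.toDelta hp' ih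

end sdy

end H665R2.LV
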