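import Pool.Agent.H665R2.LV.NB1
import Pool.Agent.H665R2.LV.NB2
import Pool.Agent.H665R2.LV.NB3
import Pool.Agent.H665R2.LV.NB4
set_option autoImplicit false

/-! Task B6: one step of the sweep. -/

namespace H665R2.LV

namespace B6w

section sweep

variable {V : Type} [DecidableEq V]

theorem B5_pass {T : Finset V} {P : List V} {v : V} (A : List V) {Q : List V}
    {l : List (V × V)} (h : Sweep T (P ++ v :: (A ++ Q)) l) :
    ∃ l', Sweep T (P ++ v :: Q) l' ∧ (∀ e ∈ l, e ∈ l') ∧ ∀ a ∈ A, (v, a) ∈ l' := by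
  induction A generalizing l with
  | nil => exact ⟨l, h, fun e he => he, fun a ha => absurd ha List.not_mem_nil⟩
  | cons a A ih =>
    have h1 := Sweep.edge (P := P) (Q := A ++ Q) (a := v) (b := a) h
    have h2 : Sweep T ((P ++ [v]) ++ a :: (A ++ Q)) ((v, a) :: l) := by
      rw [List.append_assoc]; exact h1
    have h3 := Sweep.fgt h2
    have h4 : Sweep T (P ++ v :: (A ++ Q)) ((v, a) :: l) := by
      rw [List.append_assoc] at h3; exact h3
    obtain ⟨l', g1, g2, g3⟩ := ih h4
    refine ⟨l', g1, fun e he => g2 e (List.mem_cons_of_mem _ he), ?_⟩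
    intro b hb
    rcases List.mem_cons.mp hb with rfl | hb
    · exact g2 _ List.mem_cons_self
    · exact g3 b hb

theorem B5_rep {T : Finset V} {P : List V} {v : V} {Q : List V}
    {l : List (V × V)} (h : Sweep T (P ++ v :: Q) l) (k : ℕ) :
    Sweep T (P ++ List.replicate k v ++ Q) l := by
  cases k with
  | zero =>
    rw [List.replicate_zero, List.append_nil]
    exact Sweep.fgt h
  | succ k =>
    induction k with
    | zero =>
      rw [List.append_assoc]
      exact h
    | succ k ih =>
      rw [List.append_assoc, List.replicate_succ, List.cons_append] at ih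
      rw [List.append_assoc, List.replicate_succ, List.replicate_succ, List.cons_append,
        List.cons_append]
      exact Sweep.dup ih

/-- task B5 -/
theorem sweep_step {T : Finset V} {P A Q : List V} {l : List (V × V)} {v : V} (hv : v ∉ T)
    (h : Sweep T (P ++ A ++ Q) l) (k : ℕ) :
    ∃ l', Sweep (insert v T) (P ++ List.replicate k v ++ Q) l' ∧ (∀ e ∈ l, e ∈ l') ∧
      ∀ a ∈ A, (v, a) ∈ l' := by
  rw [List.append_assoc] at h
  obtain ⟨l', g1, g2, g3⟩ := B5_pass A (Sweep.new hv h)
  exact ⟨l', B5_rep g1 k, g2, g3⟩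

end sweep

end B6w

open B6w

variable {V : Type}

/-- task B6 -/
theorem inv_step [DecidableEq V] {p : V → ℝ × ℝ} {E : Finset (V × V)} (D : Drw p E)
    {T : Finset V} (hT : ∀ u ∈ T, ∀ w, w ∉ T → (p u).1 < (p w).1) {v : V} (hv : v ∉ T)
    (hm : ∀ w, w ∉ T → (p v).1 ≤ (p w).1) (h : Inv p E T) : Inv p E (insert v T) := by
  obtain ⟨L, l, hL, hpw, hS, hl⟩ := h
  have hxl : ∀ e ∈ L, (p e.1).1 < (p v).1 := fun e he => hT _ ((hL e).mp he).2.1 v hv
  have hxr : ∀ e ∈ L, (p v).1 ≤ (p e.2).1 := fun e he => hm _ ((hL e).mp he).2.2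
  have hpk : L.Pairwise (fun a b => hgt p a (p v).1 ≤ hgt p b (p v).1) := by
    refine hpw.imp_of_mem ?_
    intro a b ha hb hab
    exact below_right hab _ (hxl a ha) (hxl b hb) (hxr a ha) (hxr b hb)
  obtain ⟨P, A, Q, hPAQ, hP, hA, hQ⟩ := split_key (fun e => hgt p e (p v).1) (p v).2 L hpk
  have hkeyeq : ∀ e ∈ L, e.2 = v → hgt p e (p v).1 = (p v).2 := by
    intro e he hev
    have h1 := D.lr e ((hL e).mp he).1
    have := hgt_right p e h1
    rw [hev] at this
    exact this
  have hkeyne : ∀ e ∈ L, e.2 ≠ v → (p v).1 < (p e.2).1 ∧ hgt p e (p v).1 ≠ (p v).2 := by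
    intro e he hev
    have h1 : (p v).1 < (p e.2).1 := by
      refine lt_of_le_of_ne (hxr e he) ?_
      intro heq
      exact hev (D.inj _ _ heq).symm
    exact ⟨h1, D.vert e ((hL e).mp he).1 v (hxl e he) h1⟩
  have hmP : ∀ e ∈ P, e ∈ L := fun e he => by
    rw [hPAQ]; simp [he]
  have hmA : ∀ e ∈ A, e ∈ L := fun e he => by
    rw [hPAQ]; simp [he]
  have hmQ : ∀ e ∈ Q, e ∈ L := fun e he => by
    rw [hPAQ]; simp [he]
  have hAv : ∀ e ∈ A, e.2 = v := by
    intro e he
    by_contra hne
    exact (hkeyne e (hmA e he) hne).2 (hA e he)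
  have hPv : ∀ e ∈ P, e.2 ≠ v := by
    intro e he heq
    exact absurd (hkeyeq e (hmP e he) heq) (ne_of_lt (hP e he))
  have hQv : ∀ e ∈ Q, e.2 ≠ v := by
    intro e he heq
    exact absurd (hkeyeq e (hmQ e he) heq) (ne_of_gt (hQ e he))
  obtain ⟨B, hB, hBpw⟩ := sort_out D v
  have hBx : ∀ e ∈ B, (p v).1 < (p e.2).1 := by
    intro e he
    have h1 := (hB e).mp he
    have h2 := D.lr e h1.1
    rw [h1.2] at h2
    exact h2
  -- relation between old and new edges
  have hrel : ∀ e ∈ L, e.2 ≠ v → ∀ b ∈ B, ∃ X0 : ℝ, (p e.1).1 < X0 ∧ (p b.1).1 < X0 ∧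
      X0 < (p e.2).1 ∧ X0 < (p b.2).1 ∧ e ≠ b := by
    intro e he hev b hb
    have h1 := (hkeyne e he hev).1
    have h2 := hBx b hb
    have h3 : (p v).1 < min (p e.2).1 (p b.2).1 := lt_min h1 h2
    obtain ⟨X0, hX1, hX2⟩ := exists_between h3
    refine ⟨X0, lt_trans (hxl e he) hX1, ?_, lt_of_lt_of_le hX2 (min_le_left _ _),
      lt_of_lt_of_le hX2 (min_le_right _ _), ?_⟩
    · rw [((hB b).mp hb).2]; exact hX1
    · intro heb
      apply hv
      rw [← ((hB b).mp hb).2, ← heb]
      exact ((hL e).mp he).2.1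
  have hPB : ∀ e ∈ P, ∀ b ∈ B, Below p e b := by
    intro e he b hb
    obtain ⟨X0, x1, x2, x3, x4, hne⟩ := hrel e (hmP e he) (hPv e he) b hb
    rcases below_total D ((hL e).mp (hmP e he)).1 ((hB b).mp hb).1 hne X0 x1 x2 x3 x4 with h | h
    · exact h
    · exfalso
      have h5 := below_left h (p v).1 (by rw [((hB b).mp hb).2]) (le_of_lt (hxl e (hmP e he)))
        (hBx b hb) (hkeyne e (hmP e he) (hPv e he)).1
      have h6 : hgt p b (p v).1 = (p v).2 := by
        have := hgt_left p b
        rw [((hB b).mp hb).2] at this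
        exact this
      rw [h6] at h5
      exact absurd (hP e he) (not_lt.mpr h5)
  have hBQ : ∀ b ∈ B, ∀ e ∈ Q, Below p b e := by
    intro b hb e he
    obtain ⟨X0, x1, x2, x3, x4, hne⟩ := hrel e (hmQ e he) (hQv e he) b hb
    rcases below_total D ((hL e).mp (hmQ e he)).1 ((hB b).mp hb).1 hne X0 x1 x2 x3 x4 with h | h
    · exfalso
      have h5 := below_left h (p v).1 (le_of_lt (hxl e (hmQ e he))) (by rw [((hB b).mp hb).2])
        (hkeyne e (hmQ e he) (hQv e he)).1 (hBx b hb)
      have h6 : hgt p b (p v).1 = (p v).2 := by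
        have := hgt_left p b
        rw [((hB b).mp hb).2] at this
        exact this
      rw [h6] at h5
      exact absurd (hQ e he) (not_lt.mpr h5)
    · exact h
  have hS' : Sweep T (P.map Prod.fst ++ A.map Prod.fst ++ Q.map Prod.fst) l := by
    rw [hPAQ, List.map_append, List.map_append] at hS
    exact hS
  obtain ⟨l', hS2, hl1, hl2⟩ := sweep_step hv hS' B.length
  have hBrep : B.map Prod.fst = List.replicate B.length v := by
    rw [List.eq_replicate_iff]
    refine ⟨by simp, ?_⟩
    intro b hb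
    rw [List.mem_map] at hb
    obtain ⟨e, he, rfl⟩ := hb
    exact ((hB e).mp he).2
  refine ⟨P ++ B ++ Q, l', ?_, ?_, ?_, ?_⟩
  · intro e
    rw [List.mem_append, List.mem_append, Finset.mem_insert, Finset.mem_insert, hB]
    constructor
    · rintro ((h | h) | h)
      · have := (hL e).mp (hmP e h)
        exact ⟨this.1, Or.inr this.2.1, by
          rintro (h' | h')
          · exact hPv e h h'
          · exact this.2.2 h'⟩
      · refine ⟨h.1, Or.inl h.2, ?_⟩
        have hlt := D.lr e h.1
        rw [h.2] at hlt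
        rintro (h' | h')
        · rw [h'] at hlt
          exact lt_irrefl _ hlt
        · exact absurd (hT _ h' v hv) (not_lt.mpr (le_of_lt hlt))
      · have := (hL e).mp (hmQ e h)
        exact ⟨this.1, Or.inr this.2.1, by
          rintro (h' | h')
          · exact hQv e h h'
          · exact this.2.2 h'⟩
    · rintro ⟨h1, h2, h3⟩
      push Not at h3
      rcases h2 with h2 | h2
      · exact Or.inl (Or.inr ⟨h1, h2⟩)
      · have he : e ∈ L := (hL e).mpr ⟨h1, h2, h3.2⟩
        rw [hPAQ, List.mem_append, List.mem_append] at he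
        rcases he with (he | he) | he
        · exact Or.inl (Or.inl he)
        · exact absurd (hAv e he) h3.1
        · exact Or.inr he
  · rw [hPAQ, List.append_assoc, List.pairwise_append] at hpw
    obtain ⟨pP, pAQ, pPAQ⟩ := hpw
    rw [List.pairwise_append] at pAQ
    rw [List.append_assoc, List.pairwise_append, List.pairwise_append]
    refine ⟨pP, ⟨hBpw, pAQ.2.1, hBQ⟩, ?_⟩
    intro a ha b hb
    rw [List.mem_append] at hb
    rcases hb with hb | hb
    · exact hPB a ha b hb
    · exact pPAQ a ha b (List.mem_append_right _ hb)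
  · rw [List.map_append, List.map_append, hBrep]
    exact hS2
  · intro e he h1 h2
    rw [Finset.mem_insert] at h1 h2
    have hlt := D.lr e he
    rcases h1 with h1 | h1
    · exfalso
      rw [h1] at hlt
      rcases h2 with h2 | h2
      · rw [h2] at hlt
        exact lt_irrefl _ hlt
      · exact absurd (hT _ h2 v hv) (not_lt.mpr (le_of_lt hlt))
    · rcases h2 with h2 | h2
      · right
        have heL : e ∈ L := (hL e).mpr ⟨he, h1, by rw [h2]; exact hv⟩
        have heA : e ∈ A := by
          rw [hPAQ, List.mem_append, List.mem_append] at heL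
          rcases heL with (h' | h') | h'
          · exact absurd h2 (hPv e h')
          · exact h'
          · exact absurd h2 (hQv e h')
        have := hl2 e.1 (List.mem_map_of_mem heA)
        rw [Prod.swap, h2]
        exact this
      · rcases hl e he h1 h2 with h' | h'
        · exact Or.inl (hl1 e h')
        · exact Or.inr (hl1 _ h')

end H665R2.LV
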