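import Pool.Agent.H665R2.LV.NB6
set_option autoImplicit false

/-! Task B7: the invariant of the sweep holds for all vertices. -/

namespace H665R2.LV

variable {V : Type}

/-- task B7 -/
theorem inv_all [DecidableEq V] [Fintype V] {p : V → ℝ × ℝ} {E : Finset (V × V)} (D : Drw p E) :
    ∃ l, Sweep Finset.univ [] l ∧ ∀ e ∈ E, e ∈ l ∨ e.swap ∈ l := by
  have key : ∀ n : ℕ, n ≤ Fintype.card V → ∃ T : Finset V, T.card = n ∧
      (∀ u ∈ T, ∀ w, w ∉ T → (p u).1 < (p w).1) ∧ Inv p E T := by
    intro n
    induction n with
    | zero =>
      intro _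
      refine ⟨∅, rfl, ?_, ?_⟩
      · intro u hu
        exact absurd hu (Finset.notMem_empty u)
      · refine ⟨[], [], ?_, List.Pairwise.nil, Sweep.nil, ?_⟩
        · intro e
          constructor
          · intro h
            exact absurd h List.not_mem_nil
          · rintro ⟨_, h, _⟩
            exact absurd h (Finset.notMem_empty _)
        · intro e _ h
          exact absurd h (Finset.notMem_empty _)
    | succ n ih =>
      intro hn
      obtain ⟨T, hc, hT, hI⟩ := ih (by omega)
      have hne : (Finset.univ \ T).Nonempty := by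
        rw [Finset.sdiff_nonempty]
        intro hsub
        have := Finset.card_le_card hsub
        rw [Finset.card_univ] at this
        omega
      obtain ⟨v, hv, hmin⟩ := Finset.exists_min_image (Finset.univ \ T) (fun v => (p v).1) hne
      have hv' : v ∉ T := (Finset.mem_sdiff.mp hv).2
      have hm : ∀ w, w ∉ T → (p v).1 ≤ (p w).1 := fun w hw =>
        hmin w (Finset.mem_sdiff.mpr ⟨Finset.mem_univ w, hw⟩)
      refine ⟨insert v T, ?_, ?_, inv_step D hT hv' hm hI⟩
      · rw [Finset.card_insert_of_notMem hv', hc]
      · intro u hu w hw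
        rw [Finset.mem_insert] at hu
        rw [Finset.mem_insert] at hw
        push Not at hw
        rcases hu with rfl | hu
        · refine lt_of_le_of_ne (hm w hw.2) ?_
          intro heq
          exact hw.1 (D.inj _ _ heq).symm
        · exact hT u hu w hw.2
  obtain ⟨T, hc, -, L, l, hL, -, hS, hl⟩ := key (Fintype.card V) le_rfl
  have hT : T = Finset.univ := Finset.card_eq_iff_eq_univ T |>.mp hc
  subst hT
  have hL0 : L = [] := by
    rw [List.eq_nil_iff_forall_not_mem]
    intro e he
    exact ((hL e).mp he).2.2 (Finset.mem_univ _)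
  subst hL0
  exact ⟨l, hS, fun e he => hl e he (Finset.mem_univ _) (Finset.mem_univ _)⟩

end H665R2.LV
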