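import Pool.Agent.H665R2.LV.SwDefs
set_option autoImplicit false

/-! Task B8: generic shears of a plane drawing. -/

namespace H665R2.LV

variable {V : Type}

/-- the shear as a linear map -/
def nb8_sh (c : ℝ) : (ℝ × ℝ) →ₗ[ℝ] (ℝ × ℝ) where
  toFun z := (z.1 + c * z.2, z.2)
  map_add' x y := by
    ext
    · simp only [Prod.fst_add, Prod.snd_add]; ring
    · simp
  map_smul' a x := by
    ext
    · simp only [Prod.smul_fst, Prod.smul_snd, smul_eq_mul, RingHom.id_apply]; ring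
    · simp

theorem nb8_inj (c : ℝ) : Function.Injective (nb8_sh c) := by
  intro x y h
  have h' : (x.1 + c * x.2, x.2) = (y.1 + c * y.2, y.2) := h
  obtain ⟨h1, h2⟩ := Prod.ext_iff.1 h'
  simp only at h1 h2
  rw [h2] at h1
  exact Prod.ext (by linarith) h2

theorem nb8_seg (c : ℝ) (x y z : ℝ × ℝ) (h : z ∈ segment ℝ (nb8_sh c x) (nb8_sh c y)) :
    ∃ w ∈ segment ℝ x y, nb8_sh c w = z := by
  obtain ⟨a, b, ha, hb, hab, rfl⟩ := h
  refine ⟨a • x + b • y, ⟨a, b, ha, hb, hab, rfl⟩, ?_⟩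
  rw [map_add, map_smul, map_smul]

/-- task B8 -/
theorem generic_shear [Finite V] {p : V → ℝ × ℝ} (hp : Function.Injective p) :
    ∃ c : ℝ, ∀ u v, (p u).1 + c * (p u).2 = (p v).1 + c * (p v).2 → u = v := by
  obtain ⟨c, hc⟩ := (Set.finite_range (fun w : V × V =>
    ((p w.2).1 - (p w.1).1) / ((p w.1).2 - (p w.2).2))).exists_notMem
  refine ⟨c, fun u v h => ?_⟩
  by_cases h2 : (p u).2 = (p v).2
  · rw [h2] at h
    exact hp (Prod.ext (by linarith) h2)
  · exfalso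
    apply hc
    refine ⟨(u, v), ?_⟩
    have h3 : (p u).2 - (p v).2 ≠ 0 := sub_ne_zero.2 h2
    simp only
    rw [div_eq_iff h3]
    linarith

/-- task B8 -/
theorem shear_drawing {m : ℕ} {p : V → ℝ × ℝ} {s t : Fin m → V} (h : PlaneDrawing p s t)
    (c : ℝ) : PlaneDrawing (fun v => ((p v).1 + c * (p v).2, (p v).2)) s t := by
  have e : (fun v => ((p v).1 + c * (p v).2, (p v).2)) = fun v => nb8_sh c (p v) := rfl
  rw [e]
  refine ⟨fun u v huv => h.inj (nb8_inj c huv), ?_, ?_⟩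
  · intro j hj v hv
    obtain ⟨w, hw, hw2⟩ := nb8_seg c _ _ _ hv
    rw [nb8_inj c hw2] at hw
    exact h.vert j hj v hw
  · intro j k hj hk h1 h2 z hz hz'
    obtain ⟨w, hw, hw2⟩ := nb8_seg c _ _ _ hz
    obtain ⟨w', hw', hw2'⟩ := nb8_seg c _ _ _ hz'
    have hww : w' = w := nb8_inj c (hw2'.trans hw2.symm)
    rw [hww] at hw'
    obtain ⟨v, hv⟩ := h.cross j k hj hk h1 h2 w hw hw'
    exact ⟨v, by rw [← hw2, hv]⟩

end H665R2.LV
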