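import Pool.Agent.H665R2.LV.SwDefs
set_option autoImplicit false

namespace H665R2.LV

variable {V : Type}

theorem hgt_mem_seg (p : V → ℝ × ℝ) (e : V × V) (h : (p e.1).1 < (p e.2).1) (X : ℝ)
    (h1 : (p e.1).1 ≤ X) (h2 : X ≤ (p e.2).1) :
    ((X, hgt p e X) : ℝ × ℝ) ∈ segment ℝ (p e.1) (p e.2) := by
  have hd : 0 < (p e.2).1 - (p e.1).1 := by linarith
  have hd' : (p e.2).1 - (p e.1).1 ≠ 0 := ne_of_gt hd
  refine ⟨1 - (X - (p e.1).1) / ((p e.2).1 - (p e.1).1),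
    (X - (p e.1).1) / ((p e.2).1 - (p e.1).1), ?_, ?_, ?_, ?_⟩
  · rw [sub_nonneg, div_le_one hd]
    linarith
  · exact div_nonneg (by linarith) hd.le
  · ring
  · apply Prod.ext
    · simp only [Prod.fst_add, Prod.smul_fst, smul_eq_mul]
      field_simp
      ring
    · simp only [Prod.snd_add, Prod.smul_snd, smul_eq_mul, hgt]
      field_simp
      ring

/-- task B9 -/
theorem to_drw {m : ℕ} {p : V → ℝ × ℝ} {s t : Fin m → V} (h : PlaneDrawing p s t)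
    (hx : ∀ u v, (p u).1 = (p v).1 → u = v) :
    ∃ E : Finset (V × V), Drw p E ∧ ∀ j, s j ≠ t j → (s j, t j) ∈ E ∨ (t j, s j) ∈ E := by
  classical
  let E : Finset (V × V) :=
    ((Finset.univ.image (fun j => (s j, t j))) ∪ (Finset.univ.image (fun j => (t j, s j)))).filter
      (fun e => (p e.1).1 < (p e.2).1)
  have hE : ∀ e, e ∈ E ↔ (∃ j, (s j, t j) = e ∨ (t j, s j) = e) ∧ (p e.1).1 < (p e.2).1 := by
    intro e
    simp only [E, Finset.mem_filter, Finset.mem_union, Finset.mem_image, Finset.mem_univ, true_and,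
      exists_or]
  -- data of an edge
  have key : ∀ e ∈ E, ∃ j, ((s j = e.1 ∧ t j = e.2) ∨ (t j = e.1 ∧ s j = e.2)) ∧ s j ≠ t j ∧
      ∀ z, z ∈ segment ℝ (p e.1) (p e.2) → z ∈ segment ℝ (p (s j)) (p (t j)) := by
    intro e he
    obtain ⟨⟨j, hj⟩, hlt⟩ := (hE e).1 he
    rcases hj with hj | hj
    · subst hj
      refine ⟨j, Or.inl ⟨rfl, rfl⟩, ?_, fun z hz => hz⟩
      intro hst
      simp only [hst, lt_irrefl] at hlt
    · subst hj
      refine ⟨j, Or.inr ⟨rfl, rfl⟩, ?_, fun z hz => by rw [segment_symm]; exact hz⟩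
      intro hst
      simp only [hst, lt_irrefl] at hlt
  have hvert : ∀ e ∈ E, ∀ X, (p e.1).1 < X → X < (p e.2).1 → ∀ v,
      ((X, hgt p e X) : ℝ × ℝ) = p v → False := by
    intro e he X h1 h2 v hv
    obtain ⟨j, hj, hst, hseg⟩ := key e he
    have hmem := hseg _ (hgt_mem_seg p e (h1.trans h2) X h1.le h2.le)
    rw [hv] at hmem
    have hX : X = (p v).1 := by rw [← hv]
    rcases h.vert j hst v hmem with hv' | hv'
    · rcases hj with ⟨ha, hb⟩ | ⟨ha, hb⟩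
      · rw [hX, hv', ha] at h1
        exact lt_irrefl _ h1
      · rw [hX, hv', hb] at h2
        exact lt_irrefl _ h2
    · rcases hj with ⟨ha, hb⟩ | ⟨ha, hb⟩
      · rw [hX, hv', hb] at h2
        exact lt_irrefl _ h2
      · rw [hX, hv', ha] at h1
        exact lt_irrefl _ h1
  refine ⟨E, ⟨hx, fun e he => ((hE e).1 he).2, ?_, ?_⟩, ?_⟩
  · intro e he v h1 h2 hh
    exact hvert e he (p v).1 h1 h2 v (Prod.ext rfl hh)
  · intro e he e' he' hne X h1 h1' h2 h2' hh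
    obtain ⟨j, hj, hst, hseg⟩ := key e he
    obtain ⟨k, hk, hst', hseg'⟩ := key e' he'
    have hmem := hseg _ (hgt_mem_seg p e (h1.trans h2) X h1.le h2.le)
    have hmem' := hseg' _ (hgt_mem_seg p e' (h1'.trans h2') X h1'.le h2'.le)
    rw [← hh] at hmem'
    have hlt := ((hE e).1 he).2
    have hlt' := ((hE e').1 he').2
    have hA : ¬ (e.1 = e'.1 ∧ e.2 = e'.2) := fun hc => hne (Prod.ext hc.1 hc.2)
    have hB : ¬ (e.1 = e'.2 ∧ e.2 = e'.1) := by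
      rintro ⟨ha, hb⟩
      rw [ha, hb] at hlt
      exact lt_asymm hlt hlt'
    have hC : ¬ (s j = s k ∧ t j = t k) := by
      rintro ⟨ha, hb⟩
      rcases hj with ⟨a1, a2⟩ | ⟨a1, a2⟩ <;> rcases hk with ⟨b1, b2⟩ | ⟨b1, b2⟩
      · exact hA ⟨by rw [← a1, ← b1, ha], by rw [← a2, ← b2, hb]⟩
      · exact hB ⟨by rw [← a1, ← b2, ha], by rw [← a2, ← b1, hb]⟩
      · exact hB ⟨by rw [← a1, ← b2, hb], by rw [← a2, ← b1, ha]⟩
      · exact hA ⟨by rw [← a1, ← b1, hb], by rw [← a2, ← b2, ha]⟩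
    have hD : ¬ (s j = t k ∧ t j = s k) := by
      rintro ⟨ha, hb⟩
      rcases hj with ⟨a1, a2⟩ | ⟨a1, a2⟩ <;> rcases hk with ⟨b1, b2⟩ | ⟨b1, b2⟩
      · exact hB ⟨by rw [← a1, ← b2, ha], by rw [← a2, ← b1, hb]⟩
      · exact hA ⟨by rw [← a1, ← b1, ha], by rw [← a2, ← b2, hb]⟩
      · exact hA ⟨by rw [← a1, ← b1, hb], by rw [← a2, ← b2, ha]⟩
      · exact hB ⟨by rw [← a1, ← b2, hb], by rw [← a2, ← b1, ha]⟩
    obtain ⟨v, hv⟩ := h.cross j k hst hst' hC hD _ hmem hmem'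
    exact hvert e he X h1 h2 v hv
  · intro j hj
    rcases lt_trichotomy (p (s j)).1 (p (t j)).1 with hlt | heq | hlt
    · exact Or.inl ((hE _).2 ⟨⟨j, Or.inl rfl⟩, hlt⟩)
    · exact absurd (hx _ _ heq) hj
    · exact Or.inr ((hE _).2 ⟨⟨j, Or.inr rfl⟩, hlt⟩)

end H665R2.LV
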