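import Pool.Agent.H665R2.LV.SwDefs
import Pool.Agent.H665R2.LV.E3

set_option autoImplicit false

/-! Task C1: the rank function of the potentials is the graphic rank function. -/

namespace H665R2.LV

open Module

section graph

variable {V : Type}

theorem NC1_walk (G : SimpleGraph V) (x : V → ZMod 2) (h : ∀ u v, G.Adj u v → x u = x v)
    {u v : V} (p : G.Walk u v) : x u = x v := by
  induction p with
  | nil => rfl
  | cons hadj _ ih => exact (h _ _ hadj).trans ih

theorem NC1_add (a b : ZMod 2) : a + b = 0 ↔ a = b := by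
  revert a b
  decide

/-- task C1 -/
theorem rk_graph [Fintype V] {m : ℕ} (s t : Fin m → V) (A : Finset (Fin m)) :
    rk (⊤ : Submodule (ZMod 2) (V → ZMod 2)) (fun j => efn (s j, t j)) A = grk s t A := by
  classical
  set G := SimpleGraph.fromRel (fun u v => ∃ j ∈ A, s j = u ∧ t j = v) with hG
  have h1 := rk_eq (⊤ : Submodule (ZMod 2) (V → ZMod 2)) (fun j => efn (s j, t j)) A
  have hadj : ∀ j ∈ A, G.connectedComponentMk (s j) = G.connectedComponentMk (t j) := by
    intro j hj
    by_cases hst : s j = t j
    · rw [hst]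
    · refine SimpleGraph.ConnectedComponent.sound (SimpleGraph.Adj.reachable ?_)
      rw [hG, SimpleGraph.fromRel_adj]
      exact ⟨hst, Or.inl ⟨j, hj, rfl, rfl⟩⟩
  have h2 : Wc (⊤ : Submodule (ZMod 2) (V → ZMod 2)) (A.toList.map fun j => efn (s j, t j)) =
      LinearMap.range (LinearMap.funLeft (ZMod 2) (ZMod 2) G.connectedComponentMk) := by
    ext x
    rw [E3_mem_Wc]
    constructor
    · rintro ⟨-, hx⟩
      have hx' : ∀ j ∈ A, x (s j) = x (t j) := fun j hj => (NC1_add _ _).1 (hx j hj)
      have hx2 : ∀ u v, G.Adj u v → x u = x v := by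
        intro u v huv
        rw [hG, SimpleGraph.fromRel_adj] at huv
        rcases huv.2 with ⟨j, hj, h3, h4⟩ | ⟨j, hj, h3, h4⟩
        · rw [← h3, ← h4]
          exact hx' j hj
        · rw [← h3, ← h4]
          exact (hx' j hj).symm
      refine ⟨SimpleGraph.ConnectedComponent.lift x fun v w p _ => NC1_walk G x hx2 p, ?_⟩
      funext v
      rfl
    · rintro ⟨f, rfl⟩
      refine ⟨trivial, fun j hj => ?_⟩
      refine (NC1_add _ _).2 ?_
      show f (G.connectedComponentMk (s j)) = f (G.connectedComponentMk (t j))
      rw [hadj j hj]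
  have hsurj : Function.Surjective G.connectedComponentMk := fun c => by
    induction c using SimpleGraph.ConnectedComponent.ind with
    | _ v => exact ⟨v, rfl⟩
  have hfin : Finite G.ConnectedComponent := Finite.of_surjective _ hsurj
  have hft : Fintype G.ConnectedComponent := Fintype.ofFinite _
  have h3 : finrank (ZMod 2) (Wc (⊤ : Submodule (ZMod 2) (V → ZMod 2))
      (A.toList.map fun j => efn (s j, t j))) = ncomp s t A := by
    rw [h2, LinearMap.finrank_range_of_inj
      (LinearMap.funLeft_injective_of_surjective _ _ _ hsurj), Module.finrank_fintype_fun_eq_card,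
      ← Nat.card_eq_fintype_card]
    rfl
  have h4 : finrank (ZMod 2) (⊤ : Submodule (ZMod 2) (V → ZMod 2)) = Nat.card V := by
    rw [finrank_top, Module.finrank_fintype_fun_eq_card, Nat.card_eq_fintype_card]
  rw [h3, h4] at h1
  unfold grk
  omega

end graph

end H665R2.LV
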