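import Pool.Agent.H665R2.LV.SwDefs
import Pool.Agent.H665R2.LV.E3
set_option autoImplicit false

/-! Task C2: bicycle space of a graph. -/

namespace H665R2.LV

open Module

theorem C2_mem {m : ℕ} (N : Submodule (ZMod 2) (Fin m → ZMod 2)) (z : Fin m → ZMod 2) :
    z ∈ N.orthogonalBilin (Matrix.toBilin' (1 : Matrix (Fin m) (Fin m) (ZMod 2))) ↔
      ∀ n ∈ N, ∑ j, n j * z j = 0 := by
  rw [Submodule.mem_orthogonalBilin_iff]
  constructor
  · intro h n hn
    have h3 := h n hn
    rw [Matrix.toBilin'_apply', Matrix.one_mulVec] at h3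
    exact h3
  · intro h n hn
    rw [Matrix.toBilin'_apply', Matrix.one_mulVec]
    exact h n hn

theorem C2_orth {V : Type} [Fintype V] {m : ℕ} (s t : Fin m → V) :
    (cutSp (⊤ : Submodule (ZMod 2) (V → ZMod 2)) (fun j => efn (s j, t j))).orthogonalBilin
      (Matrix.toBilin' (1 : Matrix (Fin m) (Fin m) (ZMod 2))) = cycSp s t := by
  classical
  ext z
  rw [C2_mem]
  have hcyc : z ∈ cycSp s t ↔
      ∀ v, ∑ j, z j * ((if s j = v then 1 else 0) + (if t j = v then 1 else 0)) = 0 := by
    unfold cycSp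
    rw [Submodule.mem_mk]
    simp only [AddSubmonoid.mem_mk, AddSubsemigroup.mem_mk, Set.mem_ofPred_eq]
  rw [hcyc]
  constructor
  · intro h v
    have h1 := h (LinearMap.pi (fun j => efn (s j, t j)) (fun w => if w = v then 1 else 0))
      ⟨_, Submodule.mem_top, rfl⟩
    refine Eq.trans (Finset.sum_congr rfl fun j _ => ?_) h1
    rw [mul_comm]
    rfl
  · rintro h _ ⟨x, -, rfl⟩
    have h1 : ∀ j, LinearMap.pi (fun j => efn (s j, t j)) x j * z j =
        ∑ v, x v * (z j * ((if s j = v then 1 else 0) + (if t j = v then 1 else 0))) := by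
      intro j
      have h2 : LinearMap.pi (fun j => efn (s j, t j)) x j = x (s j) + x (t j) := rfl
      rw [h2]
      have h3 : ∀ v, x v * (z j * ((if s j = v then 1 else 0) + (if t j = v then 1 else 0))) =
          (if s j = v then x v * z j else 0) + (if t j = v then x v * z j else 0) := by
        intro v
        split_ifs <;> ring
      rw [Finset.sum_congr rfl fun v _ => h3 v, Finset.sum_add_distrib, Finset.sum_ite_eq,
        Finset.sum_ite_eq, if_pos (Finset.mem_univ _), if_pos (Finset.mem_univ _), add_mul]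
    rw [Finset.sum_congr rfl fun j _ => h1 j, Finset.sum_comm]
    refine Finset.sum_eq_zero fun v _ => ?_
    rw [← Finset.mul_sum, h v, mul_zero]

theorem C2_dbl {m : ℕ} (N : Submodule (ZMod 2) (Fin m → ZMod 2)) :
    (N.orthogonalBilin (Matrix.toBilin' (1 : Matrix (Fin m) (Fin m) (ZMod 2)))).orthogonalBilin
      (Matrix.toBilin' (1 : Matrix (Fin m) (Fin m) (ZMod 2))) = N := by
  have hnd : (Matrix.toBilin' (1 : Matrix (Fin m) (Fin m) (ZMod 2))).Nondegenerate :=
    LinearMap.BilinForm.nondegenerate_toBilin'_of_det_ne_zero' _ (by simp)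
  have hrefl : (Matrix.toBilin' (1 : Matrix (Fin m) (Fin m) (ZMod 2))).IsRefl := by
    intro x y h
    rw [Matrix.toBilin'_apply', Matrix.one_mulVec] at h ⊢
    rw [dotProduct_comm]
    exact h
  exact LinearMap.BilinForm.orthogonal_orthogonal hnd hrefl N

/-- task C2 -/
theorem bic_graph {V : Type} [Fintype V] {m : ℕ} (s t : Fin m → V) :
    bic (⊤ : Submodule (ZMod 2) (V → ZMod 2)) (fun j => efn (s j, t j)) =
      cycSp s t ⊓
        (cycSp s t).orthogonalBilin (Matrix.toBilin' (1 : Matrix (Fin m) (Fin m) (ZMod 2))) := by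
  unfold bic
  rw [← C2_orth s t, C2_dbl, inf_comm]

end H665R2.LV
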