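import Pool.Agent.H665R2.LV.Defs
set_option autoImplicit false

/-! Stable Delta-Y reducibility (ambient space free) and planar network pieces. -/

namespace H665R2.LV

open Module

/-- stably Delta-Y reducible: isomorphic to a Delta-Y reducible configuration in some
finite-dimensional ambient space -/
def SDY {U : Type} [AddCommGroup U] [Module (ZMod 2) U] (W : Submodule (ZMod 2) U)
    (l : List (Dual (ZMod 2) U)) : Prop :=
  ∃ (B : Type) (_ : AddCommGroup B) (_ : Module (ZMod 2) B) (_ : FiniteDimensional (ZMod 2) B)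
    (W' : Submodule (ZMod 2) B) (l' : List (Dual (ZMod 2) B)) (φ : W ≃ₗ[ZMod 2] W'),
    List.Forall₂ (fun f g => ∀ x : W, f x = g (φ x)) l l' ∧ DY W' l'

/-- a planar network piece: potentials `W`, boundary potentials `y 0, y 1, ...`, edges `l` -/
structure Net : Type 1 where
  U : Type
  [ag : AddCommGroup U]
  [mo : Module (ZMod 2) U]
  W : Submodule (ZMod 2) U
  y : ℕ → Dual (ZMod 2) U
  l : List (Dual (ZMod 2) U)

attribute [instance] Net.ag Net.mo

/-- glued space: the boundary potentials of the two pieces agree -/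
def gW (s c : Net) : Submodule (ZMod 2) (s.U × c.U) where
  carrier := {p | p.1 ∈ s.W ∧ p.2 ∈ c.W ∧ ∀ i, s.y i p.1 = c.y i p.2}
  add_mem' := by
    rintro p q ⟨h1, h2, h3⟩ ⟨k1, k2, k3⟩
    refine ⟨s.W.add_mem h1 k1, c.W.add_mem h2 k2, fun i => ?_⟩
    rw [Prod.fst_add, Prod.snd_add, map_add, map_add, h3, k3]
  zero_mem' := ⟨s.W.zero_mem, c.W.zero_mem, fun i => by simp⟩
  smul_mem' := by
    rintro a p ⟨h1, h2, h3⟩
    refine ⟨s.W.smul_mem a h1, c.W.smul_mem a h2, fun i => ?_⟩
    rw [Prod.smul_fst, Prod.smul_snd, map_smul, map_smul, h3]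

/-- edges of the glued network -/
def gl (s c : Net) : List (Dual (ZMod 2) (s.U × c.U)) :=
  s.l.map (fun f => f.comp (LinearMap.fst (ZMod 2) s.U c.U)) ++
  c.l.map (fun f => f.comp (LinearMap.snd (ZMod 2) s.U c.U))

/-- the glued network is stably reducible -/
def G (s c : Net) : Prop := SDY (gW s c) (gl s c)

/-- `s ≤ s'`: wherever `s'` is reducible, so is `s` -/
instance : Preorder Net where
  le s s' := ∀ c : Net, G s' c → G s c
  le_refl _ _ h := h
  le_trans _ _ _ h k c hc := h c (k c hc)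

theorem Net.le_def {s s' : Net} : s ≤ s' ↔ ∀ c : Net, G s' c → G s c := Iff.rfl

/-- add an edge between the boundary vertices `i` and `i + 1` -/
def opE (i : ℕ) (s : Net) : Net := { s with l := (s.y i + s.y (i + 1)) :: s.l }

/-- add a pendant edge at the boundary vertex `i`, its new end replaces it -/
def opS (i : ℕ) (s : Net) : Net where
  U := s.U × ZMod 2
  W := s.W.prod ⊤
  y := fun j => if j = i then LinearMap.snd (ZMod 2) s.U (ZMod 2)
    else (s.y j).comp (LinearMap.fst (ZMod 2) s.U (ZMod 2))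
  l := ((s.y i).comp (LinearMap.fst (ZMod 2) s.U (ZMod 2)) + LinearMap.snd (ZMod 2) s.U (ZMod 2)) ::
    s.l.map (fun f => f.comp (LinearMap.fst (ZMod 2) s.U (ZMod 2)))

/-- insert a new isolated boundary vertex at position `i` -/
def opN (i : ℕ) (s : Net) : Net where
  U := s.U × ZMod 2
  W := s.W.prod ⊤
  y := fun j => if j < i then (s.y j).comp (LinearMap.fst (ZMod 2) s.U (ZMod 2))
    else if j = i then LinearMap.snd (ZMod 2) s.U (ZMod 2)
    else (s.y (j - 1)).comp (LinearMap.fst (ZMod 2) s.U (ZMod 2))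
  l := s.l.map (fun f => f.comp (LinearMap.fst (ZMod 2) s.U (ZMod 2)))

/-- forget the boundary vertex `i` -/
def opF (i : ℕ) (s : Net) : Net := { s with y := fun j => if j < i then s.y j else s.y (j + 1) }

/-- duplicate the boundary vertex `i` -/
def opD (i : ℕ) (s : Net) : Net := { s with y := fun j => if j ≤ i then s.y j else s.y (j - 1) }

/-- identify the boundary vertices `i` and `i + 1` -/
def opM (i : ℕ) (s : Net) : Net :=
  { s with W := s.W ⊓ LinearMap.ker (s.y i + s.y (i + 1)),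
           y := fun j => if j ≤ i then s.y j else s.y (j + 1) }

/-- isomorphic pieces -/
def NIso (s s' : Net) : Prop :=
  ∃ (f : s.U →ₗ[ZMod 2] s'.U) (g : s'.U →ₗ[ZMod 2] s.U),
    (∀ x ∈ s.W, f x ∈ s'.W ∧ g (f x) = x) ∧ (∀ x ∈ s'.W, g x ∈ s.W ∧ f (g x) = x) ∧
    (∀ i, ∀ x ∈ s.W, s.y i x = s'.y i (f x)) ∧
    ∃ l1, List.Perm l1 s'.l ∧ List.Forall₂ (fun a b => ∀ x ∈ s.W, a x = b (f x)) s.l l1

/-- a private vertex for a piece -/
def NPriv {U : Type} [AddCommGroup U] [Module (ZMod 2) U] (W : Submodule (ZMod 2) U)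
    (y : ℕ → Dual (ZMod 2) U) (l : List (Dual (ZMod 2) U)) (t : Dual (ZMod 2) U) : Prop :=
  ∃ e ∈ W, t e = 1 ∧ (∀ f ∈ l, f e = 0) ∧ ∀ i, y i e = 0

/-- crossing at strand position `j` -/
def sg (j : ℕ) (s : Net) : Net := if j % 2 = 0 then opS (j / 2) s else opE (j / 2) s
/-- cup at strand position `j` -/
def cup (j : ℕ) (s : Net) : Net := if j % 2 = 0 then opN (j / 2) s else opD (j / 2) s
/-- cap at strand position `j` -/
def cap (j : ℕ) (s : Net) : Net := if j % 2 = 0 then opF (j / 2) s else opM (j / 2) s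

end H665R2.LV
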