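import Pool.Agent.H665R2.LV.NDefs
import Pool.Agent.H665R2.LV.Main3
set_option autoImplicit false

/-! Task E: stably Delta-Y reducible configurations are good. -/

namespace H665R2.LV

open Polynomial Module

section NE

variable {U : Type} [AddCommGroup U] [Module (ZMod 2) U]
variable {U' : Type} [AddCommGroup U'] [Module (ZMod 2) U']

/-- restriction of an isomorphism to hyperplanes, different ambient spaces -/
def NE_res {W : Submodule (ZMod 2) U} {W' : Submodule (ZMod 2) U'} {a : Module.Dual (ZMod 2) U}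
    {a' : Module.Dual (ZMod 2) U'} (φ : W ≃ₗ[ZMod 2] W') (hd : ∀ x : W, a x = a' (φ x)) :
    (W ⊓ LinearMap.ker a : Submodule (ZMod 2) U) ≃ₗ[ZMod 2]
      (W' ⊓ LinearMap.ker a' : Submodule (ZMod 2) U') where
  toFun x := ⟨φ ⟨x, x.2.1⟩, (φ ⟨x, x.2.1⟩).2, by
    have h := hd ⟨x, x.2.1⟩
    have h2 : a (x : U) = 0 := x.2.2
    show a' _ = 0
    rw [← h]
    exact h2⟩
  invFun y := ⟨φ.symm ⟨y, y.2.1⟩, (φ.symm ⟨y, y.2.1⟩).2, by
    have h := hd (φ.symm ⟨y, y.2.1⟩)
    rw [LinearEquiv.apply_symm_apply] at h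
    have h2 : a' (y : U') = 0 := y.2.2
    show a _ = 0
    rw [h]
    exact h2⟩
  map_add' x y := by
    apply Subtype.ext
    have h : ((φ (⟨(x : U), x.2.1⟩ + ⟨(y : U), y.2.1⟩) : W') : U') =
        ((φ ⟨(x : U), x.2.1⟩ + φ ⟨(y : U), y.2.1⟩ : W') : U') := by rw [map_add]
    exact h
  map_smul' c x := by
    apply Subtype.ext
    have h : ((φ (c • ⟨(x : U), x.2.1⟩) : W') : U') =
        ((c • φ ⟨(x : U), x.2.1⟩ : W') : U') := by rw [map_smul]
    exact h
  left_inv x := by
    apply Subtype.ext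
    show ((φ.symm ⟨(φ ⟨x, _⟩ : W'), _⟩ : W) : U) = x
    rw [Subtype.coe_eta, LinearEquiv.symm_apply_apply]
  right_inv y := by
    apply Subtype.ext
    show ((φ ⟨(φ.symm ⟨y, _⟩ : W), _⟩ : W') : U') = y
    rw [Subtype.coe_eta, LinearEquiv.apply_symm_apply]

theorem NE_F_iso {W : Submodule (ZMod 2) U} {W' : Submodule (ZMod 2) U'}
    {l : List (Module.Dual (ZMod 2) U)} {l' : List (Module.Dual (ZMod 2) U')}
    (φ : W ≃ₗ[ZMod 2] W')
    (h : List.Forall₂ (fun f g => ∀ x : W, f x = g (φ x)) l l') : F W l = F W' l' := by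
  induction l generalizing W W' l' with
  | nil =>
    cases h
    simp only [F]
    rw [φ.finrank_eq]
  | cons a l ih =>
    cases h with
    | @cons _ a' _ l'' hd tl =>
      by_cases hv : Van W a
      · have hv' : Van W' a' := by
          intro y hy
          have h1 := hd (φ.symm ⟨y, hy⟩)
          rw [LinearEquiv.apply_symm_apply] at h1
          have h2 : a' y = a (φ.symm ⟨y, hy⟩ : W) := h1.symm
          rw [h2]
          exact hv _ (φ.symm ⟨y, hy⟩).2
        rw [TF_pos l hv, TF_pos l'' hv', ih φ tl]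
      · have hv' : ¬ Van W' a' := by
          intro h1
          apply hv
          intro x hx
          have h2 := hd ⟨x, hx⟩
          have h3 : a x = a' (φ ⟨x, hx⟩ : W') := h2
          rw [h3]
          exact h1 _ (φ ⟨x, hx⟩).2
        rw [TF_neg l hv, TF_neg l'' hv', ih φ tl]
        congr 1
        refine ih (NE_res φ hd) ?_
        refine tl.imp fun f g hfg x => ?_
        exact hfg ⟨x, x.2.1⟩

theorem NE_B_iso {W : Submodule (ZMod 2) U} {W' : Submodule (ZMod 2) U'}
    {l : List (Module.Dual (ZMod 2) U)} {l' : List (Module.Dual (ZMod 2) U')}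
    (φ : W ≃ₗ[ZMod 2] W')
    (h : List.Forall₂ (fun f g => ∀ x : W, f x = g (φ x)) l l') (x y : W) :
    B l x y = B l' (φ x) (φ y) := by
  induction h with
  | nil => rfl
  | cons hab _ ih => rw [TK_B_cons, TK_B_cons, hab x, hab y, ih]

theorem NE_kap_iso {W : Submodule (ZMod 2) U} {W' : Submodule (ZMod 2) U'}
    {l : List (Module.Dual (ZMod 2) U)} {l' : List (Module.Dual (ZMod 2) U')}
    (φ : W ≃ₗ[ZMod 2] W')
    (h : List.Forall₂ (fun f g => ∀ x : W, f x = g (φ x)) l l') : kap W l = kap W' l' := by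
  unfold kap
  have e1 := Submodule.comapSubtypeEquivOfLe (TK_rad_le W l)
  have e2 := Submodule.comapSubtypeEquivOfLe (TK_rad_le W' l')
  have h3 : ((rad W l).comap W.subtype).map (φ : W →ₗ[ZMod 2] W') =
      (rad W' l').comap W'.subtype := by
    ext z
    constructor
    · rintro ⟨x, hx, rfl⟩
      refine ⟨(φ x).2, fun y hy => ?_⟩
      have h4 := NE_B_iso φ h x (φ.symm ⟨y, hy⟩)
      rw [LinearEquiv.apply_symm_apply] at h4
      have h5 : B l x (φ.symm ⟨y, hy⟩ : W) = 0 := hx.2 _ (φ.symm ⟨y, hy⟩).2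
      rw [h5] at h4
      exact h4.symm
    · intro hz
      refine ⟨φ.symm z, ⟨(φ.symm z).2, fun y hy => ?_⟩, by simp⟩
      have h4 := NE_B_iso φ h (φ.symm z) ⟨y, hy⟩
      rw [LinearEquiv.apply_symm_apply] at h4
      have h5 : B l' z (φ ⟨y, hy⟩ : W') = 0 := hz.2 _ (φ ⟨y, hy⟩).2
      rw [h5] at h4
      exact h4
  have e3 := φ.submoduleMap ((rad W l).comap W.subtype)
  rw [← e1.finrank_eq, ← e2.finrank_eq, ← h3]
  exact e3.finrank_eq

end NE

variable {U : Type} [AddCommGroup U] [Module (ZMod 2) U]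

/-- task E -/
theorem SDY.good [FiniteDimensional (ZMod 2) U] {W : Submodule (ZMod 2) U}
    {l : List (Dual (ZMod 2) U)} (hs : SDY W l) : F W l ∈ I ^ kap W l := by
  obtain ⟨B', _, _, _, W', l', φ, h, hd⟩ := hs
  rw [NE_F_iso φ h, NE_kap_iso φ h]
  exact hd.good

end H665R2.LV
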