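import Pool.Agent.H665R2.LV.NDefs
set_option autoImplicit false

/-! Task I1 of helper665's planar version (by helper747): commutation isomorphisms. -/

namespace H665R2.LV

open Module Polynomial

section unbI1

variable {U : Type} [AddCommGroup U] [Module (ZMod 2) U]

/-- swap the two new coordinates -/
def swpI1 (U : Type) [AddCommGroup U] [Module (ZMod 2) U] :
    ((U × ZMod 2) × ZMod 2) →ₗ[ZMod 2] ((U × ZMod 2) × ZMod 2) where
  toFun x := ((x.1.1, x.2), x.1.2)
  map_add' _ _ := rfl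
  map_smul' _ _ := rfl

theorem swpI1_apply (x : (U × ZMod 2) × ZMod 2) : swpI1 U x = ((x.1.1, x.2), x.1.2) := rfl

theorem swpI1_forall (l : List (Dual (ZMod 2) U)) (W : Submodule (ZMod 2) ((U × ZMod 2) × ZMod 2)) :
    List.Forall₂ (fun (a b : Dual (ZMod 2) ((U × ZMod 2) × ZMod 2)) => ∀ x ∈ W, a x = b (swpI1 U x))
      ((l.map (fun f => f.comp (LinearMap.fst (ZMod 2) U (ZMod 2)))).map
        (fun f => f.comp (LinearMap.fst (ZMod 2) (U × ZMod 2) (ZMod 2))))
      ((l.map (fun f => f.comp (LinearMap.fst (ZMod 2) U (ZMod 2)))).map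
        (fun f => f.comp (LinearMap.fst (ZMod 2) (U × ZMod 2) (ZMod 2)))) := by
  simp only [List.map_map]
  rw [List.forall₂_map_left_iff, List.forall₂_map_right_iff]
  exact List.forall₂_same.2 fun _ _ _ _ => rfl

end unbI1

/-- task I1 -/
theorem i_SS {a b : ℕ} (h : a < b) (s : Net) : NIso (opS a (opS b s)) (opS b (opS a s)) := by
  have hab : a ≠ b := by omega
  have e1 : ∀ j (x : (s.U × ZMod 2) × ZMod 2), (opS a (opS b s)).y j x =
      if j = a then x.2 else if j = b then x.1.2 else s.y j x.1.1 := by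
    intro j x
    simp only [opS]
    split_ifs <;> rfl
  have e2 : ∀ j (x : (s.U × ZMod 2) × ZMod 2), (opS b (opS a s)).y j x =
      if j = b then x.2 else if j = a then x.1.2 else s.y j x.1.1 := by
    intro j x
    simp only [opS]
    split_ifs <;> rfl
  refine ⟨swpI1 s.U, swpI1 s.U, ?_, ?_, ?_, ?_⟩
  · rintro x hx
    refine ⟨?_, rfl⟩
    have h1 : x.1.1 ∈ s.W := hx.1.1
    exact ⟨⟨h1, trivial⟩, trivial⟩
  · rintro x hx
    refine ⟨?_, rfl⟩
    have h1 : x.1.1 ∈ s.W := hx.1.1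
    exact ⟨⟨h1, trivial⟩, trivial⟩
  · intro i x _
    refine (e1 i x).trans (Eq.trans ?_ (e2 i (swpI1 s.U x)).symm)
    change (if i = a then x.2 else if i = b then x.1.2 else (s.y i) x.1.1) =
      if i = b then x.1.2 else if i = a then x.2 else (s.y i) x.1.1
    by_cases h1 : i = a
    · rw [if_pos h1, if_neg (by omega), if_pos h1]
    · rw [if_neg h1]
      by_cases h2 : i = b
      · rw [if_pos h2, if_pos h2]
      · rw [if_neg h2, if_neg h2, if_neg h1]
  · refine ⟨_, List.Perm.swap _ _ _, ?_⟩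
    refine List.Forall₂.cons ?_ (List.Forall₂.cons ?_ ?_)
    · intro x _
      simp only [opS, if_neg hab]
      rfl
    · intro x _
      simp only [opS, if_neg hab.symm]
      rfl
    · exact swpI1_forall s.l _

/-- task I1 -/
theorem i_SE {a b : ℕ} (h : a < b) (s : Net) : NIso (opS a (opE b s)) (opE b (opS a s)) := by
  have h1 : b ≠ a := by omega
  have h2 : b + 1 ≠ a := by omega
  refine ⟨LinearMap.id, LinearMap.id, fun x hx => ⟨hx, rfl⟩, fun x hx => ⟨hx, rfl⟩,
    fun i x _ => rfl, ?_⟩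
  refine ⟨_, List.Perm.swap _ _ _, ?_⟩
  refine List.Forall₂.cons ?_ (List.Forall₂.cons ?_ ?_)
  · intro x _
    rfl
  · intro x _
    simp only [opS, if_neg h1, if_neg h2]
    rfl
  · exact List.forall₂_same.2 fun _ _ _ _ => rfl

/-- task I1 -/
theorem i_ES {a b : ℕ} (h : a + 1 < b) (s : Net) : NIso (opE a (opS b s)) (opS b (opE a s)) := by
  have h1 : a ≠ b := by omega
  have h2 : a + 1 ≠ b := by omega
  refine ⟨LinearMap.id, LinearMap.id, fun x hx => ⟨hx, rfl⟩, fun x hx => ⟨hx, rfl⟩,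
    fun i x _ => rfl, ?_⟩
  refine ⟨_, List.Perm.swap _ _ _, ?_⟩
  refine List.Forall₂.cons ?_ (List.Forall₂.cons ?_ ?_)
  · intro x _
    simp only [opS, if_neg h1, if_neg h2]
    rfl
  · intro x _
    rfl
  · exact List.forall₂_same.2 fun _ _ _ _ => rfl

/-- task I1 -/
theorem i_EE (a b : ℕ) (s : Net) : NIso (opE a (opE b s)) (opE b (opE a s)) := by
  refine ⟨LinearMap.id, LinearMap.id, fun x hx => ⟨hx, rfl⟩, fun x hx => ⟨hx, rfl⟩,
    fun i x _ => rfl, ?_⟩
  exact ⟨_, List.Perm.swap _ _ _, List.forall₂_same.2 fun _ _ _ _ => rfl⟩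

end H665R2.LV
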