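import Pool.Agent.H665R2.LV.NDefs
set_option autoImplicit false

/-! Isomorphisms of network pieces, part 2. -/

namespace H665R2.LV

open Module

section net

/-- swap of the two new coordinates -/
def swp (U : Type) [AddCommGroup U] [Module (ZMod 2) U] :
    ((U × ZMod 2) × ZMod 2) →ₗ[ZMod 2] ((U × ZMod 2) × ZMod 2) where
  toFun p := ((p.1.1, p.2), p.1.2)
  map_add' _ _ := rfl
  map_smul' _ _ := rfl

theorem i2_map {U V : Type} [AddCommGroup U] [Module (ZMod 2) U] [AddCommGroup V]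
    [Module (ZMod 2) V] {T : Type} (W : Submodule (ZMod 2) U) (f : U →ₗ[ZMod 2] V) (l : List T)
    (A : T → Dual (ZMod 2) U) (B : T → Dual (ZMod 2) V) (h : ∀ t ∈ l, ∀ x ∈ W, A t x = B t (f x)) :
    List.Forall₂ (fun a b => ∀ x ∈ W, a x = b (f x)) (l.map A) (l.map B) := by
  induction l with
  | nil => exact List.Forall₂.nil
  | cons t l ih =>
    exact List.Forall₂.cons (h t (List.mem_cons_self ..))
      (ih fun t' ht' => h t' (List.mem_cons_of_mem _ ht'))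

theorem i2_map2 {U V : Type} [AddCommGroup U] [Module (ZMod 2) U] [AddCommGroup V]
    [Module (ZMod 2) V] {T T1 T2 : Type} (W : Submodule (ZMod 2) U) (f : U →ₗ[ZMod 2] V)
    (l : List T) (A1 : T → T1) (B1 : T → T2)
    (A : T1 → Dual (ZMod 2) U) (B : T2 → Dual (ZMod 2) V)
    (h : ∀ t ∈ l, ∀ x ∈ W, A (A1 t) x = B (B1 t) (f x)) :
    List.Forall₂ (fun a b => ∀ x ∈ W, a x = b (f x)) ((l.map A1).map A) ((l.map B1).map B) := by
  rw [List.map_map, List.map_map]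
  exact i2_map W f l _ _ h

/-- task I2 -/
theorem i_SN (a : ℕ) (s : Net) : NIso (opS (a + 1) (opN 0 s)) (opN 0 (opS a s)) := by
  refine ⟨swp s.U, swp s.U, ?_, ?_, ?_, _, List.Perm.refl _, ?_⟩
  · rintro ⟨⟨x, t⟩, u⟩ hx
    exact ⟨⟨⟨hx.1.1, trivial⟩, trivial⟩, rfl⟩
  · rintro ⟨⟨x, t⟩, u⟩ hx
    exact ⟨⟨⟨hx.1.1, trivial⟩, trivial⟩, rfl⟩
  · rintro j ⟨⟨x, t⟩, u⟩ _
    rcases j with _ | j
    · rfl
    · by_cases hj : j = a
      · subst hj
        simp only [opS, opN, if_true, Nat.not_lt_zero, if_false, Nat.add_sub_cancel,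
          Nat.succ_ne_zero]
        rfl
      · have hj' : ¬ j + 1 = a + 1 := by omega
        simp only [opS, opN, Nat.not_lt_zero, if_false, Nat.add_sub_cancel,
          Nat.succ_ne_zero, hj, hj']
        rfl
  · refine List.Forall₂.cons ?_ ?_
    · rintro ⟨⟨x, t⟩, u⟩ _
      rfl
    · refine i2_map2 ((s.W.prod ⊤).prod ⊤) (swp s.U) s.l _ _ _ _ ?_
      rintro f _ ⟨⟨x, t⟩, u⟩ _
      rfl

/-- task I2 -/
theorem i_EN (a : ℕ) (s : Net) : NIso (opE (a + 1) (opN 0 s)) (opN 0 (opE a s)) := by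
  refine ⟨LinearMap.id, LinearMap.id, fun x hx => ⟨hx, rfl⟩, fun x hx => ⟨hx, rfl⟩, ?_, _,
    List.Perm.refl _, ?_⟩
  · intro j x _
    rfl
  · refine List.Forall₂.cons ?_ ?_
    · rintro ⟨x, t⟩ _
      rfl
    · refine i2_map (U := s.U × ZMod 2) (V := s.U × ZMod 2) (s.W.prod ⊤) LinearMap.id s.l _ _ ?_
      intro f _ x _
      rfl

/-- task I2 -/
theorem i_FS (a : ℕ) (s : Net) : NIso (opF 0 (opS (a + 1) s)) (opS a (opF 0 s)) := by
  refine ⟨LinearMap.id, LinearMap.id, fun x hx => ⟨hx, rfl⟩, fun x hx => ⟨hx, rfl⟩, ?_, _,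
    List.Perm.refl _, ?_⟩
  · rintro j ⟨x, t⟩ _
    by_cases hj : j = a
    · subst hj
      simp only [opS, opF, if_true, Nat.not_lt_zero, if_false]
      rfl
    · have hj' : ¬ j + 1 = a + 1 := by omega
      simp only [opS, opF, Nat.not_lt_zero, if_false, hj, hj']
      rfl
  · refine List.Forall₂.cons ?_ ?_
    · rintro ⟨x, t⟩ _
      rfl
    · refine i2_map (U := s.U × ZMod 2) (V := s.U × ZMod 2) (s.W.prod ⊤) LinearMap.id s.l _ _ ?_
      intro f _ x _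
      rfl

/-- task I2 -/
theorem i_FE (a : ℕ) (s : Net) : NIso (opF 0 (opE (a + 1) s)) (opE a (opF 0 s)) := by
  refine ⟨LinearMap.id, LinearMap.id, fun x hx => ⟨hx, rfl⟩, fun x hx => ⟨hx, rfl⟩, ?_, _,
    List.Perm.refl _, ?_⟩
  · intro j x _
    rfl
  · refine List.Forall₂.cons ?_ ?_
    · intro x _
      rfl
    · have h := i2_map s.W LinearMap.id s.l id id (fun f _ x _ => rfl)
      rw [List.map_id] at h
      exact h

/-- task I2 -/
theorem i_NN (s : Net) : NIso (opN 0 (opN 0 s)) (opN 1 (opN 0 s)) := by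
  refine ⟨swp s.U, swp s.U, ?_, ?_, ?_, _, List.Perm.refl _, ?_⟩
  · rintro ⟨⟨x, t⟩, u⟩ hx
    exact ⟨⟨⟨hx.1.1, trivial⟩, trivial⟩, rfl⟩
  · rintro ⟨⟨x, t⟩, u⟩ hx
    exact ⟨⟨⟨hx.1.1, trivial⟩, trivial⟩, rfl⟩
  · rintro j ⟨⟨x, t⟩, u⟩ _
    rcases j with _ | _ | j
    · rfl
    · rfl
    · rfl
  · refine i2_map2 ((s.W.prod ⊤).prod ⊤) (swp s.U) s.l _ _ _ _ ?_
    rintro f _ ⟨⟨x, t⟩, u⟩ _
    rfl

end net

end H665R2.LV
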