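import Pool.Agent.H665R2.LV.NDefs
set_option autoImplicit false

/-! Isomorphisms of planar network pieces, part 3 (task I3, helper818). -/

namespace H665R2.LV

open Module

theorem I3_z2 (a : ZMod 2) : a + a = 0 := by
  have : a + a = 2 * a := by ring
  rw [this]
  have h2 : (2 : ZMod 2) = 0 := rfl
  rw [h2, zero_mul]

theorem I3_eq {a b : ZMod 2} (h : a + b = 0) : a = b := by
  have h1 := I3_z2 b
  have : a + b = b + b := by rw [h, h1]
  exact add_right_cancel this

theorem I3_all {α β : Type*} (R : α → β → Prop) (l : List α) (F : α → β)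
    (h : ∀ a ∈ l, R a (F a)) : List.Forall₂ R l (l.map F) := by
  induction l with
  | nil => exact List.Forall₂.nil
  | cons a l ih =>
    exact List.Forall₂.cons (h a (by simp)) (ih fun b hb => h b (by simp [hb]))

theorem I3_all' {α β : Type*} (R : β → α → Prop) (l : List α) (F : α → β)
    (h : ∀ a ∈ l, R (F a) a) : List.Forall₂ R (l.map F) l := by
  induction l with
  | nil => exact List.Forall₂.nil
  | cons a l ih =>
    exact List.Forall₂.cons (h a (by simp)) (ih fun b hb => h b (by simp [hb]))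

theorem I3_self {α : Type*} (R : α → α → Prop) (l : List α)
    (h : ∀ a ∈ l, R a a) : List.Forall₂ R l l := by
  induction l with
  | nil => exact List.Forall₂.nil
  | cons a l ih =>
    exact List.Forall₂.cons (h a (by simp)) (ih fun b hb => h b (by simp [hb]))

/-- task I3 -/
theorem i_END (s : Net) : NIso (opE 0 (opN 0 s)) (opS 0 (opD 0 s)) := by
  refine ⟨LinearMap.id, LinearMap.id, fun x hx => ⟨hx, rfl⟩, fun x hx => ⟨hx, rfl⟩, ?_,
    _, List.Perm.refl _, ?_⟩
  · intro i x _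
    change (if i < 0 then (s.y i).comp (LinearMap.fst (ZMod 2) s.U (ZMod 2))
      else if i = 0 then LinearMap.snd (ZMod 2) s.U (ZMod 2)
      else (s.y (i - 1)).comp (LinearMap.fst (ZMod 2) s.U (ZMod 2))) x =
      (if i = 0 then LinearMap.snd (ZMod 2) s.U (ZMod 2)
      else (if i ≤ 0 then s.y i else s.y (i - 1)).comp (LinearMap.fst (ZMod 2) s.U (ZMod 2))) x
    by_cases h : i = 0
    · subst h; simp
    · rw [if_neg (by omega), if_neg h, if_neg h, if_neg (by omega)]
  · refine List.Forall₂.cons ?_ (I3_self _ _ fun _ _ _ _ => rfl)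
    intro x _
    change (LinearMap.snd (ZMod 2) s.U (ZMod 2) +
      (s.y 0).comp (LinearMap.fst (ZMod 2) s.U (ZMod 2))) x =
      ((s.y 0).comp (LinearMap.fst (ZMod 2) s.U (ZMod 2)) + LinearMap.snd (ZMod 2) s.U (ZMod 2)) x
    rw [add_comm]

/-- task I3 -/
theorem i_SDN (s : Net) : NIso (opS 1 (opD 0 s)) (opE 0 (opN 1 s)) := by
  refine ⟨LinearMap.id, LinearMap.id, fun x hx => ⟨hx, rfl⟩, fun x hx => ⟨hx, rfl⟩, ?_,
    _, List.Perm.refl _, ?_⟩
  · intro i x _
    change (if i = 1 then LinearMap.snd (ZMod 2) s.U (ZMod 2)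
      else (if i ≤ 0 then s.y i else s.y (i - 1)).comp (LinearMap.fst (ZMod 2) s.U (ZMod 2))) x =
      (if i < 1 then (s.y i).comp (LinearMap.fst (ZMod 2) s.U (ZMod 2))
      else if i = 1 then LinearMap.snd (ZMod 2) s.U (ZMod 2)
      else (s.y (i - 1)).comp (LinearMap.fst (ZMod 2) s.U (ZMod 2))) x
    by_cases h : i = 1
    · subst h; simp
    · by_cases h0 : i = 0
      · subst h0; simp
      · rw [if_neg h, if_neg (by omega), if_neg (by omega), if_neg h]
  · refine List.Forall₂.cons ?_ (I3_self _ _ fun _ _ _ _ => rfl)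
    intro x _
    change ((s.y 0).comp (LinearMap.fst (ZMod 2) s.U (ZMod 2)) +
      LinearMap.snd (ZMod 2) s.U (ZMod 2)) x =
      ((s.y 0).comp (LinearMap.fst (ZMod 2) s.U (ZMod 2)) + LinearMap.snd (ZMod 2) s.U (ZMod 2)) x
    rfl

/-- task I3 -/
theorem i_FEM (a : ℕ) (s : Net) : NIso (opF a (opE a s)) (opM a (opS a s)) := by
  have hya : (opS a s).y a = LinearMap.snd (ZMod 2) s.U (ZMod 2) := by
    change (if a = a then LinearMap.snd (ZMod 2) s.U (ZMod 2)
      else (s.y a).comp (LinearMap.fst (ZMod 2) s.U (ZMod 2))) = _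
    rw [if_pos rfl]
  have hyb : ∀ j, j ≠ a → (opS a s).y j = (s.y j).comp (LinearMap.fst (ZMod 2) s.U (ZMod 2)) := by
    intro j hj
    change (if j = a then LinearMap.snd (ZMod 2) s.U (ZMod 2)
      else (s.y j).comp (LinearMap.fst (ZMod 2) s.U (ZMod 2))) = _
    rw [if_neg hj]
  have hW : ∀ x : s.U × ZMod 2, x ∈ (opM a (opS a s)).W ↔
      x.1 ∈ s.W ∧ x.2 + s.y (a + 1) x.1 = 0 := by
    intro x
    change x ∈ (s.W.prod ⊤) ⊓ LinearMap.ker ((opS a s).y a + (opS a s).y (a + 1)) ↔ _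
    rw [hya, hyb (a + 1) (by omega)]
    simp only [Submodule.mem_inf, LinearMap.mem_ker, Submodule.mem_prod, Submodule.mem_top, and_true]
    exact Iff.rfl
  refine ⟨LinearMap.prod LinearMap.id (s.y (a + 1)), LinearMap.fst (ZMod 2) s.U (ZMod 2), ?_, ?_,
    ?_, _, List.Perm.refl _, ?_⟩
  · intro x hx
    refine ⟨(hW _).2 ⟨hx, ?_⟩, rfl⟩
    exact I3_z2 _
  · intro x hx
    obtain ⟨h1, h2⟩ := (hW x).1 hx
    refine ⟨h1, ?_⟩
    exact Prod.ext rfl (I3_eq h2).symm
  · intro i x hx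
    change (if i < a then s.y i else s.y (i + 1)) x =
      (if i ≤ a then (opS a s).y i else (opS a s).y (i + 1)) (x, s.y (a + 1) x)
    rcases lt_trichotomy i a with h | h | h
    · rw [if_pos h, if_pos h.le, hyb i (by omega)]
      rfl
    · subst h
      rw [if_neg (by omega), if_pos le_rfl, hya]
      rfl
    · rw [if_neg (by omega), if_neg (by omega), hyb (i + 1) (by omega)]
      rfl
  · refine List.Forall₂.cons ?_ (I3_all _ _ _ fun _ _ _ _ => rfl)
    intro x _
    rfl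

/-- task I3 -/
theorem i_MSF (a : ℕ) (s : Net) : NIso (opM a (opS (a + 1) s)) (opF (a + 1) (opE a s)) := by
  have hya : (opS (a + 1) s).y (a + 1) = LinearMap.snd (ZMod 2) s.U (ZMod 2) := by
    change (if a + 1 = a + 1 then LinearMap.snd (ZMod 2) s.U (ZMod 2)
      else (s.y (a + 1)).comp (LinearMap.fst (ZMod 2) s.U (ZMod 2))) = _
    rw [if_pos rfl]
  have hyb : ∀ j, j ≠ a + 1 → (opS (a + 1) s).y j =
      (s.y j).comp (LinearMap.fst (ZMod 2) s.U (ZMod 2)) := by
    intro j hj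
    change (if j = a + 1 then LinearMap.snd (ZMod 2) s.U (ZMod 2)
      else (s.y j).comp (LinearMap.fst (ZMod 2) s.U (ZMod 2))) = _
    rw [if_neg hj]
  have hW : ∀ x : s.U × ZMod 2, x ∈ (opM a (opS (a + 1) s)).W ↔
      x.1 ∈ s.W ∧ s.y a x.1 + x.2 = 0 := by
    intro x
    change x ∈ (s.W.prod ⊤) ⊓ LinearMap.ker ((opS (a + 1) s).y a + (opS (a + 1) s).y (a + 1)) ↔ _
    rw [hya, hyb a (by omega)]
    simp only [Submodule.mem_inf, LinearMap.mem_ker, Submodule.mem_prod, Submodule.mem_top, and_true]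
    exact Iff.rfl
  refine ⟨LinearMap.fst (ZMod 2) s.U (ZMod 2), LinearMap.prod LinearMap.id (s.y a), ?_, ?_,
    ?_, _, List.Perm.refl _, ?_⟩
  · intro x hx
    obtain ⟨h1, h2⟩ := (hW x).1 hx
    exact ⟨h1, Prod.ext rfl (I3_eq h2)⟩
  · intro x hx
    exact ⟨(hW _).2 ⟨hx, I3_z2 _⟩, rfl⟩
  · intro i x hx
    change (if i ≤ a then (opS (a + 1) s).y i else (opS (a + 1) s).y (i + 1)) x =
      (if i < a + 1 then s.y i else s.y (i + 1)) x.1
    by_cases h : i ≤ a
    · rw [if_pos h, if_pos (by omega), hyb i (by omega)]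
      rfl
    · rw [if_neg h, if_neg (by omega), hyb (i + 1) (by omega)]
      rfl
  · refine List.Forall₂.cons ?_ (I3_all' _ _ _ fun _ _ _ _ => rfl)
    intro x hx
    obtain ⟨h1, h2⟩ := (hW x).1 hx
    change s.y (a + 1) x.1 + x.2 = s.y a x.1 + s.y (a + 1) x.1
    rw [← I3_eq h2, add_comm]

/-- task I3 -/
theorem i_MN (s : Net) : NIso (opM 0 (opN 0 s)) s := by
  have hya : (opN 0 s).y 0 = LinearMap.snd (ZMod 2) s.U (ZMod 2) := rfl
  have hyb : ∀ j, (opN 0 s).y (j + 1) = (s.y j).comp (LinearMap.fst (ZMod 2) s.U (ZMod 2)) := by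
    intro j
    change (if j + 1 < 0 then (s.y (j + 1)).comp (LinearMap.fst (ZMod 2) s.U (ZMod 2))
      else if j + 1 = 0 then LinearMap.snd (ZMod 2) s.U (ZMod 2)
      else (s.y (j + 1 - 1)).comp (LinearMap.fst (ZMod 2) s.U (ZMod 2))) = _
    rw [if_neg (by omega), if_neg (by omega), Nat.add_sub_cancel]
  have hW : ∀ x : s.U × ZMod 2, x ∈ (opM 0 (opN 0 s)).W ↔
      x.1 ∈ s.W ∧ x.2 + s.y 0 x.1 = 0 := by
    intro x
    change x ∈ (s.W.prod ⊤) ⊓ LinearMap.ker ((opN 0 s).y 0 + (opN 0 s).y (0 + 1)) ↔ _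
    rw [hya, hyb 0]
    simp only [Submodule.mem_inf, LinearMap.mem_ker, Submodule.mem_prod, Submodule.mem_top, and_true]
    exact Iff.rfl
  refine ⟨LinearMap.fst (ZMod 2) s.U (ZMod 2), LinearMap.prod LinearMap.id (s.y 0), ?_, ?_,
    ?_, _, List.Perm.refl _, ?_⟩
  · intro x hx
    obtain ⟨h1, h2⟩ := (hW x).1 hx
    exact ⟨h1, Prod.ext rfl (I3_eq h2).symm⟩
  · intro x hx
    exact ⟨(hW _).2 ⟨hx, I3_z2 _⟩, rfl⟩
  · intro i x hx
    obtain ⟨h1, h2⟩ := (hW x).1 hx
    change (if i ≤ 0 then (opN 0 s).y i else (opN 0 s).y (i + 1)) x = s.y i x.1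
    by_cases h : i = 0
    · subst h
      rw [if_pos le_rfl, hya]
      exact I3_eq h2
    · rw [if_neg (by omega), hyb i]
      rfl
  · exact I3_all' _ _ _ fun _ _ _ _ => rfl

end H665R2.LV
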