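import Pool.Agent.H665R2.LV.N1
import Pool.Agent.H665R2.LV.NB
import Pool.Agent.H665R2.LV.NR
set_option autoImplicit false

/-! Task Q1 of the planar sweep (helper940). -/

namespace H665R2.LV

open Module

theorem iso_le_Q1 {s s' : Net} (h : NIso s s') : s ≤ s' ∧ s' ≤ s :=
  NIso.le_of (fun _ _ _ _ _ _ _ _ _ _ _ f g h1 h2 h3 h4 hs =>
    SDY.iso_maps f g h1 h2 h3 h4 hs) h

theorem z2_eq_of_add_Q1 {x y : ZMod 2} (h : x + y = 0) : x = y := by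
  have := congrArg (· + y) h
  simpa [add_assoc, CharTwo.add_self_eq_zero] using this

/-- task Q1 -/
theorem q_loop (s : Net) : opF 0 (opN 0 s) ≤ s := by
  have hp : NPriv (s.W.prod (⊤ : Submodule (ZMod 2) (ZMod 2))) (opF 0 (opN 0 s)).y (opN 0 s).l
      (LinearMap.snd (ZMod 2) s.U (ZMod 2)) := by
    refine ⟨((0 : s.U), (1 : ZMod 2)), ⟨s.W.zero_mem, trivial⟩, rfl, ?_, ?_⟩
    · intro f hf
      obtain ⟨g, -, rfl⟩ := List.mem_map.1 hf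
      exact map_zero g
    · intro i
      show (opN 0 s).y (i + 1) ((0 : s.U), (1 : ZMod 2)) = 0
      simp [opN]
      exact map_zero (s.y i)
  have h1 : opF 0 (opN 0 s) ≤ (⟨s.U × ZMod 2, s.W.prod ⊤ ⊓
      LinearMap.ker (LinearMap.snd (ZMod 2) s.U (ZMod 2)), (opF 0 (opN 0 s)).y,
      (opN 0 s).l⟩ : Net) := net_free hp
  refine h1.trans (iso_le_Q1 ?_).1
  refine ⟨LinearMap.fst (ZMod 2) s.U (ZMod 2), LinearMap.inl (ZMod 2) s.U (ZMod 2), ?_, ?_, ?_,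
    s.l, List.Perm.refl _, ?_⟩
  · rintro ⟨x, t⟩ ⟨⟨hx, -⟩, ht⟩
    have ht' : t = 0 := ht
    exact ⟨hx, by rw [ht']; rfl⟩
  · intro x hx
    exact ⟨⟨⟨hx, trivial⟩, rfl⟩, rfl⟩
  · rintro i ⟨x, t⟩ -
    show (opN 0 s).y (i + 1) (x, t) = s.y i x
    simp [opN]
    rfl
  · show List.Forall₂ _ (s.l.map _) s.l
    rw [List.forall₂_map_left_iff, List.forall₂_same]
    rintro f - ⟨x, t⟩ -
    rfl

/-- task Q1 -/
theorem q_SN (s : Net) : opS 0 (opN 0 s) ≤ opN 0 s ∧ opN 0 s ≤ opS 0 (opN 0 s) := by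
  let T : Dual (ZMod 2) ((s.U × ZMod 2) × ZMod 2) :=
    ((opN 0 s).y 0).comp (LinearMap.fst (ZMod 2) (s.U × ZMod 2) (ZMod 2)) +
      LinearMap.snd (ZMod 2) (s.U × ZMod 2) (ZMod 2)
  let L : List (Dual (ZMod 2) ((s.U × ZMod 2) × ZMod 2)) :=
    (opN 0 s).l.map (fun f => f.comp (LinearMap.fst (ZMod 2) (s.U × ZMod 2) (ZMod 2)))
  let N0 : Net := ⟨(s.U × ZMod 2) × ZMod 2, ((s.W.prod ⊤).prod ⊤) ⊓ LinearMap.ker T,
    (opS 0 (opN 0 s)).y, L⟩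
  have hT : ∀ (x : s.U) (a b : ZMod 2), T ((x, a), b) = a + b := fun x a b => rfl
  have hp : NPriv ((s.W.prod (⊤ : Submodule (ZMod 2) (ZMod 2))).prod
      (⊤ : Submodule (ZMod 2) (ZMod 2))) (opS 0 (opN 0 s)).y L T := by
    refine ⟨(((0 : s.U), (1 : ZMod 2)), (0 : ZMod 2)), ⟨⟨s.W.zero_mem, trivial⟩, trivial⟩,
      ?_, ?_, ?_⟩
    · rw [hT, add_zero]
    · intro f hf
      obtain ⟨g, hg, rfl⟩ := List.mem_map.1 hf
      obtain ⟨g, -, rfl⟩ := List.mem_map.1 hg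
      exact map_zero g
    · intro i
      by_cases hi : i = 0
      · subst hi
        rfl
      · simp [opS, opN, hi]
  have hiso : NIso N0 (opN 0 s) := by
    refine ⟨((LinearMap.fst (ZMod 2) s.U (ZMod 2)).comp
        (LinearMap.fst (ZMod 2) (s.U × ZMod 2) (ZMod 2))).prod
        (LinearMap.snd (ZMod 2) (s.U × ZMod 2) (ZMod 2)),
      (LinearMap.id (R := ZMod 2) (M := s.U × ZMod 2)).prod (LinearMap.snd (ZMod 2) s.U (ZMod 2)),
      ?_, ?_, ?_, (opN 0 s).l, List.Perm.refl _, ?_⟩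
    · rintro ⟨⟨x, a⟩, b⟩ ⟨⟨⟨hx, -⟩, -⟩, ht⟩
      have ht' : a + b = 0 := ht
      have := z2_eq_of_add_Q1 ht'
      subst this
      exact ⟨⟨hx, trivial⟩, rfl⟩
    · rintro ⟨x, a⟩ ⟨hx, -⟩
      refine ⟨⟨⟨⟨hx, trivial⟩, trivial⟩, ?_⟩, rfl⟩
      show a + a = 0
      exact CharTwo.add_self_eq_zero a
    · rintro i ⟨⟨x, a⟩, b⟩ -
      show (opS 0 (opN 0 s)).y i ((x, a), b) = (opN 0 s).y i (x, b)
      by_cases hi : i = 0
      · subst hi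
        rfl
      · simp [opS, opN, hi]
        rfl
    · show List.Forall₂ _ ((s.l.map _).map _) (s.l.map _)
      rw [List.map_map, List.forall₂_map_left_iff, List.forall₂_map_right_iff, List.forall₂_same]
      rintro f - ⟨⟨x, a⟩, b⟩ -
      rfl
  have h1 : opS 0 (opN 0 s) ≤ N0 := net_coloop hp
  have h2 : N0 ≤ opS 0 (opN 0 s) := net_con _ _ _ _
  exact ⟨h1.trans (iso_le_Q1 hiso).1, (iso_le_Q1 hiso).2.trans h2⟩

end H665R2.LV
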