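import Pool.Agent.H665R2.LV.N1
import Pool.Agent.H665R2.LV.NB
import Pool.Agent.H665R2.LV.NR
set_option autoImplicit false

/-! Task Q2 of the planar sweep (helper940). -/

namespace H665R2.LV

open Module

theorem iso_le_Q2 {s s' : Net} (h : NIso s s') : s ≤ s' ∧ s' ≤ s :=
  NIso.le_of (fun _ _ _ _ _ _ _ _ _ _ _ f g h1 h2 h3 h4 hs =>
    SDY.iso_maps f g h1 h2 h3 h4 hs) h

theorem z2_eq_of_add_Q2 {x y : ZMod 2} (h : x + y = 0) : x = y := by
  have := congrArg (· + y) h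
  simpa [add_assoc, CharTwo.add_self_eq_zero] using this

/-- task Q2 -/
theorem q_EE (a : ℕ) (s : Net) : opE a (opE a s) ≤ opE a s ∧ opE a s ≤ opE a (opE a s) :=
  ⟨net_par s.W s.y (s.y a + s.y (a + 1)) s.l, net_del s.W s.y (s.y a + s.y (a + 1)) _⟩

/-- task Q2 -/
theorem q_SS (a : ℕ) (s : Net) : opS a (opS a s) ≤ opS a s ∧ opS a s ≤ opS a (opS a s) := by
  let T : Dual (ZMod 2) ((s.U × ZMod 2) × ZMod 2) :=
    ((s.y a).comp (LinearMap.fst (ZMod 2) s.U (ZMod 2)) +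
      LinearMap.snd (ZMod 2) s.U (ZMod 2)).comp (LinearMap.fst (ZMod 2) (s.U × ZMod 2) (ZMod 2))
  let A : Dual (ZMod 2) ((s.U × ZMod 2) × ZMod 2) :=
    ((s.y a).comp (LinearMap.fst (ZMod 2) s.U (ZMod 2))).comp
      (LinearMap.fst (ZMod 2) (s.U × ZMod 2) (ZMod 2)) +
      LinearMap.snd (ZMod 2) (s.U × ZMod 2) (ZMod 2)
  let L : List (Dual (ZMod 2) ((s.U × ZMod 2) × ZMod 2)) :=
    (s.l.map (fun f => f.comp (LinearMap.fst (ZMod 2) s.U (ZMod 2)))).map
      (fun f => f.comp (LinearMap.fst (ZMod 2) (s.U × ZMod 2) (ZMod 2)))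
  let y2 : ℕ → Dual (ZMod 2) ((s.U × ZMod 2) × ZMod 2) := (opS a (opS a s)).y
  have hT : ∀ (x : s.U) (u v : ZMod 2), T ((x, u), v) = s.y a x + u := fun x u v => rfl
  have hA : ∀ (x : s.U) (u v : ZMod 2), A ((x, u), v) = s.y a x + v := fun x u v => rfl
  let W2 : Submodule (ZMod 2) ((s.U × ZMod 2) × ZMod 2) := (s.W.prod ⊤).prod ⊤
  let N0 : Net := ⟨(s.U × ZMod 2) × ZMod 2, W2, y2, T :: (T + A) :: L⟩
  let N1 : Net := ⟨(s.U × ZMod 2) × ZMod 2, W2 ⊓ LinearMap.ker T, y2, A :: L⟩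
  have hp : NPriv W2 y2 (A :: L) T := by
    refine ⟨(((0 : s.U), (1 : ZMod 2)), (0 : ZMod 2)), ⟨⟨s.W.zero_mem, trivial⟩, trivial⟩,
      ?_, ?_, ?_⟩
    · rw [hT, map_zero, zero_add]
    · intro f hf
      rcases List.mem_cons.1 hf with rfl | hf
      · rw [hA, map_zero, zero_add]
      · obtain ⟨g, hg, rfl⟩ := List.mem_map.1 hf
        obtain ⟨g, -, rfl⟩ := List.mem_map.1 hg
        exact map_zero g
    · intro i
      by_cases hi : i = a
      · subst hi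
        simp [y2, opS]
      · simp [y2, opS, hi]
  have iso0 : NIso (opS a (opS a s)) N0 := by
    refine ⟨LinearMap.id, LinearMap.id, fun x hx => ⟨hx, rfl⟩, fun x hx => ⟨hx, rfl⟩,
      fun i x _ => rfl, (T + A) :: T :: L, List.Perm.swap _ _ _, ?_⟩
    show List.Forall₂ _ (_ :: _ :: L) ((T + A) :: T :: L)
    refine List.Forall₂.cons ?_ (List.Forall₂.cons ?_ (List.forall₂_same.2 fun f _ x _ => rfl))
    · rintro ⟨⟨x, u⟩, v⟩ -
      show (if a = a then LinearMap.snd (ZMod 2) s.U (ZMod 2)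
        else (s.y a).comp (LinearMap.fst (ZMod 2) s.U (ZMod 2))) (x, u) + v =
        (s.y a x + u) + (s.y a x + v)
      rw [if_pos rfl]
      show u + v = (s.y a x + u) + (s.y a x + v)
      have := CharTwo.add_self_eq_zero (s.y a x)
      linear_combination -this
    · rintro ⟨⟨x, u⟩, v⟩ -
      rfl
  have iso1 : NIso N1 (opS a s) := by
    refine ⟨((LinearMap.fst (ZMod 2) s.U (ZMod 2)).comp
        (LinearMap.fst (ZMod 2) (s.U × ZMod 2) (ZMod 2))).prod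
        (LinearMap.snd (ZMod 2) (s.U × ZMod 2) (ZMod 2)),
      ((LinearMap.fst (ZMod 2) s.U (ZMod 2)).prod
        ((s.y a).comp (LinearMap.fst (ZMod 2) s.U (ZMod 2)))).prod
        (LinearMap.snd (ZMod 2) s.U (ZMod 2)),
      ?_, ?_, ?_, (opS a s).l, List.Perm.refl _, ?_⟩
    · rintro ⟨⟨x, u⟩, v⟩ ⟨⟨⟨hx, -⟩, -⟩, ht⟩
      have ht' : s.y a x + u = 0 := ht
      have := z2_eq_of_add_Q2 ht'
      subst this
      exact ⟨⟨hx, trivial⟩, rfl⟩
    · rintro ⟨x, u⟩ ⟨hx, -⟩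
      refine ⟨⟨⟨⟨hx, trivial⟩, trivial⟩, ?_⟩, rfl⟩
      show s.y a x + s.y a x = 0
      exact CharTwo.add_self_eq_zero _
    · rintro i ⟨⟨x, u⟩, v⟩ -
      show (opS a (opS a s)).y i ((x, u), v) = (opS a s).y i (x, v)
      by_cases hi : i = a
      · subst hi
        simp [opS]
        rfl
      · simp [opS, hi]
        rfl
    · show List.Forall₂ _ (A :: ((s.l.map _).map _)) (_ :: (s.l.map _))
      refine List.Forall₂.cons ?_ ?_
      · rintro ⟨⟨x, u⟩, v⟩ -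
        rfl
      · rw [List.map_map, List.forall₂_map_left_iff, List.forall₂_map_right_iff,
          List.forall₂_same]
        rintro f - ⟨⟨x, u⟩, v⟩ -
        rfl
  have h1 : N0 ≤ N1 := net_series hp
  have h2 : N1 ≤ N0 := net_series' _ _ _ _ _
  exact ⟨((iso_le_Q2 iso0).1.trans h1).trans (iso_le_Q2 iso1).1,
    ((iso_le_Q2 iso1).2.trans h2).trans (iso_le_Q2 iso0).2⟩

end H665R2.LV
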