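import Pool.Agent.H665R2.LV.NDefs
import Pool.Agent.H665R2.LV.N1
import Pool.Agent.H665R2.LV.NB
import Pool.Agent.H665R2.LV.NR
set_option autoImplicit false

/-! Task Q3: the star-triangle relation for the operations `opS`, `opE` at the same place. -/

namespace H665R2.LV

open Module


theorem Q3_NIso_le {s s' : Net} (h : NIso s s') : s ≤ s' ∧ s' ≤ s :=
  NIso.le_of (fun _ _ _ _ _ _ _ _ _ _ _ f g h1 h2 h3 h4 hs => SDY.iso_maps f g h1 h2 h3 h4 hs) h

theorem Q3_two (z : ZMod 2) : z + z = 0 := CharTwo.add_self_eq_zero z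

theorem Q3_y_self (a : ℕ) (s : Net) (p : s.U × ZMod 2) : (opS a s).y a p = p.2 := by
  have h : (opS a s).y a = LinearMap.snd (ZMod 2) s.U (ZMod 2) := if_pos rfl
  rw [h]
  rfl

theorem Q3_y_ne {a j : ℕ} (hj : ¬ j = a) (s : Net) (p : s.U × ZMod 2) :
    (opS a s).y j p = s.y j p.1 := by
  have h : (opS a s).y j = (s.y j).comp (LinearMap.fst (ZMod 2) s.U (ZMod 2)) := if_neg hj
  rw [h]
  rfl

theorem Q3_forall {α β γ : Type} (R : β → γ → Prop) (g1 : α → β) (g2 : α → γ) :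
    ∀ l : List α, (∀ f : α, R (g1 f) (g2 f)) → List.Forall₂ R (l.map g1) (l.map g2)
  | [], _ => List.Forall₂.nil
  | a :: l, h => List.Forall₂.cons (h a) (Q3_forall R g1 g2 l h)

theorem Q3_forall2 {α β γ δ : Type} (R : γ → δ → Prop) (g1 : α → β) (g2 : β → γ) (g3 : α → δ) :
    ∀ l : List α, (∀ f : α, R (g2 (g1 f)) (g3 f)) →
      List.Forall₂ R ((l.map g1).map g2) (l.map g3)
  | [], _ => List.Forall₂.nil
  | a :: l, h => List.Forall₂.cons (h a) (Q3_forall2 R g1 g2 g3 l h)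

/-- the projection of the doubly extended space -/
def Q3_p (s : Net) : ((s.U × ZMod 2) × ZMod 2) →ₗ[ZMod 2] s.U :=
  (LinearMap.fst (ZMod 2) s.U (ZMod 2)).comp (LinearMap.fst (ZMod 2) (s.U × ZMod 2) (ZMod 2))

/-- the first new coordinate -/
def Q3_t1 (s : Net) : Dual (ZMod 2) ((s.U × ZMod 2) × ZMod 2) :=
  (LinearMap.snd (ZMod 2) s.U (ZMod 2)).comp (LinearMap.fst (ZMod 2) (s.U × ZMod 2) (ZMod 2))

/-- the second new coordinate -/
def Q3_t2 (s : Net) : Dual (ZMod 2) ((s.U × ZMod 2) × ZMod 2) :=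
  LinearMap.snd (ZMod 2) (s.U × ZMod 2) (ZMod 2)

/-- the leg of the star at the old vertex -/
def Q3_T (a : ℕ) (s : Net) : Dual (ZMod 2) ((s.U × ZMod 2) × ZMod 2) :=
  (s.y a).comp (Q3_p s) + Q3_t1 s

/-- a side of the triangle -/
def Q3_A (a : ℕ) (s : Net) : Dual (ZMod 2) ((s.U × ZMod 2) × ZMod 2) :=
  (s.y a).comp (Q3_p s) + (s.y (a + 1)).comp (Q3_p s)

/-- a side of the triangle -/
def Q3_B (a : ℕ) (s : Net) : Dual (ZMod 2) ((s.U × ZMod 2) × ZMod 2) :=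
  (s.y (a + 1)).comp (Q3_p s) + Q3_t2 s

/-- the boundary potentials -/
def Q3_y (a : ℕ) (s : Net) (j : ℕ) : Dual (ZMod 2) ((s.U × ZMod 2) × ZMod 2) :=
  if j = a then Q3_t2 s else (s.y j).comp (Q3_p s)

/-- the star -/
def Q3_Y (a : ℕ) (s : Net) : Net :=
  ⟨(s.U × ZMod 2) × ZMod 2, (s.W.prod ⊤).prod ⊤, Q3_y a s,
    Q3_T a s :: (Q3_T a s + Q3_A a s) :: (Q3_T a s + Q3_A a s + Q3_B a s) ::
      s.l.map (fun f => f.comp (Q3_p s))⟩

/-- the triangle -/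
def Q3_D (a : ℕ) (s : Net) : Net :=
  ⟨(s.U × ZMod 2) × ZMod 2, (s.W.prod ⊤).prod ⊤ ⊓ LinearMap.ker (Q3_T a s), Q3_y a s,
    Q3_A a s :: Q3_B a s :: (Q3_A a s + Q3_B a s) :: s.l.map (fun f => f.comp (Q3_p s))⟩

theorem Q3_priv (a : ℕ) (s : Net) : NPriv ((s.W.prod ⊤).prod ⊤ : Submodule (ZMod 2) ((s.U × ZMod 2) × ZMod 2))
    (Q3_y a s) (Q3_A a s :: Q3_B a s :: s.l.map (fun f => f.comp (Q3_p s))) (Q3_T a s) := by
  refine ⟨((0, 1), 0), ?_, ?_, ?_, ?_⟩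
  · simp [Submodule.mem_prod]
  · simp [Q3_T, Q3_p, Q3_t1]
  · intro f hf
    simp only [List.mem_cons, List.mem_map] at hf
    rcases hf with rfl | rfl | ⟨g, _, rfl⟩
    · simp [Q3_A, Q3_p]
    · simp [Q3_B, Q3_p, Q3_t2]
    · simp [Q3_p]
  · intro i
    unfold Q3_y
    split_ifs
    · simp [Q3_t2]
    · simp [Q3_p]

theorem Q3_isoY (a : ℕ) (s : Net) : NIso (opS a (opE a (opS a s))) (Q3_Y a s) := by
  have hne : ¬ a + 1 = a := by omega
  refine ⟨LinearMap.id, LinearMap.id, ?_, ?_, ?_, ?_⟩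
  · intro x hx
    exact ⟨hx, rfl⟩
  · intro x hx
    exact ⟨hx, rfl⟩
  · rintro i ⟨⟨x, t1⟩, t2⟩ _
    by_cases h : i = a
    · subst h
      refine (Q3_y_self i (opE i (opS i s)) ((x, t1), t2)).trans ?_
      have h2 : Q3_y i s i = Q3_t2 s := if_pos rfl
      change t2 = Q3_y i s i ((x, t1), t2)
      rw [h2]
      rfl
    · refine (Q3_y_ne h (opE a (opS a s)) ((x, t1), t2)).trans ?_
      refine (Q3_y_ne h s (x, t1)).trans ?_
      have h2 : Q3_y a s i = (s.y i).comp (Q3_p s) := if_neg h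
      change s.y i x = Q3_y a s i ((x, t1), t2)
      rw [h2]
      rfl
  · refine ⟨(Q3_T a s + Q3_A a s + Q3_B a s) :: (Q3_T a s + Q3_A a s) :: Q3_T a s ::
      s.l.map (fun f => f.comp (Q3_p s)), ?_, ?_⟩
    · change List.Perm _ (Q3_T a s :: (Q3_T a s + Q3_A a s) :: (Q3_T a s + Q3_A a s + Q3_B a s) ::
        s.l.map (fun f => f.comp (Q3_p s)))
      refine List.Perm.trans (List.Perm.swap _ _ _) ?_
      refine List.Perm.trans (List.Perm.cons _ (List.Perm.swap _ _ _)) ?_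
      exact List.Perm.swap _ _ _
    · refine List.Forall₂.cons ?_ (List.Forall₂.cons ?_ (List.Forall₂.cons ?_ ?_))
      · rintro ⟨⟨x, t1⟩, t2⟩ _
        change (opS a s).y a (x, t1) + t2 =
          (s.y a x + t1) + (s.y a x + s.y (a + 1) x) + (s.y (a + 1) x + t2)
        rw [Q3_y_self]
        linear_combination (-1 : ZMod 2) * Q3_two (s.y a x) - Q3_two (s.y (a + 1) x)
      · rintro ⟨⟨x, t1⟩, t2⟩ _
        change (opS a s).y a (x, t1) + (opS a s).y (a + 1) (x, t1) =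
          (s.y a x + t1) + (s.y a x + s.y (a + 1) x)
        rw [Q3_y_self, Q3_y_ne hne]
        linear_combination (-1 : ZMod 2) * Q3_two (s.y a x)
      · rintro ⟨⟨x, t1⟩, t2⟩ _
        rfl
      · exact Q3_forall2 _ _ _ _ _ (fun f x _ => rfl)

/-- the map from the triangle side -/
def Q3_f (a : ℕ) (s : Net) : (s.U × ZMod 2) →ₗ[ZMod 2] ((s.U × ZMod 2) × ZMod 2) :=
  ((LinearMap.fst (ZMod 2) s.U (ZMod 2)).prod
    ((s.y a).comp (LinearMap.fst (ZMod 2) s.U (ZMod 2)))).prod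
    (LinearMap.snd (ZMod 2) s.U (ZMod 2))

/-- the map to the triangle side -/
def Q3_g (s : Net) : ((s.U × ZMod 2) × ZMod 2) →ₗ[ZMod 2] (s.U × ZMod 2) :=
  (Q3_p s).prod (Q3_t2 s)

theorem Q3_isoD (a : ℕ) (s : Net) : NIso (opE a (opS a (opE a s))) (Q3_D a s) := by
  have hne : ¬ a + 1 = a := by omega
  refine ⟨Q3_f a s, Q3_g s, ?_, ?_, ?_, ?_⟩
  · rintro ⟨x, t⟩ hx
    refine ⟨?_, rfl⟩
    change Q3_f a s (x, t) ∈ (s.W.prod ⊤).prod ⊤ ⊓ LinearMap.ker (Q3_T a s)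
    refine ⟨?_, ?_⟩
    · exact ⟨⟨hx.1, trivial⟩, trivial⟩
    · rw [SetLike.mem_coe, LinearMap.mem_ker]
      exact Q3_two (s.y a x)
  · rintro ⟨⟨x, t1⟩, t2⟩ hx
    change ((x, t1), t2) ∈ (s.W.prod ⊤).prod ⊤ ⊓ LinearMap.ker (Q3_T a s) at hx
    obtain ⟨hx1, hx2⟩ := hx
    rw [SetLike.mem_coe, LinearMap.mem_ker] at hx2
    have hx3 : s.y a x + t1 = 0 := hx2
    have hx4 : s.y a x = t1 := by
      linear_combination hx3 - Q3_two t1
    refine ⟨?_, ?_⟩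
    · exact ⟨hx1.1.1, trivial⟩
    · change ((x, s.y a x), t2) = ((x, t1), t2)
      rw [hx4]
  · rintro i ⟨x, t⟩ _
    by_cases h : i = a
    · subst h
      refine (Q3_y_self i (opE i s) (x, t)).trans ?_
      have h2 : Q3_y i s i = Q3_t2 s := if_pos rfl
      change t = Q3_y i s i (Q3_f i s (x, t))
      rw [h2]
      rfl
    · refine (Q3_y_ne h (opE a s) (x, t)).trans ?_
      have h2 : Q3_y a s i = (s.y i).comp (Q3_p s) := if_neg h
      change s.y i x = Q3_y a s i (Q3_f a s (x, t))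
      rw [h2]
      rfl
  · refine ⟨Q3_B a s :: (Q3_A a s + Q3_B a s) :: Q3_A a s ::
      s.l.map (fun f => f.comp (Q3_p s)), ?_, ?_⟩
    · change List.Perm _ (Q3_A a s :: Q3_B a s :: (Q3_A a s + Q3_B a s) ::
        s.l.map (fun f => f.comp (Q3_p s)))
      refine List.Perm.trans (List.Perm.cons _ (List.Perm.swap _ _ _)) ?_
      exact List.Perm.swap _ _ _
    · refine List.Forall₂.cons ?_ (List.Forall₂.cons ?_ (List.Forall₂.cons ?_ ?_))
      · rintro ⟨x, t⟩ _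
        change (opS a (opE a s)).y a (x, t) + (opS a (opE a s)).y (a + 1) (x, t) =
          s.y (a + 1) x + t
        rw [Q3_y_self, Q3_y_ne hne]
        exact add_comm _ _
      · rintro ⟨x, t⟩ _
        change s.y a x + t = (s.y a x + s.y (a + 1) x) + (s.y (a + 1) x + t)
        linear_combination (-1 : ZMod 2) * Q3_two (s.y (a + 1) x)
      · rintro ⟨x, t⟩ _
        rfl
      · exact Q3_forall _ _ _ _ (fun f x _ => rfl)

/-- task Q3 -/
theorem q_SES (a : ℕ) (s : Net) : opS a (opE a (opS a s)) ≤ opE a (opS a (opE a s)) ∧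
    opE a (opS a (opE a s)) ≤ opS a (opE a (opS a s)) := by
  obtain ⟨h1, h2⟩ := Q3_NIso_le (Q3_isoY a s)
  obtain ⟨h3, h4⟩ := Q3_NIso_le (Q3_isoD a s)
  exact ⟨(h1.trans (net_toY (Q3_priv a s))).trans h4,
    (h3.trans (net_toDelta (Q3_priv a s))).trans h2⟩

end H665R2.LV
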