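import Pool.Agent.H665R2.LV.NDefs
import Pool.Agent.H665R2.LV.Main3
import Pool.Agent.H665R2.LV.NB
import Pool.Agent.H665R2.LV.NR
set_option autoImplicit false

/-! Triangle and star: the relation between `opE` and `opS`. -/

namespace H665R2.LV

open Module

theorem Q4_forall₂_refl {α : Type} (R : α → α → Prop) (l : List α) (h : ∀ a ∈ l, R a a) :
    List.Forall₂ R l l := by
  induction l with
  | nil => exact List.Forall₂.nil
  | cons a l ih =>
    exact List.Forall₂.cons (h a (List.mem_cons_self)) (ih fun b hb => h b (List.mem_cons_of_mem a hb))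

/-- one direction -/
theorem Q4_one {s s' : Net} (f : s.U →ₗ[ZMod 2] s'.U) (g : s'.U →ₗ[ZMod 2] s.U)
    (h1 : ∀ x ∈ s.W, f x ∈ s'.W ∧ g (f x) = x) (h2 : ∀ x ∈ s'.W, g x ∈ s.W ∧ f (g x) = x)
    (h3 : ∀ i, ∀ x ∈ s.W, s.y i x = s'.y i (f x)) (l1 : List (Dual (ZMod 2) s'.U))
    (hp : List.Perm l1 s'.l) (h4 : List.Forall₂ (fun a b => ∀ x ∈ s.W, a x = b (f x)) s.l l1)
    (c : Net) (hG : G s c) : G s' c := by
  refine SDY.iso_maps (W := gW s c) (W' := gW s' c) (l := gl s c) (l' := gl s' c)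
    (l1 := l1.map (fun f => f.comp (LinearMap.fst (ZMod 2) s'.U c.U)) ++
      c.l.map (fun f => f.comp (LinearMap.snd (ZMod 2) s'.U c.U)))
    (f.prodMap LinearMap.id) (g.prodMap LinearMap.id) ?_ ?_ ?_ ?_ hG
  · rintro ⟨x, z⟩ ⟨k1, k2, k3⟩
    have k1' : x ∈ s.W := k1
    refine ⟨⟨(h1 x k1').1, k2, fun i => ?_⟩, ?_⟩
    · show s'.y i (f x) = c.y i z
      rw [← h3 i x k1']
      exact k3 i
    · show (g (f x), z) = (x, z)
      rw [(h1 x k1').2]
  · rintro ⟨x, z⟩ ⟨k1, k2, k3⟩
    have k1' : x ∈ s'.W := k1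
    refine ⟨⟨(h2 x k1').1, k2, fun i => ?_⟩, ?_⟩
    · show s.y i (g x) = c.y i z
      rw [h3 i (g x) (h2 x k1').1, (h2 x k1').2]
      exact k3 i
    · show (f (g x), z) = (x, z)
      rw [(h2 x k1').2]
  · exact (hp.map _).append_right _
  · apply List.rel_append
    · rw [List.forall₂_map_left_iff, List.forall₂_map_right_iff]
      refine h4.imp ?_
      intro a b hab
      rintro ⟨x, z⟩ ⟨k1, k2, k3⟩
      exact hab x k1
    · rw [List.forall₂_map_left_iff, List.forall₂_map_right_iff]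
      apply Q4_forall₂_refl
      intro a _
      rintro ⟨x, z⟩ _
      rfl

theorem Q4_NIso_le {s s' : Net} (h : NIso s s') : s ≤ s' ∧ s' ≤ s := by
  obtain ⟨f, g, h1, h2, h3, l1, hp, h4⟩ := h
  refine ⟨fun c hc => ?_, fun c hc => Q4_one f g h1 h2 h3 l1 hp h4 c hc⟩
  -- the inverse direction
  obtain ⟨l2, hp2, h5⟩ : ∃ l2, List.Perm l2 s.l ∧
      List.Forall₂ (fun a b => ∀ x ∈ s'.W, a x = b (g x)) s'.l l2 := by
    have h6 : List.Forall₂ (fun b a => ∀ x ∈ s'.W, b x = a (g x)) l1 s.l := by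
      refine h4.flip.imp ?_
      intro b a hab x hx
      have hab' : a (g x) = b (f (g x)) := hab (g x) (h2 x hx).1
      rw [hab', (h2 x hx).2]
    obtain ⟨l2, h7, h8⟩ := List.perm_comp_forall₂ hp.symm h6
    exact ⟨l2, h8, h7⟩
  exact Q4_one g f h2 h1 (fun i x hx => by rw [h3 i (g x) (h2 x hx).1, (h2 x hx).2]) l2 hp2 h5 c hc

theorem Q4_forall₂ {U V : Type} [AddCommGroup U] [Module (ZMod 2) U] [AddCommGroup V]
    [Module (ZMod 2) V] {P : U → Prop} (f : U → V) {α : Type} (g : α → Dual (ZMod 2) U)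
    (g' : α → Dual (ZMod 2) V) (h : ∀ a, ∀ x, P x → g a x = g' a (f x)) (l : List α) :
    List.Forall₂ (fun a b => ∀ x, P x → a x = b (f x)) (l.map g) (l.map g') := by
  induction l with
  | nil => exact List.Forall₂.nil
  | cons a l ih => exact List.Forall₂.cons (h a) ih

theorem Q4_z (p q r : ZMod 2) : p + q = r + p + (r + q) := by
  revert p q r; decide

theorem q_ESE (a : ℕ) (s : Net) : opE a (opS (a + 1) (opE a s)) ≤
      opS (a + 1) (opE a (opS (a + 1) s)) ∧
    opS (a + 1) (opE a (opS (a + 1) s)) ≤ opE a (opS (a + 1) (opE a s)) := by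
  have hza : a ≠ a + 1 := by omega
  let V : Type := (s.U × ZMod 2) × ZMod 2
  let W2 : Submodule (ZMod 2) V := (s.W.prod ⊤).prod ⊤
  let ff : V →ₗ[ZMod 2] s.U :=
    (LinearMap.fst (ZMod 2) s.U (ZMod 2)).comp (LinearMap.fst (ZMod 2) (s.U × ZMod 2) (ZMod 2))
  let t1 : Dual (ZMod 2) V :=
    (LinearMap.snd (ZMod 2) s.U (ZMod 2)).comp (LinearMap.fst (ZMod 2) (s.U × ZMod 2) (ZMod 2))
  let t2 : Dual (ZMod 2) V := LinearMap.snd (ZMod 2) (s.U × ZMod 2) (ZMod 2)
  let y2 : ℕ → Dual (ZMod 2) V := (opS (a + 1) (opE a (opS (a + 1) s))).y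
  let T : Dual (ZMod 2) V := (s.y (a + 1)).comp ff + t1
  let A : Dual (ZMod 2) V := (s.y (a + 1)).comp ff + (s.y a).comp ff
  let B : Dual (ZMod 2) V := (s.y a).comp ff + t2
  let L : List (Dual (ZMod 2) V) := s.l.map (fun f => f.comp ff)
  have hy1 : ∀ v : V, y2 (a + 1) v = v.2 := by
    intro v
    change (if a + 1 = a + 1 then LinearMap.snd (ZMod 2) (s.U × ZMod 2) (ZMod 2) else _) v = v.2
    rw [if_pos rfl]
    rfl
  have hy2 : ∀ i, i ≠ a + 1 → ∀ v : V, y2 i v = s.y i v.1.1 := by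
    intro i hi v
    change (if i = a + 1 then LinearMap.snd (ZMod 2) (s.U × ZMod 2) (ZMod 2) else
      (if i = a + 1 then LinearMap.snd (ZMod 2) s.U (ZMod 2) else
        (s.y i).comp (LinearMap.fst (ZMod 2) s.U (ZMod 2))).comp
          (LinearMap.fst (ZMod 2) (s.U × ZMod 2) (ZMod 2))) v = _
    rw [if_neg hi, if_neg hi]
    rfl
  have hz : ∀ p q : ZMod 2, p + q = 0 → q = p := by decide
  have hz2 : ∀ p : ZMod 2, p + p = 0 := by decide
  -- the star
  have hstar : NIso (opS (a + 1) (opE a (opS (a + 1) s)))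
      (⟨V, W2, y2, T :: (T + A) :: (T + A + B) :: L⟩ : Net) := by
    refine ⟨LinearMap.id, LinearMap.id, fun x hx => ⟨hx, rfl⟩, fun x hx => ⟨hx, rfl⟩,
      fun i x _ => rfl, (T + A + B) :: (T + A) :: T :: L, ?_, ?_⟩
    · exact ((List.Perm.swap _ _ _).trans (List.Perm.cons _ (List.Perm.swap _ _ _))).trans
        (List.Perm.swap _ _ _)
    · refine List.Forall₂.cons ?_ (List.Forall₂.cons ?_ (List.Forall₂.cons ?_ ?_))
      · intro x _
        change (if a + 1 = a + 1 then LinearMap.snd (ZMod 2) s.U (ZMod 2) else _) x.1 + x.2 =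
          s.y (a + 1) x.1.1 + x.1.2 + (s.y (a + 1) x.1.1 + s.y a x.1.1) + (s.y a x.1.1 + x.2)
        rw [if_pos rfl]
        change x.1.2 + x.2 = _
        generalize s.y (a + 1) x.1.1 = p
        generalize s.y a x.1.1 = q
        generalize x.1.2 = r
        generalize x.2 = u
        revert p q r u; decide
      · intro x _
        change (if a = a + 1 then LinearMap.snd (ZMod 2) s.U (ZMod 2) else
          (s.y a).comp (LinearMap.fst (ZMod 2) s.U (ZMod 2))) x.1 +
          (if a + 1 = a + 1 then LinearMap.snd (ZMod 2) s.U (ZMod 2) else _) x.1 =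
          s.y (a + 1) x.1.1 + x.1.2 + (s.y (a + 1) x.1.1 + s.y a x.1.1)
        rw [if_pos rfl, if_neg hza]
        change s.y a x.1.1 + x.1.2 = _
        generalize s.y (a + 1) x.1.1 = p
        generalize s.y a x.1.1 = q
        generalize x.1.2 = r
        revert p q r; decide
      · intro x _
        rfl
      · change List.Forall₂ _ ((s.l.map _).map _) (s.l.map _)
        rw [List.map_map]
        exact Q4_forall₂ (P := fun x => x ∈ W2) _ _ _ (fun f x _ => rfl) s.l
  -- the triangle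
  have htri : NIso (opE a (opS (a + 1) (opE a s)))
      (⟨V, W2 ⊓ LinearMap.ker T, y2, A :: B :: (A + B) :: L⟩ : Net) := by
    refine ⟨LinearMap.prod (LinearMap.prod (LinearMap.fst (ZMod 2) s.U (ZMod 2))
      ((s.y (a + 1)).comp (LinearMap.fst (ZMod 2) s.U (ZMod 2))))
      (LinearMap.snd (ZMod 2) s.U (ZMod 2)), LinearMap.prod ff t2, ?_, ?_, ?_,
      B :: (A + B) :: A :: L, ?_, ?_⟩
    · intro x hx
      refine ⟨⟨⟨⟨hx.1, trivial⟩, trivial⟩, ?_⟩, rfl⟩
      change s.y (a + 1) x.1 + s.y (a + 1) x.1 = 0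
      exact hz2 _
    · rintro ⟨⟨u, p⟩, q⟩ hx
      obtain ⟨⟨⟨hu, -⟩, -⟩, hT⟩ := hx
      refine ⟨⟨hu, trivial⟩, ?_⟩
      have hT' : s.y (a + 1) u + p = 0 := hT
      have := hz _ _ hT'
      change (((u, s.y (a + 1) u), q) : V) = ((u, p), q)
      rw [this]
    · intro i x hx
      by_cases hi : i = a + 1
      · subst hi
        rw [hy1]
        change (if a + 1 = a + 1 then LinearMap.snd (ZMod 2) s.U (ZMod 2) else _) x = x.2
        rw [if_pos rfl]
        rfl
      · rw [hy2 i hi]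
        change (if i = a + 1 then LinearMap.snd (ZMod 2) s.U (ZMod 2) else
          (s.y i).comp (LinearMap.fst (ZMod 2) s.U (ZMod 2))) x = _
        rw [if_neg hi]
        rfl
    · exact (List.perm_middle (a := A) (l₁ := [B, A + B]) (l₂ := L))
    · refine List.Forall₂.cons ?_ (List.Forall₂.cons ?_ (List.Forall₂.cons ?_ ?_))
      · intro x _
        change (if a = a + 1 then LinearMap.snd (ZMod 2) s.U (ZMod 2) else
          (s.y a).comp (LinearMap.fst (ZMod 2) s.U (ZMod 2))) x +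
          (if a + 1 = a + 1 then LinearMap.snd (ZMod 2) s.U (ZMod 2) else _) x =
          s.y a x.1 + x.2
        rw [if_pos rfl, if_neg hza]
        rfl
      · intro x _
        change s.y (a + 1) x.1 + x.2 = s.y (a + 1) x.1 + s.y a x.1 + (s.y a x.1 + x.2)
        generalize s.y (a + 1) x.1 = p
        generalize s.y a x.1 = q
        generalize x.2 = r
        revert p q r; decide
      · intro x _
        change s.y a x.1 + s.y (a + 1) x.1 = s.y (a + 1) x.1 + s.y a x.1
        exact add_comm _ _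
      · exact Q4_forall₂ (P := fun x : s.U × ZMod 2 => x ∈ s.W.prod (⊤ : Submodule (ZMod 2) (ZMod 2)))
          (fun x : s.U × ZMod 2 => (((x.1, s.y (a + 1) x.1), x.2) : V))
          (fun f : Dual (ZMod 2) s.U => f.comp (LinearMap.fst (ZMod 2) s.U (ZMod 2)))
          (fun f : Dual (ZMod 2) s.U => f.comp ff) (fun f x _ => rfl) s.l
  have hpriv : NPriv W2 y2 (A :: B :: L) T := by
    refine ⟨((0, 1), 0), ⟨⟨s.W.zero_mem, trivial⟩, trivial⟩, ?_, ?_, ?_⟩
    · change s.y (a + 1) 0 + 1 = 1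
      rw [map_zero, zero_add]
    · intro f hf
      rw [List.mem_cons, List.mem_cons] at hf
      rcases hf with rfl | rfl | hf
      · change s.y (a + 1) 0 + s.y a 0 = 0
        rw [map_zero, map_zero, zero_add]
      · change s.y a 0 + 0 = 0
        rw [map_zero, zero_add]
      · obtain ⟨g, -, rfl⟩ := List.mem_map.1 hf
        change g 0 = 0
        exact map_zero g
    · intro i
      by_cases hi : i = a + 1
      · subst hi
        rw [hy1]
      · rw [hy2 i hi]
        exact map_zero (s.y i)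
  have h1 := Q4_NIso_le hstar
  have h2 := Q4_NIso_le htri
  exact ⟨(h2.1.trans (net_toDelta hpriv)).trans h1.2,
    (h1.1.trans (net_toY hpriv)).trans h2.2⟩

end H665R2.LV
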