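import Pool.Agent.H665R2.LV.NDefs
import Pool.Agent.H665R2.LV.NB
import Pool.Agent.H665R2.LV.NC
set_option autoImplicit false

/-! Task Q5: deleting a spike, contracting an edge. -/

namespace H665R2.LV

open Module

theorem Q5_net_del {U : Type} [AddCommGroup U] [Module (ZMod 2) U] (W : Submodule (ZMod 2) U)
    (y : ℕ → Dual (ZMod 2) U) (a : Dual (ZMod 2) U) (l : List (Dual (ZMod 2) U)) :
    (⟨U, W, y, l⟩ : Net) ≤ ⟨U, W, y, a :: l⟩ := by
  intro c hc
  exact SDY.del (a := a.comp (LinearMap.fst (ZMod 2) U c.U)) hc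

theorem Q5_net_con {U : Type} [AddCommGroup U] [Module (ZMod 2) U] (W : Submodule (ZMod 2) U)
    (y : ℕ → Dual (ZMod 2) U) (a : Dual (ZMod 2) U) (l : List (Dual (ZMod 2) U)) :
    (⟨U, W ⊓ LinearMap.ker a, y, l⟩ : Net) ≤ ⟨U, W, y, a :: l⟩ := by
  intro c hc
  have h := SDY.con (a := a.comp (LinearMap.fst (ZMod 2) U c.U)) hc
  have hW : gW (⟨U, W ⊓ LinearMap.ker a, y, l⟩ : Net) c =
      gW (⟨U, W, y, a :: l⟩ : Net) c ⊓ LinearMap.ker (a.comp (LinearMap.fst (ZMod 2) U c.U)) := by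
    ext p
    constructor
    · rintro ⟨h1, h2, h3⟩
      exact ⟨⟨h1.1, h2, h3⟩, h1.2⟩
    · rintro ⟨⟨h1, h2, h3⟩, h4⟩
      exact ⟨⟨h1, h4⟩, h2, h3⟩
  change SDY (gW (⟨U, W ⊓ LinearMap.ker a, y, l⟩ : Net) c) _
  rw [hW]
  exact h

/-- pieces whose boundary potentials agree on the potentials -/
theorem Q5_le_of_y {U : Type} [AddCommGroup U] [Module (ZMod 2) U] (W : Submodule (ZMod 2) U)
    (y y' : ℕ → Dual (ZMod 2) U) (l : List (Dual (ZMod 2) U))
    (h : ∀ i, ∀ x ∈ W, y i x = y' i x) :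
    (⟨U, W, y, l⟩ : Net) ≤ ⟨U, W, y', l⟩ := by
  intro c hc
  have hW : gW (⟨U, W, y, l⟩ : Net) c = gW (⟨U, W, y', l⟩ : Net) c := by
    ext p
    constructor
    · rintro ⟨h1, h2, h3⟩
      exact ⟨h1, h2, fun i => by
        have := h3 i
        change y i p.1 = c.y i p.2 at this
        change y' i p.1 = c.y i p.2
        rw [← this, h i p.1 h1]⟩
    · rintro ⟨h1, h2, h3⟩
      exact ⟨h1, h2, fun i => by
        have := h3 i
        change y' i p.1 = c.y i p.2 at this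
        change y i p.1 = c.y i p.2
        rw [← this, h i p.1 h1]⟩
  have hl : gl (⟨U, W, y, l⟩ : Net) c = gl (⟨U, W, y', l⟩ : Net) c := rfl
  unfold G at hc ⊢
  rw [hW, hl]
  exact hc

theorem q_NF (a : ℕ) (s : Net) : opN a (opF a s) ≤ opS a s := by
  have h : opN a (opF a s) = ⟨s.U × ZMod 2, s.W.prod ⊤, (opS a s).y,
      s.l.map (fun f => f.comp (LinearMap.fst (ZMod 2) s.U (ZMod 2)))⟩ := by
    unfold opN opF opS
    congr 1
    funext j
    dsimp only
    rcases lt_trichotomy j a with hj | hj | hj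
    · rw [if_pos hj, if_pos hj, if_neg hj.ne]
    · subst hj
      rw [if_neg (lt_irrefl _), if_pos rfl, if_pos rfl]
    · rw [if_neg (not_lt.2 hj.le), if_neg hj.ne', if_neg hj.ne',
        if_neg (by omega), show j - 1 + 1 = j by omega]
  rw [h]
  exact Q5_net_del (U := s.U × ZMod 2) (s.W.prod ⊤) (opS a s).y _ _

theorem q_DM (a : ℕ) (s : Net) : opD a (opM a s) ≤ opE a s := by
  refine le_trans ?_ (Q5_net_con (U := s.U) s.W s.y (s.y a + s.y (a + 1)) s.l)
  refine Q5_le_of_y (U := s.U) (s.W ⊓ LinearMap.ker (s.y a + s.y (a + 1))) _ s.y s.l ?_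
  intro i x hx
  change (if i ≤ a then (if i ≤ a then s.y i else s.y (i + 1))
    else (if i - 1 ≤ a then s.y (i - 1) else s.y (i - 1 + 1))) x = s.y i x
  rcases Nat.lt_trichotomy i (a + 1) with hi | hi | hi
  · rw [if_pos (by omega), if_pos (by omega)]
  · subst hi
    rw [if_neg (by omega), if_pos (by omega), show a + 1 - 1 = a from rfl]
    have h1 : s.y a x + s.y (a + 1) x = 0 := hx.2
    have h2 : s.y a x = - s.y (a + 1) x := eq_neg_of_add_eq_zero_left h1
    rw [h2]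
    exact ZMod.neg_eq_self_mod_two _
  · rw [if_neg (by omega), if_neg (by omega), show i - 1 + 1 = i by omega]

end H665R2.LV
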