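import Pool.Agent.H665R2.LV.NDefs
import Pool.Agent.H665R2.LV.Main3
set_option autoImplicit false

namespace H665R2.LV

open Module Polynomial

section sdy

variable {U U' : Type} [AddCommGroup U] [Module (ZMod 2) U] [AddCommGroup U'] [Module (ZMod 2) U']

/-- task A -/
theorem DY.embed (j : U →ₗ[ZMod 2] U') (r : U' →ₗ[ZMod 2] U) (hr : ∀ x, r (j x) = x)
    {W : Submodule (ZMod 2) U} {l : List (Dual (ZMod 2) U)} (h : DY W l) :
    DY (W.map j) (l.map (fun f => f.comp r)) := by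
  sorry

/-- task B -/
theorem SDY.iso {W : Submodule (ZMod 2) U} {W' : Submodule (ZMod 2) U'}
    {l : List (Dual (ZMod 2) U)} {l' : List (Dual (ZMod 2) U')} (φ : W ≃ₗ[ZMod 2] W')
    (h : List.Forall₂ (fun f g => ∀ x : W, f x = g (φ x)) l l') (hs : SDY W l) : SDY W' l' := by
  sorry

/-- task B -/
theorem SDY.iso_maps {W : Submodule (ZMod 2) U} {W' : Submodule (ZMod 2) U'}
    {l : List (Dual (ZMod 2) U)} {l' l1 : List (Dual (ZMod 2) U')} (f : U →ₗ[ZMod 2] U')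
    (g : U' →ₗ[ZMod 2] U) (h1 : ∀ x ∈ W, f x ∈ W' ∧ g (f x) = x)
    (h2 : ∀ x ∈ W', g x ∈ W ∧ f (g x) = x)
    (h3 : List.Perm l1 l') (h4 : List.Forall₂ (fun a b => ∀ x ∈ W, a x = b (f x)) l l1)
    (hs : SDY W l) : SDY W' l' := by
  sorry

/-- task B -/
theorem SDY.perm {W : Submodule (ZMod 2) U} {l l' : List (Dual (ZMod 2) U)} (h : l.Perm l')
    (hs : SDY W l) : SDY W l' := by
  sorry

/-- task B -/
theorem SDY.nil [FiniteDimensional (ZMod 2) U] (W : Submodule (ZMod 2) U) : SDY W [] := by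
  sorry

/-- task B -/
theorem SDY.loop {W : Submodule (ZMod 2) U} {l : List (Dual (ZMod 2) U)} {a : Dual (ZMod 2) U}
    (h : Van W a) (hs : SDY W l) : SDY W (a :: l) := by
  sorry

/-- task B -/
theorem SDY.par {W : Submodule (ZMod 2) U} {l : List (Dual (ZMod 2) U)} {a : Dual (ZMod 2) U}
    (hs : SDY W (a :: l)) : SDY W (a :: a :: l) := by
  sorry

/-- task B -/
theorem SDY.del {W : Submodule (ZMod 2) U} {l : List (Dual (ZMod 2) U)} {a : Dual (ZMod 2) U}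
    (hs : SDY W (a :: l)) : SDY W l := by
  sorry

/-- task C -/
theorem SDY.con {W : Submodule (ZMod 2) U} {l : List (Dual (ZMod 2) U)} {a : Dual (ZMod 2) U}
    (hs : SDY W (a :: l)) : SDY (W ⊓ LinearMap.ker a) l := by
  sorry

/-- task C -/
theorem SDY.toDelta {W : Submodule (ZMod 2) U} {l : List (Dual (ZMod 2) U)}
    {t a b : Dual (ZMod 2) U} (h : Priv W (a :: b :: l) t)
    (hs : SDY W (t :: (t + a) :: (t + a + b) :: l)) :
    SDY (W ⊓ LinearMap.ker t) (a :: b :: (a + b) :: l) := by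
  sorry

/-- task D -/
theorem SDY.free {W : Submodule (ZMod 2) U} {l : List (Dual (ZMod 2) U)} {t : Dual (ZMod 2) U}
    (h : Priv W l t) (hs : SDY (W ⊓ LinearMap.ker t) l) : SDY W l := by
  sorry

/-- task D -/
theorem SDY.coloop {W : Submodule (ZMod 2) U} {l : List (Dual (ZMod 2) U)} {t : Dual (ZMod 2) U}
    (h : Priv W l t) (hs : SDY (W ⊓ LinearMap.ker t) l) : SDY W (t :: l) := by
  sorry

/-- task D -/
theorem SDY.series {W : Submodule (ZMod 2) U} {l : List (Dual (ZMod 2) U)}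
    {t a : Dual (ZMod 2) U} (h : Priv W (a :: l) t)
    (hs : SDY (W ⊓ LinearMap.ker t) (a :: l)) : SDY W (t :: (t + a) :: l) := by
  sorry

/-- task D -/
theorem SDY.toY {W : Submodule (ZMod 2) U} {l : List (Dual (ZMod 2) U)}
    {t a b : Dual (ZMod 2) U} (h : Priv W (a :: b :: l) t)
    (hs : SDY (W ⊓ LinearMap.ker t) (a :: b :: (a + b) :: l)) :
    SDY W (t :: (t + a) :: (t + a + b) :: l) := by
  sorry

/-- task E -/
theorem SDY.good [FiniteDimensional (ZMod 2) U] {W : Submodule (ZMod 2) U}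
    {l : List (Dual (ZMod 2) U)} (hs : SDY W l) : F W l ∈ I ^ kap W l := by
  sorry

end sdy

section net

/-- task N1 -/
theorem NIso.le {s s' : Net} (h : NIso s s') : s ≤ s' ∧ s' ≤ s := by
  sorry

/-- task N2 -/
theorem G_symm {s c : Net} (h : G s c) : G c s := by
  sorry

/-- task N3 -/
theorem adjE (i : ℕ) (s c : Net) : G (opE i s) c ↔ G s (opE i c) := by
  sorry

/-- task N4 -/
theorem adjS (i : ℕ) (s c : Net) : G (opS i s) c ↔ G s (opS i c) := by
  sorry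

/-- task N5 -/
theorem adjN (i : ℕ) (s c : Net) : G (opN i s) c ↔ G s (opF i c) := by
  sorry

/-- task N6 -/
theorem adjD (i : ℕ) (s c : Net) : G (opD i s) c ↔ G s (opM i c) := by
  sorry

/-- monotonicity (me) -/
theorem opE_mono (i : ℕ) : Monotone (opE i) := by
  intro s s' h c hc
  rw [adjE] at hc ⊢
  exact h _ hc

theorem opS_mono (i : ℕ) : Monotone (opS i) := by
  intro s s' h c hc
  rw [adjS] at hc ⊢
  exact h _ hc

theorem opN_mono (i : ℕ) : Monotone (opN i) := by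
  intro s s' h c hc
  rw [adjN] at hc ⊢
  exact h _ hc

theorem opD_mono (i : ℕ) : Monotone (opD i) := by
  intro s s' h c hc
  rw [adjD] at hc ⊢
  exact h _ hc

theorem opF_mono (i : ℕ) : Monotone (opF i) := by
  intro s s' h c hc
  exact G_symm ((adjN i c s).1 (G_symm (h _ (G_symm ((adjN i c s').2 (G_symm hc))))))

theorem opM_mono (i : ℕ) : Monotone (opM i) := by
  intro s s' h c hc
  exact G_symm ((adjD i c s).1 (G_symm (h _ (G_symm ((adjD i c s').2 (G_symm hc))))))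

variable {U : Type} [AddCommGroup U] [Module (ZMod 2) U]

/-- task R -/
theorem net_par (W : Submodule (ZMod 2) U) (y : ℕ → Dual (ZMod 2) U) (a : Dual (ZMod 2) U)
    (l : List (Dual (ZMod 2) U)) :
    (⟨U, W, y, a :: a :: l⟩ : Net) ≤ ⟨U, W, y, a :: l⟩ := by
  sorry

/-- task R -/
theorem net_del (W : Submodule (ZMod 2) U) (y : ℕ → Dual (ZMod 2) U) (a : Dual (ZMod 2) U)
    (l : List (Dual (ZMod 2) U)) :
    (⟨U, W, y, l⟩ : Net) ≤ ⟨U, W, y, a :: l⟩ := by
  sorry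

/-- task R -/
theorem net_con (W : Submodule (ZMod 2) U) (y : ℕ → Dual (ZMod 2) U) (a : Dual (ZMod 2) U)
    (l : List (Dual (ZMod 2) U)) :
    (⟨U, W ⊓ LinearMap.ker a, y, l⟩ : Net) ≤ ⟨U, W, y, a :: l⟩ := by
  sorry

/-- task R -/
theorem net_free {W : Submodule (ZMod 2) U} {y : ℕ → Dual (ZMod 2) U} {t : Dual (ZMod 2) U}
    {l : List (Dual (ZMod 2) U)} (h : NPriv W y l t) :
    (⟨U, W, y, l⟩ : Net) ≤ ⟨U, W ⊓ LinearMap.ker t, y, l⟩ := by
  sorry

/-- task R -/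
theorem net_coloop {W : Submodule (ZMod 2) U} {y : ℕ → Dual (ZMod 2) U} {t : Dual (ZMod 2) U}
    {l : List (Dual (ZMod 2) U)} (h : NPriv W y l t) :
    (⟨U, W, y, t :: l⟩ : Net) ≤ ⟨U, W ⊓ LinearMap.ker t, y, l⟩ := by
  sorry

/-- task R -/
theorem net_series {W : Submodule (ZMod 2) U} {y : ℕ → Dual (ZMod 2) U} {t a : Dual (ZMod 2) U}
    {l : List (Dual (ZMod 2) U)} (h : NPriv W y (a :: l) t) :
    (⟨U, W, y, t :: (t + a) :: l⟩ : Net) ≤ ⟨U, W ⊓ LinearMap.ker t, y, a :: l⟩ := by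
  sorry

/-- task R -/
theorem net_series' (W : Submodule (ZMod 2) U) (y : ℕ → Dual (ZMod 2) U) (t a : Dual (ZMod 2) U)
    (l : List (Dual (ZMod 2) U)) :
    (⟨U, W ⊓ LinearMap.ker t, y, a :: l⟩ : Net) ≤ ⟨U, W, y, t :: (t + a) :: l⟩ := by
  sorry

/-- task R -/
theorem net_toY {W : Submodule (ZMod 2) U} {y : ℕ → Dual (ZMod 2) U} {t a b : Dual (ZMod 2) U}
    {l : List (Dual (ZMod 2) U)} (h : NPriv W y (a :: b :: l) t) :
    (⟨U, W, y, t :: (t + a) :: (t + a + b) :: l⟩ : Net) ≤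
      ⟨U, W ⊓ LinearMap.ker t, y, a :: b :: (a + b) :: l⟩ := by
  sorry

/-- task R -/
theorem net_toDelta {W : Submodule (ZMod 2) U} {y : ℕ → Dual (ZMod 2) U}
    {t a b : Dual (ZMod 2) U} {l : List (Dual (ZMod 2) U)} (h : NPriv W y (a :: b :: l) t) :
    (⟨U, W ⊓ LinearMap.ker t, y, a :: b :: (a + b) :: l⟩ : Net) ≤
      ⟨U, W, y, t :: (t + a) :: (t + a + b) :: l⟩ := by
  sorry

/-! relations that are isomorphisms -/

/-- task I1 -/
theorem i_SS {a b : ℕ} (h : a < b) (s : Net) : NIso (opS a (opS b s)) (opS b (opS a s)) := by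
  sorry
/-- task I1 -/
theorem i_SE {a b : ℕ} (h : a < b) (s : Net) : NIso (opS a (opE b s)) (opE b (opS a s)) := by
  sorry
/-- task I1 -/
theorem i_ES {a b : ℕ} (h : a + 1 < b) (s : Net) : NIso (opE a (opS b s)) (opS b (opE a s)) := by
  sorry
/-- task I1 -/
theorem i_EE (a b : ℕ) (s : Net) : NIso (opE a (opE b s)) (opE b (opE a s)) := by
  sorry

/-- task I2 -/
theorem i_SN (a : ℕ) (s : Net) : NIso (opS (a + 1) (opN 0 s)) (opN 0 (opS a s)) := by
  sorry
/-- task I2 -/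
theorem i_EN (a : ℕ) (s : Net) : NIso (opE (a + 1) (opN 0 s)) (opN 0 (opE a s)) := by
  sorry
/-- task I2 -/
theorem i_FS (a : ℕ) (s : Net) : NIso (opF 0 (opS (a + 1) s)) (opS a (opF 0 s)) := by
  sorry
/-- task I2 -/
theorem i_FE (a : ℕ) (s : Net) : NIso (opF 0 (opE (a + 1) s)) (opE a (opF 0 s)) := by
  sorry
/-- task I2 -/
theorem i_NN (s : Net) : NIso (opN 0 (opN 0 s)) (opN 1 (opN 0 s)) := by
  sorry

/-- task I3 -/
theorem i_END (s : Net) : NIso (opE 0 (opN 0 s)) (opS 0 (opD 0 s)) := by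
  sorry
/-- task I3 -/
theorem i_SDN (s : Net) : NIso (opS 1 (opD 0 s)) (opE 0 (opN 1 s)) := by
  sorry
/-- task I3 -/
theorem i_FEM (a : ℕ) (s : Net) : NIso (opF a (opE a s)) (opM a (opS a s)) := by
  sorry
/-- task I3 -/
theorem i_MSF (a : ℕ) (s : Net) : NIso (opM a (opS (a + 1) s)) (opF (a + 1) (opE a s)) := by
  sorry
/-- task I3 -/
theorem i_MN (s : Net) : NIso (opM 0 (opN 0 s)) s := by
  sorry

/-! relations that use rules -/

/-- task Q1 -/
theorem q_loop (s : Net) : opF 0 (opN 0 s) ≤ s := by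
  sorry
/-- task Q1 -/
theorem q_SN (s : Net) : opS 0 (opN 0 s) ≤ opN 0 s ∧ opN 0 s ≤ opS 0 (opN 0 s) := by
  sorry
/-- task Q2 -/
theorem q_EE (a : ℕ) (s : Net) : opE a (opE a s) ≤ opE a s ∧ opE a s ≤ opE a (opE a s) := by
  sorry
/-- task Q2 -/
theorem q_SS (a : ℕ) (s : Net) : opS a (opS a s) ≤ opS a s ∧ opS a s ≤ opS a (opS a s) := by
  sorry
/-- task Q3 -/
theorem q_SES (a : ℕ) (s : Net) : opS a (opE a (opS a s)) ≤ opE a (opS a (opE a s)) ∧
    opE a (opS a (opE a s)) ≤ opS a (opE a (opS a s)) := by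
  sorry
/-- task Q4 -/
theorem q_ESE (a : ℕ) (s : Net) : opE a (opS (a + 1) (opE a s)) ≤
      opS (a + 1) (opE a (opS (a + 1) s)) ∧
    opS (a + 1) (opE a (opS (a + 1) s)) ≤ opE a (opS (a + 1) (opE a s)) := by
  sorry
/-- task Q5 -/
theorem q_NF (a : ℕ) (s : Net) : opN a (opF a s) ≤ opS a s := by
  sorry
/-- task Q5 -/
theorem q_DM (a : ℕ) (s : Net) : opD a (opM a s) ≤ opE a s := by
  sorry

end net

end H665R2.LV
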