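import Pool.Agent.H665R2.LV.SwDefs
set_option autoImplicit false

/-! Task W1 of helper665's planar version (by helper747): a new vertex in a sweep. -/

namespace H665R2.LV

open Module Polynomial

section sweepW1

variable {V : Type} [DecidableEq V]

/-- task W1 -/
theorem Sweep.mem {T : Finset V} {Y : List V} {l : List (V × V)} (h : Sweep T Y l) :
    (∀ v ∈ Y, v ∈ T) ∧ ∀ e ∈ l, e.1 ∈ T ∧ e.2 ∈ T := by
  induction h with
  | nil => simp
  | @new T P Q l v hv _ ih =>
    obtain ⟨h1, h2⟩ := ih
    refine ⟨fun u hu => ?_, fun e he => ?_⟩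
    · rw [List.mem_append, List.mem_cons] at hu
      rcases hu with hu | rfl | hu
      · exact Finset.mem_insert_of_mem (h1 u (List.mem_append_left _ hu))
      · exact Finset.mem_insert_self _ _
      · exact Finset.mem_insert_of_mem (h1 u (List.mem_append_right _ hu))
    · exact ⟨Finset.mem_insert_of_mem (h2 e he).1, Finset.mem_insert_of_mem (h2 e he).2⟩
  | @edge T P Q l a b _ ih =>
    obtain ⟨h1, h2⟩ := ih
    refine ⟨h1, fun e he => ?_⟩
    rw [List.mem_cons] at he
    rcases he with rfl | he
    · exact ⟨h1 _ (by simp), h1 _ (by simp)⟩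
    · exact h2 e he
  | @fgt T P Q l a _ ih =>
    obtain ⟨h1, h2⟩ := ih
    refine ⟨fun u hu => h1 u ?_, h2⟩
    rw [List.mem_append] at hu
    rw [List.mem_append, List.mem_cons]
    tauto
  | @dup T P Q l a _ ih =>
    obtain ⟨h1, h2⟩ := ih
    refine ⟨fun u hu => h1 u ?_, h2⟩
    rw [List.mem_append, List.mem_cons, List.mem_cons] at hu
    rw [List.mem_append, List.mem_cons]
    tauto

/-- split off the coordinate `v` -/
def spW1 (v : V) : (V → ZMod 2) →ₗ[ZMod 2] ((V → ZMod 2) × ZMod 2) where
  toFun x := (fun u => if u = v then 0 else x u, x v)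
  map_add' x y := by
    refine Prod.ext ?_ rfl
    funext u
    simp only [Prod.fst_add, Pi.add_apply]
    split_ifs <;> simp
  map_smul' c x := by
    refine Prod.ext ?_ rfl
    funext u
    simp only [Prod.smul_fst, Pi.smul_apply, RingHom.id_apply]
    split_ifs <;> simp

/-- put the coordinate `v` back -/
def bkW1 (v : V) : ((V → ZMod 2) × ZMod 2) →ₗ[ZMod 2] (V → ZMod 2) where
  toFun p := fun u => if u = v then p.2 else p.1 u
  map_add' x y := by
    funext u
    simp only [Prod.fst_add, Prod.snd_add, Pi.add_apply]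
    split_ifs <;> simp
  map_smul' c x := by
    funext u
    simp only [Prod.smul_fst, Prod.smul_snd, Pi.smul_apply, RingHom.id_apply]
    split_ifs <;> simp

theorem spW1_fst (v : V) (x : V → ZMod 2) (u : V) :
    (spW1 v x).1 u = if u = v then 0 else x u := rfl

theorem spW1_snd (v : V) (x : V → ZMod 2) : (spW1 v x).2 = x v := rfl

theorem bkW1_apply (v : V) (p : (V → ZMod 2) × ZMod 2) (u : V) :
    bkW1 v p u = if u = v then p.2 else p.1 u := rfl

theorem getD_spW1 (v : V) (x : V → ZMod 2) (Z : List V) (hZ : ∀ u ∈ Z, u ≠ v) (j : ℕ) :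
    ((Z.map coord).getD j 0 : Dual (ZMod 2) (V → ZMod 2)) x =
      ((Z.map coord).getD j 0 : Dual (ZMod 2) (V → ZMod 2)) (spW1 v x).1 := by
  by_cases hj : j < Z.length
  · have hj' : j < (Z.map (coord : V → Dual (ZMod 2) (V → ZMod 2))).length := by
      rw [List.length_map]; exact hj
    rw [List.getD_eq_getElem _ _ hj', List.getElem_map]
    change x Z[j] = (spW1 v x).1 Z[j]
    rw [spW1_fst, if_neg (hZ _ (List.getElem_mem hj))]
  · have hj' : (Z.map (coord : V → Dual (ZMod 2) (V → ZMod 2))).length ≤ j := by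
      rw [List.length_map]; omega
    rw [List.getD_eq_default _ _ hj']
    simp

theorem bdry_W1 {P Q : List V} {v : V} (hP : ∀ u ∈ P ++ Q, u ≠ v) (j : ℕ) (x : V → ZMod 2) :
    (((P ++ v :: Q).map coord).getD j 0 : Dual (ZMod 2) (V → ZMod 2)) x =
      (if j < P.length then
        ((((P ++ Q).map coord).getD j 0 : Dual (ZMod 2) (V → ZMod 2)).comp
          (LinearMap.fst (ZMod 2) (V → ZMod 2) (ZMod 2)))
      else if j = P.length then LinearMap.snd (ZMod 2) (V → ZMod 2) (ZMod 2)
      else ((((P ++ Q).map coord).getD (j - 1) 0 : Dual (ZMod 2) (V → ZMod 2)).comp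
          (LinearMap.fst (ZMod 2) (V → ZMod 2) (ZMod 2)))) (spW1 v x) := by
  have hlen : (P.map (coord : V → Dual (ZMod 2) (V → ZMod 2))).length = P.length :=
    List.length_map _
  split_ifs with h1 h2
  · rw [LinearMap.comp_apply, LinearMap.fst_apply, ← getD_spW1 v x (P ++ Q) hP j, List.map_append,
      List.map_append, List.getD_append _ _ _ _ (by rw [hlen]; exact h1),
      List.getD_append _ _ _ _ (by rw [hlen]; exact h1)]
  · subst h2
    rw [LinearMap.snd_apply, spW1_snd, List.map_append,
      List.getD_append_right _ _ _ _ (by rw [hlen]), hlen, Nat.sub_self, List.map_cons,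
      List.getD_cons_zero]
    rfl
  · rw [LinearMap.comp_apply, LinearMap.fst_apply, ← getD_spW1 v x (P ++ Q) hP (j - 1),
      List.map_append, List.map_append, List.getD_append_right _ _ _ _ (by rw [hlen]; omega),
      List.getD_append_right _ _ _ _ (by rw [hlen]; omega), hlen, List.map_cons]
    have e : j - P.length = (j - 1 - P.length) + 1 := by omega
    rw [e, List.getD_cons_succ]

/-- task W1 -/
theorem sw_new {T : Finset V} {P Q : List V} {l : List (V × V)} {v : V} (hv : v ∉ T)
    (hY : ∀ u ∈ P ++ Q, u ∈ T) (hl : ∀ e ∈ l, e.1 ∈ T ∧ e.2 ∈ T) :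
    NIso (swNet (insert v T) (P ++ v :: Q) l) (opN P.length (swNet T (P ++ Q) l)) := by
  have hne : ∀ u ∈ T, u ≠ v := fun u hu h => hv (h ▸ hu)
  refine ⟨spW1 v, bkW1 v, ?_, ?_, ?_, ?_⟩
  · intro x hx
    have hx' : ∀ u, u ∉ insert v T → (x : V → ZMod 2) u = 0 := hx
    refine ⟨⟨?_, trivial⟩, ?_⟩
    · intro u hu
      change (if u = v then (0 : ZMod 2) else (x : V → ZMod 2) u) = 0
      split_ifs with h
      · rfl
      · exact hx' u (by rw [Finset.mem_insert]; tauto)
    · funext u
      change (if u = v then (x : V → ZMod 2) v else if u = v then (0 : ZMod 2) else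
        (x : V → ZMod 2) u) = (x : V → ZMod 2) u
      split_ifs with h
      · rw [h]
      · rfl
  · intro x hx
    have hx' : ∀ u, u ∉ T → (x : (V → ZMod 2) × ZMod 2).1 u = 0 := hx.1
    refine ⟨?_, ?_⟩
    · intro u hu
      change (if u = v then (x : (V → ZMod 2) × ZMod 2).2 else
        (x : (V → ZMod 2) × ZMod 2).1 u) = 0
      rw [Finset.mem_insert, not_or] at hu
      rw [if_neg hu.1]
      exact hx' u hu.2
    · refine Prod.ext ?_ ?_
      · funext u
        change (if u = v then (0 : ZMod 2) else if u = v then (x : (V → ZMod 2) × ZMod 2).2 else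
          (x : (V → ZMod 2) × ZMod 2).1 u) = (x : (V → ZMod 2) × ZMod 2).1 u
        split_ifs with h
        · rw [h]
          exact (hx' v hv).symm
        · rfl
      · change (if v = v then (x : (V → ZMod 2) × ZMod 2).2 else
          (x : (V → ZMod 2) × ZMod 2).1 v) = (x : (V → ZMod 2) × ZMod 2).2
        rw [if_pos rfl]
  · intro j x _
    exact bdry_W1 (fun u hu => hne u (hY u hu)) j x
  · refine ⟨_, List.Perm.refl _, ?_⟩
    have : List.Forall₂ (fun (a : Dual (ZMod 2) (V → ZMod 2))
        (b : Dual (ZMod 2) ((V → ZMod 2) × ZMod 2)) => ∀ x ∈ WT (insert v T), a x = b (spW1 v x))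
        (l.map efn) ((l.map efn).map
          (fun f => f.comp (LinearMap.fst (ZMod 2) (V → ZMod 2) (ZMod 2)))) := by
      rw [List.map_map, List.forall₂_map_left_iff, List.forall₂_map_right_iff]
      refine List.forall₂_same.2 fun e he x _ => ?_
      change x e.1 + x e.2 = (spW1 v x).1 e.1 + (spW1 v x).1 e.2
      rw [spW1_fst, spW1_fst, if_neg (hne _ (hl e he).1), if_neg (hne _ (hl e he).2)]
    exact this

end sweepW1

end H665R2.LV
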