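import Pool.Agent.H665R2.LV.SwDefs
set_option autoImplicit false

/-! Task W2: moves of the sweep that do not change the potentials. -/

namespace H665R2.LV

open Module

variable {V : Type}

theorem W2_getD (P R : List V) (j : ℕ) :
    ((P ++ R).map coord).getD j 0 =
      if j < P.length then (P.map coord).getD j 0 else (R.map coord).getD (j - P.length) 0 := by
  rw [List.map_append]
  split_ifs with h
  · rw [List.getD_append _ _ _ _ (by simpa using h)]
  · rw [List.getD_append_right _ _ _ _ (by simpa using h), List.length_map]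


variable [DecidableEq V]

/-- task W2 -/
theorem sw_edge (T : Finset V) (P Q : List V) (l : List (V × V)) (a b : V) :
    NIso (swNet T (P ++ a :: b :: Q) ((a, b) :: l))
      (opE P.length (swNet T (P ++ a :: b :: Q) l)) := by
  refine ⟨LinearMap.id, LinearMap.id, fun x hx => ⟨hx, rfl⟩, fun x hx => ⟨hx, rfl⟩,
    fun i x _ => rfl, _, List.Perm.refl _, ?_⟩
  have h1 : ((P ++ a :: b :: Q).map coord).getD P.length 0 = coord a := by
    rw [W2_getD, if_neg (lt_irrefl _), Nat.sub_self]
    rfl
  have h2 : ((P ++ a :: b :: Q).map coord).getD (P.length + 1) 0 = coord b := by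
    rw [W2_getD, if_neg (by omega), Nat.add_sub_cancel_left]
    rfl
  refine List.Forall₂.cons ?_ ?_
  · intro x _
    change (coord a + coord b) x = (((P ++ a :: b :: Q).map coord).getD P.length 0 +
      ((P ++ a :: b :: Q).map coord).getD (P.length + 1) 0) x
    rw [h1, h2]
  · exact List.forall₂_same.2 fun f _ x _ => rfl

/-- task W2 -/
theorem sw_fgt (T : Finset V) (P Q : List V) (l : List (V × V)) (a : V) :
    NIso (swNet T (P ++ Q) l) (opF P.length (swNet T (P ++ a :: Q) l)) := by
  refine ⟨LinearMap.id, LinearMap.id, fun x hx => ⟨hx, rfl⟩, fun x hx => ⟨hx, rfl⟩,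
    ?_, _, List.Perm.refl _, List.forall₂_same.2 fun f _ x _ => rfl⟩
  intro i x _
  have h : ((P ++ Q).map coord).getD i 0 = if i < P.length then
      ((P ++ a :: Q).map coord).getD i 0 else ((P ++ a :: Q).map coord).getD (i + 1) 0 := by
    rw [W2_getD, W2_getD, W2_getD]
    by_cases hi : i < P.length
    · simp only [if_pos hi]
    · have hi2 : ¬ i + 1 < P.length := by omega
      simp only [if_neg hi, if_neg hi2]
      have : i + 1 - P.length = (i - P.length) + 1 := by omega
      rw [this, List.map_cons, List.getD_cons_succ]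
  change (((P ++ Q).map coord).getD i 0) x = (if i < P.length then
      ((P ++ a :: Q).map coord).getD i 0 else ((P ++ a :: Q).map coord).getD (i + 1) 0) x
  rw [h]

/-- task W2 -/
theorem sw_dup (T : Finset V) (P Q : List V) (l : List (V × V)) (a : V) :
    NIso (swNet T (P ++ a :: a :: Q) l) (opD P.length (swNet T (P ++ a :: Q) l)) := by
  refine ⟨LinearMap.id, LinearMap.id, fun x hx => ⟨hx, rfl⟩, fun x hx => ⟨hx, rfl⟩,
    ?_, _, List.Perm.refl _, List.forall₂_same.2 fun f _ x _ => rfl⟩
  intro i x _
  have h : ((P ++ a :: a :: Q).map coord).getD i 0 = if i ≤ P.length then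
      ((P ++ a :: Q).map coord).getD i 0 else ((P ++ a :: Q).map coord).getD (i - 1) 0 := by
    rw [W2_getD, W2_getD, W2_getD]
    rcases lt_trichotomy i P.length with hi | hi | hi
    · simp only [if_pos hi, if_pos hi.le]
    · subst hi
      simp
    · have h1 : ¬ i < P.length := by omega
      have h2 : ¬ i ≤ P.length := by omega
      have h3 : ¬ i - 1 < P.length := by omega
      simp only [if_neg h1, if_neg h2, if_neg h3]
      have h4 : i - P.length = (i - 1 - P.length) + 1 := by omega
      rw [h4, List.map_cons, List.getD_cons_succ]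
  change (((P ++ a :: a :: Q).map coord).getD i 0) x = (if i ≤ P.length then
      ((P ++ a :: Q).map coord).getD i 0 else ((P ++ a :: Q).map coord).getD (i - 1) 0) x
  rw [h]

end H665R2.LV
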