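import Pool.Agent.H665R2.LV.SwDefs
import Pool.Agent.H665R2.LV.NB
set_option autoImplicit false

/-! Task W3: closing a sweep, the empty sweep. -/

namespace H665R2.LV

open Module

variable {V : Type} [DecidableEq V]

theorem sw_close [Fintype V] {l : List (V × V)} (h : swNet Finset.univ [] l ≤ Net0) :
    SDY (⊤ : Submodule (ZMod 2) (V → ZMod 2)) (l.map efn) := by
  have h0 : G Net0 Net0 := by
    have : SDY (gW Net0 Net0) [] := by
      haveI : FiniteDimensional (ZMod 2) (Net0.U × Net0.U) :=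
        inferInstanceAs (FiniteDimensional (ZMod 2) (PUnit × PUnit))
      exact SDY.nil _
    exact this
  have h1 : SDY (gW (swNet Finset.univ [] l) Net0) (gl (swNet Finset.univ [] l) Net0) :=
    h Net0 h0
  refine SDY.iso_maps (LinearMap.fst (ZMod 2) (V → ZMod 2) PUnit)
    (LinearMap.inl (ZMod 2) (V → ZMod 2) PUnit) ?_ ?_ (List.Perm.refl _) ?_ h1
  · intro x hx
    refine ⟨trivial, ?_⟩
    ext <;> rfl
  · intro x _
    refine ⟨⟨?_, trivial, fun i => ?_⟩, rfl⟩
    · intro v hv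
      exact absurd (Finset.mem_univ v) hv
    · rfl
  · have h2 : gl (swNet Finset.univ [] l) Net0 =
        (l.map efn).map (fun f => f.comp (LinearMap.fst (ZMod 2) (V → ZMod 2) PUnit)) := by
      unfold gl
      exact List.append_nil _
    rw [h2, List.forall₂_map_left_iff]
    rw [List.forall₂_same]
    intro f _ x _
    rfl

theorem sw_nil : swNet (∅ : Finset V) [] [] ≤ Net0 := by
  intro c hc
  refine SDY.iso_maps
    ((0 : PUnit →ₗ[ZMod 2] (V → ZMod 2)).prodMap (LinearMap.id : c.U →ₗ[ZMod 2] c.U))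
    ((0 : (V → ZMod 2) →ₗ[ZMod 2] PUnit).prodMap (LinearMap.id : c.U →ₗ[ZMod 2] c.U))
    ?_ ?_ (List.Perm.refl _) ?_ hc
  · rintro ⟨x, z⟩ ⟨_, k2, k3⟩
    refine ⟨⟨fun v _ => rfl, k2, fun i => ?_⟩, rfl⟩
    have h3 := k3 i
    exact h3
  · rintro ⟨x, z⟩ ⟨k1, k2, k3⟩
    have hx : x = 0 := by
      funext v
      exact k1 v (Finset.notMem_empty v)
    subst hx
    refine ⟨⟨trivial, k2, fun i => ?_⟩, rfl⟩
    have h3 := k3 i
    exact h3
  · have e1 : gl Net0 c = c.l.map (fun f => f.comp (LinearMap.snd (ZMod 2) PUnit c.U)) := rfl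
    have e2 : gl (swNet (∅ : Finset V) [] []) c =
        c.l.map (fun f => f.comp (LinearMap.snd (ZMod 2) (V → ZMod 2) c.U)) := rfl
    rw [e1, e2]
    refine List.forall₂_map_left_iff.2 (List.forall₂_map_right_iff.2 (List.forall₂_same.2 ?_))
    rintro f _ ⟨x, z⟩ _
    rfl

end H665R2.LV
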