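import Pool.Agent.H665R2.LV.NB
set_option autoImplicit false

/-! Stable Delta-Y reducibility of lists with elements in a given list. -/

namespace H665R2.LV

open Module

theorem SDY_W4_app {U : Type} [AddCommGroup U] [Module (ZMod 2) U] {W : Submodule (ZMod 2) U}
    {l : List (Dual (ZMod 2) U)} (h : SDY W l) : ∀ l' : List (Dual (ZMod 2) U),
    (∀ a ∈ l', Van W a ∨ a ∈ l) → SDY W (l' ++ l)
  | [], _ => h
  | a :: l', h' => by
    classical
    have ih := SDY_W4_app h l' fun b hb => h' b (List.mem_cons_of_mem a hb)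
    rcases h' a List.mem_cons_self with ha | ha
    · exact SDY.loop ha ih
    · have h1 : a ∈ l' ++ l := List.mem_append_right l' ha
      have h2 := List.perm_cons_erase h1
      have h3 := SDY.par (SDY.perm h2 ih)
      exact SDY.perm (List.Perm.cons a h2.symm) h3

theorem SDY_W4_del {U : Type} [AddCommGroup U] [Module (ZMod 2) U] {W : Submodule (ZMod 2) U}
    {l' : List (Dual (ZMod 2) U)} : ∀ l : List (Dual (ZMod 2) U), SDY W (l ++ l') → SDY W l'
  | [], h => h
  | _ :: l, h => SDY_W4_del l (SDY.del h)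

theorem sdy_of_mem {U : Type} [AddCommGroup U] [Module (ZMod 2) U] {W : Submodule (ZMod 2) U}
    {l l' : List (Dual (ZMod 2) U)} (h : SDY W l) (h' : ∀ a ∈ l', Van W a ∨ a ∈ l) :
    SDY W l' :=
  SDY_W4_del l (SDY.perm List.perm_append_comm (SDY_W4_app h l' h'))

end H665R2.LV
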