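import Pool.Agent.H665R2.LV.Calc
import Pool.Agent.H665R2.LV.Fin1
import Pool.Agent.H665R2.LV.N1F
import Pool.Agent.H665R2.LV.MQ
import Pool.Agent.H665R2.LV.MB
import Pool.Agent.H665R2.LV.NW3
import Pool.Agent.H665R2.LV.N2
import Pool.Agent.H665R2.LV.N3
import Pool.Agent.H665R2.LV.N4
import Pool.Agent.H665R2.LV.N5
import Pool.Agent.H665R2.LV.NA
import Pool.Agent.H665R2.LV.NB
import Pool.Agent.H665R2.LV.NC
import Pool.Agent.H665R2.LV.ND
import Pool.Agent.H665R2.LV.NE
import Pool.Agent.H665R2.LV.NR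
import Pool.Agent.H665R2.LV.NI1
import Pool.Agent.H665R2.LV.NI2
import Pool.Agent.H665R2.LV.NI3
import Pool.Agent.H665R2.LV.NW1
import Pool.Agent.H665R2.LV.NW2
import Pool.Agent.H665R2.LV.NW4
import Pool.Agent.H665R2.LV.NB1
import Pool.Agent.H665R2.LV.NB2
import Pool.Agent.H665R2.LV.NB3
import Pool.Agent.H665R2.LV.NB4
import Pool.Agent.H665R2.LV.NB5
import Pool.Agent.H665R2.LV.NB8
import Pool.Agent.H665R2.LV.NB9
import Pool.Agent.H665R2.LV.NC1
import Pool.Agent.H665R2.LV.NC2
set_option autoImplicit false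

/-! Assembly of the planar case. -/

namespace H665R2.LV

open Module Polynomial

theorem opE_mono (i : ℕ) : Monotone (opE i) := by
  intro s s' h c hc
  rw [adjE] at hc ⊢
  exact h _ hc

theorem opS_mono (i : ℕ) : Monotone (opS i) := by
  intro s s' h c hc
  rw [adjS] at hc ⊢
  exact h _ hc

theorem opN_mono (i : ℕ) : Monotone (opN i) := by
  intro s s' h c hc
  rw [adjN] at hc ⊢
  exact h _ hc

theorem opD_mono (i : ℕ) : Monotone (opD i) := by
  intro s s' h c hc
  rw [adjD] at hc ⊢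
  exact h _ hc

theorem opF_mono (i : ℕ) : Monotone (opF i) := by
  intro s s' h c hc
  exact G_symm ((adjN i c s).1 (G_symm (h _ (G_symm ((adjN i c s').2 (G_symm hc))))))

theorem opM_mono (i : ℕ) : Monotone (opM i) := by
  intro s s' h c hc
  exact G_symm ((adjD i c s).1 (G_symm (h _ (G_symm ((adjD i c s').2 (G_symm hc))))))

theorem sg_mono (i : ℕ) : Monotone (sg i) := by
  intro s s' h
  unfold sg
  split_ifs
  · exact opS_mono _ h
  · exact opE_mono _ h

theorem cup_mono (i : ℕ) : Monotone (cup i) := by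
  intro s s' h
  unfold cup
  split_ifs
  · exact opN_mono _ h
  · exact opD_mono _ h

theorem cap_mono (i : ℕ) : Monotone (cap i) := by
  intro s s' h
  unfold cap
  split_ifs
  · exact opF_mono _ h
  · exact opM_mono _ h

theorem sg_even (a : ℕ) (s : Net) : sg (2 * a) s = opS a s := by
  unfold sg
  rw [if_pos (by omega), Nat.mul_div_cancel_left a (by omega)]

theorem sg_odd (a : ℕ) (s : Net) : sg (2 * a + 1) s = opE a s := by
  unfold sg
  rw [if_neg (by omega), show (2 * a + 1) / 2 = a by omega]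

theorem cup_even (a : ℕ) (s : Net) : cup (2 * a) s = opN a s := by
  unfold cup
  rw [if_pos (by omega), Nat.mul_div_cancel_left a (by omega)]

theorem cup_odd (a : ℕ) (s : Net) : cup (2 * a + 1) s = opD a s := by
  unfold cup
  rw [if_neg (by omega), show (2 * a + 1) / 2 = a by omega]

theorem cap_even (a : ℕ) (s : Net) : cap (2 * a) s = opF a s := by
  unfold cap
  rw [if_pos (by omega), Nat.mul_div_cancel_left a (by omega)]

theorem cap_odd (a : ℕ) (s : Net) : cap (2 * a + 1) s = opM a s := by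
  unfold cap
  rw [if_neg (by omega), show (2 * a + 1) / 2 = a by omega]

/-- equivalence -/
def Eqv (s s' : Net) : Prop := s ≤ s' ∧ s' ≤ s

theorem NIso.eqv {s s' : Net} (h : NIso s s') : Eqv s s' := h.le

theorem eqv_far (i j : ℕ) (s : Net) (h : i + 2 ≤ j) : Eqv (sg i (sg j s)) (sg j (sg i s)) := by
  rcases Nat.even_or_odd' i with ⟨a, ha | ha⟩ <;> rcases Nat.even_or_odd' j with ⟨b, hb | hb⟩ <;>
    subst ha <;> subst hb
  · rw [sg_even, sg_even, sg_even, sg_even]
    exact (i_SS (by omega) s).eqv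
  · rw [sg_even, sg_odd, sg_odd, sg_even]
    exact (i_SE (by omega) s).eqv
  · rw [sg_odd, sg_even, sg_even, sg_odd]
    exact (i_ES (by omega) s).eqv
  · rw [sg_odd, sg_odd, sg_odd, sg_odd]
    exact (i_EE a b s).eqv

theorem eqv_sc (j : ℕ) (s : Net) : Eqv (sg (j + 2) (cup 0 s)) (cup 0 (sg j s)) := by
  rcases Nat.even_or_odd' j with ⟨a, ha | ha⟩ <;> subst ha
  · rw [show 2 * a + 2 = 2 * (a + 1) by ring, sg_even, sg_even, show (0 : ℕ) = 2 * 0 by rfl,
      cup_even, cup_even]
    exact (i_SN a s).eqv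
  · rw [show 2 * a + 1 + 2 = 2 * (a + 1) + 1 by ring, sg_odd, sg_odd, show (0 : ℕ) = 2 * 0 by rfl,
      cup_even, cup_even]
    exact (i_EN a s).eqv

theorem eqv_ks (j : ℕ) (s : Net) : Eqv (cap 0 (sg (j + 2) s)) (sg j (cap 0 s)) := by
  rcases Nat.even_or_odd' j with ⟨a, ha | ha⟩ <;> subst ha
  · rw [show 2 * a + 2 = 2 * (a + 1) by ring, sg_even, sg_even]
    exact (i_FS a s).eqv
  · rw [show 2 * a + 1 + 2 = 2 * (a + 1) + 1 by ring, sg_odd, sg_odd]
    exact (i_FE a s).eqv

theorem eqv_r2 (i : ℕ) (s : Net) : Eqv (sg i (sg i s)) (sg i s) := by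
  rcases Nat.even_or_odd' i with ⟨a, ha | ha⟩ <;> subst ha
  · rw [sg_even, sg_even]
    exact MQ.q_SS a s
  · rw [sg_odd, sg_odd]
    exact MQ.q_EE a s

theorem eqv_r3 (i : ℕ) (s : Net) :
    Eqv (sg i (sg (i + 1) (sg i s))) (sg (i + 1) (sg i (sg (i + 1) s))) := by
  rcases Nat.even_or_odd' i with ⟨a, ha | ha⟩ <;> subst ha
  · simp only [sg_even, sg_odd]
    exact MQ.q_SES a s
  · rw [show 2 * a + 1 + 1 = 2 * (a + 1) by ring]
    simp only [sg_even, sg_odd]
    exact MQ.q_ESE a s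

theorem eqv_s2 (i : ℕ) (s : Net) : Eqv (cap i (sg (i + 1) s)) (cap (i + 1) (sg i s)) := by
  rcases Nat.even_or_odd' i with ⟨a, ha | ha⟩ <;> subst ha
  · rw [sg_even, sg_odd, cap_even, cap_odd]
    exact (i_FEM a s).eqv
  · rw [show 2 * a + 1 + 1 = 2 * (a + 1) by ring, sg_odd, sg_even, cap_even, cap_odd]
    exact (i_MSF a s).eqv

theorem le_e (i : ℕ) (s : Net) : cup i (cap i s) ≤ sg i s := by
  rcases Nat.even_or_odd' i with ⟨a, ha | ha⟩ <;> subst ha
  · rw [sg_even, cup_even, cap_even]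
    exact MQ.q_NF a s
  · rw [sg_odd, cup_odd, cap_odd]
    exact MQ.q_DM a s

/-- the quotient partial order -/
abbrev QN := Antisymmetrization Net (· ≤ ·)

/-- class of a piece -/
def cl (s : Net) : QN := toAntisymmetrization (· ≤ ·) s

theorem cl_le {s s' : Net} : cl s ≤ cl s' ↔ s ≤ s' := Iff.rfl

theorem cl_eq {s s' : Net} (h : Eqv s s') : cl s = cl s' := le_antisymm h.1 h.2

/-- lift of a monotone map -/
def lft (f : ℕ → Net → Net) (hf : ∀ i, Monotone (f i)) (i : ℕ) : QN → QN :=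
  (⟨f i, hf i⟩ : Net →o Net).antisymmetrization

theorem lft_cl (f : ℕ → Net → Net) (hf : ∀ i, Monotone (f i)) (i : ℕ) (s : Net) :
    lft f hf i (cl s) = cl (f i s) := rfl

theorem lft_mono (f : ℕ → Net → Net) (hf : ∀ i, Monotone (f i)) (i : ℕ) :
    Monotone (lft f hf i) := (⟨f i, hf i⟩ : Net →o Net).antisymmetrization.monotone

theorem exists_cl (x : QN) : ∃ s, x = cl s := by
  induction x using Quotient.inductionOn with
  | h s => exact ⟨s, rfl⟩

theorem calc_net : Calc (lft sg sg_mono) (lft cup cup_mono) (lft cap cap_mono) where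
  ms := lft_mono _ _
  mc := lft_mono _ _
  mk' := lft_mono _ _
  far i j x h := by
    obtain ⟨s, rfl⟩ := exists_cl x
    exact cl_eq (eqv_far i j s h)
  sc j x := by
    obtain ⟨s, rfl⟩ := exists_cl x
    exact cl_eq (eqv_sc j s)
  ks j x := by
    obtain ⟨s, rfl⟩ := exists_cl x
    exact cl_eq (eqv_ks j s)
  r1 x := by
    obtain ⟨s, rfl⟩ := exists_cl x
    exact cl_eq (MQ.q_SN s)
  r2 i x := by
    obtain ⟨s, rfl⟩ := exists_cl x
    exact cl_eq (eqv_r2 i s)
  r3 i x := by
    obtain ⟨s, rfl⟩ := exists_cl x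
    exact cl_eq (eqv_r3 i s)
  s1 x := by
    obtain ⟨s, rfl⟩ := exists_cl x
    exact cl_eq (i_END s).eqv
  s1' x := by
    obtain ⟨s, rfl⟩ := exists_cl x
    exact cl_eq (i_SDN s).eqv
  s2 i x := by
    obtain ⟨s, rfl⟩ := exists_cl x
    exact cl_eq (eqv_s2 i s)
  z x := by
    obtain ⟨s, rfl⟩ := exists_cl x
    exact cl_eq (i_MN s).eqv
  cc x := by
    obtain ⟨s, rfl⟩ := exists_cl x
    exact cl_eq (i_NN s).eqv
  loop x := by
    obtain ⟨s, rfl⟩ := exists_cl x
    exact MQ.q_loop s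
  e i x := by
    obtain ⟨s, rfl⟩ := exists_cl x
    exact le_e i s

theorem cl_row (n : ℕ) (s : Net) : cl (row n s) = arow (lft sg sg_mono) n (cl s) := by
  induction n with
  | zero => rfl
  | succ n ih =>
    change cl (sg (n + 1) (row n s)) = lft sg sg_mono (n + 1) (arow (lft sg sg_mono) n (cl s))
    rw [← ih, lft_cl]

theorem cl_Theta (n : ℕ) :
    cl (Theta n) = aTheta (lft sg sg_mono) (lft cup cup_mono) (cl Net0) n := by
  induction n with
  | zero => rfl
  | succ n ih =>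
    change cl (row n (cup 0 (Theta n))) = arow (lft sg sg_mono) n
      (lft cup cup_mono 0 (aTheta (lft sg sg_mono) (lft cup cup_mono) (cl Net0) n))
    rw [← ih, cl_row, lft_cl]

theorem Theta_sg (n i : ℕ) (h : i + 2 ≤ 2 * n) : sg i (Theta n) ≤ Theta n := by
  rw [← cl_le, ← lft_cl sg sg_mono, cl_Theta, calc_net.absorb _ _ _ h]

theorem Theta_cap (n i : ℕ) (h : i ≤ 2 * n) : cap i (Theta (n + 1)) ≤ Theta n := by
  rw [← cl_le, ← lft_cl cap cap_mono, cl_Theta, cl_Theta]
  exact calc_net.cap_le _ _ _ h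

theorem Theta_cup (n i : ℕ) (h : i ≤ 2 * n) : cup i (Theta n) ≤ Theta (n + 1) := by
  rw [← cl_le, ← lft_cl cup cup_mono, cl_Theta, cl_Theta]
  exact calc_net.cup_le _ _ _ h

section sweep

variable {V : Type} [DecidableEq V]

theorem sweep_le {T : Finset V} {Y : List V} {l : List (V × V)} (h : Sweep T Y l) :
    swNet T Y l ≤ Theta Y.length := by
  induction h with
  | nil => exact sw_nil
  | @new T P Q l v hv h ih =>
    have h1 := (sw_new hv h.mem.1 h.mem.2).le.1
    have h2 := opN_mono P.length ih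
    rw [← cup_even] at h2
    have h3 := Theta_cup (P ++ Q).length (2 * P.length) (by simp)
    rw [cup_even] at h3
    have h4 : (P ++ v :: Q).length = (P ++ Q).length + 1 := by simp; ring
    rw [h4]
    exact h1.trans (((opN_mono P.length) ih).trans h3)
  | @edge T P Q l a b h ih =>
    have h1 := (sw_edge T P Q l a b).le.1
    have h3 := Theta_sg (P ++ a :: b :: Q).length (2 * P.length + 1) (by simp; omega)
    rw [sg_odd] at h3
    exact h1.trans (((opE_mono P.length) ih).trans h3)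
  | @fgt T P Q l a h ih =>
    have h1 := (sw_fgt T P Q l a).le.1
    have h4 : (P ++ a :: Q).length = (P ++ Q).length + 1 := by simp; ring
    rw [h4] at ih
    have h3 := Theta_cap (P ++ Q).length (2 * P.length) (by simp)
    rw [cap_even] at h3
    exact h1.trans (((opF_mono P.length) ih).trans h3)
  | @dup T P Q l a h ih =>
    have h1 := (sw_dup T P Q l a).le.1
    have h3 := Theta_cup (P ++ a :: Q).length (2 * P.length + 1) (by simp)
    rw [cup_odd] at h3
    have h4 : (P ++ a :: a :: Q).length = (P ++ a :: Q).length + 1 := by simp; ring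
    rw [h4]
    exact h1.trans (((opD_mono P.length) ih).trans h3)

theorem sweep_sdy [Fintype V] {l : List (V × V)} (h : Sweep (Finset.univ : Finset V) [] l) :
    SDY (⊤ : Submodule (ZMod 2) (V → ZMod 2)) (l.map efn) :=
  sw_close (sweep_le h)

end sweep

theorem planar_sdy {V : Type} [Fintype V] {m : ℕ} {p : V → ℝ × ℝ} {s t : Fin m → V}
    (h : PlaneDrawing p s t) :
    SDY (⊤ : Submodule (ZMod 2) (V → ZMod 2)) (List.ofFn (fun j => efn (s j, t j))) := by
  classical
  obtain ⟨c, hc⟩ := generic_shear h.inj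
  obtain ⟨E, D, hE⟩ := to_drw (shear_drawing h c) hc
  obtain ⟨l, hl, hEl⟩ := MB.inv_all D
  refine sdy_of_mem (sweep_sdy hl) ?_
  intro a ha
  rw [List.mem_ofFn] at ha
  obtain ⟨j, rfl⟩ := ha
  have hsw : ∀ e : V × V, efn e.swap = efn e := fun e => add_comm _ _
  by_cases hj : s j = t j
  · left
    intro x _
    change x (s j) + x (t j) = 0
    rw [hj]
    exact CharTwo.add_self_eq_zero _
  · right
    rw [List.mem_map]
    rcases hE j hj with h1 | h1
    · rcases hEl _ h1 with h2 | h2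
      · exact ⟨_, h2, rfl⟩
      · exact ⟨_, h2, hsw _⟩
    · rcases hEl _ h1 with h2 | h2
      · exact ⟨_, h2, hsw (s j, t j)⟩
      · exact ⟨_, h2, rfl⟩

theorem main_sdy {U : Type} [AddCommGroup U] [Module (ZMod 2) U] [FiniteDimensional (ZMod 2) U]
    (W : Submodule (ZMod 2) U) {m : ℕ}
    (v : Fin m → Dual (ZMod 2) U) (h : SDY W (List.ofFn v)) :
    (∀ j, (2 : ℤ) ^ (finrank (ZMod 2) (bic W v) - j) ∣ ((T W v).comp (X + 1)).coeff j) ∧
    (∀ k, (2 : ℤ) ^ (finrank (ZMod 2) (bic W v) - k) ∣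
      (derivative^[k] (T W v)).eval (-1)) := by
  have h1 := h.good
  rw [mem_I_pow_iff, F_eq_T] at h1
  have h2 := kap_eq W v
  have h3 : rk W v Finset.univ ≤ finrank (ZMod 2) W := by
    have := rk_eq W v Finset.univ
    omega
  have h4 : ∀ j, (2 : ℤ) ^ (finrank (ZMod 2) (bic W v) - j) ∣
      ((T W v).comp (X + 1)).coeff j := by
    intro j
    have h5 := h1 (j + (finrank (ZMod 2) W - rk W v Finset.univ))
    rw [coeff_X_pow_mul] at h5
    have h6 : kap W (List.ofFn v) - (j + (finrank (ZMod 2) W - rk W v Finset.univ)) =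
        finrank (ZMod 2) (bic W v) - j := by omega
    rwa [h6] at h5
  refine ⟨h4, fun k => ?_⟩
  have h7 := deriv_dvd (finrank (ZMod 2) (bic W v)) k ((T W v).comp (X + 1)) h4
  have h8 : ((T W v).comp (X + 1)).comp (X - 1) = T W v := by
    rw [comp_assoc]
    simp
  rwa [h8] at h7

theorem tutte_eq {V : Type} [Fintype V] {m : ℕ} (s t : Fin m → V) :
    T (⊤ : Submodule (ZMod 2) (V → ZMod 2)) (fun j => efn (s j, t j)) = tutteDiag s t := by
  unfold T tutteDiag
  refine Finset.sum_congr rfl fun A _ => ?_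
  rw [rk_graph, rk_graph]

/-- the Las Vergnas conjecture, strong form, for graphs with a straight-line plane drawing -/
theorem planar_main {V : Type} [Fintype V] {m : ℕ} (p : V → ℝ × ℝ) (s t : Fin m → V)
    (h : PlaneDrawing p s t) :
    (∀ j, (2 : ℤ) ^ (bdim s t - j) ∣ ((tutteDiag s t).comp (X + 1)).coeff j) ∧
    (∀ k, (2 : ℤ) ^ (bdim s t - k) ∣ (derivative^[k] (tutteDiag s t)).eval (-1)) := by
  have h1 := main_sdy (⊤ : Submodule (ZMod 2) (V → ZMod 2)) (fun j => efn (s j, t j))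
    (planar_sdy h)
  rw [tutte_eq, bic_graph] at h1
  exact h1

end H665R2.LV
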