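import Pool.Agent.H665R2.LV.Defs
set_option autoImplicit false

namespace H665R2.LV

open Polynomial Module

variable {U : Type} [AddCommGroup U] [Module (ZMod 2) U]

local notation "D" => Module.Dual (ZMod 2)

/-! ## F lemmas -/

/-- F1: invariance under isomorphism -/
theorem F_iso {W W' : Submodule (ZMod 2) U} {l l' : List (D U)} (φ : W ≃ₗ[ZMod 2] W')
    (h : List.Forall₂ (fun f g => ∀ x : W, f x = g (φ x)) l l') : F W l = F W' l' := by
  sorry

/-- F2: invariance under permutation -/
theorem F_perm [FiniteDimensional (ZMod 2) U] {W : Submodule (ZMod 2) U} {l l' : List (D U)}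
    (h : l.Perm l') : F W l = F W l' := by
  sorry

/-- F3: an isolated vertex is a factor `X` -/
theorem F_free [FiniteDimensional (ZMod 2) U] {W : Submodule (ZMod 2) U} {l : List (D U)}
    {t : D U} (h : Priv W l t) : F W l = X * F (W ⊓ LinearMap.ker t) l := by
  sorry

/-! ## kap lemmas -/

/-- K1 -/
theorem kap_iso {W W' : Submodule (ZMod 2) U} {l l' : List (D U)} (φ : W ≃ₗ[ZMod 2] W')
    (h : List.Forall₂ (fun f g => ∀ x : W, f x = g (φ x)) l l') : kap W l = kap W' l' := by
  sorry

/-- K2 -/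
theorem kap_perm {W : Submodule (ZMod 2) U} {l l' : List (D U)} (h : l.Perm l') :
    kap W l = kap W l' := by
  sorry

/-- K3: adding or removing one element changes `kap` by at most one -/
theorem kap_cons [FiniteDimensional (ZMod 2) U] (W : Submodule (ZMod 2) U) (l : List (D U))
    (a : D U) : kap W (a :: l) ≤ kap W l + 1 ∧ kap W l ≤ kap W (a :: l) + 1 := by
  sorry

/-- K4: loops and parallel pairs do not matter -/
theorem kap_loop (W : Submodule (ZMod 2) U) (l : List (D U)) (a : D U) (h : Van W a) :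
    kap W (a :: l) = kap W l := by
  sorry

theorem kap_par (W : Submodule (ZMod 2) U) (l : List (D U)) (a : D U) :
    kap W (a :: a :: l) = kap W l := by
  sorry

/-- K5: restriction to a hyperplane -/
theorem kap_ker [FiniteDimensional (ZMod 2) U] (W : Submodule (ZMod 2) U) (l : List (D U))
    (a : D U) :
    kap W l ≤ kap (W ⊓ LinearMap.ker a) l + 1 ∧ kap (W ⊓ LinearMap.ker a) l ≤ kap W l + 1 := by
  sorry

/-- K6: coloop -/
theorem kap_coloop {W : Submodule (ZMod 2) U} {l : List (D U)} {t : D U} (h : Priv W l t) :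
    kap W (t :: l) = kap (W ⊓ LinearMap.ker t) l := by
  sorry

/-- K7: series pair -/
theorem kap_series [FiniteDimensional (ZMod 2) U] {W : Submodule (ZMod 2) U} {l : List (D U)}
    {t a : D U} (h : Priv W (a :: l) t) (ha : ¬ Van (W ⊓ LinearMap.ker t) a) :
    kap W (t :: (t + a) :: l) ≤ kap (W ⊓ LinearMap.ker t ⊓ LinearMap.ker a) l := by
  sorry

/-- K8: Delta-Y -/
theorem kap_Y {W : Submodule (ZMod 2) U} {l : List (D U)}
    {t a b : D U} (h : Priv W (a :: b :: l) t) :
    kap W (t :: (t + a) :: (t + a + b) :: l) =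
      kap (W ⊓ LinearMap.ker t) (a :: b :: (a + b) :: l) := by
  sorry

/-! ## ideal -/

/-- E1: coefficients of elements of `(2,X)^n` -/
theorem mem_I_pow_iff (n : ℕ) (p : ℤ[X]) :
    p ∈ I ^ n ↔ ∀ j, (2 : ℤ) ^ (n - j) ∣ p.coeff j := by
  sorry

/-! ## final translation -/

/-- E2: `F` as a sum over subsets -/
theorem F_eq_sum [FiniteDimensional (ZMod 2) U] (W : Submodule (ZMod 2) U) (m : ℕ)
    (v : Fin m → D U) :
    F W (List.ofFn v) = ∑ A : Finset (Fin m),
      (X : ℤ[X]) ^ (2 * finrank (ZMod 2) (Wc W (A.toList.map v)) + A.card -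
        finrank (ZMod 2) W) := by
  sorry

end H665R2.LV
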