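import Pool.Agent.H665R2.LV.Defs
set_option autoImplicit false

namespace H665R2.LV

open Polynomial Module

variable {U : Type} [AddCommGroup U] [Module (ZMod 2) U]

/-- rank of a set of elements of the matroid of the functionals `v j` on `W` -/
noncomputable def rk (W : Submodule (ZMod 2) U) {m : ℕ} (v : Fin m → Module.Dual (ZMod 2) U)
    (A : Finset (Fin m)) : ℕ :=
  finrank (ZMod 2) (Submodule.span (ZMod 2) ((fun j => (v j).domRestrict W) '' (A : Set (Fin m))))

/-- the space spanned by the rows of the representing matrix (cut space) -/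
def cutSp (W : Submodule (ZMod 2) U) {m : ℕ} (v : Fin m → Module.Dual (ZMod 2) U) :
    Submodule (ZMod 2) (Fin m → ZMod 2) :=
  Submodule.map (LinearMap.pi v) W

/-- bicycle space: cut space intersected with its orthogonal complement (the cycle space) -/
def bic (W : Submodule (ZMod 2) U) {m : ℕ} (v : Fin m → Module.Dual (ZMod 2) U) :
    Submodule (ZMod 2) (Fin m → ZMod 2) :=
  cutSp W v ⊓ (cutSp W v).orthogonalBilin (Matrix.toBilin' (1 : Matrix (Fin m) (Fin m) (ZMod 2)))

/-- the diagonal Tutte polynomial `T(M; x, x)` -/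
noncomputable def T (W : Submodule (ZMod 2) U) {m : ℕ} (v : Fin m → Module.Dual (ZMod 2) U) :
    ℤ[X] :=
  ∑ A : Finset (Fin m), (X - 1 : ℤ[X]) ^ (rk W v Finset.univ - rk W v A) *
    (X - 1 : ℤ[X]) ^ (A.card - rk W v A)

/-- rank versus common zeros -/
theorem rk_eq [FiniteDimensional (ZMod 2) U] (W : Submodule (ZMod 2) U) {m : ℕ}
    (v : Fin m → Module.Dual (ZMod 2) U) (A : Finset (Fin m)) :
    finrank (ZMod 2) (Wc W (A.toList.map v)) + rk W v A = finrank (ZMod 2) W := by
  sorry

/-- radical versus bicycle space -/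
theorem kap_eq [FiniteDimensional (ZMod 2) U] (W : Submodule (ZMod 2) U) {m : ℕ}
    (v : Fin m → Module.Dual (ZMod 2) U) :
    kap W (List.ofFn v) + rk W v Finset.univ = finrank (ZMod 2) W + finrank (ZMod 2) (bic W v) := by
  sorry

/-- the polynomial part: from coefficients to derivatives -/
theorem deriv_dvd (d k : ℕ) (Q : ℤ[X]) (h : ∀ j, (2 : ℤ) ^ (d - j) ∣ Q.coeff j) :
    (2 : ℤ) ^ (d - k) ∣ ((derivative^[k] (Q.comp (X - 1))).eval (-1)) := by
  sorry

end H665R2.LV
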