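import Pool.Agent.H665R2.LV.NDefs
set_option autoImplicit false

/-! Sweeps of plane drawings. -/

namespace H665R2.LV

open Module

/-- Graphs obtained by a combinatorial sweep: vertices swept so far, current boundary list of
vertices, edges so far. -/
inductive Sweep {V : Type} [DecidableEq V] : Finset V → List V → List (V × V) → Prop
  | nil : Sweep ∅ [] []
  | new {T : Finset V} {P Q : List V} {l : List (V × V)} {v : V} (hv : v ∉ T) :
      Sweep T (P ++ Q) l → Sweep (insert v T) (P ++ v :: Q) l
  | edge {T : Finset V} {P Q : List V} {l : List (V × V)} {a b : V} :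
      Sweep T (P ++ a :: b :: Q) l → Sweep T (P ++ a :: b :: Q) ((a, b) :: l)
  | fgt {T : Finset V} {P Q : List V} {l : List (V × V)} {a : V} :
      Sweep T (P ++ a :: Q) l → Sweep T (P ++ Q) l
  | dup {T : Finset V} {P Q : List V} {l : List (V × V)} {a : V} :
      Sweep T (P ++ a :: Q) l → Sweep T (P ++ a :: a :: Q) l

/-- coordinate functional of a vertex -/
def coord {V : Type} (v : V) : Dual (ZMod 2) (V → ZMod 2) := LinearMap.proj v

/-- functional of an edge: difference of the potentials of its ends -/
def efn {V : Type} (e : V × V) : Dual (ZMod 2) (V → ZMod 2) := coord e.1 + coord e.2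

/-- potentials supported on the swept vertices -/
def WT {V : Type} (T : Finset V) : Submodule (ZMod 2) (V → ZMod 2) where
  carrier := {x | ∀ v, v ∉ T → x v = 0}
  add_mem' := by
    intro x y hx hy v hv
    rw [Pi.add_apply, hx v hv, hy v hv, add_zero]
  zero_mem' := fun _ _ => rfl
  smul_mem' := by
    intro c x hx v hv
    rw [Pi.smul_apply, hx v hv, smul_zero]

/-- the piece of a sweep -/
def swNet {V : Type} (T : Finset V) (Y : List V) (l : List (V × V)) : Net where
  U := V → ZMod 2
  W := WT T
  y := fun j => (Y.map coord).getD j 0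
  l := l.map efn

/-- crossings `1, ..., n` applied one after the other -/
def row : ℕ → Net → Net
  | 0, s => s
  | n + 1, s => sg (n + 1) (row n s)

/-- the empty piece -/
def Net0 : Net where
  U := PUnit
  W := ⊤
  y := fun _ => 0
  l := []

/-- the standard pieces -/
def Theta : ℕ → Net
  | 0 => Net0
  | n + 1 => row n (cup 0 (Theta n))

/-! plane geometry -/

variable {V : Type}

/-- height at abscissa `X` of the line through the ends of `e` -/
noncomputable def hgt (p : V → ℝ × ℝ) (e : V × V) (X : ℝ) : ℝ :=
  (p e.1).2 + (X - (p e.1).1) * (((p e.2).2 - (p e.1).2) / ((p e.2).1 - (p e.1).1))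

/-- `e` is below `e'` over the common part of their open x-intervals -/
def Below (p : V → ℝ × ℝ) (e e' : V × V) : Prop :=
  ∀ X, (p e.1).1 < X → (p e'.1).1 < X → X < (p e.2).1 → X < (p e'.2).1 → hgt p e X < hgt p e' X

/-- plane drawing with vertices at different abscissas, edges directed from left to right -/
structure Drw (p : V → ℝ × ℝ) (E : Finset (V × V)) : Prop where
  inj : ∀ u v, (p u).1 = (p v).1 → u = v
  lr : ∀ e ∈ E, (p e.1).1 < (p e.2).1
  vert : ∀ e ∈ E, ∀ v, (p e.1).1 < (p v).1 → (p v).1 < (p e.2).1 → hgt p e (p v).1 ≠ (p v).2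
  cross : ∀ e ∈ E, ∀ e' ∈ E, e ≠ e' → ∀ X, (p e.1).1 < X → (p e'.1).1 < X →
    X < (p e.2).1 → X < (p e'.2).1 → hgt p e X ≠ hgt p e' X

/-- straight-line plane drawing of the multigraph with edges `s j`, `t j`: different vertices at
different points, no vertex inside an edge, and two edges that do not join the same two vertices
meet only in vertices -/
structure PlaneDrawing {m : ℕ} (p : V → ℝ × ℝ) (s t : Fin m → V) : Prop where
  inj : Function.Injective p
  vert : ∀ j, s j ≠ t j → ∀ v, p v ∈ segment ℝ (p (s j)) (p (t j)) → v = s j ∨ v = t j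
  cross : ∀ j k, s j ≠ t j → s k ≠ t k → ¬ (s j = s k ∧ t j = t k) → ¬ (s j = t k ∧ t j = s k) →
    ∀ z, z ∈ segment ℝ (p (s j)) (p (t j)) → z ∈ segment ℝ (p (s k)) (p (t k)) → ∃ v, z = p v

/-- invariant of the sweep -/
def Inv [DecidableEq V] (p : V → ℝ × ℝ) (E : Finset (V × V)) (T : Finset V) : Prop :=
  ∃ (L l : List (V × V)), (∀ e, e ∈ L ↔ e ∈ E ∧ e.1 ∈ T ∧ e.2 ∉ T) ∧ L.Pairwise (Below p) ∧
    Sweep T (L.map Prod.fst) l ∧ ∀ e ∈ E, e.1 ∈ T → e.2 ∈ T → e ∈ l ∨ e.swap ∈ l

/-- number of connected components of the spanning subgraph with edge set `A` -/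
noncomputable def ncomp {m : ℕ} (s t : Fin m → V) (A : Finset (Fin m)) : ℕ :=
  Nat.card (SimpleGraph.fromRel (fun u v => ∃ j ∈ A, s j = u ∧ t j = v)).ConnectedComponent

/-- rank function of the cycle matroid -/
noncomputable def grk {m : ℕ} (s t : Fin m → V) (A : Finset (Fin m)) : ℕ :=
  Nat.card V - ncomp s t A

open Polynomial in
/-- `T(G; x, x)` -/
noncomputable def tutteDiag {m : ℕ} (s t : Fin m → V) : ℤ[X] :=
  ∑ A : Finset (Fin m), (X - 1 : ℤ[X]) ^ (grk s t Finset.univ - grk s t A) *
    (X - 1 : ℤ[X]) ^ (A.card - grk s t A)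

open Classical in
/-- cycle space: the edge sets in which every vertex has even degree -/
noncomputable def cycSp {m : ℕ} (s t : Fin m → V) : Submodule (ZMod 2) (Fin m → ZMod 2) where
  carrier := {z | ∀ v, ∑ j, z j * ((if s j = v then 1 else 0) + (if t j = v then 1 else 0)) = 0}
  add_mem' := by
    intro x y hx hy v
    have : ∑ j, (x + y) j * ((if s j = v then 1 else 0) + (if t j = v then 1 else 0)) =
        ∑ j, x j * ((if s j = v then 1 else 0) + (if t j = v then 1 else 0)) +
        ∑ j, y j * ((if s j = v then 1 else 0) + (if t j = v then 1 else 0)) := by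
      rw [← Finset.sum_add_distrib]
      exact Finset.sum_congr rfl fun j _ => by rw [Pi.add_apply, add_mul]
    rw [this, hx v, hy v, add_zero]
  zero_mem' := by
    intro v
    simp
  smul_mem' := by
    intro c x hx v
    have : ∑ j, (c • x) j * ((if s j = v then 1 else 0) + (if t j = v then 1 else 0)) =
        c * ∑ j, x j * ((if s j = v then 1 else 0) + (if t j = v then 1 else 0)) := by
      rw [Finset.mul_sum]
      exact Finset.sum_congr rfl fun j _ => by rw [Pi.smul_apply, smul_eq_mul, mul_assoc]
    rw [this, hx v, mul_zero]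

/-- bicycle dimension: dimension of the intersection of the cycle space with its orthogonal
complement -/
noncomputable def bdim {m : ℕ} (s t : Fin m → V) : ℕ :=
  finrank (ZMod 2) ↥(cycSp s t ⊓
    (cycSp s t).orthogonalBilin (Matrix.toBilin' (1 : Matrix (Fin m) (Fin m) (ZMod 2))))

end H665R2.LV
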