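import Pool.Agent.H665R2.LV.SwDefs
import Pool.Agent.H665R2.LV.Fin1
set_option autoImplicit false

namespace H665R2.LV

open Module Polynomial

section sweep

variable {V : Type} [DecidableEq V]

/-- task W1 -/
theorem Sweep.mem {T : Finset V} {Y : List V} {l : List (V × V)} (h : Sweep T Y l) :
    (∀ v ∈ Y, v ∈ T) ∧ ∀ e ∈ l, e.1 ∈ T ∧ e.2 ∈ T := by
  sorry

/-- task W1 -/
theorem sw_new {T : Finset V} {P Q : List V} {l : List (V × V)} {v : V} (hv : v ∉ T)
    (hY : ∀ u ∈ P ++ Q, u ∈ T) (hl : ∀ e ∈ l, e.1 ∈ T ∧ e.2 ∈ T) :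
    NIso (swNet (insert v T) (P ++ v :: Q) l) (opN P.length (swNet T (P ++ Q) l)) := by
  sorry

/-- task W2 -/
theorem sw_edge (T : Finset V) (P Q : List V) (l : List (V × V)) (a b : V) :
    NIso (swNet T (P ++ a :: b :: Q) ((a, b) :: l))
      (opE P.length (swNet T (P ++ a :: b :: Q) l)) := by
  sorry

/-- task W2 -/
theorem sw_fgt (T : Finset V) (P Q : List V) (l : List (V × V)) (a : V) :
    NIso (swNet T (P ++ Q) l) (opF P.length (swNet T (P ++ a :: Q) l)) := by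
  sorry

/-- task W2 -/
theorem sw_dup (T : Finset V) (P Q : List V) (l : List (V × V)) (a : V) :
    NIso (swNet T (P ++ a :: a :: Q) l) (opD P.length (swNet T (P ++ a :: Q) l)) := by
  sorry

/-- task W3 -/
theorem sw_close [Fintype V] {l : List (V × V)} (h : swNet Finset.univ [] l ≤ Net0) :
    SDY (⊤ : Submodule (ZMod 2) (V → ZMod 2)) (l.map efn) := by
  sorry

/-- task W3 -/
theorem sw_nil : swNet (∅ : Finset V) [] [] ≤ Net0 := by
  sorry

/-- task W4 -/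
theorem sdy_of_mem {U : Type} [AddCommGroup U] [Module (ZMod 2) U] {W : Submodule (ZMod 2) U}
    {l l' : List (Dual (ZMod 2) U)} (h : SDY W l) (h' : ∀ a ∈ l', Van W a ∨ a ∈ l) :
    SDY W l' := by
  sorry

/-- task B5 -/
theorem sweep_step {T : Finset V} {P A Q : List V} {l : List (V × V)} {v : V} (hv : v ∉ T)
    (h : Sweep T (P ++ A ++ Q) l) (k : ℕ) :
    ∃ l', Sweep (insert v T) (P ++ List.replicate k v ++ Q) l' ∧ (∀ e ∈ l, e ∈ l') ∧
      ∀ a ∈ A, (v, a) ∈ l' := by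
  sorry

end sweep

section geometry

variable {V : Type}

/-- task B1 -/
theorem below_total {p : V → ℝ × ℝ} {E : Finset (V × V)} (D : Drw p E) {e e' : V × V}
    (he : e ∈ E) (he' : e' ∈ E) (hne : e ≠ e') (X0 : ℝ) (h1 : (p e.1).1 < X0)
    (h2 : (p e'.1).1 < X0) (h3 : X0 < (p e.2).1) (h4 : X0 < (p e'.2).1) :
    Below p e e' ∨ Below p e' e := by
  sorry

/-- task B2 -/
theorem below_right {p : V → ℝ × ℝ} {e e' : V × V} (h : Below p e e') (X : ℝ)
    (h1 : (p e.1).1 < X) (h2 : (p e'.1).1 < X) (h3 : X ≤ (p e.2).1) (h4 : X ≤ (p e'.2).1) :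
    hgt p e X ≤ hgt p e' X := by
  sorry

/-- task B2 -/
theorem below_left {p : V → ℝ × ℝ} {e e' : V × V} (h : Below p e e') (X : ℝ)
    (h1 : (p e.1).1 ≤ X) (h2 : (p e'.1).1 ≤ X) (h3 : X < (p e.2).1) (h4 : X < (p e'.2).1) :
    hgt p e X ≤ hgt p e' X := by
  sorry

/-- task B2 -/
theorem hgt_left (p : V → ℝ × ℝ) (e : V × V) : hgt p e (p e.1).1 = (p e.1).2 := by
  sorry

/-- task B2 -/
theorem hgt_right (p : V → ℝ × ℝ) (e : V × V) (h : (p e.1).1 < (p e.2).1) :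
    hgt p e (p e.2).1 = (p e.2).2 := by
  sorry

/-- task B3 -/
theorem split_key {α : Type} (key : α → ℝ) (c : ℝ) (L : List α)
    (h : L.Pairwise (fun a b => key a ≤ key b)) :
    ∃ P A Q : List α, L = P ++ A ++ Q ∧ (∀ a ∈ P, key a < c) ∧ (∀ a ∈ A, key a = c) ∧
      ∀ a ∈ Q, c < key a := by
  sorry

/-- task B4 -/
theorem sort_out {p : V → ℝ × ℝ} {E : Finset (V × V)} (D : Drw p E) (v : V) :
    ∃ B : List (V × V), (∀ e, e ∈ B ↔ e ∈ E ∧ e.1 = v) ∧ B.Pairwise (Below p) := by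
  sorry

/-- task B6 -/
theorem inv_step [DecidableEq V] {p : V → ℝ × ℝ} {E : Finset (V × V)} (D : Drw p E)
    {T : Finset V} (hT : ∀ u ∈ T, ∀ w, w ∉ T → (p u).1 < (p w).1) {v : V} (hv : v ∉ T)
    (hm : ∀ w, w ∉ T → (p v).1 ≤ (p w).1) (h : Inv p E T) : Inv p E (insert v T) := by
  sorry

/-- task B7 -/
theorem inv_all [DecidableEq V] [Fintype V] {p : V → ℝ × ℝ} {E : Finset (V × V)} (D : Drw p E) :
    ∃ l, Sweep Finset.univ [] l ∧ ∀ e ∈ E, e ∈ l ∨ e.swap ∈ l := by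
  sorry

/-- task B8 -/
theorem generic_shear [Finite V] {p : V → ℝ × ℝ} (hp : Function.Injective p) :
    ∃ c : ℝ, ∀ u v, (p u).1 + c * (p u).2 = (p v).1 + c * (p v).2 → u = v := by
  sorry

/-- task B8 -/
theorem shear_drawing {m : ℕ} {p : V → ℝ × ℝ} {s t : Fin m → V} (h : PlaneDrawing p s t)
    (c : ℝ) : PlaneDrawing (fun v => ((p v).1 + c * (p v).2, (p v).2)) s t := by
  sorry

/-- task B9 -/
theorem to_drw {m : ℕ} {p : V → ℝ × ℝ} {s t : Fin m → V} (h : PlaneDrawing p s t)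
    (hx : ∀ u v, (p u).1 = (p v).1 → u = v) :
    ∃ E : Finset (V × V), Drw p E ∧ ∀ j, s j ≠ t j → (s j, t j) ∈ E ∨ (t j, s j) ∈ E := by
  sorry

end geometry

section graph

variable {V : Type}

/-- task C1 -/
theorem rk_graph [Fintype V] {m : ℕ} (s t : Fin m → V) (A : Finset (Fin m)) :
    rk (⊤ : Submodule (ZMod 2) (V → ZMod 2)) (fun j => efn (s j, t j)) A = grk s t A := by
  sorry

/-- task C2 -/
theorem bic_graph [Fintype V] {m : ℕ} (s t : Fin m → V) :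
    bic (⊤ : Submodule (ZMod 2) (V → ZMod 2)) (fun j => efn (s j, t j)) =
      cycSp s t ⊓
        (cycSp s t).orthogonalBilin (Matrix.toBilin' (1 : Matrix (Fin m) (Fin m) (ZMod 2))) := by
  sorry

end graph

end H665R2.LV
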